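import Pool.Agent.H94.PC.Defs

set_option autoImplicit false

/-!
# The quadratic character of a finite field
-/

namespace Pool.Agent.H94.PC

open Polynomial

section
variable {F : Type} [Field F]

theorem ch_zero : ch (0 : F) = 0 := by simp [ch]

theorem ch_of_sq {a : F} (h0 : a ≠ 0) (h : IsSquare a) : ch a = 1 := by
  unfold ch; rw [if_neg h0, if_pos h]

theorem ch_of_not {a : F} (h : ¬ IsSquare a) : ch a = -1 := by
  have h0 : a ≠ 0 := by rintro rfl; exact h (IsSquare.zero)
  unfold ch; rw [if_neg h0, if_neg h]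

theorem ch_one : ch (1 : F) = 1 := ch_of_sq one_ne_zero IsSquare.one

theorem ch_cases (a : F) : ch a = 0 ∨ ch a = 1 ∨ ch a = -1 := by
  unfold ch; split_ifs <;> simp

theorem ch_cases' {a : F} (ha : a ≠ 0) : ch a = 1 ∨ ch a = -1 := by
  unfold ch; rw [if_neg ha]; split_ifs <;> simp

theorem ch_eq_zero {a : F} : ch a = 0 ↔ a = 0 := by
  constructor
  · intro h
    by_contra h0
    rcases ch_cases' h0 with h1 | h1 <;> rw [h1] at h <;> norm_num at h
  · rintro rfl; exact ch_zero

theorem abs_ch_le (a : F) : |ch a| ≤ 1 := by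
  rcases ch_cases a with h | h | h <;> rw [h] <;> norm_num

theorem ch_sq {a : F} (h : a ≠ 0) : ch (a ^ 2) = 1 :=
  ch_of_sq (pow_ne_zero 2 h) ⟨a, sq a⟩

theorem ch_eq_one_iff {a : F} (ha : a ≠ 0) : ch a = 1 ↔ IsSquare a := by
  constructor
  · intro h
    by_contra hn
    rw [ch_of_not hn] at h; norm_num at h
  · exact ch_of_sq ha

theorem bt_eq_zero_iff {a : F} : bt a = 0 ↔ IsSquare a := by
  unfold bt; split_ifs with h <;> simp [h]

theorem bt_eq_one_iff {a : F} : bt a = 1 ↔ ¬ IsSquare a := by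
  unfold bt; split_ifs with h <;> simp [h]

theorem ch_eq_sg {a : F} (ha : a ≠ 0) : ch a = sg (bt a) := by
  by_cases h : IsSquare a
  · rw [ch_of_sq ha h, bt_eq_zero_iff.2 h, sg_zero]
  · rw [ch_of_not h, bt_eq_one_iff.2 h, sg_one]

theorem sg_inj {a b : ZMod 2} (h : sg a = sg b) : a = b := by
  have h1 : ∀ a b : ZMod 2, (a = 0 ∨ a = 1) ∧ (b = 0 ∨ b = 1) := by decide
  obtain ⟨ha, hb⟩ := h1 a b
  rcases ha with rfl | rfl <;> rcases hb with rfl | rfl <;> simp [sg_zero, sg_one] at h ⊢ <;>
    norm_num at h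

theorem bt_one : bt (1 : F) = 0 := bt_eq_zero_iff.2 IsSquare.one

end

section
variable {F : Type} [Field F] [Finite F]

theorem ch_mul (a b : F) : ch (a * b) = ch a * ch b := by
  classical
  have : Fintype F := Fintype.ofFinite F
  by_cases ha : a = 0
  · rw [ha, zero_mul, ch_zero, zero_mul]
  by_cases hb : b = 0
  · rw [hb, mul_zero, ch_zero, mul_zero]
  have hab := mul_ne_zero ha hb
  have key : ∀ c : F, c ≠ 0 → ch c = (quadraticChar F c : ℝ) := by
    intro c hc
    rcases quadraticChar_dichotomy hc with h | h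
    · rw [h, ch_of_sq hc ((quadraticChar_one_iff_isSquare hc).1 h)]; norm_num
    · rw [h, ch_of_not]
      · norm_num
      · intro hs
        rw [(quadraticChar_one_iff_isSquare hc).2 hs] at h
        norm_num at h
  rw [key _ ha, key _ hb, key _ hab, map_mul]
  push_cast
  rfl

theorem bt_mul {a b : F} (ha : a ≠ 0) (hb : b ≠ 0) : bt (a * b) = bt a + bt b := by
  apply sg_inj
  rw [sg_add, ← ch_eq_sg ha, ← ch_eq_sg hb, ← ch_eq_sg (mul_ne_zero ha hb), ch_mul]

theorem exists_ch_neg (h2 : (2 : F) ≠ 0) : ∃ c : F, ch c = -1 := by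
  have h : ringChar F ≠ 2 := by
    intro h
    apply h2
    have := ringChar.Nat.cast_ringChar (R := F)
    rw [h] at this
    exact_mod_cast this
  obtain ⟨c, hc⟩ := FiniteField.exists_nonsquare h
  exact ⟨c, ch_of_not hc⟩

theorem ch_pow (a : F) (n : ℕ) : ch (a ^ n) = ch a ^ n := by
  induction n with
  | zero => simp [ch_one]
  | succ n ih => rw [pow_succ, ch_mul, ih, pow_succ]

theorem ch_prod {ι : Type*} (s : Finset ι) (f : ι → F) : ch (∏ i ∈ s, f i) = ∏ i ∈ s, ch (f i) := by
  classical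
  induction s using Finset.induction_on with
  | empty => simp [ch_one]
  | insert a s ha ih => rw [Finset.prod_insert ha, Finset.prod_insert ha, ch_mul, ih]

end

end Pool.Agent.H94.PC
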