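import Pool.Agent.H94.PC.Defs

set_option autoImplicit false

/-!
# [H94 PC FACS] Factorization of monic squarefree polynomials

* `prod_pf`: a monic squarefree polynomial is the product of its monic irreducible divisors.
  (Induction on the degree: if `deg D > 0` there is a monic irreducible `P ∣ D`,
  `D = P * D'`, `D'` monic squarefree, `¬ P ∣ D'`, `pf D = insert P (pf D')`.)
* `pf_mul`: a monic irreducible polynomial divides `A B` iff it divides `A` or `B`.
* `om_mul`, `pf_disjoint`: coprime polynomials have no common irreducible divisor.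
* `sq_prod`, `pf_prod`: for a set `s` of monic irreducible polynomials the product is monic and
  squarefree (`Finset.squarefree_prod_of_pairwise_isCoprime` or induction; two different monic
  irreducible polynomials are coprime), and `pf (∏ P ∈ s, P) = s`.
* `pf_irr`: for `P` monic irreducible, `pf P = {P}`.
-/

namespace Pool.Agent.H94.PC

open Polynomial

variable {F : Type} [Field F] [Finite F]

theorem pf_mul {A B : F[X]} (hA : A ≠ 0) (hB : B ≠ 0) [DecidableEq F[X]] :
    pf (A * B) = pf A ∪ pf B := by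
  ext P
  rw [Finset.mem_union, mem_pf (mul_ne_zero hA hB), mem_pf hA, mem_pf hB]
  constructor
  · rintro ⟨h1, h2, h3⟩
    rcases h2.prime.dvd_or_dvd h3 with h | h
    · exact Or.inl ⟨h1, h2, h⟩
    · exact Or.inr ⟨h1, h2, h⟩
  · rintro (⟨h1, h2, h3⟩ | ⟨h1, h2, h3⟩)
    · exact ⟨h1, h2, h3.mul_right B⟩
    · exact ⟨h1, h2, h3.mul_left A⟩

theorem pf_one : pf (1 : F[X]) = ∅ := by
  refine Finset.eq_empty_of_forall_notMem fun P hP => ?_
  obtain ⟨_, h2, h3⟩ := mem_pf' hP
  exact h2.not_isUnit (isUnit_of_dvd_one h3)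

theorem om_one : om (1 : F[X]) = 0 := by
  rw [om, pf_one, Finset.card_empty]

theorem pf_irr {P : F[X]} (hm : P.Monic) (hP : Irreducible P) : pf P = {P} := by
  ext Q
  rw [mem_pf hP.ne_zero, Finset.mem_singleton]
  constructor
  · rintro ⟨h1, h2, h3⟩
    exact eq_of_monic_of_associated h1 hm (h2.associated_of_dvd hP h3)
  · rintro rfl
    exact ⟨hm, hP, dvd_rfl⟩

theorem exists_mem_pf {D : F[X]} (hD : D.Monic) (h1 : D ≠ 1) : ∃ P, P ∈ pf D := by
  obtain ⟨P, hP1, hP2, hP3⟩ := exists_monic_irreducible_factor D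
    (fun h => h1 (hD.eq_one_of_isUnit h))
  exact ⟨P, (mem_pf hD.ne_zero).2 ⟨hP1, hP2, hP3⟩⟩

theorem prod_pf {D : F[X]} (hD : D.Monic) (hs : Squarefree D) : ∏ P ∈ pf D, P = D := by
  classical
  induction hn : D.natDegree using Nat.strong_induction_on generalizing D with
  | _ n ih =>
    by_cases h1 : D = 1
    · rw [h1, pf_one, Finset.prod_empty]
    obtain ⟨P, hP⟩ := exists_mem_pf hD h1
    obtain ⟨hP1, hP2, E, hE⟩ := mem_pf' hP
    have hEm : E.Monic := by
      rw [hE] at hD
      exact hP1.of_mul_monic_left hD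
    rw [hE] at hs
    have hEs : Squarefree E := hs.of_mul_right
    have hPE : ¬ P ∣ E := by
      intro h
      exact hP2.not_isUnit (hs P (mul_dvd_mul_left P h))
    have hdeg : E.natDegree < n := by
      rw [← hn, hE, hP1.natDegree_mul hEm]
      have := hP2.natDegree_pos
      omega
    have h2 := ih E.natDegree hdeg hEm hEs rfl
    rw [hE, pf_mul hP1.ne_zero hEm.ne_zero, pf_irr hP1 hP2, Finset.prod_union, h2,
      Finset.prod_singleton]
    rw [Finset.disjoint_singleton_left]
    exact fun h => hPE (mem_pf' h).2.2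

theorem pf_eq_empty {D : F[X]} (hD : D.Monic) : pf D = ∅ ↔ D = 1 := by
  constructor
  · intro h
    by_contra h1
    obtain ⟨P, hP⟩ := exists_mem_pf hD h1
    rw [h] at hP
    exact Finset.notMem_empty P hP
  · rintro rfl
    exact pf_one

theorem pf_disjoint {A B : F[X]} (h : IsCoprime A B) : Disjoint (pf A) (pf B) := by
  rw [Finset.disjoint_left]
  intro P h1 h2
  exact (mem_pf' h1).2.1.not_isUnit (h.isUnit_of_dvd' (mem_pf' h1).2.2 (mem_pf' h2).2.2)

theorem isCoprime_of_disjoint {A B : F[X]} (hA : A.Monic) (hB : B.Monic)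
    (h : Disjoint (pf A) (pf B)) : IsCoprime A B := by
  refine isCoprime_of_dvd A B (fun h0 => hA.ne_zero h0.1) ?_
  intro z hz _ hzA hzB
  obtain ⟨P, hP1, hP2, hP3⟩ := exists_monic_irreducible_factor z hz
  exact Finset.disjoint_left.1 h ((mem_pf hA.ne_zero).2 ⟨hP1, hP2, hP3.trans hzA⟩)
    ((mem_pf hB.ne_zero).2 ⟨hP1, hP2, hP3.trans hzB⟩)

theorem sum_pf_mul {A B : F[X]} (hA : A.Monic) (hB : B.Monic) (h : IsCoprime A B)
    (f : F[X] → ℝ) : ∑ P ∈ pf (A * B), f P = ∑ P ∈ pf A, f P + ∑ P ∈ pf B, f P := by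
  classical
  rw [pf_mul hA.ne_zero hB.ne_zero, Finset.sum_union (pf_disjoint h)]

theorem prod_pf_mul {A B : F[X]} (hA : A.Monic) (hB : B.Monic) (h : IsCoprime A B)
    (f : F[X] → ℝ) : ∏ P ∈ pf (A * B), f P = (∏ P ∈ pf A, f P) * ∏ P ∈ pf B, f P := by
  classical
  rw [pf_mul hA.ne_zero hB.ne_zero, Finset.prod_union (pf_disjoint h)]

theorem om_mul {A B : F[X]} (hA : A.Monic) (hB : B.Monic) (h : IsCoprime A B) :
    om (A * B) = om A + om B := by
  classical
  rw [om, om, om, pf_mul hA.ne_zero hB.ne_zero, Finset.card_union_of_disjoint (pf_disjoint h)]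

theorem isCoprime_irr {P Q : F[X]} (hP : P.Monic) (hP' : Irreducible P) (hQ : Q.Monic)
    (hQ' : Irreducible Q) (h : P ≠ Q) : IsCoprime P Q := by
  refine isCoprime_of_disjoint hP hQ ?_
  rw [pf_irr hP hP', pf_irr hQ hQ', Finset.disjoint_singleton]
  exact h

theorem monic_prod_irr (s : Finset F[X]) (hs : ∀ P ∈ s, P.Monic ∧ Irreducible P) :
    (∏ P ∈ s, P).Monic :=
  monic_prod_of_monic s (fun P => P) fun P hP => (hs P hP).1

theorem squarefree_prod_irr (s : Finset F[X]) (hs : ∀ P ∈ s, P.Monic ∧ Irreducible P) :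
    Squarefree (∏ P ∈ s, P) := by
  classical
  induction s using Finset.induction_on with
  | empty => rw [Finset.prod_empty]; exact squarefree_one
  | insert P s hP ih =>
    rw [Finset.prod_insert hP, squarefree_mul_iff]
    have h1 := hs P (Finset.mem_insert_self P s)
    refine ⟨?_, h1.2.squarefree, ih fun Q hQ => hs Q (Finset.mem_insert_of_mem hQ)⟩
    refine IsCoprime.isRelPrime ?_
    refine IsCoprime.prod_right fun Q hQ => ?_
    have h2 := hs Q (Finset.mem_insert_of_mem hQ)
    refine isCoprime_irr h1.1 h1.2 h2.1 h2.2 ?_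
    rintro rfl
    exact hP hQ

theorem pf_prod_irr (s : Finset F[X]) (hs : ∀ P ∈ s, P.Monic ∧ Irreducible P) :
    pf (∏ P ∈ s, P) = s := by
  classical
  induction s using Finset.induction_on with
  | empty => rw [Finset.prod_empty, pf_one]
  | insert P s hP ih =>
    have h1 := hs P (Finset.mem_insert_self P s)
    have h2 : ∀ Q ∈ s, Q.Monic ∧ Irreducible Q := fun Q hQ => hs Q (Finset.mem_insert_of_mem hQ)
    rw [Finset.prod_insert hP, pf_mul h1.1.ne_zero (monic_prod_irr s h2).ne_zero, pf_irr h1.1 h1.2,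
      ih h2]
    rfl

theorem natDegree_prod_pf {D : F[X]} (hD : D.Monic) (hs : Squarefree D) :
    ∑ P ∈ pf D, P.natDegree = D.natDegree := by
  conv_rhs => rw [← prod_pf hD hs]
  rw [natDegree_prod_of_monic]
  exact fun P hP => (mem_pf' hP).1

theorem om_prod_finset {ι : Type*} (s : Finset ι) (x : ι → F[X]) (hm : ∀ i, (x i).Monic)
    (hc : Squarefree (∏ i ∈ s, x i)) : om (∏ i ∈ s, x i) = ∑ i ∈ s, om (x i) := by
  classical
  induction s using Finset.induction_on with
  | empty => rw [Finset.prod_empty, Finset.sum_empty, om_one]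
  | insert a s ha ih =>
    rw [Finset.prod_insert ha] at hc ⊢
    rw [squarefree_mul_iff] at hc
    rw [om_mul (hm a) (monic_prod_of_monic s x fun i _ => hm i) hc.1.isCoprime, ih hc.2.2,
      Finset.sum_insert ha]

theorem om_prod {ι : Type*} [Fintype ι] (x : ι → F[X]) (hm : ∀ i, (x i).Monic)
    (hc : Squarefree (∏ i, x i)) : om (∏ i, x i) = ∑ i, om (x i) :=
  om_prod_finset Finset.univ x hm hc

end Pool.Agent.H94.PC
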