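import Pool.Agent.H94.PC.Defs

set_option autoImplicit false

/-!
# [H94 PC PRC] `d * #(Pr F d) ≤ q ^ d`

Every `P ∈ Pr F d` divides `X ^ (q ^ d) - X`: in the field `AdjoinRoot P`, which has `q ^ d`
elements (it is a vector space of dimension `d` over `F`), every element satisfies
`x ^ (q ^ d) = x` (`FiniteField.pow_card` or `FiniteField.pow_card'`), in particular the root,
so `P ∣ X ^ (q ^ d) - X` (`AdjoinRoot.mk_eq_zero`).  The elements of `Pr F d` are pairwise
coprime, so their product divides `X ^ (q ^ d) - X` (`Finset.prod_dvd_of_coprime`), which is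
monic of degree `q ^ d` (`FiniteField.X_pow_card_pow_sub_X_natDegree_eq`; `q ^ d > 1` for
`d ≥ 1`).  Compare degrees.
-/

namespace Pool.Agent.H94.PC

open Polynomial

variable {F : Type} [Field F] [Finite F]

theorem card_Pr_mul_le (d : ℕ) (hd : 1 ≤ d) : d * (Pr F d).card ≤ Nat.card F ^ d := by
  classical
  have hq : 1 < Nat.card F := Finite.one_lt_card
  have hdvd : ∏ P ∈ Pr F d, P ∣ (X ^ (Nat.card F) ^ d - X : F[X]) := by
    apply Finset.prod_dvd_of_coprime
    · intro P hP Q hQ hne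
      have hP' := mem_Pr.1 (Finset.mem_coe.1 hP)
      have hQ' := mem_Pr.1 (Finset.mem_coe.1 hQ)
      show IsCoprime P Q
      rw [hP'.2.2.coprime_iff_not_dvd]
      intro h
      apply hne
      exact eq_of_monic_of_associated hP'.1 hQ'.1 (hP'.2.2.associated_of_dvd hQ'.2.2 h)
    · intro P hP
      have hP' := mem_Pr.1 hP
      exact hP'.2.2.natDegree_dvd_iff_dvd_X_pow_card_pow_sub_X.1 (by rw [hP'.2.1])
  have hne : (X ^ (Nat.card F) ^ d - X : F[X]) ≠ 0 :=
    FiniteField.X_pow_card_pow_sub_X_ne_zero F (by omega) hq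
  have h1 := natDegree_le_of_dvd hdvd hne
  rw [FiniteField.X_pow_card_pow_sub_X_natDegree_eq F (by omega) hq] at h1
  have h2 : (∏ P ∈ Pr F d, P).natDegree = d * (Pr F d).card := by
    rw [natDegree_prod_of_monic _ _ (fun P hP => (mem_Pr.1 hP).1)]
    rw [Finset.sum_congr rfl (fun P hP => (mem_Pr.1 hP).2.1), Finset.sum_const, smul_eq_mul,
      mul_comm]
  rw [h2] at h1
  exact h1

theorem card_Pr_le_div (d : ℕ) (hd : 1 ≤ d) :
    ((Pr F d).card : ℝ) ≤ (Nat.card F : ℝ) ^ d / d := by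
  have h1 := card_Pr_mul_le (F := F) d hd
  have hd0 : (0 : ℝ) < d := by exact_mod_cast hd
  rw [le_div_iff₀ hd0]
  have h2 : ((d * (Pr F d).card : ℕ) : ℝ) ≤ ((Nat.card F ^ d : ℕ) : ℝ) := by exact_mod_cast h1
  push_cast at h2
  linarith

end Pool.Agent.H94.PC
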