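import Pool.Agent.H94.PC.Defs

/-!
# [H94 PC MOD] Monic polynomials: number, products, residues

* `card_Mo`: bijection of `Mo F m` with `Fin m → F` (coefficients); e.g. `f ↦ f - X ^ m` maps
  `Mo F m` bijectively onto `degreeLT F m`, and `degreeLTEquiv`.
* `sum_Mo_mod`: `Mo F m = {N * h + r : h ∈ Mo F (m - d), deg r < d}`, `d = deg N ≤ m`
  (division with remainder by the monic polynomial `N`: `A /ₘ N`, `A %ₘ N`), a bijection
  with `Mo F (m - d) × Lt F d`.
* `sum_Lt_mul`: if `M` and `N` are coprime, `r ↦ (M * r) %ₘ N` is a bijection of `Lt F (deg N)`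
  (injective: `N ∣ M (r - r')` implies `N ∣ r - r'`, which has smaller degree), and `φ` depends
  only on the class modulo `N`.
-/

set_option autoImplicit false

namespace Pool.Agent.H94.PC

open Polynomial

variable {F : Type} [Field F] [Finite F]

theorem finite_Lt (F : Type) [Field F] [Finite F] (d : ℕ) : {f : F[X] | f.degree < d}.Finite := by
  refine (finite_natDegree_le F d).subset ?_
  intro f hf
  have h : f.degree < d := hf
  exact natDegree_le_of_degree_le h.le

/-- the polynomials of degree less than `d` -/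
noncomputable def Lt (F : Type) [Field F] [Finite F] (d : ℕ) : Finset F[X] :=
  (finite_Lt F d).toFinset

theorem mem_Lt {d : ℕ} {f : F[X]} : f ∈ Lt F d ↔ f.degree < d := by
  rw [Lt, Set.Finite.mem_toFinset]; rfl

theorem card_Lt (d : ℕ) : (Lt F d).card = Nat.card F ^ d := by
  have h1 : (Lt F d).card = Set.ncard {f : F[X] | f.degree < d} := by
    rw [Lt, Set.ncard_eq_toFinset_card _ (finite_Lt F d)]
  have h2 : {f : F[X] | f.degree < d} = (degreeLT F d : Set F[X]) := by
    ext f
    rw [SetLike.mem_coe, mem_degreeLT]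
    rfl
  rw [h1, h2, ← Nat.card_coe_set_eq]
  have h3 : Nat.card (degreeLT F d) = Nat.card (Fin d → F) :=
    Nat.card_congr (degreeLTEquiv F d).toEquiv
  have h4 : Nat.card (Fin d → F) = Nat.card F ^ d := by
    rw [Nat.card_fun, Nat.card_fin]
  rw [← h4, ← h3]
  rfl

theorem card_Mo (m : ℕ) : (Mo F m).card = Nat.card F ^ m := by
  rw [← card_Lt (F := F) m]
  refine Finset.card_nbij' (fun f => f - X ^ m) (fun g => X ^ m + g) ?_ ?_ ?_ ?_
  · intro f hf
    have h := mem_Mo.1 (Finset.mem_coe.1 hf)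
    apply Finset.mem_coe.2
    rw [mem_Lt]
    have h0 : f ≠ 0 := h.1.ne_zero
    have h1 : f.degree = (m : WithBot ℕ) := by
      rw [degree_eq_natDegree h0, h.2]
    have h2 : (X ^ m : F[X]).degree = (m : WithBot ℕ) := degree_X_pow m
    have h3 := degree_sub_lt_left (h1.trans h2.symm) h0
      (by rw [h.1.leadingCoeff, (monic_X_pow m).leadingCoeff])
    rw [h1] at h3
    exact h3
  · intro g hg
    have h := mem_Lt.1 (Finset.mem_coe.1 hg)
    apply Finset.mem_coe.2
    rw [mem_Mo]
    refine ⟨monic_X_pow_add h, ?_⟩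
    have h2 : g.degree < (X ^ m : F[X]).degree := by
      rw [degree_X_pow]
      exact h
    rw [natDegree_add_eq_left_of_degree_lt h2, natDegree_X_pow]
  · intro f _
    ring
  · intro g _
    ring

theorem card_Sq_le (m : ℕ) : (Sq F m).card ≤ Nat.card F ^ m := by
  rw [← card_Mo (F := F) m]
  apply Finset.card_le_card
  intro f hf
  have h := mem_Sq.1 hf
  exact mem_Mo.2 ⟨h.1, h.2.1⟩

theorem card_Pr_le (m : ℕ) : (Pr F m).card ≤ Nat.card F ^ m := by
  rw [← card_Mo (F := F) m]
  apply Finset.card_le_card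
  intro f hf
  have h := mem_Pr.1 hf
  exact mem_Mo.2 ⟨h.1, h.2.1⟩

theorem sum_Mo_mod {N : F[X]} (hN : N.Monic) {m : ℕ} (hm : N.natDegree ≤ m) (φ : F[X] → ℝ) :
    ∑ A ∈ Mo F m, φ A = ∑ h ∈ Mo F (m - N.natDegree), ∑ r ∈ Lt F N.natDegree, φ (N * h + r) := by
  rw [← Finset.sum_product' (f := fun h r => φ (N * h + r))]
  have hNd : N.degree = (N.natDegree : WithBot ℕ) := degree_eq_natDegree hN.ne_zero
  refine Finset.sum_nbij' (fun A => (A /ₘ N, A %ₘ N)) (fun x => N * x.1 + x.2) ?_ ?_ ?_ ?_ ?_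
  · intro A hA
    have h := mem_Mo.1 hA
    rw [Finset.mem_product, mem_Mo, mem_Lt]
    have hAd : A.degree = (m : WithBot ℕ) := by
      rw [degree_eq_natDegree h.1.ne_zero, h.2]
    refine ⟨⟨?_, ?_⟩, ?_⟩
    · have hle : N.degree ≤ A.degree := by
        rw [hNd, hAd]
        exact_mod_cast hm
      have := leadingCoeff_divByMonic_of_monic hN hle
      rw [h.1.leadingCoeff] at this
      exact this
    · show (A /ₘ N).natDegree = _
      rw [natDegree_divByMonic A hN, h.2]
    · rw [← hNd]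
      exact degree_modByMonic_lt A hN
  · intro x hx
    rw [Finset.mem_product, mem_Mo, mem_Lt] at hx
    obtain ⟨⟨h1, h2⟩, h3⟩ := hx
    have hP : (N * x.1).Monic := hN.mul h1
    have hd : (N * x.1).natDegree = m := by
      rw [hN.natDegree_mul h1, h2]
      omega
    have hlt : x.2.degree < (N * x.1).degree := by
      rw [degree_eq_natDegree hP.ne_zero, hd]
      refine lt_of_lt_of_le h3 ?_
      exact_mod_cast hm
    rw [mem_Mo]
    refine ⟨hP.add_of_left hlt, ?_⟩
    rw [natDegree_add_eq_left_of_degree_lt hlt, hd]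
  · intro A _
    show N * (A /ₘ N) + A %ₘ N = A
    rw [add_comm]
    exact modByMonic_add_div A N
  · intro x hx
    rw [Finset.mem_product, mem_Mo, mem_Lt] at hx
    have h3 := hx.2
    rw [← hNd] at h3
    have h := div_modByMonic_unique (f := N * x.1 + x.2) x.1 x.2 hN ⟨by ring, h3⟩
    exact Prod.ext h.1 h.2
  · intro A _
    show φ A = φ (N * (A /ₘ N) + A %ₘ N)
    congr 1
    rw [add_comm]
    exact (modByMonic_add_div A N).symm

theorem sum_Lt_mul {N M : F[X]} (hN : N.Monic) (hM : IsCoprime M N) (φ : F[X] → ℝ)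
    (hφ : ∀ A B : F[X], N ∣ A - B → φ A = φ B) :
    ∑ r ∈ Lt F N.natDegree, φ (M * r) = ∑ r ∈ Lt F N.natDegree, φ r := by
  classical
  have hNd : N.degree = (N.natDegree : WithBot ℕ) := degree_eq_natDegree hN.ne_zero
  have hmod : ∀ A : F[X], N ∣ A - A %ₘ N := by
    intro A
    refine ⟨A /ₘ N, ?_⟩
    have := modByMonic_add_div A N
    linear_combination -this
  have hinj : Set.InjOn (fun r => (M * r) %ₘ N) (Lt F N.natDegree : Set F[X]) := by
    intro r hr s hs hrs
    have hr' := mem_Lt.1 (Finset.mem_coe.1 hr)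
    have hs' := mem_Lt.1 (Finset.mem_coe.1 hs)
    have hrs' : (M * r) %ₘ N = (M * s) %ₘ N := hrs
    have h1 : N ∣ M * (r - s) := by
      have h2 := dvd_sub (hmod (M * r)) (hmod (M * s))
      rw [hrs'] at h2
      have h3 : M * r - M * s %ₘ N - (M * s - M * s %ₘ N) = M * (r - s) := by ring
      rwa [h3] at h2
    have h4 : N ∣ r - s := hM.symm.dvd_of_dvd_mul_left h1
    by_contra hne
    have h5 : r - s ≠ 0 := sub_ne_zero.2 hne
    have h6 : N.degree ≤ (r - s).degree := degree_le_of_dvd h4 h5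
    have h7 : (r - s).degree < N.degree := by
      rw [hNd]
      exact lt_of_le_of_lt (degree_sub_le r s) (max_lt hr' hs')
    exact absurd h7 (not_lt.2 h6)
  have himg : (Lt F N.natDegree).image (fun r => (M * r) %ₘ N) = Lt F N.natDegree := by
    apply Finset.eq_of_subset_of_card_le
    · intro r hr
      obtain ⟨s, _, rfl⟩ := Finset.mem_image.1 hr
      rw [mem_Lt, ← hNd]
      exact degree_modByMonic_lt _ hN
    · rw [Finset.card_image_of_injOn hinj]
  calc ∑ r ∈ Lt F N.natDegree, φ (M * r)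
      = ∑ r ∈ Lt F N.natDegree, φ ((M * r) %ₘ N) :=
        Finset.sum_congr rfl fun r _ => hφ _ _ (hmod _)
    _ = ∑ r ∈ (Lt F N.natDegree).image (fun r => (M * r) %ₘ N), φ r :=
        (Finset.sum_image hinj).symm
    _ = _ := by rw [himg]

end Pool.Agent.H94.PC
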