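import Mathlib

set_option autoImplicit false

/-!
# [H94 PC ALT] The rank of an alternating form over `ZMod 2` is even

`alt_card`: for an alternating bilinear form `B` on a finite `ZMod 2`-vector space `V` the order of
`V` is a power of `4` times the order of the radical.  Strong induction on `Nat.card V`.
If `B = 0` then `ker B = ⊤`, `j = 0`.  Otherwise there are `v, w` with `B v w = 1`
(`B v v = 0` gives symmetry: `B v w + B w v = 0`, so `B w v = 1`).  Let
`V' = {u | B u v = 0 ∧ B u w = 0}` (a submodule).  The map `V' × (ZMod 2)² → V`,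
`(u, a, b) ↦ u + a v + b w` is bijective (`u = x + B x w • v + B x v • w`), so
`Nat.card V = 4 * Nat.card V'`; the restriction `B'` of `B` to `V'` is alternating and its radical
is the radical of `B` (if `u ∈ V'` is orthogonal to `V'` it is orthogonal to `v`, `w` too, hence to
`V`; conversely the radical of `B` is contained in `V'`).
-/

namespace Pool.Agent.H94.PC

theorem alt_symm {V : Type} [AddCommGroup V] [Module (ZMod 2) V]
    (B : V →ₗ[ZMod 2] V →ₗ[ZMod 2] ZMod 2) (hB : ∀ v, B v v = 0) (v w : V) :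
    B v w = B w v := by
  have h1 := hB (v + w)
  simp only [map_add, LinearMap.add_apply, hB v, hB w, zero_add, add_zero] at h1
  have h2 : ∀ a b : ZMod 2, a + b = 0 → a = b := by decide
  exact (h2 _ _ h1).symm

/-- the radical of the restriction to the orthogonal complement of a hyperbolic plane -/
theorem alt_ker {V : Type} [AddCommGroup V] [Module (ZMod 2) V]
    (B : V →ₗ[ZMod 2] V →ₗ[ZMod 2] ZMod 2) (hB : ∀ v, B v v = 0) (v w : V) (hvw : B v w = 1)
    (S : Submodule (ZMod 2) V) (hS : ∀ u, u ∈ S ↔ B u v = 0 ∧ B u w = 0) :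
    Nat.card (LinearMap.ker (B.domRestrict₁₂ S S)) = Nat.card (LinearMap.ker B) := by
  have hwv : B w v = 1 := by rw [← alt_symm B hB, hvw]
  have h1 : ∀ x : S, B.domRestrict₁₂ S S x = 0 → B (x : V) = 0 := by
    intro x hx
    ext u
    have h2 : u - (B u w) • v - (B u v) • w ∈ S := by
      rw [hS]
      simp only [map_sub, map_smul, LinearMap.sub_apply, LinearMap.smul_apply, smul_eq_mul, hB v,
        hB w, hvw, hwv]
      constructor <;> ring
    have h3 : B (x : V) (u - (B u w) • v - (B u v) • w) = 0 := by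
      have h4 := congrArg (fun f : S →ₗ[ZMod 2] ZMod 2 => f ⟨_, h2⟩) hx
      exact h4
    rw [map_sub, map_sub, map_smul, map_smul, ((hS x).1 x.2).1, ((hS x).1 x.2).2, smul_zero,
      smul_zero, sub_zero, sub_zero] at h3
    exact h3
  have h2 : ∀ x : V, B x = 0 → x ∈ S := by
    intro x hx
    rw [hS, hx]
    exact ⟨rfl, rfl⟩
  refine Nat.card_congr ⟨fun x => ⟨x.1.1, LinearMap.mem_ker.2 (h1 x.1 (LinearMap.mem_ker.1 x.2))⟩,
    fun x => ⟨⟨x.1, h2 _ (LinearMap.mem_ker.1 x.2)⟩, ?_⟩, fun x => rfl, fun x => rfl⟩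
  rw [LinearMap.mem_ker]
  ext u
  have h3 := LinearMap.mem_ker.1 x.2
  show B x.1 u.1 = 0
  rw [h3]
  rfl

theorem alt_card_aux (n : ℕ) : ∀ {V : Type} [AddCommGroup V] [Module (ZMod 2) V] [Finite V]
    (B : V →ₗ[ZMod 2] V →ₗ[ZMod 2] ZMod 2) (_ : ∀ v, B v v = 0) (_ : Nat.card V = n),
    ∃ j : ℕ, Nat.card V = 4 ^ j * Nat.card (LinearMap.ker B) := by
  induction n using Nat.strong_induction_on with
  | _ n ih =>
    intro V _ _ _ B hB hn
    by_cases h0 : B = 0
    · refine ⟨0, ?_⟩
      rw [h0, LinearMap.ker_zero, pow_zero, one_mul]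
      exact (Nat.card_congr (Equiv.Set.univ V)).symm
    · obtain ⟨v, w, hvw⟩ : ∃ v w, B v w ≠ 0 := by
        by_contra hc
        push Not at hc
        apply h0
        ext v w
        exact hc v w
      have hvw1 : B v w = 1 := by
        have h2 : ∀ a : ZMod 2, a ≠ 0 → a = 1 := by decide
        exact h2 _ hvw
      have hwv : B w v = 1 := by rw [← alt_symm B hB, hvw1]
      let ψ : V →ₗ[ZMod 2] ZMod 2 × ZMod 2 := (B.flip v).prod (B.flip w)
      have hψ : ∀ u, ψ u = (B u v, B u w) := fun u => rfl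
      have hsurj : Function.Surjective ψ := by
        rintro ⟨a, b⟩
        refine ⟨a • w + b • v, ?_⟩
        rw [hψ]
        simp only [map_add, map_smul, LinearMap.add_apply, LinearMap.smul_apply, smul_eq_mul,
          hB v, hB w, hvw1, hwv]
        ext <;> simp
      have hS : ∀ u, u ∈ LinearMap.ker ψ ↔ B u v = 0 ∧ B u w = 0 := by
        intro u
        rw [LinearMap.mem_ker, hψ, Prod.mk_eq_zero]
      have hc1 := Submodule.card_eq_card_quotient_mul_card (LinearMap.ker ψ)
      have hc2 : Nat.card (V ⧸ LinearMap.ker ψ) = 4 := by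
        rw [Nat.card_congr (ψ.quotKerEquivOfSurjective hsurj).toEquiv, Nat.card_prod,
          Nat.card_zmod]
      have hpos : 0 < Nat.card (LinearMap.ker ψ) := Nat.card_pos
      rw [hc2] at hc1
      have hlt : Nat.card (LinearMap.ker ψ) < n := by
        rw [← hn, hc1]
        omega
      obtain ⟨j, hj⟩ := ih _ hlt (B.domRestrict₁₂ (LinearMap.ker ψ) (LinearMap.ker ψ))
        (fun u => hB u.1) rfl
      refine ⟨j + 1, ?_⟩
      rw [alt_ker B hB v w hvw1 _ hS] at hj
      rw [hc1, hj]
      ring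

theorem alt_card {V : Type} [AddCommGroup V] [Module (ZMod 2) V] [Finite V]
    (B : V →ₗ[ZMod 2] V →ₗ[ZMod 2] ZMod 2) (hB : ∀ v, B v v = 0) :
    ∃ j : ℕ, Nat.card V = 4 ^ j * Nat.card (LinearMap.ker B) :=
  alt_card_aux _ B hB rfl

end Pool.Agent.H94.PC
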