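import Pool.Agent.H94.PC.JsA

set_option autoImplicit false

/-!
# [H94 PC JSB] Reciprocity and the supplementary laws for `(A / B)`

* `js_recip`: `resultant_comm` (`Res(B, A) = (-1) ^ (deg B deg A) Res(A, B)`), `ch_mul`, `ch_pow`.
* `js_C`: `resultant_C_right`: `Res(B, C c) = c ^ deg B` (`B.coeff` of degree `natDegree B`
  is `1`, and `natDegree (C c) = 0`), `ch_pow`.
* `js_X`: `X = X - C 0`; `resultant_X_sub_C_right` with `natDegree X = 1` gives
  `Res(B, X - C r) = (-1) ^ deg B * B(r)`; then `ch_mul`, `ch_pow`.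
* `js_X_sub_one`: `X - 1 = X - C 1`, the same.
* `lam_recip`, `lam_X`, `lam_X_sub_one`, `lam_C`: the additive versions; `sg` is injective
  (`sg_inj`), `js_eq_sg`, and `sg (bt (-1) * (deg A * deg B)) = ch (-1) ^ (deg A * deg B)`:
  prove first the lemma `sg (a * (n : ZMod 2)) = sg a ^ n` (induction on `n`, `sg_add`).
  The coprimality hypotheses: `IsCoprime X B` iff `B.eval 0 ≠ 0`.
-/

namespace Pool.Agent.H94.PC

open Polynomial

variable {F : Type} [Field F] [Finite F]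

theorem jsB_coprime_C {c : F} (hc : c ≠ 0) (B : F[X]) : IsCoprime (C c) B :=
  ⟨C c⁻¹, 0, by rw [← C_mul, inv_mul_cancel₀ hc, C_1, zero_mul, add_zero]⟩

theorem jsB_ch_ne {n : ℕ} {x : F} (hx : x ≠ 0) : ch (-1 : F) ^ n * ch x ≠ 0 := by
  refine mul_ne_zero (pow_ne_zero _ ?_) ?_
  · rw [Ne, ch_eq_zero]; exact neg_ne_zero.2 one_ne_zero
  · rw [Ne, ch_eq_zero]; exact hx

theorem js_recip {A B : F[X]} (hA : A.Monic) (hB : B.Monic) :
    js A B = ch (-1 : F) ^ (A.natDegree * B.natDegree) * js B A := by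
  rw [js, js, resultant_comm, ch_mul, ch_pow, mul_comm B.natDegree A.natDegree]

theorem js_C {B : F[X]} (hB : B.Monic) (c : F) : js (C c) B = ch c ^ B.natDegree := by
  rw [js, resultant_C_right, ch_mul, ch_pow, ch_pow, natDegree_C, pow_zero, one_mul]

theorem js_X {B : F[X]} (hB : B.Monic) : js X B = ch (-1 : F) ^ B.natDegree * ch (B.eval 0) := by
  have h1 := resultant_X_sub_C_right B B.natDegree (0 : F) le_rfl
  rw [C_0, sub_zero] at h1
  rw [js, natDegree_X, h1, ch_mul, ch_pow]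

theorem js_X_sub_one {B : F[X]} (hB : B.Monic) :
    js (X - 1) B = ch (-1 : F) ^ B.natDegree * ch (B.eval 1) := by
  have h1 := resultant_X_sub_C_right B B.natDegree (1 : F) le_rfl
  have h2 : natDegree (X - 1 : F[X]) = 1 := by
    have := natDegree_X_sub_C (1 : F)
    rwa [C_1] at this
  rw [C_1] at h1
  rw [js, h2, h1, ch_mul, ch_pow]

theorem sg_mul_natCast (a : ZMod 2) (n : ℕ) : sg (a * (n : ZMod 2)) = sg a ^ n := by
  induction n with
  | zero => rw [Nat.cast_zero, mul_zero, sg_zero, pow_zero]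
  | succ n ih => rw [Nat.cast_succ, mul_add, mul_one, sg_add, ih, pow_succ]

theorem lam_recip {A B : F[X]} (hA : A.Monic) (hB : B.Monic) (h : IsCoprime A B) :
    lam A B = bt (-1 : F) * ((A.natDegree : ZMod 2) * (B.natDegree : ZMod 2)) + lam B A := by
  apply sg_inj
  rw [sg_add, ← js_eq_sg hB h, ← js_eq_sg hA h.symm, js_recip hA hB, ← Nat.cast_mul,
    sg_mul_natCast, ← ch_eq_sg (neg_ne_zero.2 one_ne_zero)]

theorem lam_mul_left {A A' B : F[X]} (hB : B.Monic) (h : IsCoprime A B) (h' : IsCoprime A' B) :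
    lam (A * A') B = lam A B + lam A' B := by
  apply sg_inj
  rw [sg_add, ← js_eq_sg hB h, ← js_eq_sg hB h', ← js_eq_sg hB (h.mul_left h'), js_mul_left hB]

theorem lam_C {B : F[X]} (hB : B.Monic) {c : F} (hc : c ≠ 0) :
    lam (C c) B = bt c * (B.natDegree : ZMod 2) := by
  apply sg_inj
  rw [sg_mul_natCast, ← ch_eq_sg hc, ← js_eq_sg hB (jsB_coprime_C hc B), js_C hB]

theorem lam_X {B : F[X]} (hB : B.Monic) (h : B.eval 0 ≠ 0) :
    lam X B = bt (-1 : F) * (B.natDegree : ZMod 2) + bt (B.eval 0) := by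
  have h1 := jsB_ch_ne (n := B.natDegree) h
  rw [← js_X hB] at h1
  apply sg_inj
  rw [sg_add, sg_mul_natCast, ← ch_eq_sg (neg_ne_zero.2 one_ne_zero), ← ch_eq_sg h,
    ← js_eq_sg hB (by
      by_contra hn
      exact h1 ((js_eq_zero hB).2 hn)), js_X hB]

theorem lam_X_sub_one {B : F[X]} (hB : B.Monic) (h : B.eval 1 ≠ 0) :
    lam (X - 1) B = bt (-1 : F) * (B.natDegree : ZMod 2) + bt (B.eval 1) := by
  have h1 := jsB_ch_ne (n := B.natDegree) h
  rw [← js_X_sub_one hB] at h1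
  apply sg_inj
  rw [sg_add, sg_mul_natCast, ← ch_eq_sg (neg_ne_zero.2 one_ne_zero), ← ch_eq_sg h,
    ← js_eq_sg hB (by
      by_contra hn
      exact h1 ((js_eq_zero hB).2 hn)), js_X_sub_one hB]

end Pool.Agent.H94.PC
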