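import Pool.Agent.H94.PC.Facs

set_option autoImplicit false

/-!
# [H94 PC TUP] Factorizations of squarefree polynomials

For `D` monic squarefree and `v : pf D → κ` the parts are `part D v i = ∏ (P : v P = i), P`.
They are monic, squarefree, pairwise coprime, their product is `D` (`prod_pf`).  Conversely, if
`x : κ → F[X]` are monic with squarefree product `D`, then every prime of `D` divides exactly one
`x i`; let `v P` be this `i`; then `part D v = x` (`prod_pf` for `x i`).  So `(D, v) ↦ part D v` is
a bijection from the pairs with `D ∈ S` to the `x : κ → Mn F n` with product in `S`; this is `tup`.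
(One way: `Finset.sum_sigma'` and `Finset.sum_bij'`, or fix `D` and prove the bijection between
`pf D → κ` and `{x : κ → Mn F n | ∏ x = D}`, then `Finset.sum_fiberwise`-type regrouping.)
-/

namespace Pool.Agent.H94.PC

open Polynomial

variable {F : Type} [Field F] [Finite F] {κ : Type} [Fintype κ] [DecidableEq κ]

/-- the product of the primes of `D` with value `i` -/
noncomputable def part (D : F[X]) (v : pf D → κ) (i : κ) : F[X] :=
  ∏ P : pf D, if v P = i then P.1 else 1

/-- the set of the primes of `D` with value `i` -/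
private noncomputable def tupS (D : F[X]) (v : pf D → κ) (i : κ) : Finset F[X] :=
  (Finset.univ.filter (fun P : pf D => v P = i)).map (Function.Embedding.subtype _)

private theorem tup_mem {D : F[X]} {v : pf D → κ} {i : κ} {P : F[X]} :
    P ∈ tupS D v i ↔ ∃ h : P ∈ pf D, v ⟨P, h⟩ = i := by
  unfold tupS
  rw [Finset.mem_map]
  constructor
  · rintro ⟨Q, hQ, rfl⟩
    rw [Finset.mem_filter] at hQ
    exact ⟨Q.2, hQ.2⟩
  · rintro ⟨h, hv⟩
    exact ⟨⟨P, h⟩, Finset.mem_filter.mpr ⟨Finset.mem_univ _, hv⟩, rfl⟩

private theorem tup_part (D : F[X]) (v : pf D → κ) (i : κ) :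
    part D v i = ∏ P ∈ tupS D v i, P := by
  unfold part tupS
  rw [Finset.prod_map, Finset.prod_filter]
  rfl

private theorem tup_irr (D : F[X]) (v : pf D → κ) (i : κ) :
    ∀ P ∈ tupS D v i, P.Monic ∧ Irreducible P := by
  intro P hP
  obtain ⟨h, _⟩ := tup_mem.mp hP
  exact ⟨(mem_pf' h).1, (mem_pf' h).2.1⟩

private theorem tup_pf (D : F[X]) (v : pf D → κ) (i : κ) :
    pf (part D v i) = tupS D v i := by
  rw [tup_part]
  exact pf_prod_irr _ (tup_irr D v i)

theorem part_monic (D : F[X]) (v : pf D → κ) (i : κ) : (part D v i).Monic := by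
  rw [tup_part]
  exact monic_prod_irr _ (tup_irr D v i)

theorem part_squarefree (D : F[X]) (v : pf D → κ) (i : κ) : Squarefree (part D v i) := by
  rw [tup_part]
  exact squarefree_prod_irr _ (tup_irr D v i)

theorem part_prod {D : F[X]} (hD : D.Monic) (hs : Squarefree D) (v : pf D → κ) :
    ∏ i, part D v i = D := by
  unfold part
  rw [Finset.prod_comm]
  have h1 : ∀ P ∈ (Finset.univ : Finset (pf D)), (∏ i : κ, if v P = i then P.1 else 1) = P.1 := by
    intro P _
    rw [Finset.prod_ite_eq, if_pos (Finset.mem_univ _)]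
  rw [Finset.prod_congr rfl h1]
  have h2 := Finset.prod_coe_sort (pf D) (fun P => P)
  rw [h2]
  exact prod_pf hD hs

theorem part_coprime (D : F[X]) (v : pf D → κ) {i j : κ} (h : i ≠ j) :
    IsCoprime (part D v i) (part D v j) := by
  apply isCoprime_of_disjoint (part_monic D v i) (part_monic D v j)
  rw [tup_pf, tup_pf, Finset.disjoint_left]
  intro P hP hP'
  obtain ⟨h1, h2⟩ := tup_mem.mp hP
  obtain ⟨h3, h4⟩ := tup_mem.mp hP'
  exact h (h2.symm.trans h4)

open Classical in
theorem tup (n : ℕ) (S : Finset F[X])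
    (hS : ∀ D ∈ S, D.Monic ∧ Squarefree D ∧ D.natDegree ≤ n) (G : F[X] → (κ → F[X]) → ℝ) :
    ∑ D ∈ S, ∑ v : pf D → κ, G D (part D v) =
      ∑ x : κ → Mn F n, if (∏ i, (x i).1) ∈ S then G (∏ i, (x i).1) (fun i => (x i).1) else 0 := by
  have hfix : ∀ D ∈ S, ∑ v : pf D → κ, G D (part D v) =
      ∑ x : κ → Mn F n, if (∏ i, (x i).1) = D then G D (fun i => (x i).1) else 0 := by
    intro D hD
    obtain ⟨hm, hs, hn⟩ := hS D hD
    have hD0 : D ≠ 0 := hm.ne_zero
    have hle : ∀ (v : pf D → κ) (i : κ), (part D v i).natDegree ≤ n := by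
      intro v i
      refine le_trans (natDegree_le_of_dvd ?_ hD0) hn
      have h1 : part D v i ∣ ∏ i, part D v i := Finset.dvd_prod_of_mem _ (Finset.mem_univ i)
      rwa [part_prod hm hs v] at h1
    rw [← Finset.sum_filter]
    refine Finset.sum_bij (fun (v : pf D → κ) _ => fun i =>
      (⟨part D v i, part_monic D v i, part_squarefree D v i, hle v i⟩ : Mn F n)) ?_ ?_ ?_ ?_
    · intro v _
      exact Finset.mem_filter.mpr ⟨Finset.mem_univ _, part_prod hm hs v⟩
    · intro v _ w _ hvw
      funext P
      have h1 : part D v (v P) = part D w (v P) := congrArg Subtype.val (congrFun hvw (v P))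
      have h2 : P.1 ∈ tupS D v (v P) := tup_mem.mpr ⟨P.2, rfl⟩
      rw [← tup_pf, h1, tup_pf] at h2
      obtain ⟨_, h3⟩ := tup_mem.mp h2
      exact h3.symm
    · intro x hx
      have hx' : ∏ i, (x i).1 = D := (Finset.mem_filter.mp hx).2
      have hch : ∀ P : pf D, ∃ i, P.1 ∣ (x i).1 := by
        intro P
        have h1 := mem_pf' P.2
        have h2 : P.1 ∣ ∏ i, (x i).1 := by rw [hx']; exact h1.2.2
        obtain ⟨i, _, hi⟩ := (h1.2.1.prime).exists_mem_finset_dvd h2
        exact ⟨i, hi⟩
      choose v hv using hch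
      refine ⟨v, Finset.mem_univ _, ?_⟩
      funext i
      apply Subtype.ext
      show part D v i = (x i).1
      have hxi0 : (x i).1 ≠ 0 := (x i).2.1.ne_zero
      have hset : tupS D v i = pf (x i).1 := by
        apply Finset.ext
        intro P
        constructor
        · intro hP
          obtain ⟨h, hvi⟩ := tup_mem.mp hP
          rw [mem_pf hxi0]
          refine ⟨(mem_pf' h).1, (mem_pf' h).2.1, ?_⟩
          have := hv ⟨P, h⟩
          rwa [hvi] at this
        · intro hP
          have hP' := mem_pf' hP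
          have hPD : P ∈ pf D := by
            rw [mem_pf hD0]
            refine ⟨hP'.1, hP'.2.1, ?_⟩
            rw [← hx']
            exact hP'.2.2.trans (Finset.dvd_prod_of_mem _ (Finset.mem_univ i))
          refine tup_mem.mpr ⟨hPD, ?_⟩
          by_contra hne
          have h1 : P ∣ (x (v ⟨P, hPD⟩)).1 := hv ⟨P, hPD⟩
          have h2 : P * P ∣ D := by
            rw [← hx', ← Finset.mul_prod_erase _ _ (Finset.mem_univ i)]
            apply mul_dvd_mul hP'.2.2
            refine h1.trans ?_
            exact Finset.dvd_prod_of_mem (fun j => (x j).1)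
              (Finset.mem_erase.mpr ⟨hne, Finset.mem_univ _⟩)
          exact hP'.2.1.not_isUnit (hs P h2)
      rw [tup_part, hset]
      exact prod_pf (x i).2.1 (x i).2.2.1
    · intro v _
      rfl
  rw [Finset.sum_congr rfl hfix, Finset.sum_comm]
  apply Finset.sum_congr rfl
  intro x _
  rw [Finset.sum_ite_eq]

end Pool.Agent.H94.PC
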