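import Pool.Agent.H94.PC.JsB

set_option autoImplicit false

/-!
# [H94 PC JSN] The symbol is nontrivial

`exists_js_neg`: let `P` be monic irreducible of degree `d`.  `K = AdjoinRoot P` is a finite field
with `q ^ d` elements (`Fact (Irreducible P)`), `θ` the root.  For `A : F[X]` one has
`resultant P A = Algebra.norm F (A(θ))` (up to nothing: `P` is monic); this can be avoided as
follows.  Let `L` be an algebraic closure (or splitting field) of `K`; the roots of `P` in `L` are
`θ, θ^q, ..., θ^(q^(d-1))` (the Frobenius conjugates), so by `resultant_eq_prod_eval`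
`resultant P A = ∏ A(θ ^ (q ^ i)) = ∏ A(θ) ^ (q ^ i) = A(θ) ^ ((q ^ d - 1) / (q - 1))`.
Take `A` such that `g = A(θ)` generates the cyclic group `Kˣ`.  If `ch (resultant P A) = 1` then
`resultant P A = c ^ 2` with `c : F`, `c ≠ 0`, so
`1 = c ^ (q - 1) = (resultant P A) ^ ((q - 1) / 2) = g ^ ((q ^ d - 1) / 2)`, but `g` has order
`q ^ d - 1`.  So it is `-1` (it is not `0`, since `A(θ) ≠ 0`).
ALTERNATIVE: use `Algebra.norm`: `FiniteField.algebraMap_norm_eq_pow` /
`FiniteField.unitsMap_norm_surjective` (the norm of finite fields is surjective), and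
`Algebra.norm_eq_prod_embeddings` or `PowerBasis`/`AdjoinRoot` lemmas to identify
`resultant P A` with the norm of `A(θ)`; then choose `A(θ)` with norm a nonsquare of `F`
(`exists_ch_neg`).  Another way: the function `A ↦ resultant P A` on the unit group of
`AdjoinRoot P` is multiplicative (`js_congr` type argument); any proof is fine.

`exists_js_neg_of_not_isSquare`: `N` monic, not a square.  There are a monic irreducible `P`,
an odd `e` and `N'` monic with `N = P ^ e * N'`, `¬ P ∣ N'` (otherwise all multiplicities
`emultiplicity P N` are even and `N` is a square: `N` is the product of its monic irreducible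
factors, e.g. strong induction on the degree of `N`: if some monic irreducible `P` divides `N`,
write `N = P ^ e * N'` with `¬ P ∣ N'`, `N'` monic; if `e` is odd we are done; if `e` is even then
`N'` is not a square, has smaller degree, use induction for `N'`, with `P' ∣ N'`, `P' ≠ P`).
Let `ω` be as in the first part for `P`.  As `P` and `N'` are coprime there is `A` with
`P ∣ A - ω` and `N' ∣ A - 1` (`IsCoprime`: `u P + v N' = 1`, `A = ω v N' + u P`).  Then
`js A N = js A P ^ e * js A N' = js ω P ^ e * js 1 N' = (-1) ^ e = -1` by `js_congr`,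
`js_mul_right`.
-/

namespace Pool.Agent.H94.PC

open Polynomial

variable {F : Type} [Field F] [Finite F]

theorem jsN_norm_mk {P : F[X]} (hm : P.Monic) [Fact (Irreducible P)] (A : F[X]) :
    Algebra.norm F (AdjoinRoot.mk P A) = resultant P A := by
  classical
  have : FiniteDimensional F (AdjoinRoot P) := (AdjoinRoot.powerBasis hm.ne_zero).finite
  have hsep : P.Separable := PerfectField.separable_of_irreducible (Fact.out : Irreducible P)
  apply (algebraMap F (AlgebraicClosure F)).injective
  rw [Algebra.norm_eq_prod_embeddings]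
  have hsp : (P.map (algebraMap F (AlgebraicClosure F))).Splits := IsAlgClosed.splits _
  have h1 : algebraMap F (AlgebraicClosure F) (resultant P A)
      = ((P.aroots (AlgebraicClosure F)).map fun x => aeval x A).prod := by
    rw [← resultant_map_map]
    have h2 := resultant_eq_prod_eval (P.map (algebraMap F (AlgebraicClosure F)))
      (A.map (algebraMap F (AlgebraicClosure F))) A.natDegree natDegree_map_le hsp
    rw [natDegree_map] at h2
    rw [h2, (hm.map _).leadingCoeff, one_pow, one_mul]
    congr 1
    refine Multiset.map_congr rfl fun x _ => ?_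
    rw [eval_map_algebraMap]
  rw [h1]
  rw [Fintype.prod_equiv (AdjoinRoot.equiv (AlgebraicClosure F) F P hm.ne_zero)
    (fun σ => σ (AdjoinRoot.mk P A)) (fun x => aeval (x : AlgebraicClosure F) A) ?_]
  · rw [Finset.prod_mem_multiset (P.aroots (AlgebraicClosure F))
      (fun x => aeval (x : AlgebraicClosure F) A)
      (fun x => aeval x A) (fun _ => rfl), Finset.prod_eq_multiset_prod, Multiset.toFinset_val,
      Multiset.dedup_eq_self.mpr]
    exact nodup_roots (Separable.map hsep)
  · intro σ
    rw [← AdjoinRoot.aeval_eq, ← aeval_algHom_apply]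
    rfl

theorem jsN_pow_right (A : F[X]) {P : F[X]} (hP : P.Monic) (e : ℕ) :
    js A (P ^ e) = js A P ^ e := by
  induction e with
  | zero => rw [pow_zero, pow_zero, js_one_right]
  | succ n ih => rw [pow_succ, js_mul_right A (hP.pow n) hP, ih, pow_succ]

theorem exists_js_neg (h2 : (2 : F) ≠ 0) {P : F[X]} (hm : P.Monic) (hP : Irreducible P) :
    ∃ A : F[X], js A P = -1 := by
  obtain ⟨c, hc⟩ := exists_ch_neg h2
  have : Fact (Irreducible P) := ⟨hP⟩
  have : FiniteDimensional F (AdjoinRoot P) := (AdjoinRoot.powerBasis hm.ne_zero).finite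
  have : Finite (AdjoinRoot P) := Module.finite_of_finite F
  obtain ⟨x, hx⟩ := FiniteField.norm_surjective F (AdjoinRoot P) c
  obtain ⟨A, rfl⟩ := AdjoinRoot.mk_surjective x
  refine ⟨A, ?_⟩
  rw [js, ← jsN_norm_mk hm A, hx, hc]

theorem exists_js_neg_of_not_isSquare (h2 : (2 : F) ≠ 0) {N : F[X]} (hN : N.Monic)
    (hs : ¬ IsSquare N) : ∃ A : F[X], js A N = -1 := by
  obtain ⟨n, hn⟩ : ∃ n, N.natDegree ≤ n := ⟨_, le_rfl⟩
  induction n generalizing N with
  | zero =>
    exfalso
    apply hs
    rw [hN.natDegree_eq_zero.1 (Nat.le_zero.1 hn)]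
    exact IsSquare.one
  | succ n ih =>
    have hN1 : N ≠ 1 := by
      rintro rfl
      exact hs IsSquare.one
    have hu : ¬ IsUnit N := fun h => hN1 (hN.eq_one_of_isUnit h)
    obtain ⟨P, hPm, hPi, hPN⟩ := exists_monic_irreducible_factor N hu
    have hPp : Prime P := hPi.prime
    have hfm : FiniteMultiplicity P N := FiniteMultiplicity.of_prime_left hPp hN.ne_zero
    obtain ⟨N', h1, h3⟩ := hfm.exists_eq_pow_mul_and_not_dvd
    generalize he : multiplicity P N = e at h1
    have he1 : e ≠ 0 := by
      rintro rfl
      rw [pow_zero, one_mul] at h1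
      rw [h1] at hPN
      exact h3 hPN
    have hN'm : N'.Monic := by
      have := hN
      rw [h1] at this
      exact (hPm.pow e).of_mul_monic_left this
    have hPe : 0 < P.natDegree := hPi.natDegree_pos
    have hdeg : N.natDegree = e * P.natDegree + N'.natDegree := by
      conv_lhs => rw [h1]
      rw [(hPm.pow e).natDegree_mul hN'm, hPm.natDegree_pow]
    have hcop : IsCoprime P N' := (hPi.coprime_iff_not_dvd).2 h3
    obtain ⟨u, v, huv⟩ := hcop
    have key : ∀ ω ω' : F[X], js (ω * (v * N') + ω' * (u * P)) N = js ω P ^ e * js ω' N' := by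
      intro ω ω'
      conv_lhs => rw [h1]
      rw [js_mul_right _ (hPm.pow e) hN'm, jsN_pow_right _ hPm]
      congr 1
      · congr 1
        apply js_congr hPm
        refine ⟨(ω' - ω) * u, ?_⟩
        have : v * N' = 1 - u * P := by rw [← huv]; ring
        rw [this]; ring
      · apply js_congr hN'm
        refine ⟨(ω - ω') * v, ?_⟩
        have : u * P = 1 - v * N' := by rw [← huv]; ring
        rw [this]; ring
    rcases Nat.even_or_odd e with hev | hodd
    · obtain ⟨k, hk⟩ := hev
      have hs' : ¬ IsSquare N' := by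
        rintro ⟨r, hr⟩
        apply hs
        refine ⟨P ^ k * r, ?_⟩
        rw [h1, hr, hk, pow_add]; ring
      have hlt : N'.natDegree ≤ n := by
        have h4 : 1 * 1 ≤ e * P.natDegree := Nat.mul_le_mul (Nat.one_le_iff_ne_zero.2 he1) hPe
        omega
      obtain ⟨A', hA'⟩ := ih hN'm hs' hlt
      refine ⟨_, (key 1 A').trans ?_⟩
      rw [js_one_left hPm, one_pow, one_mul, hA']
    · obtain ⟨ω, hω⟩ := exists_js_neg h2 hPm hPi
      refine ⟨_, (key ω 1).trans ?_⟩
      rw [js_one_left hN'm, hω, mul_one, hodd.neg_one_pow]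

end Pool.Agent.H94.PC
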