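import Pool.Agent.H94.PC.MoMod
import Pool.Agent.H94.PC.JsN

set_option autoImplicit false

/-!
# [H94 PC CSUM] Complete character sums

Let `N` be monic and not a square.  `exists_js_neg_of_not_isSquare` gives `M` with `js M N = -1`;
`M` is coprime to `N` (`js_eq_zero`).  `φ r = js r N` depends only on the class modulo `N`
(`js_congr`), so by `sum_Lt_mul`, `js_mul_left`:
`∑ r ∈ Lt, js r N = ∑ r ∈ Lt, js (M * r) N = - ∑ r ∈ Lt, js r N`, so this sum is `0`.
`sum_js_right`: `sum_Mo_mod` and `js (N h + r) N = js r N`.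
`sum_js_left`: `js N A = ch (-1) ^ (deg N * m) * js A N` (`js_recip`), `deg A = m` is constant.
-/

namespace Pool.Agent.H94.PC

open Polynomial

variable {F : Type} [Field F] [Finite F]

theorem sum_js_Lt (h2 : (2 : F) ≠ 0) {N : F[X]} (hN : N.Monic) (hs : ¬ IsSquare N) :
    ∑ r ∈ Lt F N.natDegree, js r N = 0 := by
  obtain ⟨M, hM⟩ := exists_js_neg_of_not_isSquare h2 hN hs
  have hc : IsCoprime M N := by
    by_contra h
    rw [(js_eq_zero hN).2 h] at hM
    norm_num at hM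
  have h1 := sum_Lt_mul hN hc (fun A => js A N) (fun A B h => js_congr hN h)
  have h3 : ∑ r ∈ Lt F N.natDegree, js (M * r) N = -∑ r ∈ Lt F N.natDegree, js r N := by
    rw [← Finset.sum_neg_distrib]
    refine Finset.sum_congr rfl fun r _ => ?_
    rw [js_mul_left hN, hM]
    ring
  have h4 : ∑ r ∈ Lt F N.natDegree, js (M * r) N = ∑ r ∈ Lt F N.natDegree, js r N := h1
  linarith

theorem sum_js_right (h2 : (2 : F) ≠ 0) {N : F[X]} (hN : N.Monic) (hs : ¬ IsSquare N) {m : ℕ}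
    (hm : N.natDegree ≤ m) : ∑ A ∈ Mo F m, js A N = 0 := by
  rw [sum_Mo_mod hN hm (fun A => js A N)]
  refine Finset.sum_eq_zero fun h _ => ?_
  rw [← sum_js_Lt h2 hN hs]
  refine Finset.sum_congr rfl fun r _ => ?_
  refine js_congr hN ⟨h, ?_⟩
  ring

theorem sum_js_left (h2 : (2 : F) ≠ 0) {N : F[X]} (hN : N.Monic) (hs : ¬ IsSquare N) {m : ℕ}
    (hm : N.natDegree ≤ m) : ∑ A ∈ Mo F m, js N A = 0 := by
  have h1 : ∑ A ∈ Mo F m, js N A =
      ∑ A ∈ Mo F m, ch (-1 : F) ^ (N.natDegree * m) * js A N := by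
    refine Finset.sum_congr rfl fun A hA => ?_
    obtain ⟨h3, h4⟩ := mem_Mo.1 hA
    rw [js_recip hN h3, h4]
  rw [h1, ← Finset.mul_sum, sum_js_right h2 hN hs hm, mul_zero]

end Pool.Agent.H94.PC
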