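import Pool.Agent.H94.PC.Ch

set_option autoImplicit false

/-!
# [H94 PC JSA] The symbol `(A / B)`: multiplicativity, coprimality, periodicity

`js A B = ch (resultant B A)`, where `resultant B A` is `Polynomial.resultant` with the default
degrees.  All statements follow from the Mathlib API of `Polynomial.resultant`
(`Mathlib/RingTheory/Polynomial/Resultant/Basic.lean`) and from `ch_mul`.

* `js_mul_left`: if `A = 0` or `A' = 0`: `A A' = 0`; for `B = 1` everything is `1`
  (`resultant_one_left`), for `deg B > 0` use `resultant_zero_right` (`0 ^ m * _`).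
  Otherwise `natDegree (A A') = natDegree A + natDegree A'` and `resultant_mul_right`.
* `js_mul_right`: `natDegree (B B')` is the sum (`Monic.natDegree_mul`), `resultant_mul_left`.
* `js_congr`: let `A = A' + B p` (for `p = 0` trivial).  Let `n` be a common upper bound of
  `natDegree A`, `natDegree A'`, `natDegree B + natDegree p`.  As `B` is monic,
  `resultant B A m n = resultant B A m (natDegree A)` by `resultant_add_right_deg`
  (`B.coeff m = 1`), and `resultant_add_mul_right` gives the equality.
* `js_eq_zero`: `isUnit_resultant_iff_isCoprime` (for monic `B`), `ch_eq_zero`.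
* `js_sq_left`, `js_sq_right`: multiplicativity and `js A B = 1` or `-1`.
* `js_of_sq`: if `P ∣ A y ^ 2 - 1` then `js (A y ^ 2) P = js 1 P = 1`, and
  `js (A y ^ 2) P = js A P * js y P ^ 2`, so `js y P ≠ 0`, `js y P ^ 2 = 1`.
-/

namespace Pool.Agent.H94.PC

open Polynomial

variable {F : Type} [Field F] [Finite F]

theorem res_deg {B : F[X]} (hB : B.Monic) {A : F[X]} {n : ℕ} (hn : A.natDegree ≤ n) :
    resultant B A B.natDegree n = resultant B A := by
  obtain ⟨k, rfl⟩ := Nat.exists_eq_add_of_le hn
  rw [resultant_add_right_deg _ _ _ _ _ le_rfl, hB.coeff_natDegree, one_pow, one_mul]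

theorem js_mul_left {B : F[X]} (hB : B.Monic) (A A' : F[X]) :
    js (A * A') B = js A B * js A' B := by
  rw [js, js, js, ← ch_mul]
  congr 1
  rw [← res_deg hB natDegree_mul_le, resultant_mul_right _ _ _ _ le_rfl]

theorem js_mul_right (A : F[X]) {B B' : F[X]} (hB : B.Monic) (hB' : B'.Monic) :
    js A (B * B') = js A B * js A B' := by
  rw [js, js, js, ← ch_mul]
  congr 1
  rw [hB.natDegree_mul hB', resultant_mul_left _ _ _ _ le_rfl]

theorem js_one_left {B : F[X]} (hB : B.Monic) : js 1 B = 1 := by
  rw [js, resultant_one_right, natDegree_one, pow_zero, ch_one]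

theorem js_one_right (A : F[X]) : js A 1 = 1 := by
  rw [js, resultant_one_left, natDegree_one, zero_mul, pow_zero, pow_zero, one_mul, ch_one]

theorem js_cases (A B : F[X]) : js A B = 0 ∨ js A B = 1 ∨ js A B = -1 := ch_cases _

theorem abs_js_le (A B : F[X]) : |js A B| ≤ 1 := abs_ch_le _

theorem js_eq_zero {A B : F[X]} (hB : B.Monic) : js A B = 0 ↔ ¬ IsCoprime A B := by
  rw [js, ch_eq_zero, isCoprime_comm, ← isUnit_resultant_iff_isCoprime hB, isUnit_iff_ne_zero,
    not_not]

theorem js_cases' {A B : F[X]} (hB : B.Monic) (h : IsCoprime A B) :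
    js A B = 1 ∨ js A B = -1 := by
  rcases js_cases A B with h1 | h1
  · exact absurd h ((js_eq_zero hB).1 h1)
  · exact h1

theorem js_eq_sg {A B : F[X]} (hB : B.Monic) (h : IsCoprime A B) : js A B = sg (lam A B) := by
  rw [js, lam]
  refine ch_eq_sg ?_
  intro h0
  exact (js_eq_zero hB).1 (by rw [js, h0, ch_zero]) h

theorem js_sq_left {A B : F[X]} (hB : B.Monic) (h : IsCoprime A B) : js (A ^ 2) B = 1 := by
  rw [sq, js_mul_left hB]
  rcases js_cases' hB h with h1 | h1 <;> rw [h1] <;> norm_num

theorem js_sq_right {A B : F[X]} (hB : B.Monic) (h : IsCoprime A B) : js A (B ^ 2) = 1 := by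
  rw [sq, js_mul_right A hB hB]
  rcases js_cases' hB h with h1 | h1 <;> rw [h1] <;> norm_num

theorem js_congr {A A' B : F[X]} (hB : B.Monic) (h : B ∣ A - A') : js A B = js A' B := by
  obtain ⟨p, hp⟩ := h
  have hA : A = A' + B * p := by rw [← hp]; ring
  rw [js, js]
  congr 1
  have h1 : A.natDegree ≤ max (max A.natDegree A'.natDegree) (p.natDegree + B.natDegree) :=
    le_trans (le_max_left _ _) (le_max_left _ _)
  have h2 : A'.natDegree ≤ max (max A.natDegree A'.natDegree) (p.natDegree + B.natDegree) :=
    le_trans (le_max_right _ _) (le_max_left _ _)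
  rw [← res_deg hB h1, ← res_deg hB h2]
  have h3 := resultant_add_mul_right B A' p B.natDegree
    (max (max A.natDegree A'.natDegree) (p.natDegree + B.natDegree)) (le_max_right _ _) le_rfl
  rw [← hA] at h3
  exact h3

theorem js_prod_left {ι : Type*} (s : Finset ι) (f : ι → F[X]) {B : F[X]} (hB : B.Monic) :
    js (∏ i ∈ s, f i) B = ∏ i ∈ s, js (f i) B := by
  classical
  induction s using Finset.induction_on with
  | empty => rw [Finset.prod_empty, Finset.prod_empty, js_one_left hB]
  | insert a s ha ih => rw [Finset.prod_insert ha, Finset.prod_insert ha, js_mul_left hB, ih]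

theorem js_prod_right {ι : Type*} (s : Finset ι) (A : F[X]) (f : ι → F[X])
    (hf : ∀ i ∈ s, (f i).Monic) : js A (∏ i ∈ s, f i) = ∏ i ∈ s, js A (f i) := by
  classical
  induction s using Finset.induction_on with
  | empty => rw [Finset.prod_empty, Finset.prod_empty, js_one_right]
  | insert a s ha ih =>
    rw [Finset.prod_insert ha, Finset.prod_insert ha,
      js_mul_right A (hf a (Finset.mem_insert_self a s))
        (monic_prod_of_monic _ _ fun i hi => hf i (Finset.mem_insert_of_mem hi)),
      ih fun i hi => hf i (Finset.mem_insert_of_mem hi)]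

theorem js_of_sq {A P : F[X]} (hP : P.Monic) (y : F[X]) (h : P ∣ A * y ^ 2 - 1) :
    js A P = 1 := by
  have h1 : js (A * y ^ 2) P = 1 := by rw [js_congr hP h, js_one_left hP]
  rw [js_mul_left hP, sq, js_mul_left hP] at h1
  rcases js_cases y P with h2 | h2 | h2 <;> rw [h2] at h1 <;> linarith

end Pool.Agent.H94.PC
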