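import Mathlib

set_option autoImplicit false

/-!
# Selmer groups of the twists of the Legendre curve on average: definitions

`F` is a finite field of odd characteristic with `Nat.card F` elements.
-/

namespace Pool.Agent.H94.PC

open Polynomial

/-! ## Characters and symbols -/

section
variable {F : Type} [Field F]

/-- the quadratic character of `F` -/
noncomputable def ch (c : F) : ℝ := by
  classical exact if c = 0 then 0 else if IsSquare c then 1 else -1

/-- the symbol `(A / B)` for monic `B` (Jacobi symbol, by the resultant) -/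
noncomputable def js (A B : F[X]) : ℝ := ch (resultant B A)

/-- `0` for squares, `1` for nonsquares -/
noncomputable def bt (c : F) : ZMod 2 := by
  classical exact if IsSquare c then 0 else 1

/-- the additive version of the symbol `(A / B)` -/
noncomputable def lam (A B : F[X]) : ZMod 2 := bt (resultant B A)

end

/-- `(-1) ^ a` -/
def sg (a : ZMod 2) : ℝ := if a = 0 then 1 else -1

theorem sg_zero : sg 0 = 1 := by simp [sg]

theorem sg_one : sg 1 = -1 := by simp [sg]

theorem sg_cases (a : ZMod 2) : sg a = 1 ∨ sg a = -1 := by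
  unfold sg; split_ifs <;> simp

theorem sg_add (a b : ZMod 2) : sg (a + b) = sg a * sg b := by
  have h : ∀ a b : ZMod 2, (a = 0 ∨ a = 1) ∧ (b = 0 ∨ b = 1) := by decide
  obtain ⟨ha, hb⟩ := h a b
  have h2 : (1 : ZMod 2) + 1 = 0 := by decide
  rcases ha with rfl | rfl <;> rcases hb with rfl | rfl <;> simp [sg_zero, sg_one, h2]

theorem sg_mul_self (a : ZMod 2) : sg a * sg a = 1 := by
  rcases sg_cases a with h | h <;> rw [h] <;> norm_num

theorem abs_sg (a : ZMod 2) : |sg a| = 1 := by
  rcases sg_cases a with h | h <;> rw [h] <;> norm_num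

/-! ## Finite sets of polynomials -/

section
variable (F : Type) [Field F] [Finite F]

theorem finite_natDegree_le (n : ℕ) : {f : F[X] | f.natDegree ≤ n}.Finite := by
  have h1 : Finite (degreeLT F (n + 1)) := Finite.of_equiv _ (degreeLTEquiv F (n + 1)).symm.toEquiv
  have h2 : (degreeLT F (n + 1) : Set F[X]).Finite := Set.toFinite _
  refine h2.subset ?_
  intro f hf
  rw [SetLike.mem_coe, mem_degreeLT]
  refine lt_of_le_of_lt degree_le_natDegree ?_
  have h3 : f.natDegree < n + 1 := Nat.lt_succ_of_le hf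
  exact_mod_cast h3

theorem finite_Mo (m : ℕ) : {f : F[X] | f.Monic ∧ f.natDegree = m}.Finite :=
  (finite_natDegree_le F m).subset fun _ h => h.2.le

theorem finite_Sq (m : ℕ) : {f : F[X] | f.Monic ∧ f.natDegree = m ∧ Squarefree f}.Finite :=
  (finite_natDegree_le F m).subset fun _ h => h.2.1.le

theorem finite_Pr (m : ℕ) : {f : F[X] | f.Monic ∧ f.natDegree = m ∧ Irreducible f}.Finite :=
  (finite_natDegree_le F m).subset fun _ h => h.2.1.le

/-- the monic polynomials of degree `m` -/
noncomputable def Mo (m : ℕ) : Finset F[X] := (finite_Mo F m).toFinset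

/-- the monic squarefree polynomials of degree `m` -/
noncomputable def Sq (m : ℕ) : Finset F[X] := (finite_Sq F m).toFinset

/-- the monic irreducible polynomials of degree `m` -/
noncomputable def Pr (m : ℕ) : Finset F[X] := (finite_Pr F m).toFinset

variable {F}

theorem mem_Mo {m : ℕ} {f : F[X]} : f ∈ Mo F m ↔ f.Monic ∧ f.natDegree = m := by
  rw [Mo, Set.Finite.mem_toFinset]; rfl

theorem mem_Sq {m : ℕ} {f : F[X]} :
    f ∈ Sq F m ↔ f.Monic ∧ f.natDegree = m ∧ Squarefree f := by
  rw [Sq, Set.Finite.mem_toFinset]; rfl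

theorem mem_Pr {m : ℕ} {f : F[X]} :
    f ∈ Pr F m ↔ f.Monic ∧ f.natDegree = m ∧ Irreducible f := by
  rw [Pr, Set.Finite.mem_toFinset]; rfl

theorem finite_pf {D : F[X]} (hD : D ≠ 0) : {P : F[X] | P.Monic ∧ Irreducible P ∧ P ∣ D}.Finite :=
  (finite_natDegree_le F D.natDegree).subset fun _ h => natDegree_le_of_dvd h.2.2 hD

/-- the set of monic irreducible divisors of `D ≠ 0` (empty for `D = 0`) -/
noncomputable def pf (D : F[X]) : Finset F[X] := by
  classical exact if h : D = 0 then ∅ else (finite_pf h).toFinset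

theorem mem_pf {D P : F[X]} (hD : D ≠ 0) :
    P ∈ pf D ↔ P.Monic ∧ Irreducible P ∧ P ∣ D := by
  rw [pf, dif_neg hD, Set.Finite.mem_toFinset]; rfl

theorem mem_pf' {D P : F[X]} (h : P ∈ pf D) : P.Monic ∧ Irreducible P ∧ P ∣ D := by
  by_cases hD : D = 0
  · rw [pf, dif_pos hD] at h; exact absurd h (Finset.notMem_empty P)
  · exact (mem_pf hD).1 h

/-- the number of monic irreducible divisors -/
noncomputable def om (D : F[X]) : ℕ := (pf D).card

end

/-- monic squarefree polynomials of degree at most `n`, a finite type -/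
def Mn (F : Type) [Field F] (n : ℕ) : Type :=
  {f : F[X] // f.Monic ∧ Squarefree f ∧ f.natDegree ≤ n}

section
variable {F : Type} [Field F] [Finite F]

instance (n : ℕ) : Finite (Mn F n) :=
  Set.Finite.to_subtype ((finite_natDegree_le F n).subset fun _ h => h.2.2)

noncomputable instance (n : ℕ) : Fintype (Mn F n) := Fintype.ofFinite _

/-- the polynomial `1` -/
noncomputable def Mn.one (n : ℕ) : Mn F n :=
  ⟨1, monic_one, squarefree_one, by rw [natDegree_one]; exact Nat.zero_le n⟩

end

/-! ## Types of polynomials prime to `X (X - 1)` -/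

/-- the group of types -/
abbrev Ty : Type := ZMod 2 × ZMod 2 × ZMod 2

section
variable {F : Type} [Field F]

/-- `(deg A mod 2, [A(0)], [A(1)])` -/
noncomputable def ty (A : F[X]) : Ty := ((A.natDegree : ZMod 2), bt (A.eval 0), bt (A.eval 1))

/-- `A` is prime to `X (X - 1)` -/
def NZ (A : F[X]) : Prop := A.eval 0 ≠ 0 ∧ A.eval 1 ≠ 0

end

/-- the pairing on the group of types -/
def pr (k t : Ty) : ZMod 2 := k.1 * t.1 + k.2.1 * t.2.1 + k.2.2 * t.2.2

/-! ## The indices `(x, y, c, d)` -/

/-- indices `((x, y), (c, d))` -/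
abbrev Ix : Type := (ZMod 2 × ZMod 2) × (ZMod 2 × ZMod 2)

/-- exponent of the symbol `(D_w / D_u)` -/
def Phi (u w : Ix) : ZMod 2 := u.2.1 * (u.1.1 + w.1.1) + u.2.2 * (u.1.2 + w.1.2)

/-- the quadratic form `c x + d y` -/
def Qf (u : Ix) : ZMod 2 := u.2.1 * u.1.1 + u.2.2 * u.1.2

/-- linked indices -/
def Lk (u w : Ix) : Prop := Qf (u + w) = 1

instance (u w : Ix) : Decidable (Lk u w) := inferInstanceAs (Decidable (_ = _))

/-! ## The class of twists -/

/-- Parameters: `ep = [-1]`, `l = [l]` for the constant `l`, `nu = n mod 2`, and the values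
`s0 = [D(0)]`, `s1 = [D(1)]` for the monic polynomial `D` of degree `n` (the twist is by `l D`). -/
structure Par where
  /-- `[-1]` -/
  ep : ZMod 2
  /-- the class of the constant -/
  l : ZMod 2
  /-- parity of the degree -/
  nu : ZMod 2
  /-- the class of `D(0)` -/
  s0 : ZMod 2
  /-- the class of `D(1)` -/
  s1 : ZMod 2
  deriving DecidableEq

/-- the classes which we consider -/
def Par.Good (p : Par) : Prop :=
  (p.nu = 0 ∧ p.s0 = 1 ∧ p.s1 = 1) ∨ (p.nu = 1 ∧ p.s0 + p.s1 + p.ep + p.l = 1)

instance (p : Par) : Decidable p.Good := inferInstanceAs (Decidable (_ ∨ _))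

/-- the type of `D` -/
def Par.t (p : Par) : Ty := (p.nu, p.s0, p.s1)

section
variable (p : Par) (X Y B A : ZMod 2)

/-- the exponent of `t` in `a` -/
def a0 : ZMod 2 :=
  p.nu * (p.l * X + p.ep * Y + B + A + (X + Y) * (p.l + p.s1)) +
    (1 + p.nu) * ((p.ep + p.l) * X + p.ep * Y + B)

/-- the exponent of `t - 1` in `b` -/
def b1 : ZMod 2 := p.nu * (a0 p X Y B A + X + Y) + (1 + p.nu) * (p.l * Y + A)

/-- the class of the constant of `a` -/
def al : ZMod 2 :=
  p.nu * (p.l * (a0 p X Y B A + X) + p.ep * Y + B + a0 p X Y B A * (p.ep + p.l + p.s0)) +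
    (1 + p.nu) * (p.l * (b1 p X Y B A + Y))

/-- the class of the constant of `b` -/
def be : ZMod 2 :=
  p.nu * (al p X Y B A + (p.ep + p.l) * (a0 p X Y B A + X)) +
    (1 + p.nu) * ((p.ep + p.l) * (a0 p X Y B A + X) + p.ep * (b1 p X Y B A + Y))

/-- local terms of the two equations at a prime of type `t`, `x`, `y` being the values at it -/
def l1 (x y : ZMod 2) (t : Ty) : ZMod 2 :=
  (t.2.1 + p.ep * t.1) * (a0 p X Y B A + y) + (al p X Y B A + p.l * x) * t.1

/-- see `l1` -/
def l2 (x y : ZMod 2) (t : Ty) : ZMod 2 :=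
  (t.2.2 + p.ep * t.1) * b1 p X Y B A + t.2.2 * x +
    (p.ep * y + be p X Y B A + p.l * y) * t.1

end

/-- the sign exponent of a configuration with types `T` -/
def gexp (p : Par) (T : Ix → Ty) : ZMod 2 :=
  let X := ∑ u, u.1.1 * (T u).1
  let Y := ∑ u, u.1.2 * (T u).1
  let B := ∑ u, u.1.2 * (T u).2.1
  let A := ∑ u, u.1.1 * (T u).2.2
  ∑ u : Ix, (u.2.1 * l1 p X Y B A u.1.1 u.1.2 (T u) + u.2.2 * l2 p X Y B A u.1.1 u.1.2 (T u))

section
variable {F : Type} [Field F] [Finite F]

/-- the class of the monic squarefree polynomials `D` of degree `n` with given type -/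
def InC (p : Par) (n : ℕ) (D : F[X]) : Prop :=
  D ∈ Sq F n ∧ NZ D ∧ ty D = p.t

theorem finite_InC (p : Par) (n : ℕ) : {D : F[X] | InC p n D}.Finite :=
  (finite_natDegree_le F n).subset fun _ h => (mem_Sq.1 h.1).2.1.le

variable (F) in
/-- the class of the monic squarefree polynomials `D` of degree `n` with given type -/
noncomputable def Cn (p : Par) (n : ℕ) : Finset F[X] := (finite_InC (F := F) p n).toFinset

theorem mem_Cn {p : Par} {n : ℕ} {D : F[X]} : D ∈ Cn F p n ↔ InC p n D := by
  rw [Cn, Set.Finite.mem_toFinset]; rfl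

/-! ## The two systems of equations -/

section
variable (p : Par) (D : F[X]) (x y : pf D → ZMod 2)

/-- parity of the degree of `A` -/
noncomputable def gX : ZMod 2 := ∑ P : pf D, x P * (ty P.1).1

/-- the class of `A(0)` -/
noncomputable def g0 : ZMod 2 := ∑ P : pf D, x P * (ty P.1).2.1

/-- the class of `A(1)` -/
noncomputable def g1 : ZMod 2 := ∑ P : pf D, x P * (ty P.1).2.2

/-- first equation at `P` -/
noncomputable def E1 (P : pf D) : ZMod 2 :=
  ∑ Q : pf D, lam Q.1 P.1 * (x Q + x P) +
    l1 p (gX D x) (gX D y) (g0 D y) (g1 D x) (x P) (y P) (ty P.1)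

/-- second equation at `P` -/
noncomputable def E2 (P : pf D) : ZMod 2 :=
  ∑ Q : pf D, lam Q.1 P.1 * (y Q + y P) +
    l2 p (gX D x) (gX D y) (g0 D y) (g1 D x) (x P) (y P) (ty P.1)

end

/-- the solutions of the equations: the Selmer group of the twist by `l D` -/
def Ker (p : Par) (D : F[X]) : Set ((pf D → ZMod 2) × (pf D → ZMod 2)) :=
  {z | ∀ P, E1 p D z.1 z.2 P = 0 ∧ E2 p D z.1 z.2 P = 0}

/-- the number of solutions -/
noncomputable def kn (p : Par) (D : F[X]) : ℕ := Nat.card (Ker p D)

/-! ## Configurations -/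

/-- the weight of a configuration `x` (a factorization of `∏ x_u` in 16 factors) -/
noncomputable def term (p : Par) (x : Ix → F[X]) : ℝ :=
  (1 / 4 : ℝ) ^ om (∏ u, x u) * sg (gexp p fun u => ty (x u)) *
    ∏ u, ∏ w, js (x w) (x u) ^ (Phi u w).val

/-- the weight, restricted to configurations with product in the class -/
noncomputable def WW (p : Par) (n : ℕ) (x : Ix → Mn F n) : ℝ := by
  classical exact if InC p n (∏ u, (x u).1) then term p fun u => (x u).1 else 0

end

end Pool.Agent.H94.PC
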