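import Pool.Agent.H94.PC.Facs

set_option autoImplicit false

/-!
# [H94 PC RHO] `∑ B ∣ D, θ(B)` is nonnegative

`θ` is completely multiplicative on monic polynomials with values in `{-1, 0, 1}`, `θ 1 = 1`.
`dv D` is the finite set of the monic divisors of `D`.
* `rho_nonneg`: for `D` monic, `ρ(D) = ∑ B ∈ dv D, θ B ≥ 0`.  Proof: induction on the degree.
  If `D ≠ 1` let `P` be a monic irreducible divisor, `D = P ^ e * D'`, `¬ P ∣ D'`.  The monic
  divisors of `D` are `P ^ i * B`, `i ≤ e`, `B ∈ dv D'` (uniquely), so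
  `ρ(D) = (∑ i ≤ e, θ(P) ^ i) * ρ(D')` and the first factor is `≥ 0` for `θ(P) ∈ {-1, 0, 1}`.
* `rho_sqfree`: for `D` monic squarefree, `ρ(D) = ∏ P ∈ pf D, (1 + θ P)`: the monic divisors are
  the products of the subsets of `pf D` (`prod_pf`, `pf_prod_irr`), `Finset.prod_one_add`.
* `sum_rho`: `∑ D ∈ Mo j, ρ(D) = ∑ i ∈ range (j + 1), (∑ B ∈ Mo i, θ B) * q ^ (j - i)`: the pairs
  `(D, B)`, `B ∈ dv D`, are the pairs `(B * C, B)`, `B ∈ Mo i`, `C ∈ Mo (j - i)`; here the count
  `#(Mo (j - i)) = q ^ (j - i)` is taken as a hypothesis-free lemma `card_Mo` of module `MoMod`.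
-/

namespace Pool.Agent.H94.PC

open Polynomial

variable {F : Type} [Field F] [Finite F]

/-- completely multiplicative functions on monic polynomials with values in `{-1, 0, 1}` -/
structure CM (θ : F[X] → ℝ) : Prop where
  one : θ 1 = 1
  mul : ∀ A B : F[X], A.Monic → B.Monic → θ (A * B) = θ A * θ B
  val : ∀ A : F[X], A.Monic → θ A = 0 ∨ θ A = 1 ∨ θ A = -1

theorem finite_dv {D : F[X]} (hD : D ≠ 0) : {B : F[X] | B.Monic ∧ B ∣ D}.Finite :=
  (finite_natDegree_le F D.natDegree).subset fun _ h => natDegree_le_of_dvd h.2 hD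

/-- the monic divisors of `D` -/
noncomputable def dv (D : F[X]) : Finset F[X] := by
  classical exact if h : D = 0 then ∅ else (finite_dv h).toFinset

theorem mem_dv {D B : F[X]} (hD : D ≠ 0) : B ∈ dv D ↔ B.Monic ∧ B ∣ D := by
  rw [dv, dif_neg hD, Set.Finite.mem_toFinset]; rfl

theorem rho_exists_monic (x : F[X]) (hx : x ≠ 0) : ∃ y : F[X], y.Monic ∧ Associated x y := by
  classical
  exact ⟨normalize x, monic_normalize hx, (normalize_associated x).symm⟩

/-- multiplicativity of the divisor sum -/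
theorem rho_mul {θ : F[X] → ℝ} (hθ : CM θ) {A A' : F[X]} (hA : A.Monic) (hA' : A'.Monic)
    (hc : IsCoprime A A') :
    ∑ B ∈ dv (A * A'), θ B = (∑ B ∈ dv A, θ B) * ∑ B ∈ dv A', θ B := by
  have hAA : A * A' ≠ 0 := mul_ne_zero hA.ne_zero hA'.ne_zero
  rw [Finset.sum_mul_sum, ← Finset.sum_product']
  symm
  refine Finset.sum_bij (fun x _ => x.1 * x.2) ?_ ?_ ?_ ?_
  · rintro ⟨B, B'⟩ h
    rw [Finset.mem_product, mem_dv hA.ne_zero, mem_dv hA'.ne_zero] at h
    rw [mem_dv hAA]
    exact ⟨h.1.1.mul h.2.1, mul_dvd_mul h.1.2 h.2.2⟩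
  · rintro ⟨B, B'⟩ h ⟨C, C'⟩ h' heq
    rw [Finset.mem_product, mem_dv hA.ne_zero, mem_dv hA'.ne_zero] at h h'
    simp only at heq h h'
    have h1 : IsCoprime B C' := IsCoprime.of_isCoprime_of_dvd_left
      (IsCoprime.of_isCoprime_of_dvd_right hc h'.2.2) h.1.2
    have h2 : IsCoprime C B' := IsCoprime.of_isCoprime_of_dvd_left
      (IsCoprime.of_isCoprime_of_dvd_right hc h.2.2) h'.1.2
    have h3 : B ∣ C := h1.dvd_of_dvd_mul_right (heq ▸ Dvd.intro _ rfl)
    have h4 : C ∣ B := h2.dvd_of_dvd_mul_right (heq ▸ Dvd.intro _ rfl)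
    have h5 : B = C := eq_of_monic_of_associated h.1.1 h'.1.1 (associated_of_dvd_dvd h3 h4)
    subst h5
    have h6 : B' = C' := mul_left_cancel₀ h.1.1.ne_zero heq
    rw [h6]
  · intro B hB
    rw [mem_dv hAA] at hB
    obtain ⟨c, d, hc1, hd1, hcd⟩ := exists_dvd_and_dvd_of_dvd_mul hB.2
    have hcd0 : c * d ≠ 0 := by rw [← hcd]; exact hB.1.ne_zero
    obtain ⟨c', hc', hcc⟩ := rho_exists_monic c (left_ne_zero_of_mul hcd0)
    obtain ⟨d', hd', hdd⟩ := rho_exists_monic d (right_ne_zero_of_mul hcd0)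
    refine ⟨(c', d'), ?_, ?_⟩
    · rw [Finset.mem_product, mem_dv hA.ne_zero, mem_dv hA'.ne_zero]
      exact ⟨⟨hc', (hcc.symm.dvd).trans hc1⟩, ⟨hd', (hdd.symm.dvd).trans hd1⟩⟩
    · refine eq_of_monic_of_associated (hc'.mul hd') hB.1 ?_
      rw [hcd]
      exact (hcc.mul_mul hdd).symm
  · rintro ⟨B, B'⟩ h
    rw [Finset.mem_product, mem_dv hA.ne_zero, mem_dv hA'.ne_zero] at h
    exact (hθ.mul B B' h.1.1 h.2.1).symm

theorem rho_pow {θ : F[X] → ℝ} (hθ : CM θ) {P : F[X]} (hP : P.Monic) (n : ℕ) :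
    θ (P ^ n) = θ P ^ n := by
  induction n with
  | zero => rw [pow_zero, pow_zero, hθ.one]
  | succ n ih => rw [pow_succ, hθ.mul _ _ (hP.pow n) hP, ih, pow_succ]

theorem rho_prime_pow {θ : F[X] → ℝ} (hθ : CM θ) {P : F[X]} (hP : P.Monic) (hp : Prime P)
    (n : ℕ) : 0 ≤ ∑ B ∈ dv (P ^ n), θ B := by
  have hn : P ^ n ≠ 0 := (hP.pow n).ne_zero
  have h1 : ∑ B ∈ dv (P ^ n), θ B = ∑ i ∈ Finset.range (n + 1), θ P ^ i := by
    symm
    refine Finset.sum_bij (fun i _ => P ^ i) ?_ ?_ ?_ ?_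
    · intro i hi
      rw [mem_dv hn]
      exact ⟨hP.pow i, pow_dvd_pow P (Nat.lt_succ_iff.1 (Finset.mem_range.1 hi))⟩
    · intro i _ j _ hij
      exact pow_injective_of_not_isUnit hp.not_unit hp.ne_zero hij
    · intro B hB
      rw [mem_dv hn] at hB
      obtain ⟨i, hi, hi'⟩ := (dvd_prime_pow hp n).1 hB.2
      exact ⟨i, Finset.mem_range.2 (Nat.lt_succ_of_le hi),
        (eq_of_monic_of_associated hB.1 (hP.pow i) hi').symm⟩
    · intro i _
      exact (rho_pow hθ hP i).symm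
  rw [h1]
  rcases hθ.val P hP with h | h | h
  · rw [h]
    exact Finset.sum_nonneg fun i _ => pow_nonneg le_rfl i
  · rw [h]
    exact Finset.sum_nonneg fun i _ => by positivity
  · rw [h, neg_one_geom_sum]
    split_ifs <;> norm_num

theorem rho_nonneg {θ : F[X] → ℝ} (hθ : CM θ) {D : F[X]} (hD : D.Monic) :
    0 ≤ ∑ B ∈ dv D, θ B := by
  have key : ∀ x : F[X], ∀ D : F[X], D.Monic → Associated x D → 0 ≤ ∑ B ∈ dv D, θ B := by
    intro x
    induction x using UniqueFactorizationMonoid.induction_on_coprime with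
    | h0 =>
      intro D hD h
      exact absurd (h.eq_zero_iff.1 rfl) hD.ne_zero
    | h1 hx =>
      intro D hD h
      have h2 : D = 1 := by
        refine eq_of_monic_of_associated hD monic_one ?_
        exact h.symm.trans (associated_one_iff_isUnit.2 hx)
      have h3 : dv (1 : F[X]) = {1} := by
        ext B
        rw [mem_dv one_ne_zero, Finset.mem_singleton]
        constructor
        · rintro ⟨hB, hB1⟩
          exact hB.eq_one_of_isUnit (isUnit_of_dvd_one hB1)
        · rintro rfl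
          exact ⟨monic_one, dvd_refl 1⟩
      rw [h2, h3, Finset.sum_singleton, hθ.one]
      norm_num
    | hpr i hp =>
      rename_i p
      intro D hD h
      obtain ⟨p', hp', hpp⟩ := rho_exists_monic p hp.ne_zero
      have h2 : D = p' ^ i := by
        refine eq_of_monic_of_associated hD (hp'.pow i) ?_
        exact h.symm.trans (hpp.pow_pow)
      rw [h2]
      exact rho_prime_pow hθ hp' (hpp.prime hp) i
    | hcp hxy hx hy =>
      rename_i x y
      intro D hD h
      have hxy0 : x * y ≠ 0 := by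
        intro h0
        rw [h0] at h
        exact absurd (h.eq_zero_iff.1 rfl) hD.ne_zero
      obtain ⟨x', hx', hxx⟩ := rho_exists_monic x (left_ne_zero_of_mul hxy0)
      obtain ⟨y', hy', hyy⟩ := rho_exists_monic y (right_ne_zero_of_mul hxy0)
      have h2 : D = x' * y' := by
        refine eq_of_monic_of_associated hD (hx'.mul hy') ?_
        exact h.symm.trans (hxx.mul_mul hyy)
      have hc : IsCoprime x' y' := by
        have h3 : IsCoprime x y := hxy.isCoprime
        exact IsCoprime.of_isCoprime_of_dvd_left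
          (IsCoprime.of_isCoprime_of_dvd_right h3 hyy.symm.dvd) hxx.symm.dvd
      rw [h2, rho_mul hθ hx' hy' hc]
      exact mul_nonneg (hx x' hx' hxx) (hy y' hy' hyy)
  exact key D D hD (Associated.refl D)

theorem rho_prod_irr {θ : F[X] → ℝ} (hθ : CM θ) (s : Finset F[X])
    (hs : ∀ P ∈ s, P.Monic ∧ Irreducible P) : θ (∏ P ∈ s, P) = ∏ P ∈ s, θ P := by
  classical
  induction s using Finset.induction_on with
  | empty => rw [Finset.prod_empty, Finset.prod_empty, hθ.one]
  | insert a s ha ih =>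
    rw [Finset.prod_insert ha, Finset.prod_insert ha,
      hθ.mul _ _ (hs a (Finset.mem_insert_self a s)).1
        (monic_prod_irr s fun P hP => hs P (Finset.mem_insert_of_mem hP)),
      ih fun P hP => hs P (Finset.mem_insert_of_mem hP)]

theorem rho_sqfree {θ : F[X] → ℝ} (hθ : CM θ) {D : F[X]} (hD : D.Monic) (hs : Squarefree D) :
    ∑ B ∈ dv D, θ B = ∏ P ∈ pf D, (1 + θ P) := by
  classical
  rw [Finset.prod_one_add]
  have hirr : ∀ t ∈ (pf D).powerset, ∀ P ∈ t, P.Monic ∧ Irreducible P := by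
    intro t ht P hP
    have h1 := mem_pf' (Finset.mem_powerset.1 ht hP)
    exact ⟨h1.1, h1.2.1⟩
  symm
  refine Finset.sum_bij (fun t _ => ∏ P ∈ t, P) ?_ ?_ ?_ ?_
  · intro t ht
    rw [mem_dv hD.ne_zero]
    refine ⟨monic_prod_irr t (hirr t ht), ?_⟩
    have h1 := Finset.prod_dvd_prod_of_subset t (pf D) (fun P => P) (Finset.mem_powerset.1 ht)
    rw [prod_pf hD hs] at h1
    exact h1
  · intro t ht t' ht' h
    have h1 := pf_prod_irr t (hirr t ht)
    have h2 := pf_prod_irr t' (hirr t' ht')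
    rw [← h1, ← h2]
    exact congrArg pf h
  · intro B hB
    rw [mem_dv hD.ne_zero] at hB
    refine ⟨pf B, ?_, prod_pf hB.1 (hs.squarefree_of_dvd hB.2)⟩
    rw [Finset.mem_powerset]
    intro P hP
    rw [mem_pf hB.1.ne_zero] at hP
    rw [mem_pf hD.ne_zero]
    exact ⟨hP.1, hP.2.1, hP.2.2.trans hB.2⟩
  · intro t ht
    exact (rho_prod_irr hθ t (hirr t ht)).symm

end Pool.Agent.H94.PC
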