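import Pool.Agent.H94.PC.Tup
import Pool.Agent.H94.PC.Rho

set_option autoImplicit false

/-!
# [H94 PC SMU] Sums of products of multiplicative functions over factorizations

`tup` with `G D x = c ^ om D * ∏ i, ε i (x i)`.  For `v : pf D → κ`:
`ε i (part D v i) = ∏ P, (if v P = i then ε i P else 1)` (complete multiplicativity, `CM.one`), so
`∏ i, ε i (part D v i) = ∏ P, ε (v P) P`; and `∑ v, ∏ P, ε (v P) P = ∏ P, ∑ i, ε i P`
(`Finset.prod_univ_sum`, `Fintype.piFinset_univ`); `c ^ om D * ∏ P ∈ pf D, ∑ i, ε i P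
= ∏ P ∈ pf D, (c * ∑ i, ε i P)` (`Finset.prod_mul_distrib`, `Finset.prod_const`, `om`).
`count_tup`: the special case `ε i = 1`, `c = 1 / 4`, `#κ = 4`: each `D` counts `1`; here one may
use `tup` directly: `G D x = (1/4) ^ om D`, the number of `v` is `4 ^ om D`.
-/

namespace Pool.Agent.H94.PC

open Polynomial

variable {F : Type} [Field F] [Finite F] {κ : Type} [Fintype κ] [DecidableEq κ]

private theorem smu_prod {θ : F[X] → ℝ} (hθ : CM θ) {ι : Type*} (s : Finset ι) (f : ι → F[X])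
    (hf : ∀ i ∈ s, (f i).Monic) : θ (∏ i ∈ s, f i) = ∏ i ∈ s, θ (f i) := by
  classical
  induction s using Finset.induction_on with
  | empty => simpa using hθ.one
  | insert a s ha ih =>
    rw [Finset.prod_insert ha, Finset.prod_insert ha,
      hθ.mul _ _ (hf a (Finset.mem_insert_self _ _))
        (monic_prod_of_monic _ _ fun i hi => hf i (Finset.mem_insert_of_mem hi)),
      ih fun i hi => hf i (Finset.mem_insert_of_mem hi)]

private theorem smu_part {θ : F[X] → ℝ} (hθ : CM θ) (D : F[X]) (v : pf D → κ) (i : κ) :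
    θ (part D v i) = ∏ P : pf D, if v P = i then θ P.1 else 1 := by
  unfold part
  rw [smu_prod hθ]
  · apply Finset.prod_congr rfl
    intro P _
    split_ifs
    · rfl
    · exact hθ.one
  · intro P _
    split_ifs
    · exact (mem_pf' P.2).1
    · exact monic_one

open Classical in
private theorem smu_D (D : F[X]) (ε : κ → F[X] → ℝ) (hε : ∀ i, CM (ε i)) (c : ℝ) :
    ∑ v : pf D → κ, c ^ om D * ∏ i, ε i (part D v i) = ∏ P ∈ pf D, (c * ∑ i, ε i P) := by
  have h1 : ∀ v : pf D → κ, ∏ i, ε i (part D v i) = ∏ P : pf D, ε (v P) P.1 := by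
    intro v
    rw [Finset.prod_congr rfl (fun i _ => smu_part (hε i) D v i), Finset.prod_comm]
    apply Finset.prod_congr rfl
    intro P _
    rw [Finset.prod_ite_eq, if_pos (Finset.mem_univ _)]
  rw [Finset.sum_congr rfl (fun v _ => by rw [h1 v]), ← Finset.mul_sum]
  have h2 : ∑ v : pf D → κ, ∏ P : pf D, ε (v P) P.1 = ∏ P : pf D, ∑ i, ε i P.1 := by
    rw [Finset.prod_univ_sum, Fintype.piFinset_univ]
  rw [h2, Finset.prod_coe_sort (pf D) (fun P => ∑ i, ε i P), Finset.prod_mul_distrib,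
    Finset.prod_const]
  rfl

open Classical in
theorem sum_mult (n : ℕ) (S : Finset F[X])
    (hS : ∀ D ∈ S, D.Monic ∧ Squarefree D ∧ D.natDegree ≤ n) (ε : κ → F[X] → ℝ)
    (hε : ∀ i, CM (ε i)) (c : ℝ) :
    ∑ x : κ → Mn F n, (if (∏ i, (x i).1) ∈ S then
      c ^ om (∏ i, (x i).1) * ∏ i, ε i (x i).1 else 0) =
      ∑ D ∈ S, ∏ P ∈ pf D, (c * ∑ i, ε i P) := by
  have h := tup n S hS (fun D x => c ^ om D * ∏ i, ε i (x i))
  refine Eq.trans h.symm ?_
  apply Finset.sum_congr rfl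
  intro D _
  exact smu_D D ε hε c

open Classical in
theorem count_tup (hκ : Fintype.card κ = 4) (n : ℕ) (S : Finset F[X])
    (hS : ∀ D ∈ S, D.Monic ∧ Squarefree D ∧ D.natDegree ≤ n) :
    ∑ x : κ → Mn F n, (if (∏ i, (x i).1) ∈ S then (1 / 4 : ℝ) ^ om (∏ i, (x i).1) else 0) =
      S.card := by
  have hcm : ∀ _i : κ, CM (fun _ : F[X] => (1 : ℝ)) := fun _ =>
    ⟨rfl, fun _ _ _ _ => (mul_one 1).symm, fun _ _ => Or.inr (Or.inl rfl)⟩
  have h := sum_mult n S hS (fun _ _ => (1 : ℝ)) hcm (1 / 4)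
  have h1 : ∀ D ∈ S, ∏ P ∈ pf D, ((1 / 4 : ℝ) * ∑ _i : κ, (1 : ℝ)) = 1 := by
    intro D _
    apply Finset.prod_eq_one
    intro P _
    rw [Finset.sum_const, Finset.card_univ, hκ]
    norm_num
  rw [Finset.sum_congr rfl h1, Finset.sum_const, nsmul_eq_mul, mul_one] at h
  rw [← h]
  apply Finset.sum_congr rfl
  intro x _
  simp only [Finset.prod_const_one, mul_one]

end Pool.Agent.H94.PC
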