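import Mathlib

set_option autoImplicit false

/-!
# [H94 PC ABS] Freezing all variables but two

Pure finite combinatorics.  `W(x) = (∏ u, h u (x u)) * ∏ u, ∏ w, (if u = w then 1 else g u w (x u) (x w))`,
`|h|, |g| ≤ 1`, `i ≠ j`.  Sum over all `x` by fixing first the values `x u`, `u ≠ i, j`
(e.g. `Function.update`; or `Equiv.piSplitAt` twice).  For fixed values outside `i, j`, as a
function of `a = x i`, `b = x j`:
`W = c * (α a) * (β b) * (h i a * h j b * (g i j a b * g j i b a))`, where
`c = ∏ (u ≠ i, j), h u (x u) * ∏ (u, w ≠ i, j; u ≠ w), g u w`,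
`α a = ∏ (w ≠ i, j), g i w a (x w) * g w i (x w) a`, `β b` similarly; `|α|, |β| ≤ 1` and
`|c| ≤ ∏ (u ≠ i, j), |h u (x u)|`.  By `hB` the sum over `a, b` is at most `|c| * B` in absolute
value, and the sum of `∏ (u ≠ i, j), |h u (x u)|` over the remaining variables is the product of
the sums (`Finset.prod_univ_sum`).
-/

namespace Pool.Agent.H94.PC

section abspair

variable {ι M : Type} [Fintype ι] [DecidableEq ι] [Fintype M] [DecidableEq M]

theorem abspair_split (i j : ι) (hij : i ≠ j) (f : ι → ℝ) :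
    ∏ u, f u = f i * (f j * ∏ u ∈ (Finset.univ.erase i).erase j, f u) := by
  rw [Finset.mul_prod_erase (Finset.univ.erase i) f
    (Finset.mem_erase.2 ⟨hij.symm, Finset.mem_univ _⟩), Finset.mul_prod_erase _ f
    (Finset.mem_univ _)]

theorem abspair_prod_le {κ : Type} (s : Finset κ) (f : κ → ℝ) (hf : ∀ u ∈ s, |f u| ≤ 1) :
    |∏ u ∈ s, f u| ≤ 1 := by
  rw [Finset.abs_prod]
  exact Finset.prod_le_one (fun _ _ => abs_nonneg _) hf

/-- the configuration with two values replaced -/
def abspair_up (i j : ι) (y : ι → M) (a b : M) : ι → M :=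
  Function.update (Function.update y i a) j b

omit [Fintype ι] [Fintype M] [DecidableEq M] in
theorem abspair_up_i (i j : ι) (hij : i ≠ j) (y : ι → M) (a b : M) :
    abspair_up i j y a b i = a := by
  unfold abspair_up
  rw [Function.update_of_ne hij, Function.update_self]

omit [Fintype ι] [Fintype M] [DecidableEq M] in
theorem abspair_up_j (i j : ι) (y : ι → M) (a b : M) : abspair_up i j y a b j = b := by
  unfold abspair_up
  rw [Function.update_self]

omit [Fintype ι] [Fintype M] [DecidableEq M] in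
theorem abspair_up_u (i j : ι) (y : ι → M) (a b : M) (u : ι) (hi : u ≠ i) (hj : u ≠ j) :
    abspair_up i j y a b u = y u := by
  unfold abspair_up
  rw [Function.update_of_ne hj, Function.update_of_ne hi]

theorem abspair_mem (i j u : ι) : u ∈ (Finset.univ.erase i).erase j ↔ u ≠ i ∧ u ≠ j := by
  rw [Finset.mem_erase, Finset.mem_erase]
  constructor
  · rintro ⟨h1, h2, -⟩
    exact ⟨h2, h1⟩
  · rintro ⟨h1, h2⟩
    exact ⟨h2, h1, Finset.mem_univ _⟩

theorem abspair_inner (i j : ι) (hij : i ≠ j) (h : ι → M → ℝ) (g : ι → ι → M → M → ℝ)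
    (y : ι → M) (a b : M) :
    (∏ u, h u (abspair_up i j y a b u)) *
      ∏ u, ∏ w, (if u = w then 1 else g u w (abspair_up i j y a b u) (abspair_up i j y a b w)) =
    ((∏ u ∈ (Finset.univ.erase i).erase j, h u (y u)) *
      ∏ u ∈ (Finset.univ.erase i).erase j, ∏ w ∈ (Finset.univ.erase i).erase j,
        (if u = w then 1 else g u w (y u) (y w))) *
    (((∏ w ∈ (Finset.univ.erase i).erase j, g i w a (y w)) *
        ∏ u ∈ (Finset.univ.erase i).erase j, g u i (y u) a) *
      ((∏ w ∈ (Finset.univ.erase i).erase j, g j w b (y w)) *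
        ∏ u ∈ (Finset.univ.erase i).erase j, g u j (y u) b) *
      (h i a * h j b * (g i j a b * g j i b a))) := by
  obtain ⟨E, hE⟩ : ∃ E : Finset ι, E = (Finset.univ.erase i).erase j := ⟨_, rfl⟩
  have hsp := abspair_split i j hij
  simp only [← hE] at hsp ⊢
  have hEm : ∀ u ∈ E, u ≠ i ∧ u ≠ j := by
    intro u hu
    rw [hE] at hu
    exact (abspair_mem i j u).1 hu
  have h1 : ∏ u ∈ E, h u (abspair_up i j y a b u) = ∏ u ∈ E, h u (y u) :=
    Finset.prod_congr rfl fun u hu => by
      rw [abspair_up_u i j y a b u (hEm u hu).1 (hEm u hu).2]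
  have h2 : ∏ w ∈ E, (if i = w then 1 else g i w a (abspair_up i j y a b w)) =
      ∏ w ∈ E, g i w a (y w) :=
    Finset.prod_congr rfl fun u hu => by
      rw [abspair_up_u i j y a b u (hEm u hu).1 (hEm u hu).2, if_neg (hEm u hu).1.symm]
  have h3 : ∏ w ∈ E, (if j = w then 1 else g j w b (abspair_up i j y a b w)) =
      ∏ w ∈ E, g j w b (y w) :=
    Finset.prod_congr rfl fun u hu => by
      rw [abspair_up_u i j y a b u (hEm u hu).1 (hEm u hu).2, if_neg (hEm u hu).2.symm]
  have h4 : ∏ u ∈ E, ∏ w, (if u = w then 1 else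
      g u w (abspair_up i j y a b u) (abspair_up i j y a b w)) =
      (∏ u ∈ E, g u i (y u) a) * ((∏ u ∈ E, g u j (y u) b) *
        ∏ u ∈ E, ∏ w ∈ E, (if u = w then 1 else g u w (y u) (y w))) := by
    rw [← Finset.prod_mul_distrib, ← Finset.prod_mul_distrib]
    apply Finset.prod_congr rfl
    intro u hu
    rw [hsp, abspair_up_i i j hij, abspair_up_j, if_neg (hEm u hu).1, if_neg (hEm u hu).2,
      abspair_up_u i j y a b u (hEm u hu).1 (hEm u hu).2]
    congr 2
    apply Finset.prod_congr rfl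
    intro w hw
    rw [abspair_up_u i j y a b w (hEm w hw).1 (hEm w hw).2]
  rw [hsp, hsp (fun u => ∏ w, (if u = w then 1 else
      g u w (abspair_up i j y a b u) (abspair_up i j y a b w))), h4, hsp, hsp,
    abspair_up_i i j hij, abspair_up_j, if_pos rfl, if_pos rfl, if_neg hij, if_neg hij.symm,
    h1, h2, h3]
  ring

end abspair

theorem abs_pair {ι M : Type} [Fintype ι] [DecidableEq ι] [Fintype M] [DecidableEq M]
    (i j : ι) (hij : i ≠ j) (h : ι → M → ℝ) (g : ι → ι → M → M → ℝ)
    (hh : ∀ u a, |h u a| ≤ 1) (hg : ∀ u w a b, |g u w a b| ≤ 1) (B : ℝ) (hB0 : 0 ≤ B)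
    (hB : ∀ α β : M → ℝ, (∀ a, |α a| ≤ 1) → (∀ b, |β b| ≤ 1) →
      |∑ a, ∑ b, α a * β b * (h i a * h j b * (g i j a b * g j i b a))| ≤ B) :
    |∑ x : ι → M, (∏ u, h u (x u)) *
        ∏ u, ∏ w, (if u = w then 1 else g u w (x u) (x w))| ≤
      (∏ u ∈ (Finset.univ.erase i).erase j, ∑ a, |h u a|) * B := by
  rcases isEmpty_or_nonempty M with hM | ⟨⟨m0⟩⟩
  · have : IsEmpty (ι → M) := ⟨fun x => hM.false (x i)⟩
    rw [Finset.univ_eq_empty, Finset.sum_empty, abs_zero]
    exact mul_nonneg (Finset.prod_nonneg fun _ _ => Finset.sum_nonneg fun _ _ => abs_nonneg _) hB0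
  obtain ⟨E, hE⟩ : ∃ E : Finset ι, E = (Finset.univ.erase i).erase j := ⟨_, rfl⟩
  have hEm : ∀ u, u ∈ E ↔ u ≠ i ∧ u ≠ j := by
    intro u
    rw [hE]
    exact abspair_mem i j u
  let T : ι → Finset M := fun u => if u ∈ E then Finset.univ else {m0}
  let t : Finset (ι → M) := Fintype.piFinset T
  have ht : ∀ y, y ∈ t ↔ ∀ u, u ∉ E → y u = m0 := by
    intro y
    show y ∈ Fintype.piFinset T ↔ _
    rw [Fintype.mem_piFinset]
    constructor
    · intro hy u hu
      have := hy u
      simp only [T, if_neg hu, Finset.mem_singleton] at this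
      exact this
    · intro hy u
      by_cases hu : u ∈ E
      · simp only [T, if_pos hu, Finset.mem_univ]
      · simp only [T, if_neg hu, Finset.mem_singleton]
        exact hy u hu
  have hiE : i ∉ E := fun h => ((hEm i).1 h).1 rfl
  have hjE : j ∉ E := fun h => ((hEm j).1 h).2 rfl
  have key : ∀ f : (ι → M) → ℝ, ∑ x, f x = ∑ y ∈ t, ∑ a, ∑ b, f (abspair_up i j y a b) := by
    intro f
    have e1 : ∑ y ∈ t, ∑ a, ∑ b, f (abspair_up i j y a b) =
        ∑ z ∈ t ×ˢ (Finset.univ ×ˢ Finset.univ : Finset (M × M)),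
          f (abspair_up i j z.1 z.2.1 z.2.2) := by
      rw [Finset.sum_product]
      apply Finset.sum_congr rfl
      intro y _
      rw [Finset.sum_product]
    rw [e1]
    refine Finset.sum_nbij' (fun x => (abspair_up i j x m0 m0, (x i, x j)))
      (fun z => abspair_up i j z.1 z.2.1 z.2.2) ?_ ?_ ?_ ?_ ?_
    · intro x _
      rw [Finset.mem_product, Finset.mem_product]
      refine ⟨?_, Finset.mem_univ _, Finset.mem_univ _⟩
      rw [ht]
      intro u hu
      rw [hEm] at hu
      by_cases h1 : u = i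
      · rw [h1]
        exact abspair_up_i i j hij _ _ _
      · have h2 : u = j := by
          by_contra h2
          exact hu ⟨h1, h2⟩
        rw [h2]
        exact abspair_up_j i j _ _ _
    · intro z _
      exact Finset.mem_univ _
    · intro x _
      funext u
      show abspair_up i j (abspair_up i j x m0 m0) (x i) (x j) u = x u
      by_cases h1 : u = i
      · rw [h1]
        exact abspair_up_i i j hij _ _ _
      · by_cases h2 : u = j
        · rw [h2]
          exact abspair_up_j i j _ _ _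
        · rw [abspair_up_u _ _ _ _ _ u h1 h2, abspair_up_u _ _ _ _ _ u h1 h2]
    · rintro ⟨y, a, b⟩ hz
      rw [Finset.mem_product, ht] at hz
      have hy := hz.1
      simp only at hy ⊢
      rw [abspair_up_i i j hij, abspair_up_j]
      congr 1
      funext u
      by_cases h1 : u = i
      · rw [h1, abspair_up_i i j hij]
        exact (hy i hiE).symm
      · by_cases h2 : u = j
        · rw [h2, abspair_up_j]
          exact (hy j hjE).symm
        · rw [abspair_up_u _ _ _ _ _ u h1 h2, abspair_up_u _ _ _ _ _ u h1 h2]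
    · intro x _
      show f x = f (abspair_up i j (abspair_up i j x m0 m0) (x i) (x j))
      congr 1
      funext u
      by_cases h1 : u = i
      · rw [h1]
        exact (abspair_up_i i j hij _ _ _).symm
      · by_cases h2 : u = j
        · rw [h2]
          exact (abspair_up_j i j _ _ _).symm
        · rw [abspair_up_u _ _ _ _ _ u h1 h2, abspair_up_u _ _ _ _ _ u h1 h2]
  rw [key]
  refine (Finset.abs_sum_le_sum_abs _ _).trans ?_
  have hfin : (∏ u ∈ (Finset.univ.erase i).erase j, ∑ a, |h u a|) =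
      ∑ y ∈ t, ∏ u ∈ E, |h u (y u)| := by
    have e1 := Finset.prod_univ_sum T (fun u a => if u ∈ E then |h u a| else 1)
    have e2 : ∀ y : ι → M, ∏ u, (if u ∈ E then |h u (y u)| else 1) = ∏ u ∈ E, |h u (y u)| := by
      intro y
      rw [Finset.prod_ite_mem, Finset.univ_inter]
    have e3 : ∏ u, ∑ a ∈ T u, (if u ∈ E then |h u a| else 1) = ∏ u ∈ E, ∑ a, |h u a| := by
      have e4 : ∀ u, ∑ a ∈ T u, (if u ∈ E then |h u a| else 1) =
          if u ∈ E then ∑ a, |h u a| else 1 := by
        intro u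
        by_cases hu : u ∈ E
        · simp only [T, if_pos hu]
        · simp only [T, if_neg hu, Finset.sum_singleton]
      rw [Finset.prod_congr rfl fun u _ => e4 u, Finset.prod_ite_mem, Finset.univ_inter]
    rw [← hE, ← e3, e1]
    exact Finset.sum_congr rfl fun y _ => e2 y
  rw [hfin, Finset.sum_mul]
  apply Finset.sum_le_sum
  intro y _
  have e1 : ∑ a, ∑ b, ((∏ u, h u (abspair_up i j y a b u)) *
      ∏ u, ∏ w, (if u = w then 1 else
        g u w (abspair_up i j y a b u) (abspair_up i j y a b w))) =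
      ((∏ u ∈ E, h u (y u)) * ∏ u ∈ E, ∏ w ∈ E, (if u = w then 1 else g u w (y u) (y w))) *
      ∑ a, ∑ b, ((∏ w ∈ E, g i w a (y w)) * ∏ u ∈ E, g u i (y u) a) *
        ((∏ w ∈ E, g j w b (y w)) * ∏ u ∈ E, g u j (y u) b) *
        (h i a * h j b * (g i j a b * g j i b a)) := by
    rw [Finset.mul_sum]
    apply Finset.sum_congr rfl
    intro a _
    rw [Finset.mul_sum]
    apply Finset.sum_congr rfl
    intro b _
    rw [abspair_inner i j hij h g y a b, hE]
  rw [e1, abs_mul]
  apply mul_le_mul
  · rw [abs_mul]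
    have e2 : |∏ u ∈ E, ∏ w ∈ E, (if u = w then (1 : ℝ) else g u w (y u) (y w))| ≤ 1 := by
      apply abspair_prod_le
      intro u _
      apply abspair_prod_le
      intro w _
      split_ifs
      · rw [abs_one]
      · exact hg _ _ _ _
    rw [← Finset.abs_prod]
    exact mul_le_of_le_one_right (abs_nonneg _) e2
  · apply hB (fun a => (∏ w ∈ E, g i w a (y w)) * ∏ u ∈ E, g u i (y u) a)
      (fun b => (∏ w ∈ E, g j w b (y w)) * ∏ u ∈ E, g u j (y u) b)
    · intro a
      rw [abs_mul]
      exact mul_le_one₀ (abspair_prod_le _ _ fun u _ => hg _ _ _ _) (abs_nonneg _)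
        (abspair_prod_le _ _ fun u _ => hg _ _ _ _)
    · intro b
      rw [abs_mul]
      exact mul_le_one₀ (abspair_prod_le _ _ fun u _ => hg _ _ _ _) (abs_nonneg _)
        (abspair_prod_le _ _ fun u _ => hg _ _ _ _)
  · exact abs_nonneg _
  · exact Finset.prod_nonneg fun _ _ => abs_nonneg _

end Pool.Agent.H94.PC
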