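import Pool.Agent.H94.PC.Em

set_option autoImplicit false

/-!
# [H94 PC COV] The covering identity

`J` is the set of the large variables.
* If `J` contains a linked pair, it is contained in no `US k s` (`em_unlinked`).
* If `J` has no linked pair and at least 4 elements, then `J = US k s` (`unlinked_classify`) and
  `J ⊆ US k' s'` iff `(k', s') = (k, s)` (`US_subset`).
* In all cases the difference is at most `24` in absolute value (the sum has 24 terms).
-/

namespace Pool.Agent.H94.PC

/-- `1` if `J` contains a linked pair -/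
def lkI (J : Finset Ix) : ℝ := if ∃ u ∈ J, ∃ w ∈ J, Lk u w then 1 else 0

/-- the number of the 24 maximal unlinked sets which contain `J` -/
def cvN (J : Finset Ix) : ℝ := ∑ k : Fin 6, ∑ s : Ka, if J ⊆ US k s then (1 : ℝ) else 0

theorem cov_cvN_eq_zero {J : Finset Ix} (hl : ∃ u ∈ J, ∃ w ∈ J, Lk u w) : cvN J = 0 := by
  obtain ⟨u, hu, w, hw, hlk⟩ := hl
  refine Finset.sum_eq_zero fun k _ => Finset.sum_eq_zero fun s _ => if_neg fun hsub => ?_
  obtain ⟨i, _, rfl⟩ := Finset.mem_image.1 (hsub hu)
  obtain ⟨j, _, rfl⟩ := Finset.mem_image.1 (hsub hw)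
  exact em_unlinked k s i j hlk

theorem cov_eq (J : Finset Ix) (h : 4 ≤ J.card) : lkI J + cvN J = 1 := by
  by_cases hl : ∃ u ∈ J, ∃ w ∈ J, Lk u w
  · rw [lkI, if_pos hl, cov_cvN_eq_zero hl, add_zero]
  · rw [lkI, if_neg hl, zero_add]
    push Not at hl
    obtain ⟨k, s, hJ⟩ := unlinked_classify J hl h
    rw [cvN, Finset.sum_eq_single k, Finset.sum_eq_single s, if_pos (hJ ▸ le_rfl)]
    · intro s' _ hs'
      refine if_neg fun hsub => hs' ?_
      rw [hJ] at hsub
      exact (US_subset hsub).2.symm
    · exact fun hs => absurd (Finset.mem_univ _) hs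
    · intro k' _ hk'
      refine Finset.sum_eq_zero fun s' _ => if_neg fun hsub => hk' ?_
      rw [hJ] at hsub
      exact (US_subset hsub).1.symm
    · exact fun hs => absurd (Finset.mem_univ _) hs

theorem cov_abs (J : Finset Ix) : |1 - lkI J - cvN J| ≤ 24 := by
  by_cases hl : ∃ u ∈ J, ∃ w ∈ J, Lk u w
  · rw [lkI, if_pos hl, cov_cvN_eq_zero hl]
    norm_num
  · rw [lkI, if_neg hl]
    have h0 : 0 ≤ cvN J := by
      refine Finset.sum_nonneg fun k _ => Finset.sum_nonneg fun s _ => ?_
      split_ifs
      · exact zero_le_one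
      · exact le_rfl
    have h1 : cvN J ≤ 24 := by
      have h2 : cvN J ≤ ∑ _k : Fin 6, ∑ _s : Ka, (1 : ℝ) := by
        refine Finset.sum_le_sum fun k _ => Finset.sum_le_sum fun s _ => ?_
        split_ifs
        · exact le_rfl
        · exact zero_le_one
      refine h2.trans (le_of_eq ?_)
      simp [Fintype.card_prod, ZMod.card]
      norm_num
    rw [abs_le]
    constructor <;> linarith

end Pool.Agent.H94.PC
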