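import Pool.Agent.H94.PC.Wt
import Pool.Agent.H94.PC.Facs

set_option autoImplicit false

/-!
# [H94 PC FEW] Configurations with at most three large variables

`q = Nat.card F`, `J(x) = {u : z ≤ deg (x u)}`.  If `WW p n x ≠ 0` then `∏ u, x u ∈ Sq F n`, so
`∑ u, deg (x u) = n`, and `|WW p n x| ≤ (1/4) ^ om (∏ u, x u) = ∏ u, (1/4) ^ om (x u)` (`om_prod`; `|sg| = 1`,
`|js| ≤ 1`) `= q ^ n * ∏ u, wt (x u)`.
If `#J(x) ≤ 3` there are different `u₀, u₁, u₂` such that `deg (x u) < z` for all other `u`, and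
`deg (x u₀)` is the largest degree, so `3 deg (x u₀) + 13 z ≥ n`, `deg (x u₀) ≥ n / 6`
(`32 z ≤ n`).  So the sum is at most the sum over all triples `(u₀, u₁, u₂)` of different indices
(at most `16 ^ 3`) of
`q ^ n * ∑ x, 1[deg (x u) < z for u ≠ u₀, u₁, u₂] 1[deg (x u₀) = n - ∑ (u ≠ u₀), deg (x u)]
  1[deg (x u₀) ≥ n / 6] ∏ u, wt (x u)`.
Sum first over `x u₀`: `sum_wt_eq` gives at most `(n / 6) ^ (-3/4)`; then over `x u₁`, `x u₂`:
`sum_wt_lt` with `z = n + 1` gives `4 (n + 1) ^ (1/4)` each; and `4 z ^ (1/4)` for each of the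
other 13.  Total: `16 ^ 3 * q ^ n * (n / 6) ^ (-3/4) * 16 (n + 1) ^ (1/2) * 4 ^ 13 z ^ (13/4)
≤ 10 ^ 16 q ^ n n ^ (-1/4) z ^ 4` (as `6 ^ (3/4) ≤ 4`, `(n + 1) ^ (1/2) ≤ 2 n ^ (1/2)`).
Suggestion for the sum over `x`: a general lemma: for `f : ι → M → ℝ`, `f ≥ 0`, and `S : (ι → M) → M → ℝ`...
or split off the coordinate `u₀` (`Equiv.funSplitAt`, `Equiv.piSplitAt`), and use
`Finset.prod_univ_sum` for the product over the other coordinates with
`f u A = wt A * 1[deg A < z]` or `wt A * 1[deg A < n + 1]`.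
-/

namespace Pool.Agent.H94.PC

open Polynomial

variable {F : Type} [Field F] [Finite F]

theorem few_abs_js (A B : F[X]) : |js A B| ≤ 1 := by
  unfold js ch
  split_ifs <;> simp

theorem few_prod_nonneg {ι : Type} [Fintype ι] {n : ℕ} (x : ι → Mn F n) : 0 ≤ ∏ u, wt (x u).1 :=
  Finset.prod_nonneg fun u _ => wt_nonneg _

theorem few_WW (p : Par) (n : ℕ) (x : Ix → Mn F n) :
    |WW p n x| ≤ if ∑ u, (x u).1.natDegree = n then
      (Nat.card F : ℝ) ^ n * ∏ u, wt (x u).1 else 0 := by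
  classical
  have hq : (0 : ℝ) < (Nat.card F : ℝ) := by
    exact_mod_cast Nat.card_pos
  have hnn : 0 ≤ (Nat.card F : ℝ) ^ n * ∏ u, wt (x u).1 :=
    mul_nonneg (by positivity) (few_prod_nonneg x)
  by_cases hC : InC p n (∏ u, (x u).1)
  · have hW : WW p n x = term p fun u => (x u).1 := by
      unfold WW
      rw [if_pos hC]
    obtain ⟨-, h2, h3⟩ := mem_Sq.1 hC.1
    rw [natDegree_prod_of_monic _ _ (fun u _ => (x u).2.1)] at h2
    rw [if_pos h2, hW]
    have hom := om_prod (fun u => (x u).1) (fun u => (x u).2.1) h3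
    have hJ : |∏ u : Ix, ∏ w : Ix, js (x w).1 (x u).1 ^ (Phi u w).val| ≤ 1 := by
      rw [Finset.abs_prod]
      apply Finset.prod_le_one
      · intro u _
        exact abs_nonneg _
      · intro u _
        rw [Finset.abs_prod]
        apply Finset.prod_le_one
        · intro w _
          exact abs_nonneg _
        · intro w _
          rw [abs_pow]
          exact pow_le_one₀ (abs_nonneg _) (few_abs_js _ _)
    have h4 : |term p fun u => (x u).1| ≤ (1 / 4 : ℝ) ^ om (∏ u, (x u).1) := by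
      unfold term
      rw [abs_mul, abs_mul, abs_sg, mul_one, abs_of_pos (by positivity)]
      exact mul_le_of_le_one_right (by positivity) hJ
    have h5 : (Nat.card F : ℝ) ^ n * ∏ u, wt (x u).1 = (1 / 4 : ℝ) ^ om (∏ u, (x u).1) := by
      have h6 : ∏ u, wt (x u).1 = (∏ u, (1 / 4 : ℝ) ^ om (x u).1) /
          ∏ u, (Nat.card F : ℝ) ^ (x u).1.natDegree := by
        rw [← Finset.prod_div_distrib]
        rfl
      have h7 : ∏ u, (Nat.card F : ℝ) ^ (x u).1.natDegree = (Nat.card F : ℝ) ^ n := by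
        rw [Finset.prod_pow_eq_pow_sum, h2]
      have h8 : ∏ u, (1 / 4 : ℝ) ^ om (x u).1 = (1 / 4 : ℝ) ^ om (∏ u, (x u).1) := by
        rw [Finset.prod_pow_eq_pow_sum, hom]
      rw [h6, h7, h8, mul_comm]
      exact div_mul_cancel₀ _ (pow_pos hq n).ne'
    rw [h5]
    exact h4
  · have hW : WW p n x = 0 := by
      unfold WW
      rw [if_neg hC]
    rw [hW, abs_zero]
    split_ifs
    · exact hnn
    · exact le_rfl

/-- sum over the largest variable -/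
theorem few_one (n s : ℕ) (hn : 1 ≤ n) :
    ∑ a : Mn F n, (if a.1.natDegree + s = n ∧ n ≤ 6 * a.1.natDegree then wt a.1 else 0) ≤
      ((n : ℝ) / 6) ^ (-(3 / 4) : ℝ) := by
  have hn0 : (0 : ℝ) < (n : ℝ) / 6 := by
    have : (0 : ℝ) < n := by exact_mod_cast hn
    positivity
  have hpos : 0 ≤ ((n : ℝ) / 6) ^ (-(3 / 4) : ℝ) := Real.rpow_nonneg hn0.le _
  by_cases h : s ≤ n ∧ n ≤ 6 * (n - s)
  · have h1 : ∑ a : Mn F n, (if a.1.natDegree + s = n ∧ n ≤ 6 * a.1.natDegree then wt a.1 else 0) ≤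
        ∑ a : Mn F n, (if a.1.natDegree = n - s then wt a.1 else 0) := by
      apply Finset.sum_le_sum
      intro a _
      by_cases h2 : a.1.natDegree + s = n ∧ n ≤ 6 * a.1.natDegree
      · rw [if_pos h2, if_pos (by omega)]
      · rw [if_neg h2]
        split_ifs
        · exact wt_nonneg _
        · exact le_rfl
    refine h1.trans ((sum_wt_eq n (n - s)).trans ?_)
    apply Real.rpow_le_rpow_of_nonpos hn0 _ (by norm_num)
    have h3 : ((n : ℕ) : ℝ) ≤ 6 * ((n - s : ℕ) : ℝ) := by exact_mod_cast h.2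
    linarith
  · have h1 : ∑ a : Mn F n, (if a.1.natDegree + s = n ∧ n ≤ 6 * a.1.natDegree then wt a.1 else 0) =
        0 := by
      apply Finset.sum_eq_zero
      intro a _
      rw [if_neg]
      intro h2
      apply h
      omega
    rw [h1]
    exact hpos

theorem few_all (n : ℕ) : ∑ A : Mn F n, wt A.1 ≤ 4 * ((n : ℝ) + 1) ^ (1 / 4 : ℝ) := by
  have h1 := sum_wt_lt (F := F) n (n + 1)
  have h2 : ∑ A : Mn F n, (if A.1.natDegree < n + 1 then wt A.1 else 0) = ∑ A : Mn F n, wt A.1 := by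
    apply Finset.sum_congr rfl
    intro A _
    rw [if_pos (Nat.lt_succ_of_le A.2.2.2)]
  rw [h2] at h1
  push_cast at h1
  exact h1

theorem few_core {ι : Type} [Fintype ι] [DecidableEq ι] (n z : ℕ) (hn : 1 ≤ n) (u₀ : ι)
    (T : Finset ι) :
    ∑ x : ι → Mn F n, (if (∀ u, u ∉ T → (x u).1.natDegree < z) ∧
        ∑ u, (x u).1.natDegree = n ∧ n ≤ 6 * (x u₀).1.natDegree then ∏ u, wt (x u).1 else 0) ≤
      ((n : ℝ) / 6) ^ (-(3 / 4) : ℝ) * ∏ u : {j // j ≠ u₀},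
        (if u.1 ∈ T then 4 * ((n : ℝ) + 1) ^ (1 / 4 : ℝ) else 4 * (z : ℝ) ^ (1 / 4 : ℝ)) := by
  have hn0 : (0 : ℝ) < (n : ℝ) / 6 := by
    have : (0 : ℝ) < n := by exact_mod_cast hn
    positivity
  have hpos : 0 ≤ ((n : ℝ) / 6) ^ (-(3 / 4) : ℝ) := Real.rpow_nonneg hn0.le _
  rw [← (Equiv.funSplitAt u₀ (Mn F n)).symm.sum_comp, Fintype.sum_prod_type, Finset.sum_comm]
  have key : ∀ y : {j // j ≠ u₀} → Mn F n,
      ∑ a : Mn F n, (if (∀ u, u ∉ T →
          ((Equiv.funSplitAt u₀ (Mn F n)).symm (a, y) u).1.natDegree < z) ∧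
        ∑ u, ((Equiv.funSplitAt u₀ (Mn F n)).symm (a, y) u).1.natDegree = n ∧
          n ≤ 6 * ((Equiv.funSplitAt u₀ (Mn F n)).symm (a, y) u₀).1.natDegree then
        ∏ u, wt ((Equiv.funSplitAt u₀ (Mn F n)).symm (a, y) u).1 else 0) ≤
      ((n : ℝ) / 6) ^ (-(3 / 4) : ℝ) * ∏ u : {j // j ≠ u₀},
        (if u.1 ∈ T ∨ (y u).1.natDegree < z then wt (y u).1 else 0) := by
    intro y
    have e0 : ∀ a : Mn F n, (Equiv.funSplitAt u₀ (Mn F n)).symm (a, y) u₀ = a := by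
      intro a
      simp [Equiv.funSplitAt, Equiv.piSplitAt]
    have e1 : ∀ (a : Mn F n) (u : {j // j ≠ u₀}),
        (Equiv.funSplitAt u₀ (Mn F n)).symm (a, y) u.1 = y u := by
      intro a u
      simp [Equiv.funSplitAt, Equiv.piSplitAt, u.2]
    have e2 : ∀ a : Mn F n, ∑ u, ((Equiv.funSplitAt u₀ (Mn F n)).symm (a, y) u).1.natDegree =
        a.1.natDegree + ∑ u : {j // j ≠ u₀}, (y u).1.natDegree := by
      intro a
      rw [Fintype.sum_eq_add_sum_subtype_ne _ u₀, e0]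
      congr 1
      apply Finset.sum_congr rfl
      intro u _
      rw [e1]
    have e3 : ∀ a : Mn F n, ∏ u, wt ((Equiv.funSplitAt u₀ (Mn F n)).symm (a, y) u).1 =
        wt a.1 * ∏ u : {j // j ≠ u₀}, wt (y u).1 := by
      intro a
      rw [Fintype.prod_eq_mul_prod_subtype_ne _ u₀, e0]
      congr 1
      apply Finset.prod_congr rfl
      intro u _
      rw [e1]
    by_cases hy : ∀ u : {j // j ≠ u₀}, u.1 ∈ T ∨ (y u).1.natDegree < z
    · have h1 : ∏ u : {j // j ≠ u₀}, (if u.1 ∈ T ∨ (y u).1.natDegree < z then wt (y u).1 else 0) =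
          ∏ u : {j // j ≠ u₀}, wt (y u).1 :=
        Finset.prod_congr rfl fun u _ => if_pos (hy u)
      rw [h1]
      have h2 : 0 ≤ ∏ u : {j // j ≠ u₀}, wt (y u).1 := few_prod_nonneg y
      refine le_trans ?_ (mul_le_mul_of_nonneg_right
        (few_one (F := F) n (∑ u : {j // j ≠ u₀}, (y u).1.natDegree) hn) h2)
      rw [Finset.sum_mul]
      apply Finset.sum_le_sum
      intro a _
      rw [e2, e3, e0]
      by_cases h3 : (∀ u, u ∉ T →
          ((Equiv.funSplitAt u₀ (Mn F n)).symm (a, y) u).1.natDegree < z) ∧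
          a.1.natDegree + ∑ u : {j // j ≠ u₀}, (y u).1.natDegree = n ∧ n ≤ 6 * a.1.natDegree
      · rw [if_pos h3, if_pos h3.2]
      · rw [if_neg h3]
        split_ifs
        · exact mul_nonneg (wt_nonneg _) h2
        · rw [zero_mul]
    · push Not at hy
      obtain ⟨u, hu1, hu2⟩ := hy
      have h1 : ∀ a : Mn F n, ¬ ((∀ u, u ∉ T →
          ((Equiv.funSplitAt u₀ (Mn F n)).symm (a, y) u).1.natDegree < z) ∧
        ∑ u, ((Equiv.funSplitAt u₀ (Mn F n)).symm (a, y) u).1.natDegree = n ∧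
          n ≤ 6 * ((Equiv.funSplitAt u₀ (Mn F n)).symm (a, y) u₀).1.natDegree) := by
        rintro a ⟨h2, -⟩
        have h3 := h2 u.1 hu1
        rw [e1] at h3
        omega
      rw [Finset.sum_eq_zero (fun a _ => if_neg (h1 a))]
      apply mul_nonneg hpos
      apply Finset.prod_nonneg
      intro u _
      split_ifs
      · exact wt_nonneg _
      · exact le_rfl
  refine (Finset.sum_le_sum fun y _ => key y).trans ?_
  rw [← Finset.mul_sum]
  apply mul_le_mul_of_nonneg_left _ hpos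
  have h1 := Finset.prod_univ_sum (fun _ : {j // j ≠ u₀} => (Finset.univ : Finset (Mn F n)))
    (fun u A => if u.1 ∈ T ∨ A.1.natDegree < z then wt A.1 else 0)
  rw [Fintype.piFinset_univ] at h1
  rw [← h1]
  apply Finset.prod_le_prod
  · intro u _
    apply Finset.sum_nonneg
    intro A _
    split_ifs
    · exact wt_nonneg _
    · exact le_rfl
  · intro u _
    by_cases hu : u.1 ∈ T
    · rw [if_pos hu]
      refine le_trans (le_of_eq ?_) (few_all (F := F) n)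
      apply Finset.sum_congr rfl
      intro A _
      rw [if_pos (Or.inl hu)]
    · rw [if_neg hu]
      refine le_trans (le_of_eq ?_) (sum_wt_lt (F := F) n z)
      apply Finset.sum_congr rfl
      intro A _
      by_cases hA : A.1.natDegree < z
      · rw [if_pos (Or.inr hA), if_pos hA]
      · rw [if_neg (by tauto), if_neg hA]

theorem few_card : Fintype.card Ix = 16 := rfl

theorem few_pr (u₀ : Ix) (T : Finset Ix) (hT : T.card = 3) (hu : u₀ ∈ T) (B S : ℝ) (hB : 0 < B) :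
    ∏ u : {j // j ≠ u₀}, (if u.1 ∈ T then B else S) = B ^ 2 * S ^ 13 := by
  have h1 := Fintype.prod_eq_mul_prod_subtype_ne (fun u : Ix => if u ∈ T then B else S) u₀
  have h2 : ∏ u : Ix, (if u ∈ T then B else S) = B ^ 3 * S ^ 13 := by
    rw [Finset.prod_ite, Finset.prod_const, Finset.prod_const]
    have h3 : (Finset.univ.filter fun u : Ix => u ∈ T) = T := by
      ext u
      simp
    have h4 : (Finset.univ.filter fun u : Ix => u ∉ T) = Finset.univ \ T := by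
      ext u
      simp
    rw [h3, h4, Finset.card_sdiff_of_subset (Finset.subset_univ _), Finset.card_univ, few_card, hT]
  rw [h2] at h1
  simp only [if_pos hu] at h1
  have h5 : B * (∏ u : {j // j ≠ u₀}, (if u.1 ∈ T then B else S)) = B * (B ^ 2 * S ^ 13) := by
    rw [← h1]
    ring
  exact mul_left_cancel₀ hB.ne' h5

theorem few_num (n z : ℕ) (hz : 1 ≤ z) (hn : 1 ≤ n) :
    ((n : ℝ) / 6) ^ (-(3 / 4) : ℝ) * ((4 * ((n : ℝ) + 1) ^ (1 / 4 : ℝ)) ^ 2 *
      (4 * (z : ℝ) ^ (1 / 4 : ℝ)) ^ 13) ≤ 10 ^ 10 * ((n : ℝ) ^ (-(1 / 4) : ℝ) * (z : ℝ) ^ 4) := by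
  have hn1 : (1 : ℝ) ≤ n := by exact_mod_cast hn
  have hn0 : (0 : ℝ) < n := by linarith
  have hz1 : (1 : ℝ) ≤ z := by exact_mod_cast hz
  have hz0 : (0 : ℝ) < z := by linarith
  have h1 : ((n : ℝ) / 6) ^ (-(3 / 4) : ℝ) ≤ 4 * (n : ℝ) ^ (-(3 / 4) : ℝ) := by
    rw [Real.div_rpow hn0.le (by norm_num), Real.rpow_neg (by norm_num : (0 : ℝ) ≤ 6), div_inv_eq_mul,
      mul_comm]
    apply mul_le_mul_of_nonneg_right _ (Real.rpow_nonneg hn0.le _)
    have h2 : (6 : ℝ) ^ (3 / 4 : ℝ) = (216 : ℝ) ^ (1 / 4 : ℝ) := by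
      have : (216 : ℝ) = (6 : ℝ) ^ (3 : ℝ) := by norm_num
      rw [this, ← Real.rpow_mul (by norm_num)]
      norm_num
    have h3 : (4 : ℝ) = (256 : ℝ) ^ (1 / 4 : ℝ) := by
      have : (256 : ℝ) = (4 : ℝ) ^ (4 : ℝ) := by norm_num
      rw [this, ← Real.rpow_mul (by norm_num)]
      norm_num
    rw [h2]
    conv_rhs => rw [h3]
    exact Real.rpow_le_rpow (by norm_num) (by norm_num) (by norm_num)
  have h2 : (4 * ((n : ℝ) + 1) ^ (1 / 4 : ℝ)) ^ 2 ≤ 32 * (n : ℝ) ^ (1 / 2 : ℝ) := by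
    have h3 : (4 * ((n : ℝ) + 1) ^ (1 / 4 : ℝ)) ^ 2 = 16 * ((n : ℝ) + 1) ^ (1 / 2 : ℝ) := by
      rw [mul_pow, ← Real.rpow_natCast, ← Real.rpow_natCast, ← Real.rpow_mul (by linarith)]
      norm_num
    have h4 : ((n : ℝ) + 1) ^ (1 / 2 : ℝ) ≤ 2 * (n : ℝ) ^ (1 / 2 : ℝ) := by
      calc ((n : ℝ) + 1) ^ (1 / 2 : ℝ) ≤ (4 * (n : ℝ)) ^ (1 / 2 : ℝ) :=
            Real.rpow_le_rpow (by linarith) (by linarith) (by norm_num)
        _ = 2 * (n : ℝ) ^ (1 / 2 : ℝ) := by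
            rw [Real.mul_rpow (by norm_num) hn0.le]
            congr 1
            have : (4 : ℝ) = (2 : ℝ) ^ (2 : ℝ) := by norm_num
            rw [this, ← Real.rpow_mul (by norm_num)]
            norm_num
    rw [h3]
    linarith
  have h3 : (4 * (z : ℝ) ^ (1 / 4 : ℝ)) ^ 13 ≤ 4 ^ 13 * (z : ℝ) ^ 4 := by
    rw [mul_pow]
    apply mul_le_mul_of_nonneg_left _ (by positivity)
    rw [← Real.rpow_natCast, ← Real.rpow_natCast, ← Real.rpow_mul hz0.le]
    exact Real.rpow_le_rpow_of_exponent_le hz1 (by norm_num)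
  have h4 : (n : ℝ) ^ (-(3 / 4) : ℝ) * (n : ℝ) ^ (1 / 2 : ℝ) = (n : ℝ) ^ (-(1 / 4) : ℝ) := by
    rw [← Real.rpow_add hn0]
    norm_num
  have h5 : 0 ≤ (n : ℝ) ^ (-(3 / 4) : ℝ) := Real.rpow_nonneg hn0.le _
  have h6 : 0 ≤ (n : ℝ) ^ (1 / 2 : ℝ) := Real.rpow_nonneg hn0.le _
  have h7 : 0 ≤ (n : ℝ) ^ (-(1 / 4) : ℝ) := Real.rpow_nonneg hn0.le _
  calc ((n : ℝ) / 6) ^ (-(3 / 4) : ℝ) * ((4 * ((n : ℝ) + 1) ^ (1 / 4 : ℝ)) ^ 2 *
      (4 * (z : ℝ) ^ (1 / 4 : ℝ)) ^ 13)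
      ≤ (4 * (n : ℝ) ^ (-(3 / 4) : ℝ)) * ((32 * (n : ℝ) ^ (1 / 2 : ℝ)) *
        (4 ^ 13 * (z : ℝ) ^ 4)) := by
        apply mul_le_mul h1 _ (by positivity) (by positivity)
        exact mul_le_mul h2 h3 (by positivity) (by positivity)
    _ = (4 * 32 * 4 ^ 13) * (((n : ℝ) ^ (-(3 / 4) : ℝ) * (n : ℝ) ^ (1 / 2 : ℝ)) * (z : ℝ) ^ 4) := by
        ring
    _ = (4 * 32 * 4 ^ 13) * ((n : ℝ) ^ (-(1 / 4) : ℝ) * (z : ℝ) ^ 4) := by rw [h4]
    _ ≤ 10 ^ 10 * ((n : ℝ) ^ (-(1 / 4) : ℝ) * (z : ℝ) ^ 4) := by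
        apply mul_le_mul_of_nonneg_right (by norm_num) (by positivity)

theorem few_exists {n z : ℕ} (hn : 32 * z ≤ n) (x : Ix → Mn F n)
    (h3 : (Finset.univ.filter fun u => z ≤ (x u).1.natDegree).card ≤ 3)
    (hs : ∑ u, (x u).1.natDegree = n) :
    ∃ T : Finset Ix, T.card = 3 ∧ ∃ u₀ ∈ T, (∀ u, u ∉ T → (x u).1.natDegree < z) ∧
      n ≤ 6 * (x u₀).1.natDegree := by
  obtain ⟨T, hT1, hT2⟩ := Finset.exists_superset_card_eq h3 (by rw [few_card]; norm_num)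
  have hne : T.Nonempty := by
    rw [← Finset.card_pos]
    omega
  obtain ⟨u₀, hu₀, hmax⟩ := Finset.exists_max_image T (fun u => (x u).1.natDegree) hne
  have hout : ∀ u, u ∉ T → (x u).1.natDegree < z := by
    intro u hu
    by_contra hc
    push Not at hc
    exact hu (hT1 (Finset.mem_filter.2 ⟨Finset.mem_univ _, hc⟩))
  refine ⟨T, hT2, u₀, hu₀, hout, ?_⟩
  have h4 : ∑ u, (x u).1.natDegree = ∑ u ∈ T, (x u).1.natDegree +
      ∑ u ∈ Finset.univ \ T, (x u).1.natDegree := by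
    rw [add_comm, Finset.sum_sdiff (Finset.subset_univ T)]
  have h5 : ∑ u ∈ T, (x u).1.natDegree ≤ 3 * (x u₀).1.natDegree := by
    have h6 := Finset.sum_le_card_nsmul T (fun u => (x u).1.natDegree) (x u₀).1.natDegree hmax
    rw [hT2, smul_eq_mul] at h6
    exact h6
  have h6 : ∑ u ∈ Finset.univ \ T, (x u).1.natDegree ≤ 13 * z := by
    have h7 := Finset.sum_le_card_nsmul (Finset.univ \ T) (fun u => (x u).1.natDegree) z (by
      intro u hu
      exact (hout u (Finset.mem_sdiff.1 hu).2).le)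
    rw [Finset.card_sdiff_of_subset (Finset.subset_univ _), Finset.card_univ, few_card, hT2,
      smul_eq_mul] at h7
    exact h7
  omega

theorem few (p : Par) (n z : ℕ) (hz : 1 ≤ z) (hn : 32 * z ≤ n) :
    ∑ x : Ix → Mn F n, (if (Finset.univ.filter fun u => z ≤ (x u).1.natDegree).card ≤ 3 then
      |WW p n x| else 0) ≤
      10 ^ 16 * (Nat.card F : ℝ) ^ n * (n : ℝ) ^ (-(1 / 4) : ℝ) * (z : ℝ) ^ 4 := by
  have hq : (0 : ℝ) < (Nat.card F : ℝ) := by
    exact_mod_cast Nat.card_pos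
  have hn1 : 1 ≤ n := by omega
  have hn0 : (0 : ℝ) < n := by exact_mod_cast hn1
  let P3 : Finset (Finset Ix) := Finset.powersetCard 3 Finset.univ
  have hpt : ∀ x : Ix → Mn F n,
      (if (Finset.univ.filter fun u => z ≤ (x u).1.natDegree).card ≤ 3 then |WW p n x| else 0) ≤
      ∑ T ∈ P3, ∑ u₀ ∈ T, (Nat.card F : ℝ) ^ n *
        (if (∀ u, u ∉ T → (x u).1.natDegree < z) ∧
          ∑ u, (x u).1.natDegree = n ∧ n ≤ 6 * (x u₀).1.natDegree then ∏ u, wt (x u).1 else 0) := by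
    intro x
    have hnn : ∀ T : Finset Ix, ∀ u₀ ∈ T, 0 ≤ (Nat.card F : ℝ) ^ n *
        (if (∀ u, u ∉ T → (x u).1.natDegree < z) ∧
          ∑ u, (x u).1.natDegree = n ∧ n ≤ 6 * (x u₀).1.natDegree then ∏ u, wt (x u).1 else 0) := by
      intro T u₀ _
      apply mul_nonneg (by positivity)
      split_ifs
      · exact few_prod_nonneg x
      · exact le_rfl
    have hnn2 : 0 ≤ ∑ T ∈ P3, ∑ u₀ ∈ T, (Nat.card F : ℝ) ^ n *
        (if (∀ u, u ∉ T → (x u).1.natDegree < z) ∧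
          ∑ u, (x u).1.natDegree = n ∧ n ≤ 6 * (x u₀).1.natDegree then ∏ u, wt (x u).1 else 0) :=
      Finset.sum_nonneg fun T _ => Finset.sum_nonneg fun u₀ hu₀ => hnn T u₀ hu₀
    by_cases h3 : (Finset.univ.filter fun u => z ≤ (x u).1.natDegree).card ≤ 3
    · rw [if_pos h3]
      refine (few_WW p n x).trans ?_
      by_cases hs : ∑ u, (x u).1.natDegree = n
      · rw [if_pos hs]
        obtain ⟨T, hT, u₀, hu₀, hout, hbig⟩ := few_exists hn x h3 hs
        have hTP : T ∈ P3 := Finset.mem_powersetCard.2 ⟨Finset.subset_univ _, hT⟩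
        have h4 := Finset.single_le_sum (f := fun T : Finset Ix => ∑ u₀ ∈ T, (Nat.card F : ℝ) ^ n *
          (if (∀ u, u ∉ T → (x u).1.natDegree < z) ∧
            ∑ u, (x u).1.natDegree = n ∧ n ≤ 6 * (x u₀).1.natDegree then
            ∏ u, wt (x u).1 else 0))
          (fun T _ => Finset.sum_nonneg fun u₀ hu₀ => hnn T u₀ hu₀) hTP
        refine le_trans ?_ h4
        have h5 := Finset.single_le_sum (f := fun u₀ : Ix => (Nat.card F : ℝ) ^ n *
          (if (∀ u, u ∉ T → (x u).1.natDegree < z) ∧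
            ∑ u, (x u).1.natDegree = n ∧ n ≤ 6 * (x u₀).1.natDegree then
            ∏ u, wt (x u).1 else 0)) (fun u₀ hu₀ => hnn T u₀ hu₀) hu₀
        refine le_trans (le_of_eq ?_) h5
        rw [if_pos ⟨hout, hs, hbig⟩]
      · rw [if_neg hs]
        exact hnn2
    · rw [if_neg h3]
      exact hnn2
  refine (Finset.sum_le_sum fun x _ => hpt x).trans ?_
  rw [Finset.sum_comm]
  have hT : ∀ T ∈ P3, ∑ x : Ix → Mn F n, ∑ u₀ ∈ T, (Nat.card F : ℝ) ^ n *
        (if (∀ u, u ∉ T → (x u).1.natDegree < z) ∧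
          ∑ u, (x u).1.natDegree = n ∧ n ≤ 6 * (x u₀).1.natDegree then ∏ u, wt (x u).1 else 0) ≤
      3 * ((Nat.card F : ℝ) ^ n * (10 ^ 10 * ((n : ℝ) ^ (-(1 / 4) : ℝ) * (z : ℝ) ^ 4))) := by
    intro T hT
    have hTc : T.card = 3 := (Finset.mem_powersetCard.1 hT).2
    rw [Finset.sum_comm]
    have h4 : ∀ u₀ ∈ T, ∑ x : Ix → Mn F n, (Nat.card F : ℝ) ^ n *
        (if (∀ u, u ∉ T → (x u).1.natDegree < z) ∧
          ∑ u, (x u).1.natDegree = n ∧ n ≤ 6 * (x u₀).1.natDegree then ∏ u, wt (x u).1 else 0) ≤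
        (Nat.card F : ℝ) ^ n * (10 ^ 10 * ((n : ℝ) ^ (-(1 / 4) : ℝ) * (z : ℝ) ^ 4)) := by
      intro u₀ hu₀
      rw [← Finset.mul_sum]
      apply mul_le_mul_of_nonneg_left _ (by positivity)
      refine (few_core n z hn1 u₀ T).trans ?_
      rw [few_pr u₀ T hTc hu₀ _ _ (by positivity)]
      exact few_num n z hz hn1
    have h5 := Finset.sum_le_card_nsmul T _ _ h4
    rw [hTc, nsmul_eq_mul] at h5
    exact_mod_cast h5
  have h6 := Finset.sum_le_card_nsmul P3 _ _ hT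
  have hc : P3.card = 560 := by
    rw [Finset.card_powersetCard, Finset.card_univ, few_card]
    rfl
  rw [hc, nsmul_eq_mul] at h6
  refine h6.trans ?_
  have h7 : 0 ≤ (Nat.card F : ℝ) ^ n * ((n : ℝ) ^ (-(1 / 4) : ℝ) * (z : ℝ) ^ 4) := by positivity
  generalize (Nat.card F : ℝ) ^ n = Q at h7 ⊢
  generalize (n : ℝ) ^ (-(1 / 4) : ℝ) = N at h7 ⊢
  generalize (z : ℝ) ^ 4 = Z at h7 ⊢
  calc ((560 : ℕ) : ℝ) * (3 * (Q * (10 ^ 10 * (N * Z)))) = (560 * 3 * 10 ^ 10) * (Q * (N * Z)) := by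
        push_cast
        ring
    _ ≤ 10 ^ 16 * (Q * (N * Z)) := mul_le_mul_of_nonneg_right (by norm_num) h7
    _ = 10 ^ 16 * Q * N * Z := by ring

end Pool.Agent.H94.PC
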