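import Pool.Agent.H94.PC.LkClass

/-!
# [H94 PC LKS] Two large linked variables: total

Partition the configurations by the class `u ↦ (deg (x u), ty (x u))`, a function
`c : Ix → ℕ × Ty` with `(c u).1 ≤ n` (for `x : Ix → Mn F n`); the condition of the sum depends only on the
class.  There are `((n + 1) * 8) ^ 16` classes (`Fintype.piFinset` of
`(Finset.range (n + 1)) ×ˢ Finset.univ`, `Fintype.card Ix = 16`, `Fintype.card Ty = 8`), and each
contributes at most `(n + 1) q ^ n q ^ (-z/4)` by `lk_class`.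
-/

set_option autoImplicit false

namespace Pool.Agent.H94.PC

open Polynomial

variable {F : Type} [Field F] [Finite F]

theorem lk_sum (h2 : (2 : F) ≠ 0) (p : Par) (n z : ℕ) :
    |∑ x : Ix → Mn F n, (if ∃ u w, Lk u w ∧ z ≤ (x u).1.natDegree ∧ z ≤ (x w).1.natDegree then
      WW p n x else 0)| ≤
      8 ^ 16 * ((n : ℝ) + 1) ^ 17 * (Nat.card F : ℝ) ^ n * (Nat.card F : ℝ) ^ (-(z : ℝ) / 4) := by
  obtain ⟨G, hG⟩ : ∃ G : (Ix → Mn F n) → ℝ, G = fun x =>
      (if ∃ u w, Lk u w ∧ z ≤ (x u).1.natDegree ∧ z ≤ (x w).1.natDegree then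
        WW p n x else 0) := ⟨_, rfl⟩
  obtain ⟨C, hC⟩ : ∃ C : Finset (Ix → ℕ × Ty), C = Fintype.piFinset
      (fun _ : Ix => (Finset.range (n + 1)) ×ˢ (Finset.univ : Finset Ty)) := ⟨_, rfl⟩
  obtain ⟨Bd, hBd⟩ : ∃ Bd : ℝ, Bd = (n + 1) * (Nat.card F : ℝ) ^ n *
      (Nat.card F : ℝ) ^ (-(z : ℝ) / 4) := ⟨_, rfl⟩
  have hBd0 : 0 ≤ Bd := by
    rw [hBd]
    positivity
  have hcls : ∀ x : Ix → Mn F n,
      (fun u => ((x u).1.natDegree, ty (x u).1)) ∈ C := by
    intro x
    rw [hC, Fintype.mem_piFinset]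
    intro u
    rw [Finset.mem_product]
    refine ⟨?_, Finset.mem_univ _⟩
    rw [Finset.mem_range]
    have := (x u).2.2.2
    omega
  have hsplit : ∑ x : Ix → Mn F n, G x =
      ∑ c ∈ C, ∑ x : Ix → Mn F n,
        (if ∀ u, ((x u).1.natDegree, ty (x u).1) = c u then G x else 0) := by
    rw [Finset.sum_comm]
    refine Finset.sum_congr rfl fun x _ => ?_
    rw [Finset.sum_eq_single (fun u => ((x u).1.natDegree, ty (x u).1))]
    · rw [if_pos (fun u => rfl)]
    · intro c _ hc
      rw [if_neg]
      intro h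
      apply hc
      funext u
      exact (h u).symm
    · intro h
      exact absurd (hcls x) h
  have hone : ∀ c ∈ C, |∑ x : Ix → Mn F n,
      (if ∀ u, ((x u).1.natDegree, ty (x u).1) = c u then G x else 0)| ≤ Bd := by
    intro c _
    by_cases hQ : ∃ u w, Lk u w ∧ z ≤ (c u).1 ∧ z ≤ (c w).1
    · obtain ⟨u, w, huw, hu, hw⟩ := hQ
      have e : ∑ x : Ix → Mn F n,
          (if ∀ u, ((x u).1.natDegree, ty (x u).1) = c u then G x else 0) =
          ∑ x : Ix → Mn F n,
          (if ∀ u, ((x u).1.natDegree, ty (x u).1) = c u then WW p n x else 0) := by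
        refine Finset.sum_congr rfl fun x _ => ?_
        by_cases hx : ∀ u, ((x u).1.natDegree, ty (x u).1) = c u
        · rw [if_pos hx, if_pos hx, hG]
          have hx' : ∀ u, (x u).1.natDegree = (c u).1 := fun u => congrArg Prod.fst (hx u)
          show (if _ then _ else _) = _
          rw [if_pos]
          refine ⟨u, w, huw, ?_, ?_⟩
          · rw [hx' u]
            exact hu
          · rw [hx' w]
            exact hw
        · rw [if_neg hx, if_neg hx]
      rw [e, hBd]
      exact lk_class h2 p n z c u w huw hu hw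
    · have e : ∑ x : Ix → Mn F n,
          (if ∀ u, ((x u).1.natDegree, ty (x u).1) = c u then G x else 0) = 0 := by
        refine Finset.sum_eq_zero fun x _ => ?_
        by_cases hx : ∀ u, ((x u).1.natDegree, ty (x u).1) = c u
        · rw [if_pos hx, hG]
          have hx' : ∀ u, (x u).1.natDegree = (c u).1 := fun u => congrArg Prod.fst (hx u)
          show (if _ then _ else _) = _
          rw [if_neg]
          rintro ⟨u, w, huw, hu, hw⟩
          apply hQ
          refine ⟨u, w, huw, ?_, ?_⟩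
          · rw [← hx' u]
            exact hu
          · rw [← hx' w]
            exact hw
        · rw [if_neg hx]
      rw [e, abs_zero]
      exact hBd0
  have hcard : (C.card : ℝ) = ((n + 1) * 8) ^ 16 := by
    have h : C.card = ((n + 1) * 8) ^ 16 := by
      rw [hC, Fintype.card_piFinset, Finset.prod_const, Finset.card_product, Finset.card_range]
      rfl
    rw [h]
    push_cast
    ring
  calc |∑ x : Ix → Mn F n, (if ∃ u w, Lk u w ∧ z ≤ (x u).1.natDegree ∧
        z ≤ (x w).1.natDegree then WW p n x else 0)| = |∑ x : Ix → Mn F n, G x| := by rw [hG]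
    _ ≤ ∑ c ∈ C, |∑ x : Ix → Mn F n,
        (if ∀ u, ((x u).1.natDegree, ty (x u).1) = c u then G x else 0)| := by
        rw [hsplit]
        exact Finset.abs_sum_le_sum_abs _ _
    _ ≤ ∑ c ∈ C, Bd := Finset.sum_le_sum hone
    _ = (C.card : ℝ) * Bd := by rw [Finset.sum_const, nsmul_eq_mul]
    _ = _ := by
        rw [hcard, hBd]
        ring

end Pool.Agent.H94.PC
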