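import Pool.Agent.H94.PC.Expo

set_option autoImplicit false

/-!
# [H94 PC TOT] The total number of solutions as a sum over configurations

For `D ∈ Cn F p n`: `kn p D = ∑ v, term p (part D v)` by `kn_eq_sum`, `expo`, `part_prod`.  Sum over
`D ∈ Cn F p n` and use `tup` with `S = Cn F p n` (`mem_Cn`, `mem_Sq`), `κ = Ix`,
`G D x = (1/4) ^ om D * sg (gexp p (fun u => ty (x u))) * ∏ u, ∏ w, js (x w) (x u) ^ (Phi u w).val`.
-/

namespace Pool.Agent.H94.PC

open Polynomial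

variable {F : Type} [Field F] [Finite F]

theorem total (p : Par) (n : ℕ) :
    ∑ D ∈ Cn F p n, (kn p D : ℝ) = ∑ x : Ix → Mn F n, WW p n x := by
  classical
  have h1 := tup (κ := Ix) n (Cn F p n) (fun D hD => by
    obtain ⟨h2, h3, h4⟩ := mem_Cn.1 hD
    obtain ⟨h5, h6, h7⟩ := mem_Sq.1 h2
    exact ⟨h5, h7, h6.le⟩)
    (fun D x => (1 / 4 : ℝ) ^ om D * sg (gexp p fun u => ty (x u)) *
      ∏ u, ∏ w, js (x w) (x u) ^ (Phi u w).val)
  have h2 : ∀ D ∈ Cn F p n, (kn p D : ℝ) = ∑ v : pf D → Ix, (1 / 4 : ℝ) ^ om D *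
      sg (gexp p fun u => ty (part D v u)) *
        ∏ u, ∏ w, js (part D v w) (part D v u) ^ (Phi u w).val := by
    intro D hD
    obtain ⟨h3, h4, h5⟩ := mem_Cn.1 hD
    obtain ⟨h6, h7, h8⟩ := mem_Sq.1 h3
    rw [kn_eq_sum]
    apply Finset.sum_congr rfl
    intro v _
    rw [expo p h6 h8 h4 v, mul_assoc]
  rw [Finset.sum_congr rfl h2]
  refine Eq.trans ?_ (h1.trans ?_)
  · rfl
  · apply Finset.sum_congr rfl
    intro x _
    unfold WW
    by_cases h3 : InC p n (∏ u, (x u).1)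
    · rw [if_pos h3, if_pos (mem_Cn.2 h3)]
      rfl
    · rw [if_neg h3, if_neg (fun h4 => h3 (mem_Cn.1 h4))]

end Pool.Agent.H94.PC
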