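import Pool.Agent.H94.PC.TU
import Pool.Agent.H94.PC.Few
import Pool.Agent.H94.PC.LkSum
import Pool.Agent.H94.PC.Cov
import Pool.Agent.H94.PC.Total

set_option autoImplicit false

/-!
# [H94 PC ASM] The explicit upper bound for the total number of solutions

For `x : Ix → Mn F n` let `J(x) = univ.filter (z ≤ deg (x u))`.  `total`:
`∑ D ∈ Cn, kn p D = ∑ x, WW x = ∑ x, lkI (J x) * WW x + ∑ x, cvN (J x) * WW x
  + ∑ x, (1 - lkI (J x) - cvN (J x)) * WW x`.
* First sum: `lk_sum` (`lkI (J x) = 1` iff there are `u, w ∈ J x` linked).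
* Second sum: `∑ k, ∑ s, TU F p n z k s`: `J x ⊆ US k s` iff `deg (x w) < z` for all `w : Wc k s`.
  By `TU_good` for the 12 pairs with `k < 3` and `TU_bad` for the other 12.
* Third sum: the factor is `0` if `4 ≤ #J` (`cov_eq`) and at most `24` otherwise (`cov_abs`): `few`.
Constants: `24 * 10 ^ 6 * 4 ^ 12 + 24 * 10 ^ 16 ≤ 10 ^ 20`.
-/

namespace Pool.Agent.H94.PC

open Polynomial

variable {F : Type} [Field F] [Finite F]

omit [Finite F] in
theorem asm_sub (n z : ℕ) (x : Ix → Mn F n) (k : Fin 6) (s : Ka) :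
    (Finset.univ.filter fun u => z ≤ (x u).1.natDegree) ⊆ US k s ↔
      ∀ w : Wc k s, (x w.1).1.natDegree < z := by
  constructor
  · intro h w
    by_contra hcon
    push Not at hcon
    have h1 : w.1 ∈ US k s := h (Finset.mem_filter.2 ⟨Finset.mem_univ _, hcon⟩)
    obtain ⟨i, _, hi⟩ := Finset.mem_image.1 h1
    exact w.2 i hi
  · intro h u hu
    have hu' := (Finset.mem_filter.1 hu).2
    by_contra hcon
    have h1 : ∀ i, em k s i ≠ u := fun i hi =>
      hcon (Finset.mem_image.2 ⟨i, Finset.mem_univ _, hi⟩)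
    exact absurd hu' (not_le.2 (h ⟨u, h1⟩))

theorem assemble (h2 : (2 : F) ≠ 0) (p : Par) (hp : p.Good) (hep : p.ep = bt (-1 : F))
    (n z : ℕ) (hz : 1 ≤ z) (hn : 32 * z ≤ n) :
    ∑ D ∈ Cn F p n, (kn p D : ℝ) ≤ 12 * ((Cn F p n).card : ℝ) +
      10 ^ 20 * (Nat.card F : ℝ) ^ n * (n : ℝ) ^ (-(1 / 4) : ℝ) * (z : ℝ) ^ 4 +
      8 ^ 16 * ((n : ℝ) + 1) ^ 17 * (Nat.card F : ℝ) ^ n * (Nat.card F : ℝ) ^ (-(z : ℝ) / 4) := by
  classical
  rw [total p n]
  set J : (Ix → Mn F n) → Finset Ix :=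
    fun x => Finset.univ.filter fun u => z ≤ (x u).1.natDegree with hJ
  set E : ℝ := (Nat.card F : ℝ) ^ n * (n : ℝ) ^ (-(1 / 4) : ℝ) * (z : ℝ) ^ 4 with hE
  have hE0 : 0 ≤ E := by positivity
  -- the first sum
  have s1 : ∑ x : Ix → Mn F n, lkI (J x) * WW p n x ≤
      8 ^ 16 * ((n : ℝ) + 1) ^ 17 * (Nat.card F : ℝ) ^ n *
        (Nat.card F : ℝ) ^ (-(z : ℝ) / 4) := by
    refine le_trans (le_of_eq ?_) ((le_abs_self _).trans (lk_sum h2 p n z))
    refine Finset.sum_congr rfl fun x _ => ?_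
    have h3 : (∃ u ∈ J x, ∃ w ∈ J x, Lk u w) ↔
        ∃ u w, Lk u w ∧ z ≤ (x u).1.natDegree ∧ z ≤ (x w).1.natDegree := by
      constructor
      · rintro ⟨u, hu, w, hw, h⟩
        exact ⟨u, w, h, (Finset.mem_filter.1 hu).2, (Finset.mem_filter.1 hw).2⟩
      · rintro ⟨u, w, h, hu, hw⟩
        exact ⟨u, Finset.mem_filter.2 ⟨Finset.mem_univ _, hu⟩, w,
          Finset.mem_filter.2 ⟨Finset.mem_univ _, hw⟩, h⟩
    by_cases hc : ∃ u ∈ J x, ∃ w ∈ J x, Lk u w
    · rw [lkI, if_pos hc, if_pos (h3.1 hc), one_mul]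
    · rw [lkI, if_neg hc, if_neg (fun h => hc (h3.2 h)), zero_mul]
  -- the second sum
  have s2 : ∑ x : Ix → Mn F n, cvN (J x) * WW p n x ≤
      12 * ((Cn F p n).card : ℝ) + 24 * (10 ^ 6 * 4 ^ 12 * E) := by
    have h3 : ∑ x : Ix → Mn F n, cvN (J x) * WW p n x =
        ∑ k : Fin 6, ∑ s : Ka, TU F p n z k s := by
      have h4 : ∀ x : Ix → Mn F n, cvN (J x) * WW p n x = ∑ k : Fin 6, ∑ s : Ka,
          (if ∀ w : Wc k s, (x w.1).1.natDegree < z then WW p n x else 0) := by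
        intro x
        rw [cvN, Finset.sum_mul]
        refine Finset.sum_congr rfl fun k _ => ?_
        rw [Finset.sum_mul]
        refine Finset.sum_congr rfl fun s _ => ?_
        by_cases hc : J x ⊆ US k s
        · rw [if_pos hc, if_pos ((asm_sub n z x k s).1 hc), one_mul]
        · rw [if_neg hc, if_neg (fun h => hc ((asm_sub n z x k s).2 h)), zero_mul]
      rw [Finset.sum_congr rfl fun x _ => h4 x, Finset.sum_comm]
      refine Finset.sum_congr rfl fun k _ => ?_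
      rw [Finset.sum_comm]
      refine Finset.sum_congr rfl fun s _ => ?_
      unfold TU
      refine Finset.sum_congr rfl fun x _ => ?_
      by_cases hc : ∀ w : Wc k s, (x w.1).1.natDegree < z
      · simp only [if_pos hc]
      · simp only [if_neg hc]
    rw [h3]
    have h5 : ∀ (k : Fin 6) (s : Ka), TU F p n z k s ≤
        (if (k : ℕ) < 3 then ((Cn F p n).card : ℝ) else 0) + 10 ^ 6 * 4 ^ 12 * E := by
      intro k s
      split_ifs with hk
      · refine (TU_good h2 p hp hep k s n z hz hn).trans (le_of_eq ?_)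
        rw [hE]
        ring
      · have hk' : (3 : Fin 6) ≤ k := by
          rw [Fin.le_def]
          exact not_lt.1 hk
        refine ((le_abs_self _).trans (TU_bad h2 p hp hep k s hk' n z hz hn)).trans (le_of_eq ?_)
        rw [hE]
        ring
    refine (Finset.sum_le_sum fun k _ => Finset.sum_le_sum fun s _ => h5 k s).trans (le_of_eq ?_)
    simp only [Finset.sum_const, Finset.card_univ, Fintype.card_prod, ZMod.card, nsmul_eq_mul]
    simp only [Fin.sum_univ_succ, Fin.val_zero, Fin.val_succ, Finset.univ_eq_empty,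
      Finset.sum_empty]
    norm_num
    ring
  -- the third sum
  have s3 : ∑ x : Ix → Mn F n, (1 - lkI (J x) - cvN (J x)) * WW p n x ≤ 24 * (10 ^ 16 * E) := by
    have h3 : ∀ x : Ix → Mn F n, (1 - lkI (J x) - cvN (J x)) * WW p n x ≤
        24 * (if (J x).card ≤ 3 then |WW p n x| else 0) := by
      intro x
      split_ifs with hc
      · refine (le_abs_self _).trans ?_
        rw [abs_mul]
        exact mul_le_mul_of_nonneg_right (cov_abs _) (abs_nonneg _)
      · have h4 := cov_eq (J x) (by omega)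
        have h5 : 1 - lkI (J x) - cvN (J x) = 0 := by linarith
        rw [h5, zero_mul, mul_zero]
    refine (Finset.sum_le_sum fun x _ => h3 x).trans ?_
    rw [← Finset.mul_sum]
    refine mul_le_mul_of_nonneg_left ?_ (by norm_num)
    refine (few p n z hz hn).trans (le_of_eq ?_)
    rw [hE]
    ring
  have h6 : ∑ x : Ix → Mn F n, WW p n x = ∑ x : Ix → Mn F n, lkI (J x) * WW p n x +
      ∑ x : Ix → Mn F n, cvN (J x) * WW p n x +
      ∑ x : Ix → Mn F n, (1 - lkI (J x) - cvN (J x)) * WW p n x := by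
    rw [← Finset.sum_add_distrib, ← Finset.sum_add_distrib]
    refine Finset.sum_congr rfl fun x _ => ?_
    ring
  rw [h6]
  have h7 : 10 ^ 20 * (Nat.card F : ℝ) ^ n * (n : ℝ) ^ (-(1 / 4) : ℝ) * (z : ℝ) ^ 4 =
      10 ^ 20 * E := by rw [hE]; ring
  rw [h7]
  have h8 : 24 * (10 ^ 6 * 4 ^ 12 * E) + 24 * (10 ^ 16 * E) ≤ 10 ^ 20 * E := by
    have h9 : (24 * (10 ^ 6 * 4 ^ 12) + 24 * 10 ^ 16 : ℝ) ≤ 10 ^ 20 := by norm_num
    nlinarith
  linarith

end Pool.Agent.H94.PC
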