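import Pool.Agent.H94.PC.Assemble

set_option autoImplicit false

/-!
# [H94 PC AVG] The average of the number of solutions is asymptotically at most 12

`assemble` with `z = ⌊n ^ (1/32)⌋₊ + 1`.  For large `n`: `32 z ≤ n`, `z ≤ 2 n ^ (1/32)`, so
`n ^ (-1/4) z ^ 4 ≤ 16 n ^ (-1/8) → 0`, and `z ≥ n ^ (1/32)`, so
`(n + 1) ^ 17 * q ^ (-z/4) ≤ (n + 1) ^ 17 * exp (-(log 2 / 4) n ^ (1/32)) → 0` (`q ≥ 2`).
-/

namespace Pool.Agent.H94.PC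

open Polynomial

variable {F : Type} [Field F] [Finite F]

private lemma avg_first : ∀ e : ℝ, 0 < e → ∀ᶠ n : ℕ in Filter.atTop,
    10 ^ 20 * (n : ℝ) ^ (-(1 / 4) : ℝ) * (((⌊(n : ℝ) ^ (1 / 32 : ℝ)⌋₊ + 1 : ℕ) : ℝ)) ^ 4 ≤ e := by
  intro e he
  have h1 : Filter.Tendsto (fun x : ℝ => 16 * 10 ^ 20 * x ^ (-(1 / 8 : ℝ))) Filter.atTop
      (nhds (16 * 10 ^ 20 * 0)) :=
    (tendsto_rpow_neg_atTop (show (0 : ℝ) < 1 / 8 by norm_num)).const_mul _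
  rw [mul_zero] at h1
  have h2 := h1.comp (tendsto_natCast_atTop_atTop (R := ℝ))
  filter_upwards [h2.eventually (gt_mem_nhds he), Filter.eventually_ge_atTop 1] with n hn hn1
  have hn1' : (1 : ℝ) ≤ n := by exact_mod_cast hn1
  have hn0 : (0 : ℝ) < n := by linarith
  have hy1 : 1 ≤ (n : ℝ) ^ (1 / 32 : ℝ) := Real.one_le_rpow hn1' (by norm_num)
  have hz : ((⌊(n : ℝ) ^ (1 / 32 : ℝ)⌋₊ + 1 : ℕ) : ℝ) ≤ 2 * (n : ℝ) ^ (1 / 32 : ℝ) := by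
    push_cast
    have := Nat.floor_le (show 0 ≤ (n : ℝ) ^ (1 / 32 : ℝ) by positivity)
    linarith
  have hz4 : (((⌊(n : ℝ) ^ (1 / 32 : ℝ)⌋₊ + 1 : ℕ) : ℝ)) ^ 4 ≤ 16 * (n : ℝ) ^ (1 / 8 : ℝ) := by
    calc _ ≤ (2 * (n : ℝ) ^ (1 / 32 : ℝ)) ^ 4 := pow_le_pow_left₀ (by positivity) hz 4
      _ = 16 * (n : ℝ) ^ (1 / 8 : ℝ) := by
        rw [mul_pow, ← Real.rpow_natCast ((n : ℝ) ^ (1 / 32 : ℝ)) 4, ← Real.rpow_mul hn0.le]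
        norm_num
  have hn' : 16 * 10 ^ 20 * (n : ℝ) ^ (-(1 / 8 : ℝ)) < e := hn
  calc 10 ^ 20 * (n : ℝ) ^ (-(1 / 4) : ℝ) * (((⌊(n : ℝ) ^ (1 / 32 : ℝ)⌋₊ + 1 : ℕ) : ℝ)) ^ 4
      ≤ 10 ^ 20 * (n : ℝ) ^ (-(1 / 4) : ℝ) * (16 * (n : ℝ) ^ (1 / 8 : ℝ)) :=
        mul_le_mul_of_nonneg_left hz4 (by positivity)
    _ = 16 * 10 ^ 20 * ((n : ℝ) ^ (-(1 / 4) : ℝ) * (n : ℝ) ^ (1 / 8 : ℝ)) := by ring
    _ = 16 * 10 ^ 20 * (n : ℝ) ^ (-(1 / 8 : ℝ)) := by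
        rw [← Real.rpow_add hn0]
        norm_num
    _ ≤ e := hn'.le

private lemma avg_second (Q : ℝ) (hQ : 2 ≤ Q) : ∀ e : ℝ, 0 < e → ∀ᶠ n : ℕ in Filter.atTop,
    8 ^ 16 * ((n : ℝ) + 1) ^ 17 *
      Q ^ (-((⌊(n : ℝ) ^ (1 / 32 : ℝ)⌋₊ + 1 : ℕ) : ℝ) / 4) ≤ e := by
  intro e he
  have hl : 0 < Real.log 2 / 4 := by
    have := Real.log_pos (show (1 : ℝ) < 2 by norm_num)
    positivity
  have h1 : Filter.Tendsto (fun x : ℝ => 8 ^ 16 * 2 ^ 17 *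
      (x ^ (544 : ℝ) * Real.exp (-(Real.log 2 / 4) * x))) Filter.atTop
      (nhds (8 ^ 16 * 2 ^ 17 * 0)) :=
    (tendsto_rpow_mul_exp_neg_mul_atTop_nhds_zero 544 _ hl).const_mul _
  rw [mul_zero] at h1
  have h3 : Filter.Tendsto (fun n : ℕ => (n : ℝ) ^ (1 / 32 : ℝ)) Filter.atTop Filter.atTop :=
    (tendsto_rpow_atTop (show (0 : ℝ) < 1 / 32 by norm_num)).comp
      (tendsto_natCast_atTop_atTop (R := ℝ))
  have h2 := h1.comp h3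
  filter_upwards [h2.eventually (gt_mem_nhds he), Filter.eventually_ge_atTop 1] with n hn hn1
  have hn1' : (1 : ℝ) ≤ n := by exact_mod_cast hn1
  have hn0 : (0 : ℝ) < n := by linarith
  set y := (n : ℝ) ^ (1 / 32 : ℝ) with hy
  have hy0 : 0 < y := by positivity
  have hzy : y ≤ ((⌊y⌋₊ + 1 : ℕ) : ℝ) := by
    push_cast
    exact (Nat.lt_floor_add_one y).le
  have hny : y ^ (544 : ℝ) = (n : ℝ) ^ 17 := by
    rw [hy, ← Real.rpow_mul hn0.le, show (1 / 32 : ℝ) * 544 = ((17 : ℕ) : ℝ) by norm_num,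
      Real.rpow_natCast]
  have hn' : 8 ^ 16 * 2 ^ 17 * (y ^ (544 : ℝ) * Real.exp (-(Real.log 2 / 4) * y)) < e := hn
  have hq : Q ^ (-((⌊y⌋₊ + 1 : ℕ) : ℝ) / 4) ≤ Real.exp (-(Real.log 2 / 4) * y) := by
    calc Q ^ (-((⌊y⌋₊ + 1 : ℕ) : ℝ) / 4) ≤ (2 : ℝ) ^ (-((⌊y⌋₊ + 1 : ℕ) : ℝ) / 4) := by
          apply Real.rpow_le_rpow_of_nonpos (by norm_num) hQ
          have : (0 : ℝ) ≤ ((⌊y⌋₊ + 1 : ℕ) : ℝ) := Nat.cast_nonneg _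
          linarith
      _ ≤ (2 : ℝ) ^ (-y / 4) := by
          apply Real.rpow_le_rpow_of_exponent_le (by norm_num)
          linarith
      _ = Real.exp (-(Real.log 2 / 4) * y) := by
          rw [Real.rpow_def_of_pos (by norm_num)]
          congr 1
          ring
  have hp : ((n : ℝ) + 1) ^ 17 ≤ 2 ^ 17 * (n : ℝ) ^ 17 := by
    rw [← mul_pow]
    exact pow_le_pow_left₀ (by linarith) (by linarith) 17
  calc 8 ^ 16 * ((n : ℝ) + 1) ^ 17 * Q ^ (-((⌊y⌋₊ + 1 : ℕ) : ℝ) / 4)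
      ≤ 8 ^ 16 * (2 ^ 17 * (n : ℝ) ^ 17) * Real.exp (-(Real.log 2 / 4) * y) := by
        apply mul_le_mul _ hq (Real.rpow_nonneg (by linarith) _) (by positivity)
        exact mul_le_mul_of_nonneg_left hp (by positivity)
    _ = 8 ^ 16 * 2 ^ 17 * (y ^ (544 : ℝ) * Real.exp (-(Real.log 2 / 4) * y)) := by
        rw [hny]
        ring
    _ ≤ e := hn'.le

private lemma avg_third : ∀ᶠ n : ℕ in Filter.atTop,
    32 * (⌊(n : ℝ) ^ (1 / 32 : ℝ)⌋₊ + 1) ≤ n := by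
  have h3 : Filter.Tendsto (fun n : ℕ => (n : ℝ) ^ (31 / 32 : ℝ)) Filter.atTop Filter.atTop :=
    (tendsto_rpow_atTop (show (0 : ℝ) < 31 / 32 by norm_num)).comp
      (tendsto_natCast_atTop_atTop (R := ℝ))
  filter_upwards [h3.eventually (Filter.eventually_ge_atTop 64),
    Filter.eventually_ge_atTop 1] with n hn hn1
  have hn1' : (1 : ℝ) ≤ n := by exact_mod_cast hn1
  have hn0 : (0 : ℝ) < n := by linarith
  have hy1 : 1 ≤ (n : ℝ) ^ (1 / 32 : ℝ) := Real.one_le_rpow hn1' (by norm_num)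
  have hf := Nat.floor_le (show 0 ≤ (n : ℝ) ^ (1 / 32 : ℝ) by positivity)
  have h : (n : ℝ) ^ (1 / 32 : ℝ) * (n : ℝ) ^ (31 / 32 : ℝ) = n := by
    rw [← Real.rpow_add hn0]
    norm_num
  have h5 : (n : ℝ) ^ (1 / 32 : ℝ) * 64 ≤ (n : ℝ) ^ (1 / 32 : ℝ) * (n : ℝ) ^ (31 / 32 : ℝ) :=
    mul_le_mul_of_nonneg_left hn (by positivity)
  have h4 : (32 * ((⌊(n : ℝ) ^ (1 / 32 : ℝ)⌋₊ : ℝ) + 1)) ≤ (n : ℝ) := by
    rw [h] at h5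
    linarith
  exact_mod_cast h4

theorem avg (h2 : (2 : F) ≠ 0) (p : Par) (hp : p.Good) (hep : p.ep = bt (-1 : F)) (ε : ℝ)
    (hε : 0 < ε) : ∃ N : ℕ, ∀ n ≥ N,
      ∑ D ∈ Cn F p n, (kn p D : ℝ) ≤
        12 * ((Cn F p n).card : ℝ) + ε * (Nat.card F : ℝ) ^ n := by
  have hQ : (2 : ℝ) ≤ Nat.card F := by
    have : 2 ≤ Nat.card F := Finite.one_lt_card
    exact_mod_cast this
  obtain ⟨N, hN⟩ := Filter.eventually_atTop.1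
    ((avg_first (ε / 2) (by linarith)).and
      ((avg_second (Nat.card F : ℝ) hQ (ε / 2) (by linarith)).and avg_third))
  refine ⟨N, fun n hn => ?_⟩
  obtain ⟨h1, h3, h4⟩ := hN n hn
  have h := assemble h2 p hp hep n (⌊(n : ℝ) ^ (1 / 32 : ℝ)⌋₊ + 1) (by omega) h4
  refine h.trans ?_
  have hq0 : (0 : ℝ) ≤ (Nat.card F : ℝ) ^ n := by positivity
  have e1 := mul_le_mul_of_nonneg_right h1 hq0
  have e2 := mul_le_mul_of_nonneg_right h3 hq0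
  nlinarith [e1, e2]

end Pool.Agent.H94.PC
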