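import Pool.Agent.H94.PC.Defs

set_option autoImplicit false

/-!
# [H94 PC FOU] Fourier expansion of functions of types

`κ` a finite index type.  `chi k τ = ∏ i, sg (pr (k i) (τ i))`.
* `sum_sg_pr`: `∑ k : Ty, sg (pr k t) = 8` if `t = 0` and `0` otherwise (`decide`-like: 8 cases for
  `t`; or factor the sum in three sums over `ZMod 2`).
* `sum_chi`: `∑ k : κ → Ty, chi k τ * chi k σ = ∏ i, ∑ k : Ty, sg (pr k (τ i)) * sg (pr k (σ i))`
  (`Finset.prod_univ_sum`, `Fintype.piFinset_univ`), `= ∏ i, ∑ k, sg (pr k (τ i + σ i))`, which is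
  `8 ^ #κ` if `τ = σ` and `0` otherwise.
* `fourier`: exchange the sums.
* `abs_fh_le`: there are `8 ^ #κ` functions `σ`, and `|chi| = 1`.
-/

namespace Pool.Agent.H94.PC

variable {κ : Type} [Fintype κ]

/-- the characters of `κ → Ty` -/
def chi (k τ : κ → Ty) : ℝ := ∏ i, sg (pr (k i) (τ i))

theorem abs_chi (k τ : κ → Ty) : |chi k τ| = 1 := by
  unfold chi
  rw [Finset.abs_prod]
  exact Finset.prod_eq_one fun i _ => abs_sg _

/-- Fourier coefficients -/
noncomputable def fh [DecidableEq κ] (G : (κ → Ty) → ℝ) (k : κ → Ty) : ℝ :=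
  (1 / 8 : ℝ) ^ Fintype.card κ * ∑ σ : κ → Ty, G σ * chi k σ

theorem pr_add_left (k k' t : Ty) : pr (k + k') t = pr k t + pr k' t := by
  unfold pr
  simp only [Prod.fst_add, Prod.snd_add]
  ring

theorem pr_add_right (k t t' : Ty) : pr k (t + t') = pr k t + pr k t' := by
  unfold pr
  simp only [Prod.fst_add, Prod.snd_add]
  ring

private theorem fou_add_eq_zero : ∀ t s : Ty, t + s = 0 ↔ t = s := by decide

private theorem fou_sum_int : ∀ t : Ty,
    ∑ k : Ty, (if pr k t = 0 then (1 : ℤ) else -1) = if t = 0 then 8 else 0 := by decide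

private theorem fou_sum_ty (t : Ty) : ∑ k : Ty, sg (pr k t) = if t = 0 then (8 : ℝ) else 0 := by
  have h1 : ∀ k : Ty, sg (pr k t) = (((if pr k t = 0 then (1 : ℤ) else -1) : ℤ) : ℝ) := by
    intro k
    unfold sg
    split_ifs <;> simp
  rw [Finset.sum_congr rfl (fun k _ => h1 k), ← Int.cast_sum, fou_sum_int t]
  split_ifs <;> simp

theorem sum_chi [DecidableEq κ] (τ σ : κ → Ty) :
    ∑ k : κ → Ty, chi k τ * chi k σ = if τ = σ then (8 : ℝ) ^ Fintype.card κ else 0 := by
  unfold chi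
  have h1 : ∀ k : κ → Ty, (∏ i, sg (pr (k i) (τ i))) * ∏ i, sg (pr (k i) (σ i)) =
      ∏ i, sg (pr (k i) (τ i + σ i)) := by
    intro k
    rw [← Finset.prod_mul_distrib]
    apply Finset.prod_congr rfl
    intro i _
    rw [pr_add_right, sg_add]
  rw [Finset.sum_congr rfl (fun k _ => h1 k)]
  have h2 : ∑ k : κ → Ty, ∏ i, sg (pr (k i) (τ i + σ i)) = ∏ i, ∑ k : Ty, sg (pr k (τ i + σ i)) := by
    rw [Finset.prod_univ_sum, Fintype.piFinset_univ]
  rw [h2, Finset.prod_congr rfl (fun i _ => fou_sum_ty (τ i + σ i))]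
  by_cases h : τ = σ
  · rw [if_pos h]
    have h3 : ∀ i ∈ (Finset.univ : Finset κ), (if τ i + σ i = 0 then (8 : ℝ) else 0) = 8 := by
      intro i _
      rw [if_pos ((fou_add_eq_zero _ _).mpr (congrFun h i))]
    rw [Finset.prod_congr rfl h3, Finset.prod_const, Finset.card_univ]
  · rw [if_neg h]
    have h3 : ∃ i, τ i ≠ σ i := by
      by_contra hcon
      push Not at hcon
      exact h (funext hcon)
    obtain ⟨i, hi⟩ := h3
    apply Finset.prod_eq_zero (Finset.mem_univ i)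
    rw [if_neg]
    rw [fou_add_eq_zero]
    exact hi

theorem fourier [DecidableEq κ] (G : (κ → Ty) → ℝ) (τ : κ → Ty) :
    G τ = ∑ k : κ → Ty, fh G k * chi k τ := by
  have h1 : ∑ k : κ → Ty, fh G k * chi k τ =
      (1 / 8 : ℝ) ^ Fintype.card κ * ∑ σ : κ → Ty, G σ * ∑ k : κ → Ty, chi k σ * chi k τ := by
    unfold fh
    simp only [Finset.mul_sum, Finset.sum_mul]
    rw [Finset.sum_comm]
    apply Finset.sum_congr rfl
    intro σ _
    apply Finset.sum_congr rfl
    intro k _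
    ring
  have h2 : ∑ σ : κ → Ty, G σ * ∑ k : κ → Ty, chi k σ * chi k τ =
      G τ * (8 : ℝ) ^ Fintype.card κ := by
    rw [Finset.sum_eq_single τ]
    · rw [sum_chi, if_pos rfl]
    · intro σ _ hσ
      rw [sum_chi, if_neg hσ, mul_zero]
    · intro h
      exact absurd (Finset.mem_univ τ) h
  rw [h1, h2, one_div, inv_pow]
  have h3 : (8 : ℝ) ^ Fintype.card κ ≠ 0 := by positivity
  field_simp

theorem abs_fh_le [DecidableEq κ] (G : (κ → Ty) → ℝ) (hG : ∀ τ, |G τ| ≤ 1) (k : κ → Ty) :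
    |fh G k| ≤ 1 := by
  unfold fh
  have h1 : |∑ σ : κ → Ty, G σ * chi k σ| ≤ (8 : ℝ) ^ Fintype.card κ := by
    calc |∑ σ : κ → Ty, G σ * chi k σ| ≤ ∑ σ : κ → Ty, |G σ * chi k σ| :=
          Finset.abs_sum_le_sum_abs _ _
      _ ≤ ∑ _σ : κ → Ty, (1 : ℝ) := by
          apply Finset.sum_le_sum
          intro σ _
          rw [abs_mul, abs_chi, mul_one]
          exact hG σ
      _ = (8 : ℝ) ^ Fintype.card κ := by
          rw [Finset.sum_const, Finset.card_univ, nsmul_eq_mul, mul_one, Fintype.card_fun]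
          have h8 : Fintype.card Ty = 8 := by decide
          rw [h8]
          push_cast
          ring
  rw [abs_mul, abs_of_nonneg (by positivity : (0 : ℝ) ≤ (1 / 8 : ℝ) ^ Fintype.card κ)]
  calc (1 / 8 : ℝ) ^ Fintype.card κ * |∑ σ : κ → Ty, G σ * chi k σ| ≤
        (1 / 8 : ℝ) ^ Fintype.card κ * (8 : ℝ) ^ Fintype.card κ :=
        mul_le_mul_of_nonneg_left h1 (by positivity)
    _ = 1 := by
        rw [← mul_pow]
        norm_num

end Pool.Agent.H94.PC
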