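import Pool.Agent.H94.PC.WWDefs
import Pool.Agent.H94.PC.Fourier

set_option autoImplicit false

/-!
# [H94 PC BAD] The planes 3, 4, 5 do not contribute

`bad_shift`: let `δ = (0, 0, 1)` for `k = 3`, `δ = (0, 1, 0)` for `k = 4`, `δ = (0, 0, 1)` for `k = 5`
(checked by computer).  For `τ : Ka → Ty` with `∑ τ i = p.t` and `p` good, replacing all `τ i` by
`τ i + δ` changes the exponent by `1`.  Proof: `mg k s τ 0` vanishes on `Wc`, and `l1 ... 0 = 0`,
`l2 ... 0 = 0`, so by `sum_ix` all sums over `Ix` in `gexp` become sums over the four `em k s i`.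
Treat the cases `k = 3, 4, 5` separately; `p.Good` gives `p.nu = 0, p.s0 = p.s1 = 1`, or `p.nu = 1` and
`p.s0 = 1 + p.s1 + p.ep + p.l`.  Write the sums over `Ka = ZMod 2 × ZMod 2` explicitly
(`Fintype.sum_prod_type`, `Fin.sum_univ_two`; `ZMod 2 = Fin 2` definitionally), and eliminate
`τ (1, 1)` by the constraint.  The difference of the two sides is a polynomial in the 9
coordinates of `τ (0, 0), τ (0, 1), τ (1, 0)`, in `s.1, s.2` and in the parameters; it is affine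
in the coordinates of `τ`.  It is best to prove it by cases on `p` and `s` (`decide`-type case
distinctions on elements of `ZMod 2`), after `simp`/`ring_nf`; `2 = 0`, `a * a = a` and `a + a = 0` in
`ZMod 2`.  Another way: generalize the 9 coordinates and `revert; decide` for fixed `s`, `k` and
fixed parameters (512 cases each) or with `Bool`.
`fh_G0_bad`: `fh (G0 p k s) (fun _ => κ)` is `8 ^ (-4)` times
`∑ σ, G0 σ * ∏ i, sg (pr κ (σ i))`; the substitution `σ ↦ σ + δ` (`Equiv.addRight`) preserves the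
constraint (`4 δ = 0`), multiplies the character by `sg (pr κ δ) ^ 4 = 1` and `G0` by `-1`.
-/

namespace Pool.Agent.H94.PC

theorem bad_l1_zero (p : Par) (X Y B A a b : ZMod 2) : l1 p X Y B A a b 0 = 0 := by
  unfold l1
  simp

theorem bad_l2_zero (p : Par) (X Y B A a b : ZMod 2) : l2 p X Y B A a b 0 = 0 := by
  unfold l2
  simp

theorem bad_sum (k : Fin 6) (s : Ka) (τ : Ka → Ty) (h : Ix → Ty → ZMod 2) (h0 : ∀ u, h u 0 = 0) :
    ∑ u, h u (mg k s τ (fun _ => 0) u) = ∑ i, h (em k s i) (τ i) := by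
  rw [sum_ix k s]
  have h1 : ∑ w : Wc k s, h w.1 (mg k s τ (fun _ => 0) w.1) = 0 :=
    Finset.sum_eq_zero fun w _ => by rw [mg_wc]; exact h0 w.1
  rw [h1, add_zero]
  exact Finset.sum_congr rfl fun i _ => by rw [mg_em]

/-- the exponent as a sum over four indices -/
theorem bad_gexp (p : Par) (k : Fin 6) (s : Ka) (τ : Ka → Ty) :
    gexp p (mg k s τ fun _ => 0) =
      ∑ i, ((em k s i).2.1 * l1 p (∑ i, (em k s i).1.1 * (τ i).1) (∑ i, (em k s i).1.2 * (τ i).1)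
        (∑ i, (em k s i).1.2 * (τ i).2.1) (∑ i, (em k s i).1.1 * (τ i).2.2)
        (em k s i).1.1 (em k s i).1.2 (τ i) +
      (em k s i).2.2 * l2 p (∑ i, (em k s i).1.1 * (τ i).1) (∑ i, (em k s i).1.2 * (τ i).1)
        (∑ i, (em k s i).1.2 * (τ i).2.1) (∑ i, (em k s i).1.1 * (τ i).2.2)
        (em k s i).1.1 (em k s i).1.2 (τ i)) := by
  unfold gexp
  have hX := bad_sum k s τ (fun u t => u.1.1 * t.1) (fun u => by simp)
  have hY := bad_sum k s τ (fun u t => u.1.2 * t.1) (fun u => by simp)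
  have hB := bad_sum k s τ (fun u t => u.1.2 * t.2.1) (fun u => by simp)
  have hA := bad_sum k s τ (fun u t => u.1.1 * t.2.2) (fun u => by simp)
  rw [hX, hY, hB, hA]
  exact bad_sum k s τ (fun u t => u.2.1 * l1 p (∑ i, (em k s i).1.1 * (τ i).1)
    (∑ i, (em k s i).1.2 * (τ i).1) (∑ i, (em k s i).1.2 * (τ i).2.1)
    (∑ i, (em k s i).1.1 * (τ i).2.2) u.1.1 u.1.2 t + u.2.2 * l2 p
    (∑ i, (em k s i).1.1 * (τ i).1) (∑ i, (em k s i).1.2 * (τ i).1)
    (∑ i, (em k s i).1.2 * (τ i).2.1) (∑ i, (em k s i).1.1 * (τ i).2.2) u.1.1 u.1.2 t)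
    (fun u => by rw [bad_l1_zero, bad_l2_zero, mul_zero, mul_zero, add_zero])

theorem bad_fact3 : ∀ s : Ka, (∑ i, (em 3 s i).1.1 = 0) ∧ (∑ i, (em 3 s i).2.2 = 0) ∧
    ∑ i, (em 3 s i).2.2 * (em 3 s i).1.1 = 1 := by decide

theorem bad_fact5 : ∀ s : Ka, (∑ i, (em 5 s i).1.1 = 0) ∧ (∑ i, (em 5 s i).2.2 = 0) ∧
    ∑ i, (em 5 s i).2.2 * (em 5 s i).1.1 = 1 := by decide

theorem bad_fact4 : ∀ s : Ka, (∑ i, (em 4 s i).1.2 = 0) ∧ (∑ i, (em 4 s i).2.1 = 0) ∧
    ∑ i, (em 4 s i).2.1 * (em 4 s i).1.2 = 1 := by decide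

theorem bad_recp (p : Par) (k : Fin 6) (s : Ka) (τ : Ka → Ty) (δ : Ty) (hδ : δ.1 = 0) :
    recp p k s (fun i => τ i + δ) = recp p k s τ := by
  unfold recp
  refine Finset.sum_congr rfl fun i _ => Finset.sum_congr rfl fun j _ => ?_
  simp only [Prod.fst_add, hδ, add_zero]

/-- shift of the third coordinate -/
theorem bad_shiftA (p : Par) (k : Fin 6) (s : Ka)
    (hk : (∑ i, (em k s i).1.1 = 0) ∧ (∑ i, (em k s i).2.2 = 0) ∧
      ∑ i, (em k s i).2.2 * (em k s i).1.1 = 1) (τ : Ka → Ty) :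
    gexp p (mg k s (fun i => τ i + ((0, 0, 1) : Ty)) fun _ => 0) =
      gexp p (mg k s τ fun _ => 0) + 1 := by
  obtain ⟨h1, h2, h3⟩ := hk
  rw [bad_gexp, bad_gexp]
  have hA : ∑ i, (em k s i).1.1 * (τ i + ((0, 0, 1) : Ty)).2.2 =
      ∑ i, (em k s i).1.1 * (τ i).2.2 := by
    simp only [Prod.snd_add, mul_add, Finset.sum_add_distrib, mul_one]
    rw [h1, add_zero]
  have hX : ∑ i, (em k s i).1.1 * (τ i + ((0, 0, 1) : Ty)).1 = ∑ i, (em k s i).1.1 * (τ i).1 := by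
    simp only [Prod.fst_add, add_zero]
  have hY : ∑ i, (em k s i).1.2 * (τ i + ((0, 0, 1) : Ty)).1 = ∑ i, (em k s i).1.2 * (τ i).1 := by
    simp only [Prod.fst_add, add_zero]
  have hB : ∑ i, (em k s i).1.2 * (τ i + ((0, 0, 1) : Ty)).2.1 =
      ∑ i, (em k s i).1.2 * (τ i).2.1 := by
    simp only [Prod.fst_add, Prod.snd_add, add_zero]
  rw [hA, hX, hY, hB]
  generalize ∑ i, (em k s i).1.1 * (τ i).1 = X
  generalize ∑ i, (em k s i).1.2 * (τ i).1 = Y
  generalize ∑ i, (em k s i).1.2 * (τ i).2.1 = B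
  generalize ∑ i, (em k s i).1.1 * (τ i).2.2 = A
  have h4 : ∀ i, (em k s i).2.1 * l1 p X Y B A (em k s i).1.1 (em k s i).1.2
      (τ i + ((0, 0, 1) : Ty)) + (em k s i).2.2 * l2 p X Y B A (em k s i).1.1 (em k s i).1.2
      (τ i + ((0, 0, 1) : Ty)) =
      ((em k s i).2.1 * l1 p X Y B A (em k s i).1.1 (em k s i).1.2 (τ i) +
      (em k s i).2.2 * l2 p X Y B A (em k s i).1.1 (em k s i).1.2 (τ i)) +
      (b1 p X Y B A * (em k s i).2.2 + (em k s i).2.2 * (em k s i).1.1) := by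
    intro i
    unfold l1 l2
    simp only [Prod.fst_add, Prod.snd_add]
    ring
  have h5 : ∑ i, (b1 p X Y B A * (em k s i).2.2 + (em k s i).2.2 * (em k s i).1.1) = 1 := by
    rw [Finset.sum_add_distrib, ← Finset.mul_sum, h2, h3, mul_zero, zero_add]
  rw [Finset.sum_congr rfl fun i _ => h4 i, Finset.sum_add_distrib, h5]

/-- shift of the second coordinate -/
theorem bad_shiftB (p : Par) (k : Fin 6) (s : Ka)
    (hk : (∑ i, (em k s i).1.2 = 0) ∧ (∑ i, (em k s i).2.1 = 0) ∧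
      ∑ i, (em k s i).2.1 * (em k s i).1.2 = 1) (τ : Ka → Ty) :
    gexp p (mg k s (fun i => τ i + ((0, 1, 0) : Ty)) fun _ => 0) =
      gexp p (mg k s τ fun _ => 0) + 1 := by
  obtain ⟨h1, h2, h3⟩ := hk
  rw [bad_gexp, bad_gexp]
  have hB : ∑ i, (em k s i).1.2 * (τ i + ((0, 1, 0) : Ty)).2.1 =
      ∑ i, (em k s i).1.2 * (τ i).2.1 := by
    simp only [Prod.fst_add, Prod.snd_add, mul_add, Finset.sum_add_distrib, mul_one]
    rw [h1, add_zero]
  have hX : ∑ i, (em k s i).1.1 * (τ i + ((0, 1, 0) : Ty)).1 = ∑ i, (em k s i).1.1 * (τ i).1 := by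
    simp only [Prod.fst_add, add_zero]
  have hY : ∑ i, (em k s i).1.2 * (τ i + ((0, 1, 0) : Ty)).1 = ∑ i, (em k s i).1.2 * (τ i).1 := by
    simp only [Prod.fst_add, add_zero]
  have hA : ∑ i, (em k s i).1.1 * (τ i + ((0, 1, 0) : Ty)).2.2 =
      ∑ i, (em k s i).1.1 * (τ i).2.2 := by
    simp only [Prod.snd_add, add_zero]
  rw [hA, hX, hY, hB]
  generalize ∑ i, (em k s i).1.1 * (τ i).1 = X
  generalize ∑ i, (em k s i).1.2 * (τ i).1 = Y
  generalize ∑ i, (em k s i).1.2 * (τ i).2.1 = B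
  generalize ∑ i, (em k s i).1.1 * (τ i).2.2 = A
  have h4 : ∀ i, (em k s i).2.1 * l1 p X Y B A (em k s i).1.1 (em k s i).1.2
      (τ i + ((0, 1, 0) : Ty)) + (em k s i).2.2 * l2 p X Y B A (em k s i).1.1 (em k s i).1.2
      (τ i + ((0, 1, 0) : Ty)) =
      ((em k s i).2.1 * l1 p X Y B A (em k s i).1.1 (em k s i).1.2 (τ i) +
      (em k s i).2.2 * l2 p X Y B A (em k s i).1.1 (em k s i).1.2 (τ i)) +
      (a0 p X Y B A * (em k s i).2.1 + (em k s i).2.1 * (em k s i).1.2) := by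
    intro i
    unfold l1 l2
    simp only [Prod.fst_add, Prod.snd_add]
    ring
  have h5 : ∑ i, (a0 p X Y B A * (em k s i).2.1 + (em k s i).2.1 * (em k s i).1.2) = 1 := by
    rw [Finset.sum_add_distrib, ← Finset.mul_sum, h2, h3, mul_zero, zero_add]
  rw [Finset.sum_congr rfl fun i _ => h4 i, Finset.sum_add_distrib, h5]

theorem bad_k : ∀ k : Fin 6, 3 ≤ k → k = 3 ∨ k = 4 ∨ k = 5 := by decide

theorem bad_shift (p : Par) (hp : p.Good) (k : Fin 6) (hk : 3 ≤ k) (s : Ka) :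
    ∃ δ : Ty, ∀ τ : Ka → Ty, ∑ i, τ i = p.t →
      gexp p (mg k s (fun i => τ i + δ) fun _ => 0) + recp p k s (fun i => τ i + δ) =
        gexp p (mg k s τ fun _ => 0) + recp p k s τ + 1 := by
  rcases bad_k k hk with rfl | rfl | rfl
  · refine ⟨((0, 0, 1) : Ty), fun τ _ => ?_⟩
    rw [bad_shiftA p 3 s (bad_fact3 s), bad_recp p 3 s τ ((0, 0, 1) : Ty) rfl]
    ring
  · refine ⟨((0, 1, 0) : Ty), fun τ _ => ?_⟩
    rw [bad_shiftB p 4 s (bad_fact4 s), bad_recp p 4 s τ ((0, 1, 0) : Ty) rfl]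
    ring
  · refine ⟨((0, 0, 1) : Ty), fun τ _ => ?_⟩
    rw [bad_shiftA p 5 s (bad_fact5 s), bad_recp p 5 s τ ((0, 0, 1) : Ty) rfl]
    ring

theorem bad_four : ∀ δ : Ty, ∑ _i : Ka, δ = 0 := by decide

theorem fh_G0_bad (p : Par) (hp : p.Good) (k : Fin 6) (hk : 3 ≤ k) (s : Ka) (κ : Ty) :
    fh (G0 p k s) (fun _ => κ) = 0 := by
  obtain ⟨δ, hδ⟩ := bad_shift p hp k hk s
  have hsum : ∀ τ : Ka → Ty, ∑ i, (τ i + δ) = ∑ i, τ i := by
    intro τ
    rw [Finset.sum_add_distrib, bad_four, add_zero]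
  have hG : ∀ τ : Ka → Ty, G0 p k s (fun i => τ i + δ) = - G0 p k s τ := by
    intro τ
    unfold G0
    rw [hsum τ]
    by_cases h : ∑ i, τ i = p.t
    · rw [if_pos h, if_pos h, hδ τ h, sg_add, sg_one]
      ring
    · rw [if_neg h, if_neg h, neg_zero]
  have hchi : ∀ τ : Ka → Ty, chi (fun _ => κ) (fun i => τ i + δ) = chi (fun _ => κ) τ := by
    intro τ
    unfold chi
    have h1 : ∀ i : Ka, sg (pr κ (τ i + δ)) = sg (pr κ (τ i)) * sg (pr κ δ) := by
      intro i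
      rw [pr_add_right, sg_add]
    rw [Finset.prod_congr rfl fun i _ => h1 i, Finset.prod_mul_distrib, Finset.prod_const]
    have h2 : (Finset.univ : Finset Ka).card = 4 := by decide
    rw [h2]
    rcases sg_cases (pr κ δ) with h | h <;> rw [h] <;> norm_num
  have hS : ∑ σ : Ka → Ty, G0 p k s σ * chi (fun _ => κ) σ =
      - ∑ σ : Ka → Ty, G0 p k s σ * chi (fun _ => κ) σ := by
    conv_lhs => rw [← Equiv.sum_comp (Equiv.addRight (fun _ : Ka => δ))]
    rw [← Finset.sum_neg_distrib]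
    refine Finset.sum_congr rfl fun σ _ => ?_
    have h1 : (Equiv.addRight (fun _ : Ka => δ)) σ = fun i => σ i + δ := rfl
    rw [h1, hG, hchi]
    ring
  have hS0 : ∑ σ : Ka → Ty, G0 p k s σ * chi (fun _ => κ) σ = 0 := by linarith
  unfold fh
  rw [hS0, mul_zero]

end Pool.Agent.H94.PC
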