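import Pool.Agent.H94.PC.Energy
import Pool.Agent.H94.PC.CSum

set_option autoImplicit false

/-!
# [H94 PC BILIN] The bilinear estimate

`q = Nat.card F`, `l ≤ m`, `S = ∑ A ∈ Mo m, ∑ B ∈ Sq l, α A β B js A B`, `|α|, |β| ≤ 1`.

1. Cauchy-Schwarz in `B` (`card_Sq_le`): `S ^ 2 ≤ q ^ l * ∑ B ∈ Sq l, (∑ A, α A js A B) ^ 2`
   `= q ^ l * ∑ A, ∑ A', α A α A' T(A A')`, where `T(N) = ∑ B ∈ Sq l, js N B` (`js_mul_left`).
2. Write this as `q ^ l * ∑ N ∈ Mo (2 m), a(N) T(N)` with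
   `a(N) = ∑ (A, A') : A A' = N, α A α A'` (group the pairs by their product,
   `Finset.sum_fiberwise_of_maps_to`); Cauchy-Schwarz in `N`:
   `S ^ 4 ≤ q ^ (2 l) * (∑ N, a(N) ^ 2) * (∑ N ∈ Mo (2 m), T(N) ^ 2)`.
3. `∑ N, a(N) ^ 2 ≤ #{(A, A', A'', A''') : A A' = A'' A'''} ≤ (m + 1) q ^ (2 m)` (`energy`).
4. `∑ N ∈ Mo (2 m), T(N) ^ 2 = ∑ B, B' ∈ Sq l, ∑ N ∈ Mo (2 m), js N (B B')` (`js_mul_right`).
   If `B ≠ B'` then `B B'` is monic of degree `2 l ≤ 2 m` and not a square: if `B B' = C ^ 2`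
   with `B`, `B'` squarefree monic, then every irreducible `P` dividing `B` divides `C`, so
   `P ^ 2 ∣ B B'`, and as `P ^ 2 ∤ B`, `P ∣ B'`; so `B ∣ B'` (squarefree), similarly `B' ∣ B`,
   `B = B'` (monic).  So the inner sum is `0` by `sum_js_right`.  For `B = B'` it is at most
   `q ^ (2 m)` in absolute value.  Altogether `≤ q ^ l * q ^ (2 m)`.
5. `S ^ 4 ≤ q ^ (2 l) (m + 1) q ^ (2 m) q ^ (l + 2 m) = (m + 1) q ^ (4 m + 3 l)`.
-/

namespace Pool.Agent.H94.PC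

open Polynomial

variable {F : Type} [Field F] [Finite F]

theorem not_isSquare_mul {B B' : F[X]} (hB : B.Monic) (hB' : B'.Monic) (hs : Squarefree B)
    (hs' : Squarefree B') (hne : B ≠ B') : ¬ IsSquare (B * B') := by
  rintro ⟨C, hC⟩
  have h1 : B ∣ C := by
    have h : B ∣ C ^ 2 := ⟨B', by rw [sq, ← hC]⟩
    exact (hs.dvd_pow_iff_dvd two_ne_zero).1 h
  obtain ⟨D, rfl⟩ := h1
  have h2 : B' = B * (D * D) := by
    refine mul_left_cancel₀ hB.ne_zero ?_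
    rw [hC]
    ring
  have h3 : IsUnit D := hs' D ⟨B, by rw [h2]; ring⟩
  have h4 : Associated B B' := by
    obtain ⟨u, hu⟩ := h3.mul h3
    exact ⟨u, by rw [hu, h2]⟩
  exact hne (eq_of_monic_of_associated hB hB' h4)

section BilinAux

variable {m l : ℕ}

/-- `T(N)` -/
private noncomputable def bT (l : ℕ) (N : F[X]) : ℝ := ∑ B ∈ Sq F l, js N B

private theorem bilin_T (h2 : (2 : F) ≠ 0) (hml : l ≤ m) :
    ∑ N ∈ Mo F (2 * m), bT l N ^ 2 ≤ (Nat.card F : ℝ) ^ l * (Nat.card F : ℝ) ^ (2 * m) := by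
  classical
  have e1 : ∑ N ∈ Mo F (2 * m), bT l N ^ 2 =
      ∑ B ∈ Sq F l, ∑ B' ∈ Sq F l, ∑ N ∈ Mo F (2 * m), js N (B * B') := by
    have e2 : ∀ N ∈ Mo F (2 * m), bT l N ^ 2 =
        ∑ B ∈ Sq F l, ∑ B' ∈ Sq F l, js N (B * B') := by
      intro N _
      rw [bT, sq, Finset.sum_mul_sum]
      refine Finset.sum_congr rfl fun B hB => Finset.sum_congr rfl fun B' hB' => ?_
      rw [js_mul_right N (mem_Sq.1 hB).1 (mem_Sq.1 hB').1]
    rw [Finset.sum_congr rfl e2, Finset.sum_comm]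
    refine Finset.sum_congr rfl fun B _ => ?_
    rw [Finset.sum_comm]
  rw [e1]
  have hcard : ((Mo F (2 * m)).card : ℝ) = (Nat.card F : ℝ) ^ (2 * m) := by
    rw [card_Mo]
    push_cast
    ring
  have h3 : ∀ B ∈ Sq F l, ∑ B' ∈ Sq F l, ∑ N ∈ Mo F (2 * m), js N (B * B') ≤
      (Nat.card F : ℝ) ^ (2 * m) := by
    intro B hB
    rw [Finset.sum_eq_single_of_mem B hB]
    · refine (Finset.sum_le_card_nsmul _ _ (1 : ℝ)
        fun N _ => (le_abs_self _).trans (abs_js_le _ _)).trans ?_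
      rw [nsmul_eq_mul, mul_one, hcard]
    · intro B' hB' hne
      obtain ⟨g1, g2, g3⟩ := mem_Sq.1 hB
      obtain ⟨g4, g5, g6⟩ := mem_Sq.1 hB'
      refine sum_js_right h2 (g1.mul g4) (not_isSquare_mul g1 g4 g3 g6 hne.symm) ?_
      rw [g1.natDegree_mul g4, g2, g5]
      omega
  refine (Finset.sum_le_card_nsmul _ _ _ h3).trans ?_
  rw [nsmul_eq_mul]
  refine mul_le_mul_of_nonneg_right ?_ (by positivity)
  have := card_Sq_le (F := F) l
  exact_mod_cast this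

private theorem bilin_fib [DecidableEq F[X]] (m : ℕ) :
    ∑ N ∈ Mo F (2 * m), ((((Mo F m ×ˢ Mo F m).filter
      (fun p : F[X] × F[X] => p.1 * p.2 = N)).card : ℝ)) ^ 2 ≤
      (m + 1) * (Nat.card F : ℝ) ^ (2 * m) := by
  set P := Mo F m ×ˢ Mo F m with hP
  set S : Finset (F[X] × F[X] × F[X] × F[X]) :=
    (Mo F m ×ˢ Mo F m ×ˢ Mo F m ×ˢ Mo F m).filter (fun z => z.1 * z.2.1 = z.2.2.1 * z.2.2.2)
    with hS
  have h1 := energy m S (by
    intro z hz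
    rw [hS, Finset.mem_filter] at hz
    simp only [Finset.mem_product] at hz
    exact ⟨hz.1.1, hz.1.2.1, hz.1.2.2.1, hz.1.2.2.2, hz.2⟩)
  have h2 : ∑ N ∈ Mo F (2 * m), ((P.filter (fun p : F[X] × F[X] => p.1 * p.2 = N)).card) ^ 2 ≤
      S.card := by
    have h3 : ∀ z ∈ S, z.1 * z.2.1 ∈ Mo F (2 * m) := by
      intro z hz
      rw [hS, Finset.mem_filter] at hz
      simp only [Finset.mem_product] at hz
      have g1 := mem_Mo.1 hz.1.1
      have g2 := mem_Mo.1 hz.1.2.1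
      refine mem_Mo.2 ⟨g1.1.mul g2.1, ?_⟩
      rw [g1.1.natDegree_mul g2.1, g1.2, g2.2]
      ring
    rw [Finset.card_eq_sum_card_fiberwise h3]
    refine Finset.sum_le_sum fun N _ => ?_
    rw [sq, ← Finset.card_product]
    refine Finset.card_le_card_of_injOn
      (fun w : (F[X] × F[X]) × (F[X] × F[X]) => (w.1.1, w.1.2, w.2.1, w.2.2)) ?_ ?_
    · intro w hw
      rw [Finset.mem_coe] at hw ⊢
      simp only [Finset.mem_product, Finset.mem_filter, hP, hS] at hw ⊢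
      exact ⟨⟨⟨hw.1.1.1, hw.1.1.2, hw.2.1.1, hw.2.1.2⟩, by rw [hw.1.2, hw.2.2]⟩, hw.1.2⟩
    · intro w _ w' _ h
      simp only [Prod.mk.injEq] at h
      exact Prod.ext (Prod.ext h.1 h.2.1) (Prod.ext h.2.2.1 h.2.2.2)
  have h4 : (∑ N ∈ Mo F (2 * m), ((P.filter (fun p : F[X] × F[X] => p.1 * p.2 = N)).card) ^ 2 : ℕ)
      ≤ (m + 1) * Nat.card F ^ (2 * m) := h2.trans h1
  exact_mod_cast h4

private theorem bilin_U (h2 : (2 : F) ≠ 0) (hml : l ≤ m) (α : F[X] → ℝ) (hα : ∀ A, |α A| ≤ 1) :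
    (∑ B ∈ Sq F l, (∑ A ∈ Mo F m, α A * js A B) ^ 2) ^ 2 ≤
      ((m + 1) * (Nat.card F : ℝ) ^ (2 * m)) *
        ((Nat.card F : ℝ) ^ l * (Nat.card F : ℝ) ^ (2 * m)) := by
  classical
  set P := Mo F m ×ˢ Mo F m with hP
  have e1 : ∑ B ∈ Sq F l, (∑ A ∈ Mo F m, α A * js A B) ^ 2 =
      ∑ p ∈ P, (α p.1 * α p.2) * bT l (p.1 * p.2) := by
    have e2 : ∀ B ∈ Sq F l, (∑ A ∈ Mo F m, α A * js A B) ^ 2 =
        ∑ p ∈ P, (α p.1 * α p.2) * js (p.1 * p.2) B := by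
      intro B hB
      rw [sq, Finset.sum_mul_sum, hP, Finset.sum_product]
      refine Finset.sum_congr rfl fun A _ => Finset.sum_congr rfl fun A' _ => ?_
      rw [js_mul_left (mem_Sq.1 hB).1]
      ring
    rw [Finset.sum_congr rfl e2, Finset.sum_comm]
    refine Finset.sum_congr rfl fun p _ => ?_
    rw [bT, Finset.mul_sum]
  have hmaps : ∀ p ∈ P, p.1 * p.2 ∈ Mo F (2 * m) := by
    intro p hp
    rw [hP, Finset.mem_product] at hp
    have g1 := mem_Mo.1 hp.1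
    have g2 := mem_Mo.1 hp.2
    refine mem_Mo.2 ⟨g1.1.mul g2.1, ?_⟩
    rw [g1.1.natDegree_mul g2.1, g1.2, g2.2]
    ring
  have e3 : ∑ p ∈ P, (α p.1 * α p.2) * bT l (p.1 * p.2) =
      ∑ N ∈ Mo F (2 * m), (∑ p ∈ P.filter (fun p : F[X] × F[X] => p.1 * p.2 = N),
        α p.1 * α p.2) * bT l N := by
    rw [← Finset.sum_fiberwise_of_maps_to hmaps]
    refine Finset.sum_congr rfl fun N _ => ?_
    rw [Finset.sum_mul]
    refine Finset.sum_congr rfl fun p hp => ?_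
    rw [(Finset.mem_filter.1 hp).2]
  rw [e1, e3]
  refine (Finset.sum_mul_sq_le_sq_mul_sq _ _ _).trans ?_
  refine mul_le_mul ?_ (bilin_T h2 hml) (Finset.sum_nonneg fun _ _ => sq_nonneg _) (by positivity)
  refine (Finset.sum_le_sum fun N _ => ?_).trans (bilin_fib m)
  rw [← sq_abs]
  refine pow_le_pow_left₀ (abs_nonneg _) ?_ 2
  refine (Finset.abs_sum_le_sum_abs _ _).trans
    ((Finset.sum_le_card_nsmul _ _ (1 : ℝ) fun p _ => ?_).trans ?_)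
  · rw [abs_mul]
    exact mul_le_one₀ (hα _) (abs_nonneg _) (hα _)
  · rw [nsmul_eq_mul, mul_one]

end BilinAux

theorem bilin (h2 : (2 : F) ≠ 0) {m l : ℕ} (hml : l ≤ m) (α β : F[X] → ℝ)
    (hα : ∀ A, |α A| ≤ 1) (hβ : ∀ B, |β B| ≤ 1) :
    (∑ A ∈ Mo F m, ∑ B ∈ Sq F l, α A * β B * js A B) ^ 4 ≤
      (m + 1) * (Nat.card F : ℝ) ^ (4 * m + 3 * l) := by
  set q : ℝ := (Nat.card F : ℝ) with hq
  have hq0 : 0 ≤ q := Nat.cast_nonneg _
  have e1 : ∑ A ∈ Mo F m, ∑ B ∈ Sq F l, α A * β B * js A B =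
      ∑ B ∈ Sq F l, β B * ∑ A ∈ Mo F m, α A * js A B := by
    rw [Finset.sum_comm]
    refine Finset.sum_congr rfl fun B _ => ?_
    rw [Finset.mul_sum]
    refine Finset.sum_congr rfl fun A _ => ?_
    ring
  have h1 : (∑ A ∈ Mo F m, ∑ B ∈ Sq F l, α A * β B * js A B) ^ 2 ≤
      q ^ l * ∑ B ∈ Sq F l, (∑ A ∈ Mo F m, α A * js A B) ^ 2 := by
    rw [e1]
    refine (Finset.sum_mul_sq_le_sq_mul_sq _ _ _).trans ?_
    refine mul_le_mul_of_nonneg_right ?_ (Finset.sum_nonneg fun _ _ => sq_nonneg _)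
    refine (Finset.sum_le_card_nsmul _ _ (1 : ℝ) fun B _ => ?_).trans ?_
    · rw [← sq_abs]
      exact pow_le_one₀ (abs_nonneg _) (hβ B)
    · rw [nsmul_eq_mul, mul_one]
      have h5 : ((Sq F l).card : ℝ) ≤ ((Nat.card F ^ l : ℕ) : ℝ) :=
        Nat.cast_le.2 (card_Sq_le (F := F) l)
      rwa [Nat.cast_pow] at h5
  have h3 := bilin_U h2 hml α hα
  set X := ∑ B ∈ Sq F l, (∑ A ∈ Mo F m, α A * js A B) ^ 2 with hX
  calc (∑ A ∈ Mo F m, ∑ B ∈ Sq F l, α A * β B * js A B) ^ 4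
      = ((∑ A ∈ Mo F m, ∑ B ∈ Sq F l, α A * β B * js A B) ^ 2) ^ 2 := by ring
    _ ≤ (q ^ l * X) ^ 2 := pow_le_pow_left₀ (sq_nonneg _) h1 2
    _ = q ^ (2 * l) * X ^ 2 := by ring
    _ ≤ q ^ (2 * l) * (((m + 1) * q ^ (2 * m)) * (q ^ l * q ^ (2 * m))) :=
        mul_le_mul_of_nonneg_left h3 (by positivity)
    _ = (m + 1) * q ^ (4 * m + 3 * l) := by ring

end Pool.Agent.H94.PC
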