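import Pool.Agent.H94.PC.Bilin

set_option autoImplicit false

/-!
# [H94 PC BSYM] The bilinear estimate, symmetric form

For `l ≤ m`: extend `α` by `0` outside squarefree polynomials (`classical`:
`α' A = if Squarefree A then α A else 0`), so that the sum over `Sq m` is the sum over `Mo m`,
and apply `bilin`; multiply by `q ^ l = q ^ (min m l)`.
For `m ≤ l`: `js A B = ch (-1) ^ (m l) * js B A` (`js_recip`), the sign is a constant with
fourth power `1`; exchange the two sums and apply the first case to `js B A`.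
`bilin_sym'` is the same with `js B A`.
-/

namespace Pool.Agent.H94.PC

open Polynomial

variable {F : Type} [Field F] [Finite F]

private theorem bsym_aux (h2 : (2 : F) ≠ 0) {m l : ℕ} (hml : l ≤ m) (α β : F[X] → ℝ)
    (hα : ∀ A, |α A| ≤ 1) (hβ : ∀ B, |β B| ≤ 1) :
    (∑ A ∈ Sq F m, ∑ B ∈ Sq F l, α A * β B * js A B) ^ 4 ≤
      (m + 1) * (Nat.card F : ℝ) ^ (4 * m + 3 * l) := by
  classical
  have h1 := bilin h2 hml (fun A => if Squarefree A then α A else 0) β
    (fun A => by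
      by_cases h : Squarefree A
      · simp only [if_pos h]
        exact hα A
      · simp only [if_neg h, abs_zero]
        exact zero_le_one) hβ
  have e1 : ∑ A ∈ Sq F m, ∑ B ∈ Sq F l, α A * β B * js A B =
      ∑ A ∈ Mo F m, ∑ B ∈ Sq F l, (if Squarefree A then α A else 0) * β B * js A B := by
    have hsub : Sq F m ⊆ Mo F m := by
      intro A hA
      rw [mem_Sq] at hA
      exact mem_Mo.2 ⟨hA.1, hA.2.1⟩
    rw [← Finset.sum_subset hsub]
    · refine Finset.sum_congr rfl fun A hA => ?_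
      rw [if_pos (mem_Sq.1 hA).2.2]
    · intro A hA hA2
      have h : ¬ Squarefree A := fun h => hA2 (mem_Sq.2 ⟨(mem_Mo.1 hA).1, (mem_Mo.1 hA).2, h⟩)
      refine Finset.sum_eq_zero fun B _ => ?_
      rw [if_neg h]
      ring
  rw [e1]
  exact h1

theorem bilin_sym (h2 : (2 : F) ≠ 0) (m l : ℕ) (α β : F[X] → ℝ)
    (hα : ∀ A, |α A| ≤ 1) (hβ : ∀ B, |β B| ≤ 1) :
    (∑ A ∈ Sq F m, ∑ B ∈ Sq F l, α A * β B * js A B) ^ 4 * (Nat.card F : ℝ) ^ (min m l) ≤
      (m + l + 1) * (Nat.card F : ℝ) ^ (4 * (m + l)) := by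
  set q : ℝ := (Nat.card F : ℝ) with hq
  have hq0 : 0 ≤ q := Nat.cast_nonneg _
  rcases le_total l m with h | h
  · rw [min_eq_right h]
    calc _ ≤ ((m + 1) * q ^ (4 * m + 3 * l)) * q ^ l :=
          mul_le_mul_of_nonneg_right (bsym_aux h2 h α β hα hβ) (by positivity)
      _ = (m + 1) * q ^ (4 * (m + l)) := by ring
      _ ≤ (m + l + 1) * q ^ (4 * (m + l)) := by
          refine mul_le_mul_of_nonneg_right ?_ (by positivity)
          have : (0 : ℝ) ≤ l := Nat.cast_nonneg l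
          linarith
  · rw [min_eq_left h]
    have e1 : ∑ A ∈ Sq F m, ∑ B ∈ Sq F l, α A * β B * js A B =
        ch (-1 : F) ^ (m * l) * ∑ B ∈ Sq F l, ∑ A ∈ Sq F m, β B * α A * js B A := by
      rw [Finset.sum_comm, Finset.mul_sum]
      refine Finset.sum_congr rfl fun B hB => ?_
      rw [Finset.mul_sum]
      refine Finset.sum_congr rfl fun A hA => ?_
      rw [js_recip (mem_Sq.1 hA).1 (mem_Sq.1 hB).1, (mem_Sq.1 hA).2.1, (mem_Sq.1 hB).2.1]
      ring
    have h1 := bsym_aux h2 h β α hβ hα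
    have h3 : (ch (-1 : F) ^ (m * l)) ^ 4 ≤ 1 := by
      have h4 : |ch (-1 : F) ^ (m * l)| ≤ 1 := by
        rw [abs_pow]
        exact pow_le_one₀ (abs_nonneg _) (abs_ch_le _)
      calc (ch (-1 : F) ^ (m * l)) ^ 4 = |ch (-1 : F) ^ (m * l)| ^ 4 :=
            (Even.pow_abs (by decide) _).symm
        _ ≤ 1 := pow_le_one₀ (abs_nonneg _) h4
    rw [e1, mul_pow]
    set T := ∑ B ∈ Sq F l, ∑ A ∈ Sq F m, β B * α A * js B A with hT
    have hT0 : 0 ≤ T ^ 4 := Even.pow_nonneg (by decide) _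
    calc (ch (-1 : F) ^ (m * l)) ^ 4 * T ^ 4 * q ^ m ≤ 1 * T ^ 4 * q ^ m :=
          mul_le_mul_of_nonneg_right (mul_le_mul_of_nonneg_right h3 hT0) (by positivity)
      _ = T ^ 4 * q ^ m := by rw [one_mul]
      _ ≤ ((l + 1) * q ^ (4 * l + 3 * m)) * q ^ m :=
          mul_le_mul_of_nonneg_right h1 (by positivity)
      _ = (l + 1) * q ^ (4 * (m + l)) := by ring
      _ ≤ (m + l + 1) * q ^ (4 * (m + l)) := by
          refine mul_le_mul_of_nonneg_right ?_ (by positivity)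
          have : (0 : ℝ) ≤ m := Nat.cast_nonneg m
          linarith

theorem bilin_sym' (h2 : (2 : F) ≠ 0) (m l : ℕ) (α β : F[X] → ℝ)
    (hα : ∀ A, |α A| ≤ 1) (hβ : ∀ B, |β B| ≤ 1) :
    (∑ A ∈ Sq F m, ∑ B ∈ Sq F l, α A * β B * js B A) ^ 4 * (Nat.card F : ℝ) ^ (min m l) ≤
      (m + l + 1) * (Nat.card F : ℝ) ^ (4 * (m + l)) := by
  have h1 := bilin_sym h2 l m β α hβ hα
  have e1 : ∑ A ∈ Sq F m, ∑ B ∈ Sq F l, α A * β B * js B A =
      ∑ B ∈ Sq F l, ∑ A ∈ Sq F m, β B * α A * js B A := by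
    rw [Finset.sum_comm]
    refine Finset.sum_congr rfl fun B _ => Finset.sum_congr rfl fun A _ => ?_
    ring
  rw [e1, min_comm, add_comm (m : ℝ) l, add_comm m l]
  exact h1

end Pool.Agent.H94.PC
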