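import Pool.Agent.H94.PC.MoMod
import Pool.Agent.H94.PC.PrCount
import Pool.Agent.H94.PC.Ch

set_option autoImplicit false

/-!
# [H94 PC CARD] The class has positive density

`q = Nat.card F ≥ 3`.  Choose `a, b : F` nonzero with `bt a = p.s0`, `bt b = p.s1` (`1` or a nonsquare,
`exists_ch_neg`).  Let `m ≥ 2` and `R m a b = {D ∈ Mo F m : D(0) = a, D(1) = b}`.
1. `#(R m a b) = q ^ (m - 2)` for all `a, b` (`sum_Mo_mod` with `N = X (X - 1)`: for every `h` there
   is exactly one `r = r₀ + r₁ X` with `r(0) = a`, `r(1) = b`), and `#(R m a b) ≤ #(Mo m) = q ^ m` for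
   all `m`.
2. If `D ∈ R n a b` is not squarefree there is a monic irreducible `P` with `P ^ 2 ∣ D`;
   `P(0), P(1) ≠ 0` as `a, b ≠ 0`, `D = P ^ 2 D'`, `D' ∈ R (n - 2 d) (a / P(0) ^ 2) (b / P(1) ^ 2)`, `d = deg P`,
   `2 d ≤ n`.  So the number of such `D` is at most
   `∑ (P : deg P = d ≤ (n - 2) / 2, P ≠ X, X - 1), q ^ (n - 2 d - 2) + ∑ (P : n - 2 < 2 d ≤ n), q ^ (n - 2 d)`.
   With `#(Pr d) ≤ q ^ d / d` (`card_Pr_le_div`) and, for `d = 1`, `P ≠ X, X - 1`: `q - 2` primes:
   the first sum is at most `q ^ (n - 2) * ((q - 2) / q ^ 2 + ∑ (d ≥ 2), q ^ (-d) / d)`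
   `≤ q ^ (n - 2) * ((q - 2) / q ^ 2 + 1 / (2 q (q - 1))) ≤ q ^ (n - 2) / 4` for `q ≥ 3` (`q = 3`: `1/9 + 1/12`;
   in general `(q - 2) / q ^ 2 ≤ 1/8` and `1 / (2 q (q - 1)) ≤ 1/12`; any bound `≤ 1/2` is enough);
   the second sum has `2 d ∈ {n - 1, n}` and is at most `q * q ^ (n/2) ≤ q ^ (n - 2) / 4` for large `n`.
3. So at least `q ^ (n - 2) / 4` elements of `R n a b` are squarefree, and for `(n : ZMod 2) = p.nu`
   they are in `Cn F p n` (`mem_Cn`, `InC`, `ty`).
-/

namespace Pool.Agent.H94.PC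

open Polynomial

variable {F : Type} [Field F] [Finite F]

open Classical in
/-- monic polynomials with given values at `0` and `1` -/
noncomputable def cardc_R (F : Type) [Field F] [Finite F] (m : ℕ) (a b : F) : Finset F[X] :=
  (Mo F m).filter fun D => D.eval 0 = a ∧ D.eval 1 = b

open Classical in
theorem cardc_mem {m : ℕ} {a b : F} {D : F[X]} :
    D ∈ cardc_R F m a b ↔ (D.Monic ∧ D.natDegree = m) ∧ D.eval 0 = a ∧ D.eval 1 = b := by
  unfold cardc_R
  rw [Finset.mem_filter, mem_Mo]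

open Classical in
theorem cardc_R_le (m : ℕ) (a b : F) : (cardc_R F m a b).card ≤ Nat.card F ^ m := by
  rw [← card_Mo (F := F) m]
  exact Finset.card_le_card (Finset.filter_subset _ _)

theorem cardc_R_eq (m : ℕ) (hm : 2 ≤ m) (a b : F) :
    (cardc_R F m a b).card = Nat.card F ^ (m - 2) := by
  classical
  have hN1 : (X * (X - C 1) : F[X]).Monic := monic_X.mul (monic_X_sub_C 1)
  have hN2 : (X * (X - C 1) : F[X]).natDegree = 2 := by
    rw [monic_X.natDegree_mul (monic_X_sub_C 1), natDegree_X, natDegree_X_sub_C]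
  have h1 := sum_Mo_mod hN1 (m := m) (by rw [hN2]; exact hm)
    (fun D => if D.eval 0 = a ∧ D.eval 1 = b then (1 : ℝ) else 0)
  rw [hN2] at h1
  have h2 : ∀ h : F[X], ∑ r ∈ Lt F 2,
      (if (X * (X - C 1) * h + r).eval 0 = a ∧ (X * (X - C 1) * h + r).eval 1 = b
        then (1 : ℝ) else 0) = 1 := by
    intro h
    have h3 : ∀ r : F[X], (X * (X - C 1) * h + r).eval 0 = r.eval 0 := by
      intro r
      simp
    have h4 : ∀ r : F[X], (X * (X - C 1) * h + r).eval 1 = r.eval 1 := by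
      intro r
      simp
    rw [Finset.sum_eq_single (C a + C (b - a) * X)]
    · rw [h3, h4, if_pos]
      simp
    · intro r hr hne
      rw [h3, h4, if_neg]
      rintro ⟨e1, e2⟩
      apply hne
      have hr1 : r.degree < (2 : ℕ) := mem_Lt.1 hr
      have hr2 : r.degree ≤ 1 := by
        rcases eq_or_ne r 0 with rfl | h0
        · simp
        · rw [degree_eq_natDegree h0] at hr1 ⊢
          have : r.natDegree < 2 := by exact_mod_cast hr1
          have : r.natDegree ≤ 1 := by omega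
          exact_mod_cast this
      rw [eq_X_add_C_of_degree_le_one hr2] at e1 e2 ⊢
      simp only [eval_add, eval_mul, eval_C, eval_X, mul_zero, zero_add, mul_one] at e1 e2
      rw [← e1]
      have e3 : r.coeff 1 = b - r.coeff 0 := by rw [← e2]; ring
      rw [e3]
      ring
    · intro hcon
      exfalso
      apply hcon
      rw [mem_Lt]
      refine lt_of_le_of_lt (degree_add_le _ _) (max_lt ?_ ?_)
      · refine lt_of_le_of_lt degree_C_le ?_
        exact_mod_cast two_pos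
      · refine lt_of_le_of_lt (degree_C_mul_X_le _) ?_
        exact_mod_cast one_lt_two
  rw [Finset.sum_congr rfl fun h _ => h2 h, ← Finset.sum_filter] at h1
  rw [Finset.sum_const, Finset.sum_const, nsmul_eq_mul, nsmul_eq_mul, mul_one, mul_one,
    card_Mo] at h1
  have h5 : (Mo F m).filter (fun D => D.eval 0 = a ∧ D.eval 1 = b) = cardc_R F m a b := by
    ext D
    rw [cardc_mem, Finset.mem_filter, mem_Mo]
  rw [h5] at h1
  exact_mod_cast h1

open Classical in
/-- the primes different from `X`, `X - 1` -/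
noncomputable def cardc_P (F : Type) [Field F] [Finite F] (d : ℕ) : Finset F[X] :=
  (Pr F d).filter fun P => P.eval 0 ≠ 0 ∧ P.eval 1 ≠ 0

open Classical in
theorem cardc_memP {d : ℕ} {P : F[X]} :
    P ∈ cardc_P F d ↔ (P.Monic ∧ P.natDegree = d ∧ Irreducible P) ∧ P.eval 0 ≠ 0 ∧ P.eval 1 ≠ 0 := by
  unfold cardc_P
  rw [Finset.mem_filter, mem_Pr]

open Classical in
theorem cardc_P_le (d : ℕ) : (cardc_P F d).card ≤ (Pr F d).card :=
  Finset.card_le_card (Finset.filter_subset _ _)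

theorem cardc_P_one : (cardc_P F 1).card + 2 ≤ Nat.card F := by
  classical
  have : Fintype F := Fintype.ofFinite F
  have h1 : cardc_P F 1 ⊆ ((Finset.univ.erase (0 : F)).erase 1).image (fun c => X - C c) := by
    intro P hP
    rw [cardc_memP] at hP
    obtain ⟨⟨h1, h2, -⟩, h3, h4⟩ := hP
    rw [Finset.mem_image]
    have h5 : P = X + C (P.coeff 0) := h1.eq_X_add_C h2
    refine ⟨-P.coeff 0, ?_, ?_⟩
    · rw [Finset.mem_erase, Finset.mem_erase]
      refine ⟨?_, ?_, Finset.mem_univ _⟩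
      · intro h6
        apply h4
        rw [h5, eval_add, eval_X, eval_C, ← h6]
        ring
      · intro h6
        apply h3
        rw [h5, eval_add, eval_X, eval_C]
        linear_combination -h6
    · rw [C_neg, sub_neg_eq_add]
      exact h5.symm
  have h2 := (Finset.card_le_card h1).trans Finset.card_image_le
  have h3 : (1 : F) ∈ Finset.univ.erase (0 : F) := by
    rw [Finset.mem_erase]
    exact ⟨one_ne_zero, Finset.mem_univ _⟩
  have h4 := Finset.card_erase_add_one h3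
  have h5 := Finset.card_erase_add_one (Finset.mem_univ (0 : F))
  rw [Finset.card_univ, ← Nat.card_eq_fintype_card] at h5
  omega

open Classical in
theorem cardc_bad (n : ℕ) (a b : F) (ha : a ≠ 0) (hb : b ≠ 0) :
    (cardc_R F n a b).filter (fun D => ¬ Squarefree D) ⊆
      (Finset.Icc 1 (n / 2)).biUnion fun d => (cardc_P F d).biUnion fun P =>
        (cardc_R F (n - 2 * d) (a / P.eval 0 ^ 2) (b / P.eval 1 ^ 2)).image fun D => P ^ 2 * D := by
  intro D hD
  rw [Finset.mem_filter, cardc_mem] at hD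
  obtain ⟨⟨⟨h1, h2⟩, h3, h4⟩, h5⟩ := hD
  have h6 : ∃ Q : F[X], Irreducible Q ∧ Q * Q ∣ D := by
    by_contra hcon
    push Not at hcon
    exact h5 ((squarefree_iff_irreducible_sq_not_dvd_of_ne_zero h1.ne_zero).2 hcon)
  obtain ⟨Q, hQ, hQD⟩ := h6
  have hQ0 : Q ≠ 0 := hQ.ne_zero
  obtain ⟨P, hP⟩ : ∃ P : F[X], P = normalize Q := ⟨_, rfl⟩
  have hPm : P.Monic := by
    rw [hP]
    exact monic_normalize hQ0
  have hass : Associated Q P := by
    rw [hP]
    exact (normalize_associated Q).symm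
  have hPi : Irreducible P := hass.irreducible hQ
  have hPD : P ^ 2 ∣ D := by
    have h7 : P ^ 2 ∣ Q * Q := by
      rw [← sq]
      exact (hass.symm.pow_pow (n := 2)).dvd
    exact h7.trans hQD
  obtain ⟨E, hE⟩ := hPD
  have hP2 : (P ^ 2).Monic := hPm.pow 2
  have hEm : E.Monic := by
    rw [hE] at h1
    exact hP2.of_mul_monic_left h1
  have hdeg : 2 * P.natDegree + E.natDegree = n := by
    rw [← h2, hE, hP2.natDegree_mul hEm, hPm.natDegree_pow]
  have hPd : 1 ≤ P.natDegree := hPi.natDegree_pos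
  have hP0 : P.eval 0 ≠ 0 := by
    intro h7
    apply ha
    rw [← h3, hE, eval_mul, eval_pow, h7]
    ring
  have hP1 : P.eval 1 ≠ 0 := by
    intro h7
    apply hb
    rw [← h4, hE, eval_mul, eval_pow, h7]
    ring
  rw [Finset.mem_biUnion]
  refine ⟨P.natDegree, ?_, ?_⟩
  · rw [Finset.mem_Icc]
    omega
  · rw [Finset.mem_biUnion]
    refine ⟨P, ?_, ?_⟩
    · rw [cardc_memP]
      exact ⟨⟨hPm, rfl, hPi⟩, hP0, hP1⟩
    · rw [Finset.mem_image]
      refine ⟨E, ?_, hE.symm⟩
      rw [cardc_mem]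
      refine ⟨⟨hEm, by omega⟩, ?_, ?_⟩
      · rw [eq_div_iff (pow_ne_zero 2 hP0), ← h3, hE, eval_mul, eval_pow]
        ring
      · rw [eq_div_iff (pow_ne_zero 2 hP1), ← h4, hE, eval_mul, eval_pow]
        ring

/-- the densities -/
noncomputable def cardc_g (q : ℝ) (d : ℕ) : ℝ := if d = 1 then (q - 2) / q ^ 2 else (1 / q) ^ d / 2

theorem cardc_g_sum (q : ℝ) (hq : 3 ≤ q) (M : ℕ) :
    ∑ d ∈ Finset.Icc 1 M, cardc_g q d ≤ 1 / 4 := by
  have hq0 : 0 < q := by linarith
  have hq1 : 0 < q - 1 := by linarith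
  have key : ∀ M : ℕ, 1 ≤ M → ∑ d ∈ Finset.Icc 1 M, cardc_g q d ≤
      1 / 4 - (1 / q) ^ M / (2 * (q - 1)) := by
    intro M hM
    induction M, hM using Nat.le_induction with
    | base =>
      rw [Finset.Icc_self, Finset.sum_singleton, cardc_g, if_pos rfl, pow_one]
      have e1 : (1 / q) / (2 * (q - 1)) = 1 / (2 * q * (q - 1)) := by
        field_simp
      rw [e1]
      have e2 : 1 / (2 * q * (q - 1)) ≤ 1 / 12 := by
        apply one_div_le_one_div_of_le (by norm_num)
        nlinarith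
      have e3 : (q - 2) / q ^ 2 ≤ 1 / 8 := by
        rw [div_le_div_iff₀ (by positivity) (by norm_num)]
        nlinarith [sq_nonneg (q - 4)]
      linarith
    | succ M hM ih =>
      rw [Finset.sum_Icc_succ_top (by omega)]
      have e1 : cardc_g q (M + 1) = (1 / q) ^ (M + 1) / 2 := by
        rw [cardc_g, if_neg (by omega)]
      rw [e1]
      have e2 : (1 / q) ^ (M + 1) / 2 =
          (1 / q) ^ M / (2 * (q - 1)) - (1 / q) ^ (M + 1) / (2 * (q - 1)) := by
        rw [pow_succ]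
        field_simp
      linarith
  rcases Nat.eq_zero_or_pos M with rfl | hM
  · simp
  · refine (key M hM).trans ?_
    have : 0 ≤ (1 / q) ^ M / (2 * (q - 1)) := by positivity
    linarith

theorem cardc_three (h2 : (2 : F) ≠ 0) : 3 ≤ Nat.card F := by
  classical
  have : Fintype F := Fintype.ofFinite F
  rw [Nat.card_eq_fintype_card]
  have h1 : ({0, 1, 2} : Finset F).card = 3 := by
    rw [Finset.card_eq_three]
    refine ⟨0, 1, 2, zero_ne_one, h2.symm, ?_, rfl⟩
    intro h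
    have : (1 : F) = 0 := by linear_combination -h
    exact one_ne_zero this
  rw [← h1]
  exact Finset.card_le_univ _

theorem cardc_bound (h2 : (2 : F) ≠ 0) (n d : ℕ) (hd : d ∈ Finset.Icc 1 (n / 2)) (a b : F) :
    (∑ P ∈ cardc_P F d,
      ((cardc_R F (n - 2 * d) (a / P.eval 0 ^ 2) (b / P.eval 1 ^ 2)).card : ℝ)) ≤
    (Nat.card F : ℝ) ^ (n - 2) * cardc_g (Nat.card F) d +
      (if d = n / 2 then (Nat.card F : ℝ) ^ (n / 2 + 1) else 0) := by
  rw [Finset.mem_Icc] at hd
  have hq3 := cardc_three h2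
  set q := Nat.card F with hq
  have hqr : (3 : ℝ) ≤ q := by exact_mod_cast hq3
  have hq0 : (0 : ℝ) < q := by linarith
  have hg : 0 ≤ cardc_g q d := by
    unfold cardc_g
    split_ifs
    · exact div_nonneg (by linarith) (by positivity)
    · positivity
  by_cases hdn : d = n / 2
  · rw [if_pos hdn]
    have h3 : ∀ P ∈ cardc_P F d,
        ((cardc_R F (n - 2 * d) (a / P.eval 0 ^ 2) (b / P.eval 1 ^ 2)).card : ℝ) ≤ q := by
      intro P _
      have h4 := cardc_R_le (F := F) (n - 2 * d) (a / P.eval 0 ^ 2) (b / P.eval 1 ^ 2)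
      have h5 : Nat.card F ^ (n - 2 * d) ≤ Nat.card F ^ 1 :=
        Nat.pow_le_pow_right (by omega) (by omega)
      rw [pow_one] at h5
      exact_mod_cast h4.trans h5
    refine (Finset.sum_le_card_nsmul _ _ _ h3).trans ?_
    rw [nsmul_eq_mul]
    have h6 : ((cardc_P F d).card : ℝ) ≤ (q : ℝ) ^ d := by
      have := (cardc_P_le (F := F) d).trans (card_Pr_le d)
      exact_mod_cast this
    have h7 : ((cardc_P F d).card : ℝ) * q ≤ (q : ℝ) ^ d * q :=
      mul_le_mul_of_nonneg_right h6 hq0.le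
    have h8 : 0 ≤ (q : ℝ) ^ (n - 2) * cardc_g q d := mul_nonneg (by positivity) hg
    have h9 : (q : ℝ) ^ d * q = (q : ℝ) ^ (n / 2 + 1) := by rw [hdn, pow_succ]
    linarith
  · rw [if_neg hdn, add_zero]
    have hdn2 : 2 * d + 2 ≤ n := by omega
    have h3 : ∀ P ∈ cardc_P F d,
        ((cardc_R F (n - 2 * d) (a / P.eval 0 ^ 2) (b / P.eval 1 ^ 2)).card : ℝ) =
          (q : ℝ) ^ (n - 2 * d - 2) := by
      intro P _
      rw [cardc_R_eq (n - 2 * d) (by omega)]
      push_cast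
      rfl
    rw [Finset.sum_congr rfl h3, Finset.sum_const, nsmul_eq_mul]
    have h4 : (q : ℝ) ^ (n - 2) = (q : ℝ) ^ (n - 2 * d - 2) * (q : ℝ) ^ (2 * d) := by
      rw [← pow_add]
      congr 1
      omega
    rw [h4, mul_assoc, mul_comm]
    apply mul_le_mul_of_nonneg_left _ (by positivity)
    unfold cardc_g
    by_cases hd1 : d = 1
    · rw [if_pos hd1, hd1, mul_one]
      have h5 := cardc_P_one (F := F)
      have h6 : ((cardc_P F 1).card : ℝ) + 2 ≤ q := by exact_mod_cast h5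
      rw [mul_div_cancel₀ _ (by positivity)]
      linarith
    · rw [if_neg hd1]
      have h5 : ((cardc_P F d).card : ℝ) ≤ (q : ℝ) ^ d / d := by
        refine le_trans ?_ (card_Pr_le_div d hd.1)
        exact_mod_cast cardc_P_le (F := F) d
      refine h5.trans ?_
      have h6 : (q : ℝ) ^ (2 * d) * ((1 / (q : ℝ)) ^ d / 2) = (q : ℝ) ^ d / 2 := by
        rw [one_div, inv_pow, two_mul, pow_add]
        field_simp
      rw [h6]
      apply div_le_div_of_nonneg_left (by positivity) (by norm_num)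
      have : 2 ≤ d := by omega
      exact_mod_cast this

theorem cardc_bad_card (h2 : (2 : F) ≠ 0) (n : ℕ) (hn : 8 ≤ n) (a b : F) (ha : a ≠ 0)
    (hb : b ≠ 0) (S : Finset F[X]) (hS : ∀ D ∈ S, D ∈ cardc_R F n a b ∧ ¬ Squarefree D) :
    (S.card : ℝ) ≤ 3 / 4 * (Nat.card F : ℝ) ^ (n - 2) := by
  classical
  have hq3 := cardc_three h2
  have hqr : (3 : ℝ) ≤ Nat.card F := by exact_mod_cast hq3
  have hsub : S ⊆ (cardc_R F n a b).filter (fun D => ¬ Squarefree D) := by
    intro D hD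
    rw [Finset.mem_filter]
    exact hS D hD
  have h1 := Finset.card_le_card (hsub.trans (cardc_bad n a b ha hb))
  have h3 : (S.card : ℝ) ≤ ∑ d ∈ Finset.Icc 1 (n / 2), ∑ P ∈ cardc_P F d,
      ((cardc_R F (n - 2 * d) (a / P.eval 0 ^ 2) (b / P.eval 1 ^ 2)).card : ℝ) := by
    have h4 : S.card ≤ ∑ d ∈ Finset.Icc 1 (n / 2), ∑ P ∈ cardc_P F d,
        (cardc_R F (n - 2 * d) (a / P.eval 0 ^ 2) (b / P.eval 1 ^ 2)).card := by
      refine h1.trans (Finset.card_biUnion_le.trans (Finset.sum_le_sum fun d _ => ?_))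
      refine Finset.card_biUnion_le.trans (Finset.sum_le_sum fun P _ => ?_)
      exact Finset.card_image_le
    exact_mod_cast h4
  refine h3.trans ?_
  refine (Finset.sum_le_sum fun d hd => cardc_bound h2 n d hd a b).trans ?_
  rw [Finset.sum_add_distrib, ← Finset.mul_sum, Finset.sum_ite_eq']
  rw [if_pos (Finset.mem_Icc.2 ⟨by omega, le_rfl⟩)]
  have h5 := cardc_g_sum (Nat.card F) hqr (n / 2)
  have h6 : (Nat.card F : ℝ) ^ (n - 2) * ∑ d ∈ Finset.Icc 1 (n / 2), cardc_g (Nat.card F) d ≤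
      (Nat.card F : ℝ) ^ (n - 2) * (1 / 4) :=
    mul_le_mul_of_nonneg_left h5 (by positivity)
  have h7 : (Nat.card F : ℝ) ^ (n / 2 + 1) * 2 ≤ (Nat.card F : ℝ) ^ (n - 2) := by
    calc (Nat.card F : ℝ) ^ (n / 2 + 1) * 2 ≤ (Nat.card F : ℝ) ^ (n / 2 + 1) * Nat.card F :=
          mul_le_mul_of_nonneg_left (by linarith) (by positivity)
      _ = (Nat.card F : ℝ) ^ (n / 2 + 2) := by rw [← pow_succ]
      _ ≤ (Nat.card F : ℝ) ^ (n - 2) := pow_le_pow_right₀ (by linarith) (by omega)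
  linarith

theorem cardc_exists (h2 : (2 : F) ≠ 0) (s : ZMod 2) : ∃ a : F, a ≠ 0 ∧ bt a = s := by
  have hs : s = 0 ∨ s = 1 := by
    have : ∀ s : ZMod 2, s = 0 ∨ s = 1 := by decide
    exact this s
  rcases hs with rfl | rfl
  · exact ⟨1, one_ne_zero, bt_one⟩
  · obtain ⟨c, hc⟩ := exists_ch_neg h2
    have hc0 : c ≠ 0 := by
      rintro rfl
      rw [ch_zero] at hc
      norm_num at hc
    refine ⟨c, hc0, ?_⟩
    rw [bt_eq_one_iff]
    intro h
    rw [ch_of_sq hc0 h] at hc
    norm_num at hc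

theorem card_Cn_ge (h2 : (2 : F) ≠ 0) (p : Par) : ∃ N : ℕ, ∀ n ≥ N, (n : ZMod 2) = p.nu →
    (Nat.card F : ℝ) ^ n / (4 * (Nat.card F : ℝ) ^ 2) ≤ ((Cn F p n).card : ℝ) := by
  classical
  refine ⟨8, ?_⟩
  intro n hn hnu
  have hq3 := cardc_three h2
  have hqr : (3 : ℝ) ≤ Nat.card F := by exact_mod_cast hq3
  obtain ⟨a, ha, ha2⟩ := cardc_exists h2 p.s0
  obtain ⟨b, hb, hb2⟩ := cardc_exists h2 p.s1
  have h3 : (cardc_R F n a b).filter (fun D => Squarefree D) ⊆ Cn F p n := by
    intro D hD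
    rw [Finset.mem_filter, cardc_mem] at hD
    obtain ⟨⟨⟨h3, h4⟩, h5, h6⟩, h7⟩ := hD
    rw [mem_Cn]
    refine ⟨mem_Sq.2 ⟨h3, h4, h7⟩, ⟨by rw [h5]; exact ha, by rw [h6]; exact hb⟩, ?_⟩
    unfold ty Par.t
    rw [h4, h5, h6, ha2, hb2, hnu]
  have h4 := Finset.card_le_card h3
  have h5 := Finset.card_filter_add_card_filter_not (s := cardc_R F n a b)
    (fun D => Squarefree D)
  have h6 := cardc_bad_card h2 n hn a b ha hb
    ((cardc_R F n a b).filter (fun D => ¬ Squarefree D)) (fun D hD => by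
      rw [Finset.mem_filter] at hD
      exact hD)
  rw [cardc_R_eq n (by omega)] at h5
  have h7 : (((cardc_R F n a b).filter (fun D => Squarefree D)).card : ℝ) +
      (((cardc_R F n a b).filter (fun D => ¬ Squarefree D)).card : ℝ) =
      (Nat.card F : ℝ) ^ (n - 2) := by exact_mod_cast h5
  have h8 : (((cardc_R F n a b).filter (fun D => Squarefree D)).card : ℝ) ≤
      ((Cn F p n).card : ℝ) := by exact_mod_cast h4
  have h9 : (Nat.card F : ℝ) ^ n / (4 * (Nat.card F : ℝ) ^ 2) = (Nat.card F : ℝ) ^ (n - 2) / 4 := by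
    have h10 : (Nat.card F : ℝ) ^ n = (Nat.card F : ℝ) ^ (n - 2) * (Nat.card F : ℝ) ^ 2 := by
      rw [← pow_add]
      congr 1
      omega
    rw [h10]
    field_simp
  rw [h9]
  linarith

end Pool.Agent.H94.PC
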