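import Pool.Agent.H94.PC.Defs

set_option autoImplicit false

/-!
# [H94 PC EM] Maximal unlinked sets of indices

The 24 cosets of the six totally singular planes of the form `c x + d y` on `(ZMod 2) ^ 4`,
parametrized by `em k s : κ → Ix`, `κ = ZMod 2 × ZMod 2`, where `k : Fin 6` is the plane and
`s : κ` the coset.

All statements except `unlinked_classify` are `decide`.  For `unlinked_classify`: `J` has 4
different elements `u₁, ..., u₄`, pairwise unlinked.  As `Lk (u + t) (w + t) ↔ Lk u w` one may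
translate and get `u₁ = 0`; then `Qf u₂ = Qf u₃ = Qf u₄ = 0` and `Qf (uᵢ + uⱼ) = 0`.
The finite statement (`dec4`): for all `u₂ u₃ u₄` different, nonzero, pairwise unlinked and
unlinked with `0`, there is `k` with `{0, u₂, u₃, u₄}` = the plane `k` (`4096` cases: `decide`,
perhaps split; or first show `u₄ = u₂ + u₃`, and that there are at most two totally singular
planes through a singular vector).  So `{u₁, ..., u₄}` is the image of some `em k s`; every other
element `w` is linked to some element of it (`exists_lk`), so `J` has no more elements.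
(`Qf 0 = 0`, so `Lk u u` is false.)
-/

namespace Pool.Agent.H94.PC

/-- parameters of a plane -/
abbrev Ka : Type := ZMod 2 × ZMod 2

/-- first basis vector of the plane `k` -/
def v1 : Fin 6 → Ix := ![((1, 0), (0, 0)), ((0, 0), (1, 0)), ((1, 0), (0, 1)), ((1, 0), (0, 0)),
  ((0, 1), (0, 0)), ((1, 1), (0, 0))]

/-- second basis vector of the plane `k` -/
def v2 : Fin 6 → Ix := ![((0, 1), (0, 0)), ((0, 0), (0, 1)), ((0, 1), (1, 0)), ((0, 0), (0, 1)),
  ((0, 0), (1, 0)), ((0, 0), (1, 1))]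

/-- first basis vector of a complement of the plane `k` -/
def r1 : Fin 6 → Ix := ![((0, 0), (1, 0)), ((1, 0), (0, 0)), ((1, 0), (0, 0)), ((0, 1), (0, 0)),
  ((1, 0), (0, 0)), ((1, 0), (0, 0))]

/-- second basis vector of a complement of the plane `k` -/
def r2 : Fin 6 → Ix := ![((0, 0), (0, 1)), ((0, 1), (0, 0)), ((0, 1), (0, 0)), ((0, 0), (1, 0)),
  ((0, 0), (0, 1)), ((0, 0), (1, 0))]

/-- multiplication of an index by a scalar -/
def sm (a : ZMod 2) (u : Ix) : Ix := ((a * u.1.1, a * u.1.2), (a * u.2.1, a * u.2.2))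

/-- the coset `s` of the plane `k` -/
def em (k : Fin 6) (s i : Ka) : Ix := sm i.1 (v1 k) + sm i.2 (v2 k) + sm s.1 (r1 k) + sm s.2 (r2 k)

/-- the coset as a set -/
def US (k : Fin 6) (s : Ka) : Finset Ix := Finset.univ.image (em k s)

theorem em_injective (k : Fin 6) (s : Ka) : Function.Injective (em k s) := by
  revert k s
  unfold Function.Injective
  decide +kernel

theorem em_unlinked (k : Fin 6) (s i j : Ka) : ¬ Lk (em k s i) (em k s j) := by
  revert k s i j
  decide +kernel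

theorem exists_lk (k : Fin 6) (s : Ka) (w : Ix) (hw : ∀ i, em k s i ≠ w) :
    ∃ i j : Ka, Lk w (em k s i) ∧ ¬ Lk w (em k s j) := by
  revert k s w
  decide +kernel

theorem Lk_comm (u w : Ix) : Lk u w ↔ Lk w u := by
  unfold Lk
  rw [add_comm]

theorem Phi_add (u w : Ix) : Phi u w + Phi w u = Qf (u + w) := by
  revert u w
  decide +kernel

theorem Phi_self (u : Ix) : Phi u u = 0 := by
  revert u
  decide +kernel

theorem Phi_em (k : Fin 6) (s i j : Ka) : Phi (em k s i) (em k s j) = Phi (em k s j) (em k s i) := by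
  revert k s i j
  decide +kernel

theorem em_sub_aux : ∀ (k k' : Fin 6) (s s' : Ka), (∀ i, ∃ j, em k' s' j = em k s i) →
    k = k' ∧ s = s' := by
  decide +kernel

theorem US_subset {k k' : Fin 6} {s s' : Ka} (h : US k s ⊆ US k' s') : k = k' ∧ s = s' := by
  refine em_sub_aux k k' s s' fun i => ?_
  have h1 : em k s i ∈ US k' s' := h (Finset.mem_image_of_mem _ (Finset.mem_univ i))
  unfold US at h1
  rw [Finset.mem_image] at h1
  obtain ⟨j, _, hj⟩ := h1
  exact ⟨j, hj⟩

/-- the conclusion of `em_dec4` -/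
def EmG (a b c : Ix) : Prop :=
  ∃ k : Fin 6, ∀ i : Ka, em k 0 i = 0 ∨ em k 0 i = a ∨ em k 0 i = b ∨ em k 0 i = c

instance (a b c : Ix) : Decidable (EmG a b c) := by
  unfold EmG
  infer_instance

/-- the hypothesis on the second vector -/
def EmB (a b : Ix) : Prop := b ≠ 0 ∧ a ≠ b ∧ Qf b = 0 ∧ Qf (a + b) = 0

instance (a b : Ix) : Decidable (EmB a b) := by
  unfold EmB
  infer_instance

/-- the hypothesis on the third vector -/
def EmC (a b c : Ix) : Prop :=
  c ≠ 0 ∧ a ≠ c ∧ b ≠ c ∧ Qf c = 0 ∧ Qf (a + c) = 0 ∧ Qf (b + c) = 0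

instance (a b c : Ix) : Decidable (EmC a b c) := by
  unfold EmC
  infer_instance

theorem em_dec4 : ∀ a : Ix, (a ≠ 0 ∧ Qf a = 0) → ∀ b : Ix, EmB a b → ∀ c : Ix, EmC a b c →
    EmG a b c := by
  decide +kernel

theorem em_surj_aux : ∀ (k : Fin 6) (w : Ix), ∃ (s i : Ka), em k s i = w := by
  decide +kernel

theorem em_shift_aux : ∀ (k : Fin 6) (s i j : Ka), em k s i = em k s j + em k 0 (i + j) := by
  decide +kernel

theorem em_lk_aux {u w : Ix} (h : ¬ Lk u w) : Qf (u + w) = 0 := by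
  have h1 : ∀ a : ZMod 2, a ≠ 1 → a = 0 := by decide
  exact h1 _ h

theorem em_two_aux : ∀ u : Ix, u + u = 0 := by
  decide +kernel

theorem unlinked_classify (J : Finset Ix) (hJ : ∀ u ∈ J, ∀ w ∈ J, ¬ Lk u w) (h4 : 4 ≤ J.card) :
    ∃ k s, J = US k s := by
  obtain ⟨T, hTJ, hT⟩ := Finset.exists_subset_card_eq h4
  obtain ⟨u1, T', hu1, rfl, hT'⟩ := Finset.card_eq_succ.1 hT
  obtain ⟨u2, u3, u4, h23, h24, h34, rfl⟩ := Finset.card_eq_three.1 hT'
  simp only [Finset.mem_insert, Finset.mem_singleton, not_or] at hu1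
  have m1 : u1 ∈ J := hTJ (by simp)
  have m2 : u2 ∈ J := hTJ (by simp)
  have m3 : u3 ∈ J := hTJ (by simp)
  have m4 : u4 ∈ J := hTJ (by simp)
  have hne : ∀ u w : Ix, u ≠ w → u + w ≠ 0 := by
    intro u w h h0
    apply h
    have h1 := em_two_aux w
    exact add_right_cancel (h0.trans h1.symm)
  have hadd : ∀ u w : Ix, (u1 + u) + (u1 + w) = u + w := by
    intro u w
    have h1 := em_two_aux u1
    calc (u1 + u) + (u1 + w) = (u1 + u1) + (u + w) := by abel
      _ = u + w := by rw [h1, zero_add]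
  have hcan : ∀ u w : Ix, u ≠ w → u1 + u ≠ u1 + w := fun u w h h0 => h (add_left_cancel h0)
  obtain ⟨k, hk⟩ := em_dec4 (u1 + u2) ⟨hne _ _ hu1.1, em_lk_aux (hJ _ m1 _ m2)⟩
    (u1 + u3) ⟨hne _ _ hu1.2.1, hcan _ _ h23, em_lk_aux (hJ _ m1 _ m3),
      by rw [hadd]; exact em_lk_aux (hJ _ m2 _ m3)⟩
    (u1 + u4) ⟨hne _ _ hu1.2.2, hcan _ _ h24, hcan _ _ h34, em_lk_aux (hJ _ m1 _ m4),
      by rw [hadd]; exact em_lk_aux (hJ _ m2 _ m4),
      by rw [hadd]; exact em_lk_aux (hJ _ m3 _ m4)⟩
  obtain ⟨s, i0, hs⟩ := em_surj_aux k u1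
  have hback : ∀ w : Ix, u1 + (u1 + w) = w := by
    intro w
    rw [← add_assoc, em_two_aux, zero_add]
  have hmem : ∀ i, em k s i ∈ J := by
    intro i
    rw [em_shift_aux k s i i0, hs]
    rcases hk (i + i0) with h | h | h | h
    · rw [h, add_zero]
      exact m1
    · rw [h, hback]
      exact m2
    · rw [h, hback]
      exact m3
    · rw [h, hback]
      exact m4
  refine ⟨k, s, ?_⟩
  ext w
  unfold US
  rw [Finset.mem_image]
  constructor
  · intro hw
    by_contra hc
    push Not at hc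
    obtain ⟨i, _, hi, _⟩ := exists_lk k s w fun i => hc i (Finset.mem_univ i)
    exact hJ w hw _ (hmem i) hi
  · rintro ⟨i, _, rfl⟩
    exact hmem i

end Pool.Agent.H94.PC
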