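import Pool.Agent.H94.PC.MoMod

set_option autoImplicit false

/-!
# [H94 PC ENERGY] The number of solutions of `A₁ A₂ = A₃ A₄` in monic polynomials of degree `m`

If `A₁ A₂ = A₃ A₄` with all `Aᵢ` monic of degree `m`, let `c₁₁` be the monic gcd of `A₁` and
`A₃` (`gcd` normalized, or take any monic generator of `span {A₁, A₃}`; `EuclideanDomain.gcd`
divided by its leading coefficient), `A₁ = c₁₁ c₁₂`, `A₃ = c₁₁ c₂₁`; then `c₁₂ A₂ = c₂₁ A₄` and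
`c₁₂`, `c₂₁` are coprime, so `A₂ = c₂₁ c₂₂`, `A₄ = c₁₂ c₂₂`, all `cᵢⱼ` monic.
If `deg c₁₁ = i` then `deg c₁₂ = deg c₂₁ = m - i` and `deg c₂₂ = i`.  So `S` is contained in the
image of the set of all `(c₁₁, c₁₂, c₂₁, c₂₂)` in the union over `i ≤ m` of
`Mo F i × Mo F (m-i) × Mo F (m-i) × Mo F i`, which has `(m + 1) q ^ (2 m)` elements (`card_Mo`).
-/

namespace Pool.Agent.H94.PC

open Polynomial

variable {F : Type} [Field F] [Finite F]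

private theorem energy_split (A B : F[X]) (hB : B ≠ 0) :
    ∃ g a b : F[X], g ≠ 0 ∧ A = g * a ∧ B = g * b ∧ IsCoprime a b := by
  classical
  obtain ⟨g, hgA, hgB, u, v, huv⟩ : ∃ g : F[X], g ∣ A ∧ g ∣ B ∧ ∃ u v, g = A * u + B * v :=
    ⟨EuclideanDomain.gcd A B, EuclideanDomain.gcd_dvd_left A B, EuclideanDomain.gcd_dvd_right A B,
      EuclideanDomain.gcdA A B, EuclideanDomain.gcdB A B, EuclideanDomain.gcd_eq_gcd_ab A B⟩
  obtain ⟨a, rfl⟩ := hgA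
  obtain ⟨b, rfl⟩ := hgB
  have hg0 : g ≠ 0 := by
    rintro rfl
    exact hB (zero_mul b)
  refine ⟨g, a, b, hg0, rfl, rfl, u, v, ?_⟩
  refine mul_left_cancel₀ hg0 ?_
  rw [mul_one]
  calc g * (u * a + v * b) = g * a * u + g * b * v := by ring
    _ = g := huv.symm

private theorem energy_monic (A B : F[X]) (hA : A.Monic) (hB : B.Monic) :
    ∃ c a b : F[X], c.Monic ∧ a.Monic ∧ b.Monic ∧ A = c * a ∧ B = c * b ∧ IsCoprime a b := by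
  obtain ⟨g, a, b, hg0, ha, hb, hcop⟩ := energy_split A B hB.ne_zero
  have hu0 : g.leadingCoeff ≠ 0 := leadingCoeff_ne_zero.2 hg0
  have hCu : (C g.leadingCoeff⁻¹ : F[X]) * C g.leadingCoeff = 1 := by
    rw [← C_mul, inv_mul_cancel₀ hu0, C_1]
  have m1 : (C g.leadingCoeff⁻¹ * g).Monic := by
    rw [Monic, leadingCoeff_mul, leadingCoeff_C, inv_mul_cancel₀ hu0]
  have e1 : A = (C g.leadingCoeff⁻¹ * g) * (C g.leadingCoeff * a) := by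
    calc A = 1 * (g * a) := by rw [one_mul, ha]
      _ = C g.leadingCoeff⁻¹ * C g.leadingCoeff * (g * a) := by rw [hCu]
      _ = _ := by ring
  have e2 : B = (C g.leadingCoeff⁻¹ * g) * (C g.leadingCoeff * b) := by
    calc B = 1 * (g * b) := by rw [one_mul, hb]
      _ = C g.leadingCoeff⁻¹ * C g.leadingCoeff * (g * b) := by rw [hCu]
      _ = _ := by ring
  have hunit : IsUnit (C g.leadingCoeff : F[X]) := isUnit_C.2 (isUnit_iff_ne_zero.2 hu0)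
  exact ⟨_, _, _, m1, Monic.of_mul_monic_left m1 (by rw [← e1]; exact hA),
    Monic.of_mul_monic_left m1 (by rw [← e2]; exact hB), e1, e2,
    (isCoprime_mul_unit_left hunit _ _).2 hcop⟩

private theorem energy_factor {m : ℕ} {A₁ A₂ A₃ A₄ : F[X]} (h1 : A₁ ∈ Mo F m) (h2 : A₂ ∈ Mo F m)
    (h3 : A₃ ∈ Mo F m) (h : A₁ * A₂ = A₃ * A₄) :
    ∃ i ≤ m, ∃ c₁ ∈ Mo F i, ∃ c₂ ∈ Mo F (m - i), ∃ c₃ ∈ Mo F (m - i), ∃ c₄ ∈ Mo F i,
      A₁ = c₁ * c₂ ∧ A₂ = c₃ * c₄ ∧ A₃ = c₁ * c₃ ∧ A₄ = c₂ * c₄ := by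
  rw [mem_Mo] at h1 h2 h3
  obtain ⟨c₁, c₂, c₃, m1, m2, m3, e1, e3, hcop⟩ := energy_monic A₁ A₃ h1.1 h3.1
  have e5 : c₂ * A₂ = c₃ * A₄ := by
    refine mul_left_cancel₀ m1.ne_zero ?_
    rw [← mul_assoc, ← e1, ← mul_assoc, ← e3, h]
  have d3 : c₃ ∣ A₂ := hcop.symm.dvd_of_dvd_mul_left ⟨A₄, e5⟩
  obtain ⟨c₄, e2⟩ := d3
  have m4 : c₄.Monic := Monic.of_mul_monic_left m3 (by rw [← e2]; exact h2.1)
  have e4 : A₄ = c₂ * c₄ := by
    refine mul_left_cancel₀ m3.ne_zero ?_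
    rw [← e5, e2]
    ring
  have n1 : c₁.natDegree + c₂.natDegree = m := by rw [← m1.natDegree_mul m2, ← e1, h1.2]
  have n2 : c₃.natDegree + c₄.natDegree = m := by rw [← m3.natDegree_mul m4, ← e2, h2.2]
  have n3 : c₁.natDegree + c₃.natDegree = m := by rw [← m1.natDegree_mul m3, ← e3, h3.2]
  exact ⟨c₁.natDegree, by omega, c₁, mem_Mo.2 ⟨m1, rfl⟩, c₂, mem_Mo.2 ⟨m2, by omega⟩,
    c₃, mem_Mo.2 ⟨m3, by omega⟩, c₄, mem_Mo.2 ⟨m4, by omega⟩, e1, e2, e3, e4⟩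

theorem energy (m : ℕ) (S : Finset (F[X] × F[X] × F[X] × F[X]))
    (hS : ∀ z ∈ S, z.1 ∈ Mo F m ∧ z.2.1 ∈ Mo F m ∧ z.2.2.1 ∈ Mo F m ∧ z.2.2.2 ∈ Mo F m ∧
      z.1 * z.2.1 = z.2.2.1 * z.2.2.2) :
    S.card ≤ (m + 1) * Nat.card F ^ (2 * m) := by
  classical
  have hsub : S ⊆ ((Finset.range (m + 1)).biUnion fun i =>
      Mo F i ×ˢ Mo F (m - i) ×ˢ Mo F (m - i) ×ˢ Mo F i).image
      (fun c : F[X] × F[X] × F[X] × F[X] =>
        (c.1 * c.2.1, c.2.2.1 * c.2.2.2, c.1 * c.2.2.1, c.2.1 * c.2.2.2)) := by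
    rintro ⟨A₁, A₂, A₃, A₄⟩ hz
    obtain ⟨h1, h2, h3, h4, h5⟩ := hS _ hz
    obtain ⟨i, hi, c₁, hc₁, c₂, hc₂, c₃, hc₃, c₄, hc₄, e1, e2, e3, e4⟩ :=
      energy_factor h1 h2 h3 h5
    refine Finset.mem_image.2 ⟨(c₁, c₂, c₃, c₄), ?_, ?_⟩
    · refine Finset.mem_biUnion.2 ⟨i, Finset.mem_range.2 (by omega), ?_⟩
      simp only [Finset.mem_product]
      exact ⟨hc₁, hc₂, hc₃, hc₄⟩
    · simp only at e1 e2 e3 e4 ⊢
      rw [← e1, ← e2, ← e3, ← e4]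
  refine (Finset.card_le_card hsub).trans (Finset.card_image_le.trans
    (Finset.card_biUnion_le.trans ?_))
  refine (Finset.sum_le_card_nsmul _ _ (Nat.card F ^ (2 * m)) fun i hi => ?_).trans ?_
  · rw [Finset.mem_range] at hi
    simp only [Finset.card_product, card_Mo]
    refine le_of_eq ?_
    rw [← pow_add, ← pow_add, ← pow_add]
    congr 1
    omega
  · rw [Finset.card_range, smul_eq_mul]

end Pool.Agent.H94.PC
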