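import Pool.Agent.H94.PC.Rho
import Pool.Agent.H94.PC.CSum

set_option autoImplicit false

/-!
# [H94 PC TH] The characters `θ(D) = (g / D) (-1) ^ ⟨k, type of D⟩`

`th k g D = js g D * sg (pr k (ty D))` if `D(0), D(1) ≠ 0`, and `0` otherwise.

* `ty_mul`: `natDegree_mul`, `eval_mul`, `bt_mul`.  `ty_one`: `bt_one`.
* `th_CM`: `js_mul_right`, `js_one_right`, `ty_mul`, `sg_add`, `js_cases`, `sg_cases`;
  `NZ (A * B) ↔ NZ A ∧ NZ B`.
* `th_mul_th`: for monic `D`: `th k g D * th k' g' D = th (k + k') (g * g') D`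
  (`js_mul_left`; `pr` is additive in `k`).
* `th_partial`: let `a = 1` if `k.2.1 = 1` and `a = 2` if `k.2.1 = 0`; `b = 1` if `k.2.2 = 1` and
  `b = 2` otherwise; `g' = g * X ^ a * (X - 1) ^ b`.  For monic `D` one has
  `js (X ^ a) D = (± 1) ^ deg D * ch (D(0)) ^ a` (`js_X`), and for `D(0) ≠ 0`:
  `ch (D(0)) ^ 1 = sg (bt D(0))`, `ch (D(0)) ^ 2 = 1`, while both are `0` for `D(0) = 0`; similarly
  at `1` (`js_X_sub_one`).  So there is a sign `s = ± 1`, depending only on `k` and `ch (-1)`, with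
  `th k g D = s ^ (deg D) * js g' D` for all monic `D`.
  - If `g'` is not a square: `∑ B ∈ Mo i, th k g B = s ^ i * ∑ B ∈ Mo i, js g' B = 0` for
    `i ≥ deg g'` (`sum_js_left`), and it is at most `q ^ i` for all `i` (`card_Mo`,
    `abs_js_le`); so the partial sum is at most `deg g' ≤ deg g + 4`.
  - If `g'` is a square: as `g(0), g(1) ≠ 0` this means `a = b = 2` and `g` is a square, so
    `k.2 = 0` and by hypothesis `k.1 = 1`, `th k g D = (-1) ^ deg D * 1[D coprime to g']`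
    (directly from the definition: `js g D = 1` for `g` a square coprime to `D`).
    The number of `D ∈ Mo i` coprime to `g'` is `c q ^ i` for `i ≥ deg g'` with a constant
    `0 ≤ c ≤ 1` (`sum_Mo_mod`), so `∑ B ∈ Mo i, th k g B / q ^ i = (-1) ^ i c` for `i ≥ deg g'`; the
    partial sums are at most `deg g' + 1 ≤ deg g + 5`.
  (`IsSquare g'` with `a = 1`: the multiplicity of `X` in `g'` is `a`, which is odd.)
-/

namespace Pool.Agent.H94.PC

open Polynomial

variable {F : Type} [Field F] [Finite F]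

/-- the character attached to `k` and `g` -/
noncomputable def th (k : Ty) (g D : F[X]) : ℝ := by
  classical exact if NZ D then js g D * sg (pr k (ty D)) else 0

theorem th_of_NZ {k : Ty} {g D : F[X]} (h : NZ D) : th k g D = js g D * sg (pr k (ty D)) := by
  unfold th; rw [if_pos h]

theorem th_of_not {k : Ty} {g D : F[X]} (h : ¬ NZ D) : th k g D = 0 := by
  unfold th; rw [if_neg h]

theorem NZ_mul {A B : F[X]} : NZ (A * B) ↔ NZ A ∧ NZ B := by
  unfold NZ
  rw [eval_mul, eval_mul, mul_ne_zero_iff, mul_ne_zero_iff]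
  tauto

theorem NZ_prod {ι : Type*} [Fintype ι] (x : ι → F[X]) : NZ (∏ i, x i) ↔ ∀ i, NZ (x i) := by
  unfold NZ
  rw [eval_prod, eval_prod, Finset.prod_ne_zero_iff, Finset.prod_ne_zero_iff]
  constructor
  · rintro ⟨h1, h2⟩ i
    exact ⟨h1 i (Finset.mem_univ i), h2 i (Finset.mem_univ i)⟩
  · intro h
    exact ⟨fun i _ => (h i).1, fun i _ => (h i).2⟩

theorem ty_one : ty (1 : F[X]) = 0 := by
  unfold ty
  rw [natDegree_one, eval_one, eval_one, bt_one]
  simp

theorem NZ_ne_zero {A : F[X]} (h : NZ A) : A ≠ 0 := by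
  rintro rfl
  exact h.1 eval_zero

theorem ty_mul {A B : F[X]} (hA : NZ A) (hB : NZ B) : ty (A * B) = ty A + ty B := by
  unfold ty
  rw [natDegree_mul (NZ_ne_zero hA) (NZ_ne_zero hB), eval_mul, eval_mul, bt_mul hA.1 hB.1,
    bt_mul hA.2 hB.2, Nat.cast_add]
  rfl

theorem NZ_one : NZ (1 : F[X]) := by
  unfold NZ
  rw [eval_one, eval_one]
  exact ⟨one_ne_zero, one_ne_zero⟩

theorem ty_prod_aux {ι : Type*} (s : Finset ι) (x : ι → F[X]) (h : ∀ i ∈ s, NZ (x i)) :
    NZ (∏ i ∈ s, x i) ∧ ty (∏ i ∈ s, x i) = ∑ i ∈ s, ty (x i) := by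
  classical
  induction s using Finset.induction_on with
  | empty =>
    rw [Finset.prod_empty, Finset.sum_empty]
    exact ⟨NZ_one, ty_one⟩
  | insert a s ha ih =>
    obtain ⟨h1, h2⟩ := ih fun i hi => h i (Finset.mem_insert_of_mem hi)
    have h3 := h a (Finset.mem_insert_self a s)
    rw [Finset.prod_insert ha, Finset.sum_insert ha]
    exact ⟨NZ_mul.2 ⟨h3, h1⟩, by rw [ty_mul h3 h1, h2]⟩

theorem ty_prod {ι : Type*} [Fintype ι] (x : ι → F[X]) (h : ∀ i, NZ (x i)) :
    ty (∏ i, x i) = ∑ i, ty (x i) :=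
  (ty_prod_aux Finset.univ x fun i _ => h i).2

theorem ty_prod' (s : Finset F[X]) (h : ∀ P ∈ s, NZ P) : ty (∏ P ∈ s, P) = ∑ P ∈ s, ty P :=
  (ty_prod_aux s (fun P => P) h).2

theorem th_pr_add (k t t' : Ty) : pr k (t + t') = pr k t + pr k t' := by
  unfold pr
  simp only [Prod.fst_add, Prod.snd_add]
  ring

theorem th_pr_add_left (k k' t : Ty) : pr (k + k') t = pr k t + pr k' t := by
  unfold pr
  simp only [Prod.fst_add, Prod.snd_add]
  ring

theorem th_pr_zero (k : Ty) : pr k 0 = 0 := by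
  unfold pr
  simp

theorem th_CM (k : Ty) (g : F[X]) : CM (th k g) := by
  refine ⟨?_, ?_, ?_⟩
  · rw [th_of_NZ NZ_one, js_one_right, ty_one, th_pr_zero, sg_zero, one_mul]
  · intro A B hA hB
    by_cases h1 : NZ A
    · by_cases h2 : NZ B
      · rw [th_of_NZ h1, th_of_NZ h2, th_of_NZ (NZ_mul.2 ⟨h1, h2⟩), js_mul_right g hA hB,
          ty_mul h1 h2, th_pr_add, sg_add]
        ring
      · rw [th_of_not h2, th_of_not (fun h => h2 (NZ_mul.1 h).2), mul_zero]
    · rw [th_of_not h1, th_of_not (fun h => h1 (NZ_mul.1 h).1), zero_mul]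
  · intro A _
    by_cases h1 : NZ A
    · rw [th_of_NZ h1]
      rcases js_cases g A with h | h | h <;> rcases sg_cases (pr k (ty A)) with h' | h' <;>
        rw [h, h'] <;> norm_num
    · exact Or.inl (th_of_not h1)

theorem th_mul_th (k k' : Ty) (g g' : F[X]) {D : F[X]} (hD : D.Monic) :
    th k g D * th k' g' D = th (k + k') (g * g') D := by
  by_cases h1 : NZ D
  · rw [th_of_NZ h1, th_of_NZ h1, th_of_NZ h1, js_mul_left hD, th_pr_add_left, sg_add]
    ring
  · rw [th_of_not h1, zero_mul, th_of_not h1]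

end Pool.Agent.H94.PC
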