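import Pool.Agent.H94.PC.KerSum
import Pool.Agent.H94.PC.Tup
import Pool.Agent.H94.PC.JsA
import Pool.Agent.H94.PC.Th

set_option autoImplicit false

/-!
# [H94 PC EXPO] The sign of a configuration

`D` monic squarefree with `NZ D`, `v : pf D → Ix`, `x u = part D v u`.

1. `∑ P, (c_P * ∑ Q, lam Q P (x_Q + x_P) + d_P * ∑ Q, lam Q P (y_Q + y_P))
   = ∑ P, ∑ Q, lam Q P * Phi (v P) (v Q)`.
2. `sg (lam Q P * Phi (v P) (v Q)) = js Q P ^ (Phi (v P) (v Q)).val`: for `P = Q`, `Phi u u = 0`
   (both sides `1`); for `P ≠ Q` they are coprime and `js Q P = sg (lam Q P)` (`js_eq_sg`,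
   `isCoprime_irr`); the values of a `ZMod 2` element: `0` or `1`.
3. `js (part D v w) (part D v u) = ∏ (P : v P = u), ∏ (Q : v Q = w), js Q P` (`js_prod_left`,
   `js_prod_right`; factors `1` when `v P ≠ u`: `js_one_right`, `js_one_left`), so
   `∏ u, ∏ w, js (x w) (x u) ^ (Phi u w).val = ∏ P, ∏ Q, js Q P ^ (Phi (v P) (v Q)).val`.
4. The local terms: `l1 p X Y B A a b` and `l2 p X Y B A a b` are additive in the type `t`
   (`l1_add`, `l2_add`), `ty (part D v u) = ∑ (P : v P = u), ty P` (`ty_prod`-type lemma; all `P` are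
   `NZ`), and `gX D (cx v) = ∑ u, u.1.1 * (ty (x u)).1` etc., so
   `gexp p (fun u => ty (x u)) = ∑ P, (c_P * l1 ... (ty P) + d_P * l2 ... (ty P))`.
-/

namespace Pool.Agent.H94.PC

open Polynomial

variable {F : Type} [Field F] [Finite F]

theorem l1_add (p : Par) (X Y B A a b : ZMod 2) (t t' : Ty) :
    l1 p X Y B A a b (t + t') = l1 p X Y B A a b t + l1 p X Y B A a b t' := by
  unfold l1
  simp only [Prod.fst_add, Prod.snd_add]
  ring

theorem l2_add (p : Par) (X Y B A a b : ZMod 2) (t t' : Ty) :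
    l2 p X Y B A a b (t + t') = l2 p X Y B A a b t + l2 p X Y B A a b t' := by
  unfold l2
  simp only [Prod.fst_add, Prod.snd_add]
  ring

theorem expo_NZ {D : F[X]} (hz : NZ D) {P : F[X]} (hP : P ∣ D) : NZ P := by
  obtain ⟨C, hC⟩ := hP
  rw [hC] at hz
  exact (NZ_mul.1 hz).1

/-- sums of additive functions of the types of the parts -/
theorem expo_sum {D : F[X]} (hz : NZ D) (v : pf D → Ix) (h : Ix → Ty → ZMod 2)
    (hadd : ∀ u t t', h u (t + t') = h u t + h u t') :
    ∑ u, h u (ty (part D v u)) = ∑ P : pf D, h (v P) (ty P.1) := by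
  classical
  have hNP : ∀ P : pf D, NZ P.1 := fun P => expo_NZ hz (mem_pf' P.2).2.2
  have hty : ∀ u, ty (part D v u) = ∑ P : pf D, if v P = u then ty P.1 else 0 := by
    intro u
    unfold part
    rw [ty_prod]
    · refine Finset.sum_congr rfl fun P _ => ?_
      split_ifs
      · rfl
      · exact ty_one
    · intro P
      split_ifs
      · exact hNP P
      · unfold NZ
        rw [eval_one, eval_one]
        exact ⟨one_ne_zero, one_ne_zero⟩
  have h0 : ∀ u, h u 0 = 0 := by
    intro u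
    have h1 := hadd u 0 0
    rw [add_zero] at h1
    exact left_eq_add.1 h1
  have h2 : ∀ u, h u (ty (part D v u)) = ∑ P : pf D, if v P = u then h u (ty P.1) else 0 := by
    intro u
    rw [hty u]
    have h3 := map_sum (AddMonoidHom.mk' (h u) (hadd u)) (fun P : pf D =>
      if v P = u then ty P.1 else 0) Finset.univ
    refine h3.trans (Finset.sum_congr rfl fun P _ => ?_)
    show h u (if v P = u then ty P.1 else 0) = _
    split_ifs
    · rfl
    · exact h0 u
  rw [Finset.sum_congr rfl fun u _ => h2 u, Finset.sum_comm]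
  refine Finset.sum_congr rfl fun P _ => ?_
  rw [Finset.sum_ite_eq]
  simp

theorem expo_zmod : ∀ b : ZMod 2, b = 0 ∨ b = 1 := by decide

theorem expo_sg_mul (a b : ZMod 2) : sg (a * b) = sg a ^ b.val := by
  rcases expo_zmod b with h | h
  · subst h
    rw [mul_zero, sg_zero]
    simp
  · subst h
    rw [mul_one]
    have h1 : (1 : ZMod 2).val = 1 := by decide
    rw [h1, pow_one]

theorem expo_Phi_self (u : Ix) : Phi u u = 0 := by
  unfold Phi
  have h : ∀ a : ZMod 2, a + a = 0 := by decide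
  rw [h, h, mul_zero, mul_zero, add_zero]

theorem expo_js {D : F[X]} (v : pf D → Ix) (u w : Ix) :
    js (part D v w) (part D v u) =
      ∏ P : pf D, ∏ Q : pf D, if v P = u then (if v Q = w then js Q.1 P.1 else 1) else 1 := by
  classical
  have hmon : ∀ (u : Ix) (P : pf D), (if v P = u then P.1 else (1 : F[X])).Monic := by
    intro u P
    split_ifs
    · exact (mem_pf' P.2).1
    · exact monic_one
  unfold part
  rw [js_prod_right _ _ _ (fun P _ => hmon u P)]
  refine Finset.prod_congr rfl fun P _ => ?_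
  rw [js_prod_left _ _ (hmon u P)]
  refine Finset.prod_congr rfl fun Q _ => ?_
  by_cases h1 : v P = u
  · rw [if_pos h1, if_pos h1]
    by_cases h2 : v Q = w
    · rw [if_pos h2, if_pos h2]
    · rw [if_neg h2, if_neg h2, js_one_left (mem_pf' P.2).1]
  · rw [if_neg h1, if_neg h1, js_one_right]

theorem expo_prod {D : F[X]} (v : pf D → Ix) :
    ∏ u, ∏ w, js (part D v w) (part D v u) ^ (Phi u w).val =
      ∏ P : pf D, ∏ Q : pf D, js Q.1 P.1 ^ (Phi (v P) (v Q)).val := by
  classical
  have h1 : ∀ u w : Ix, js (part D v w) (part D v u) ^ (Phi u w).val =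
      ∏ P : pf D, ∏ Q : pf D, if v P = u then
        (if v Q = w then js Q.1 P.1 ^ (Phi u w).val else 1) else 1 := by
    intro u w
    rw [expo_js, ← Finset.prod_pow]
    refine Finset.prod_congr rfl fun P _ => ?_
    rw [← Finset.prod_pow]
    refine Finset.prod_congr rfl fun Q _ => ?_
    split_ifs
    · rfl
    · rw [one_pow]
    · rw [one_pow]
  calc ∏ u, ∏ w, js (part D v w) (part D v u) ^ (Phi u w).val
      = ∏ u : Ix, ∏ w : Ix, ∏ P : pf D, ∏ Q : pf D, (if v P = u then
        (if v Q = w then js Q.1 P.1 ^ (Phi u w).val else 1) else 1) :=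
        Finset.prod_congr rfl fun u _ => Finset.prod_congr rfl fun w _ => h1 u w
    _ = ∏ u : Ix, ∏ P : pf D, ∏ w : Ix, ∏ Q : pf D, (if v P = u then
        (if v Q = w then js Q.1 P.1 ^ (Phi u w).val else 1) else 1) :=
        Finset.prod_congr rfl fun u _ => Finset.prod_comm
    _ = ∏ P : pf D, ∏ u : Ix, ∏ w : Ix, ∏ Q : pf D, (if v P = u then
        (if v Q = w then js Q.1 P.1 ^ (Phi u w).val else 1) else 1) := Finset.prod_comm
    _ = ∏ P : pf D, ∏ Q : pf D, js Q.1 P.1 ^ (Phi (v P) (v Q)).val := by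
        refine Finset.prod_congr rfl fun P _ => ?_
        have h2 : ∀ u : Ix, ∏ w : Ix, ∏ Q : pf D, (if v P = u then
            (if v Q = w then js Q.1 P.1 ^ (Phi u w).val else 1) else 1) =
            if v P = u then ∏ Q : pf D, js Q.1 P.1 ^ (Phi u (v Q)).val else 1 := by
          intro u
          by_cases h : v P = u
          · rw [if_pos h, Finset.prod_comm]
            refine Finset.prod_congr rfl fun Q _ => ?_
            rw [Finset.prod_congr rfl fun w _ => if_pos h, Finset.prod_ite_eq]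
            simp
          · rw [if_neg h]
            exact Finset.prod_eq_one fun w _ => Finset.prod_eq_one fun Q _ => if_neg h
        rw [Finset.prod_congr rfl fun u _ => h2 u, Finset.prod_ite_eq]
        simp

theorem expo (p : Par) {D : F[X]} (hD : D.Monic) (hs : Squarefree D) (hz : NZ D)
    (v : pf D → Ix) :
    sg (∑ P, ((v P).2.1 * E1 p D (cx v) (cy v) P + (v P).2.2 * E2 p D (cx v) (cy v) P)) =
      sg (gexp p fun u => ty (part D v u)) *
        ∏ u, ∏ w, js (part D v w) (part D v u) ^ (Phi u w).val := by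
  classical
  have hX : ∑ u, u.1.1 * (ty (part D v u)).1 = gX D (cx v) :=
    expo_sum hz v (fun u t => u.1.1 * t.1) (fun u t t' => by
      simp only [Prod.fst_add]; ring)
  have hY : ∑ u, u.1.2 * (ty (part D v u)).1 = gX D (cy v) :=
    expo_sum hz v (fun u t => u.1.2 * t.1) (fun u t t' => by
      simp only [Prod.fst_add]; ring)
  have hB : ∑ u, u.1.2 * (ty (part D v u)).2.1 = g0 D (cy v) :=
    expo_sum hz v (fun u t => u.1.2 * t.2.1) (fun u t t' => by
      simp only [Prod.fst_add, Prod.snd_add]; ring)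
  have hA : ∑ u, u.1.1 * (ty (part D v u)).2.2 = g1 D (cx v) :=
    expo_sum hz v (fun u t => u.1.1 * t.2.2) (fun u t t' => by
      simp only [Prod.snd_add]; ring)
  have hg : gexp p (fun u => ty (part D v u)) =
      ∑ P : pf D, ((v P).2.1 * l1 p (gX D (cx v)) (gX D (cy v)) (g0 D (cy v)) (g1 D (cx v))
        (v P).1.1 (v P).1.2 (ty P.1) +
        (v P).2.2 * l2 p (gX D (cx v)) (gX D (cy v)) (g0 D (cy v)) (g1 D (cx v))
        (v P).1.1 (v P).1.2 (ty P.1)) := by
    unfold gexp
    simp only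
    rw [hX, hY, hB, hA]
    exact expo_sum hz v (fun u t => u.2.1 * l1 p (gX D (cx v)) (gX D (cy v)) (g0 D (cy v))
        (g1 D (cx v)) u.1.1 u.1.2 t + u.2.2 * l2 p (gX D (cx v)) (gX D (cy v)) (g0 D (cy v))
        (g1 D (cx v)) u.1.1 u.1.2 t) (fun u t t' => by
      rw [l1_add, l2_add]; ring)
  have hE : ∑ P, ((v P).2.1 * E1 p D (cx v) (cy v) P + (v P).2.2 * E2 p D (cx v) (cy v) P) =
      gexp p (fun u => ty (part D v u)) +
        ∑ P : pf D, ∑ Q : pf D, lam Q.1 P.1 * Phi (v P) (v Q) := by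
    rw [hg, ← Finset.sum_add_distrib]
    refine Finset.sum_congr rfl fun P _ => ?_
    have h1 : ∑ Q : pf D, lam Q.1 P.1 * Phi (v P) (v Q) =
        (v P).2.1 * ∑ Q : pf D, lam Q.1 P.1 * (cx v Q + cx v P) +
        (v P).2.2 * ∑ Q : pf D, lam Q.1 P.1 * (cy v Q + cy v P) := by
      rw [Finset.mul_sum, Finset.mul_sum, ← Finset.sum_add_distrib]
      refine Finset.sum_congr rfl fun Q _ => ?_
      unfold Phi cx cy
      ring
    rw [h1]
    unfold E1 E2 cx cy
    ring
  rw [hE, sg_add, expo_prod]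
  congr 1
  rw [sg_sum]
  refine Finset.prod_congr rfl fun P _ => ?_
  rw [sg_sum]
  refine Finset.prod_congr rfl fun Q _ => ?_
  rw [expo_sg_mul]
  by_cases hPQ : P = Q
  · subst hPQ
    rw [expo_Phi_self]
    simp
  · have hP := mem_pf' P.2
    have hQ := mem_pf' Q.2
    have hne : Q.1 ≠ P.1 := fun h => hPQ (Subtype.ext h.symm)
    rw [js_eq_sg hP.1 (isCoprime_irr hQ.1 hQ.2.1 hP.1 hP.2.1 hne)]

end Pool.Agent.H94.PC
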