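import Pool.Agent.H94.PC.KerPow
import Pool.Agent.H94.PC.Th

set_option autoImplicit false

/-!
# [H94 PC KTOR] The torsion classes are solutions; dichotomy

`D ∈ Cn F p n`: `∑ P : pf D, ty P = p.t` (`ty_prod'`, `prod_pf`), so for `x = 1` (constant):
`gX D 1 = p.nu`, `g0 D 1 = p.s0`, `g1 D 1 = p.s1`, and they are `0` for `x = 0`.
* `(0, 1)`: `X = 0, Y = p.nu, B = p.s0, A = 0`: `a0 = 1`, `b1 = 0`, `al = 0`, `be = p.ep + p.l`
  (finite check from `p.Good`), and the sums with `lam` vanish (`0 + 0` or `1 + 1`).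
  `E1 = (t.2.1 + ep t.1)(1 + 1) + 0 = 0`, `E2 = 0 + 0 + (ep + (ep + l) + l) t.1 = 0`.
* `(1, 0)`: `X = p.nu, Y = 0, B = 0, A = p.s1`: `a0 = 0`, `b1 = 1`, `al = p.l`, `be = p.ep`.
* `(1, 1)`: the sum of the two (`E1_add`, `E2_add`).
`dich`: the four elements `(a, b)` with `a, b ∈ {0, 1}` (constant functions) are in `Ker p D`, and
they are different as `pf D` is nonempty (`n ≥ 1`, `pf_eq_empty`).  `kn p D = 4 ^ i` (`kn_pow`):
`i ≥ 1`; if `i = 1` then `Ker p D` has no other elements; if `i ≥ 2` then `16 ≤ kn p D`.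
-/

namespace Pool.Agent.H94.PC

open Polynomial

variable {F : Type} [Field F] [Finite F]

theorem sum_ty {p : Par} {n : ℕ} {D : F[X]} (hD : D ∈ Cn F p n) :
    ∑ P : pf D, ty P.1 = p.t := by
  obtain ⟨h1, h2, h3⟩ := mem_Cn.1 hD
  obtain ⟨h4, h5, h6⟩ := mem_Sq.1 h1
  rw [Finset.sum_coe_sort (pf D) (fun P => ty P), ← ty_prod' (pf D), prod_pf h4 h6, h3]
  intro P hP
  obtain ⟨c, hc⟩ := (mem_pf' hP).2.2
  rw [hc, NZ_mul] at h2
  exact h2.1

theorem gX_one {p : Par} {n : ℕ} {D : F[X]} (hD : D ∈ Cn F p n) :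
    gX D (1 : pf D → ZMod 2) = p.nu := by
  have h := congrArg (fun t : Ty => t.1) (sum_ty hD)
  unfold gX
  rw [← show p.t.1 = p.nu from rfl, ← h]
  show _ = (∑ P : pf D, ty P.1).1
  rw [Prod.fst_sum]
  exact Finset.sum_congr rfl fun P _ => by rw [Pi.one_apply, one_mul]

theorem g0_one {p : Par} {n : ℕ} {D : F[X]} (hD : D ∈ Cn F p n) :
    g0 D (1 : pf D → ZMod 2) = p.s0 := by
  have h := congrArg (fun t : Ty => t.2.1) (sum_ty hD)
  unfold g0
  rw [← show p.t.2.1 = p.s0 from rfl, ← h]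
  show _ = (∑ P : pf D, ty P.1).2.1
  rw [Prod.snd_sum, Prod.fst_sum]
  exact Finset.sum_congr rfl fun P _ => by rw [Pi.one_apply, one_mul]

theorem g1_one {p : Par} {n : ℕ} {D : F[X]} (hD : D ∈ Cn F p n) :
    g1 D (1 : pf D → ZMod 2) = p.s1 := by
  have h := congrArg (fun t : Ty => t.2.2) (sum_ty hD)
  unfold g1
  rw [← show p.t.2.2 = p.s1 from rfl, ← h]
  show _ = (∑ P : pf D, ty P.1).2.2
  rw [Prod.snd_sum, Prod.snd_sum]
  exact Finset.sum_congr rfl fun P _ => by rw [Pi.one_apply, one_mul]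

theorem gX_zero (D : F[X]) : gX D (0 : pf D → ZMod 2) = 0 := by
  unfold gX
  exact Finset.sum_eq_zero fun P _ => by rw [Pi.zero_apply, zero_mul]

theorem g0_zero (D : F[X]) : g0 D (0 : pf D → ZMod 2) = 0 := by
  unfold g0
  exact Finset.sum_eq_zero fun P _ => by rw [Pi.zero_apply, zero_mul]

theorem g1_zero (D : F[X]) : g1 D (0 : pf D → ZMod 2) = 0 := by
  unfold g1
  exact Finset.sum_eq_zero fun P _ => by rw [Pi.zero_apply, zero_mul]

theorem tors_check (p : Par) (hp : p.Good) (t : Ty) :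
    l1 p 0 p.nu p.s0 0 0 1 t = 0 ∧ l2 p 0 p.nu p.s0 0 0 1 t = 0 ∧
      l1 p p.nu 0 0 p.s1 1 0 t = 0 ∧ l2 p p.nu 0 0 p.s1 1 0 t = 0 := by
  have h : ∀ ep l nu s0 s1 t0 t1 t2 : ZMod 2, Par.Good ⟨ep, l, nu, s0, s1⟩ →
      l1 ⟨ep, l, nu, s0, s1⟩ 0 nu s0 0 0 1 (t0, t1, t2) = 0 ∧
      l2 ⟨ep, l, nu, s0, s1⟩ 0 nu s0 0 0 1 (t0, t1, t2) = 0 ∧
      l1 ⟨ep, l, nu, s0, s1⟩ nu 0 0 s1 1 0 (t0, t1, t2) = 0 ∧
      l2 ⟨ep, l, nu, s0, s1⟩ nu 0 0 s1 1 0 (t0, t1, t2) = 0 := by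
    decide +kernel
  obtain ⟨ep, l, nu, s0, s1⟩ := p
  obtain ⟨t0, t1, t2⟩ := t
  exact h ep l nu s0 s1 t0 t1 t2 hp

theorem mem_ker_zero_one (p : Par) (hp : p.Good) {n : ℕ} {D : F[X]} (hD : D ∈ Cn F p n) :
    ((0, 1) : (pf D → ZMod 2) × (pf D → ZMod 2)) ∈ Ker p D := by
  have h11 : (1 : ZMod 2) + 1 = 0 := by decide
  intro P
  obtain ⟨c1, c2, -, -⟩ := tors_check p hp (ty P.1)
  constructor
  · unfold E1
    rw [gX_zero, gX_one hD, g0_one hD, g1_zero]
    simp only [Pi.zero_apply, Pi.one_apply, c1, add_zero, h11, mul_zero, Finset.sum_const_zero]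
  · unfold E2
    rw [gX_zero, gX_one hD, g0_one hD, g1_zero]
    simp only [Pi.zero_apply, Pi.one_apply, c2, add_zero, h11, mul_zero, Finset.sum_const_zero]

theorem mem_ker_one_zero (p : Par) (hp : p.Good) {n : ℕ} {D : F[X]} (hD : D ∈ Cn F p n) :
    ((1, 0) : (pf D → ZMod 2) × (pf D → ZMod 2)) ∈ Ker p D := by
  have h11 : (1 : ZMod 2) + 1 = 0 := by decide
  intro P
  obtain ⟨-, -, c1, c2⟩ := tors_check p hp (ty P.1)
  constructor
  · unfold E1
    rw [gX_zero, gX_one hD, g0_zero, g1_one hD]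
    simp only [Pi.zero_apply, Pi.one_apply, c1, add_zero, h11, mul_zero, Finset.sum_const_zero]
  · unfold E2
    rw [gX_zero, gX_one hD, g0_zero, g1_one hD]
    simp only [Pi.zero_apply, Pi.one_apply, c2, add_zero, h11, mul_zero, Finset.sum_const_zero]

theorem ker_add (p : Par) {D : F[X]} {z w : (pf D → ZMod 2) × (pf D → ZMod 2)}
    (hz : z ∈ Ker p D) (hw : w ∈ Ker p D) : z + w ∈ Ker p D := by
  intro P
  rw [Prod.fst_add, Prod.snd_add, E1_add, E2_add, (hz P).1, (hz P).2, (hw P).1, (hw P).2,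
    add_zero]
  exact ⟨rfl, rfl⟩

theorem ker_zero (p : Par) (D : F[X]) : (0 : (pf D → ZMod 2) × (pf D → ZMod 2)) ∈ Ker p D := by
  intro P
  exact ⟨E1_zero p D P, E2_zero p D P⟩

/-- the torsion classes -/
def cst (D : F[X]) (c : ZMod 2 × ZMod 2) : (pf D → ZMod 2) × (pf D → ZMod 2) :=
  (fun _ => c.1, fun _ => c.2)

theorem cst_mem (p : Par) (hp : p.Good) {n : ℕ} {D : F[X]} (hD : D ∈ Cn F p n)
    (c : ZMod 2 × ZMod 2) : cst D c ∈ Ker p D := by
  obtain ⟨a, b⟩ := c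
  rcases zmod_two_cases a with rfl | rfl <;> rcases zmod_two_cases b with rfl | rfl
  · exact ker_zero p D
  · exact mem_ker_zero_one p hp hD
  · exact mem_ker_one_zero p hp hD
  · have h := ker_add p (mem_ker_zero_one p hp hD) (mem_ker_one_zero p hp hD)
    rw [Prod.mk_add_mk, zero_add, add_zero] at h
    exact h

theorem dich (p : Par) (hp : p.Good) (hep : p.ep = bt (-1 : F)) {n : ℕ} (hn : 1 ≤ n) {D : F[X]}
    (hD : D ∈ Cn F p n) :
    (kn p D = 4 ∧ ∀ z ∈ Ker p D, (z.1 = 0 ∨ z.1 = 1) ∧ (z.2 = 0 ∨ z.2 = 1)) ∨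
      16 ≤ kn p D := by
  obtain ⟨h1, h2, h3⟩ := mem_Cn.1 hD
  obtain ⟨h4, h5, h6⟩ := mem_Sq.1 h1
  have hne : (pf D).Nonempty := by
    rw [Finset.nonempty_iff_ne_empty]
    intro h
    rw [(pf_eq_empty h4).1 h, natDegree_one] at h5
    omega
  obtain ⟨P0, hP0⟩ := hne
  have hinj : Function.Injective (cst D) := by
    intro c c' h
    have e1 := congrFun (congrArg Prod.fst h) ⟨P0, hP0⟩
    have e2 := congrFun (congrArg Prod.snd h) ⟨P0, hP0⟩
    exact Prod.ext e1 e2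
  have hfin : (Ker p D).Finite := Set.toFinite _
  have hkn : kn p D = (Ker p D).ncard := Nat.card_coe_set_eq _
  have hsub : Set.range (cst D) ⊆ Ker p D := by
    rintro z ⟨c, rfl⟩
    exact cst_mem p hp hD c
  have hr : (Set.range (cst D)).ncard = 4 := by
    rw [← Nat.card_coe_set_eq, Nat.card_range_of_injective hinj, Nat.card_prod, Nat.card_zmod]
  have h7 : 4 ≤ kn p D := by
    rw [hkn, ← hr]
    exact Set.ncard_le_ncard hsub hfin
  obtain ⟨i, hi⟩ := kn_pow p hp hep h4 h6 h2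
  rcases Nat.lt_or_ge i 2 with h8 | h8
  · left
    have hi1 : i = 1 := by
      rcases Nat.lt_or_ge i 1 with h9 | h9
      · have : i = 0 := by omega
        rw [hi, this] at h7
        norm_num at h7
      · omega
    rw [hi1, pow_one] at hi
    refine ⟨hi, ?_⟩
    have heq : Set.range (cst D) = Ker p D :=
      Set.eq_of_subset_of_ncard_le hsub (by rw [hr, ← hkn, hi]) hfin
    intro z hz
    rw [← heq] at hz
    obtain ⟨⟨a, b⟩, rfl⟩ := hz
    constructor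
    · rcases zmod_two_cases a with rfl | rfl
      · exact Or.inl rfl
      · exact Or.inr rfl
    · rcases zmod_two_cases b with rfl | rfl
      · exact Or.inl rfl
      · exact Or.inr rfl
  · right
    rw [hi]
    calc 16 = 4 ^ 2 := by norm_num
      _ ≤ 4 ^ i := Nat.pow_le_pow_right (by norm_num) h8

end Pool.Agent.H94.PC
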