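import Pool.Agent.H94.PC.Shape
import Pool.Agent.H94.PC.Th
import Pool.Agent.H94.LT.Twist

set_option autoImplicit false

/-!
# [H94 PC SELD] The conditions at `0`, `1`, `∞` determine the constants

`D ∈ Cn F p n`, `LT.Data (C l * D) ga gb`, `ga = C α * (X ^ e.val * sel D x)`,
`gb = C β * ((X - 1) ^ f.val * sel D y)`.  Put `X' = gX D x`, `Y' = gX D y`, `B' = g0 D y`, `A' = g1 D x`.
Then (in `ZMod 2`): the degree of `ga` is `e + X'`, of `gb` is `f + Y'`; leading coefficients `α`, `β`;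
`bt (gb(0)) = bt β + p.ep f + B'` (as `(X - 1)(0) = -1`), `bt (ga(1)) = bt α + A'`;
`bt ((C l * D)(0)) = p.l + p.s0`, `bt ((C l * D)(1)) = p.l + p.s1`, leading coefficient `l`,
degree `n`, `(n : ZMod 2) = p.nu`; `X ∣ ga` iff `e = 1`, `(X - 1) ∣ gb` iff `f = 1`
(`D(0), D(1) ≠ 0`).  A product of nonzero elements is a square iff the sum of the `bt` is `0`
(`bt_mul`, `bt_eq_zero_iff`); `bt (-c) = p.ep + bt c`.
So `Data` says:
* `zero`: `bt β + ep f + B' = e (ep + l + s0)`;
* `one`: `bt α + A' = f (l + s1)`;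
* `infOdd` (`nu = 1`): `e + X' = f + Y'` and `bt α + bt β = (ep + l)(e + X')`;
* `infEven` (`nu = 0`): with `u = e + X'`, `w = f + Y'`: `bt α = l w`, `bt β = (ep + l) u + ep w`
  (the four cases `(u, w)`).
For good `p` these equations have the unique solution `e = a0`, `f = b1`, `bt α = al`, `bt β = be`
at `(X', Y', B', A')`: a finite check over `p`, `e, f, bt α, bt β, X', Y', B', A'` in `ZMod 2`
(`solve_fin`: `decide` may be slow for all at once (2^13 cases); do cases on `p.nu` first and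
eliminate, or prove it by `linear_combination`-like reasoning in each case: for `nu = 1`:
substitute `f = e + X' + Y'` and `bt β = bt α + (ep + l)(e + X')` in the first two equations, add them,
and use `ep + l + s0 + s1 = 1`).
-/

namespace Pool.Agent.H94.PC

open Polynomial

variable {F : Type} [Field F] [Finite F]

theorem solve_fin (p : Par) (hp : p.Good) (e f a b X Y B A : ZMod 2)
    (h0 : b + p.ep * f + B = e * (p.ep + p.l + p.s0)) (h1 : a + A = f * (p.l + p.s1))
    (h2 : p.nu = 1 → e + X = f + Y ∧ a + b = (p.ep + p.l) * (e + X))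
    (h3 : p.nu = 0 → a = p.l * (f + Y) ∧ b = (p.ep + p.l) * (e + X) + p.ep * (f + Y)) :
    e = a0 p X Y B A ∧ f = b1 p X Y B A ∧ a = al p X Y B A ∧ b = be p X Y B A := by
  have T : (2 : ZMod 2) = 0 := by decide
  obtain ⟨ep, l, nu, s0, s1⟩ := p
  rcases hp with ⟨hn, hs0, hs1⟩ | ⟨hn, hg⟩
  · simp only at hn hs0 hs1 h0 h1 h3
    obtain ⟨ha, hb⟩ := h3 hn
    subst hn hs0 hs1
    have he : e = (ep + l) * X + ep * Y + B := by
      linear_combination -h0 + hb + (ep * f) * T
    have hf : f = l * Y + A := by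
      linear_combination -h1 + ha
    have hA0 : a0 ⟨ep, l, 0, 1, 1⟩ X Y B A = e := by
      rw [he]
      unfold a0
      simp only
      ring
    have hB1 : b1 ⟨ep, l, 0, 1, 1⟩ X Y B A = f := by
      rw [hf]
      unfold b1
      simp only
      ring
    refine ⟨hA0.symm, hB1.symm, ?_, ?_⟩
    · unfold al
      rw [hA0, hB1]
      simp only
      linear_combination ha
    · unfold be
      rw [hA0, hB1]
      simp only
      linear_combination hb
  · simp only at hn hg h0 h1 h2
    obtain ⟨hef, hab⟩ := h2 hn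
    subst hn
    have he : e = l * X + ep * Y + B + A + (X + Y) * (l + s1) := by
      linear_combination -h0 - h1 + hab - (ep - l - s1) * hef - e * hg +
        (ep * e + X * (ep - s1 - l) - Y * ep) * T
    have hA0 : a0 ⟨ep, l, 1, s0, s1⟩ X Y B A = e := by
      rw [he]
      unfold a0
      simp only
      linear_combination ((ep + l) * X + ep * Y + B) * T
    have hf : f = e + X + Y := by
      linear_combination -hef - Y * T
    have hB1 : b1 ⟨ep, l, 1, s0, s1⟩ X Y B A = f := by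
      unfold b1
      rw [hA0]
      simp only
      linear_combination -hf + (l * Y + A) * T
    have ha : a = l * (e + X) + ep * Y + B + e * (ep + l + s0) := by
      linear_combination hab - h0 + ep * hf + (ep * (e + X) - e * (ep + l + s0)) * T
    have hAl : al ⟨ep, l, 1, s0, s1⟩ X Y B A = a := by
      unfold al
      rw [hA0, hB1]
      simp only
      linear_combination -ha + (l * (f + Y)) * T
    refine ⟨hA0.symm, hB1.symm, hAl.symm, ?_⟩
    unfold be
    rw [hA0, hB1, hAl]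
    simp only
    linear_combination hab + (-a - ((ep + l) * (e + X) + ep * (f + Y))) * T

private theorem seld_fac {D : F[X]} (hD0 : D ≠ 0) (hD : NZ D) {P : F[X]} (hP : P ∈ pf D) :
    NZ P := by
  obtain ⟨Q, hQ⟩ := (mem_pf' hP).2.2
  rw [hQ] at hD
  exact (NZ_mul.1 hD).1

private theorem seld_sel {D : F[X]} (hD0 : D ≠ 0) (hD : NZ D) (x : pf D → ZMod 2) :
    NZ (sel D x) ∧ ty (sel D x) = (gX D x, g0 D x, g1 D x) := by
  classical
  have h1 : ∀ P : pf D, NZ (if x P = 1 then P.1 else 1) := by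
    intro P
    split_ifs
    · exact seld_fac hD0 hD P.2
    · exact NZ_one
  refine ⟨(NZ_prod _).2 h1, ?_⟩
  unfold sel
  rw [ty_prod _ h1]
  have h2 : ∀ P : pf D, ty (if x P = 1 then P.1 else 1) =
      (x P * (ty P.1).1, x P * (ty P.1).2.1, x P * (ty P.1).2.2) := by
    intro P
    have h3 : x P = 0 ∨ x P = 1 := by
      generalize x P = z
      revert z
      decide
    rcases h3 with h | h
    · rw [h, if_neg (by decide), ty_one, zero_mul, zero_mul, zero_mul]
      rfl
    · rw [h, if_pos rfl]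
      simp
  rw [Finset.sum_congr rfl fun P _ => h2 P]
  unfold gX g0 g1
  refine Prod.ext ?_ (Prod.ext ?_ ?_)
  · simp [Prod.fst_sum]
  · simp [Prod.fst_sum, Prod.snd_sum]
  · simp [Prod.snd_sum]

private theorem seld_par (n : ℕ) : ((n : ZMod 2) = 0 ↔ Even n) ∧ ((n : ZMod 2) = 1 ↔ Odd n) :=
  ⟨ZMod.natCast_eq_zero_iff_even, ZMod.natCast_eq_one_iff_odd⟩

private theorem seld_val (e : ZMod 2) : ((e.val : ℕ) : ZMod 2) = e := by
  revert e
  decide

private theorem seld_01 (e : ZMod 2) : (e = 0 ∧ e.val = 0) ∨ (e = 1 ∧ e.val = 1) := by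
  revert e
  decide

theorem sel_data (p : Par) (hp : p.Good) (hep : p.ep = bt (-1 : F)) {l : F} (hl : l ≠ 0)
    (hpl : p.l = bt l) {n : ℕ} {D : F[X]} (hD : D ∈ Cn F p n) {α β : F} (hα : α ≠ 0)
    (hβ : β ≠ 0) (e f : ZMod 2) (x y : pf D → ZMod 2) {ga gb : F[X]}
    (hga : ga = C α * (X ^ e.val * sel D x)) (hgb : gb = C β * ((X - 1) ^ f.val * sel D y))
    (h : LT.Data (C l * D) ga gb) :
    e = a0 p (gX D x) (gX D y) (g0 D y) (g1 D x) ∧ f = b1 p (gX D x) (gX D y) (g0 D y) (g1 D x) ∧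
      bt α = al p (gX D x) (gX D y) (g0 D y) (g1 D x) ∧
      bt β = be p (gX D x) (gX D y) (g0 D y) (g1 D x) := by
  have hC := mem_Cn.1 hD
  obtain ⟨hDm, hDn, hDs⟩ := mem_Sq.1 hC.1
  have hNZ : NZ D := hC.2.1
  have hD0 : D ≠ 0 := NZ_ne_zero hNZ
  have ht : ty D = p.t := hC.2.2
  have hnu : (n : ZMod 2) = p.nu := by
    have h1 : (ty D).1 = p.t.1 := by rw [ht]
    rw [← hDn]
    exact h1
  have hs0 : bt (D.eval 0) = p.s0 := by
    have h1 : (ty D).2.1 = p.t.2.1 := by rw [ht]
    exact h1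
  have hs1 : bt (D.eval 1) = p.s1 := by
    have h1 : (ty D).2.2 = p.t.2.2 := by rw [ht]
    exact h1
  obtain ⟨hxN, hxt⟩ := seld_sel hD0 hNZ x
  obtain ⟨hyN, hyt⟩ := seld_sel hD0 hNZ y
  have hxX : ((sel D x).natDegree : ZMod 2) = gX D x := congrArg Prod.fst hxt
  have hyX : ((sel D y).natDegree : ZMod 2) = gX D y := congrArg Prod.fst hyt
  have hx1 : bt ((sel D x).eval 1) = g1 D x := congrArg (fun t : Ty => t.2.2) hxt
  have hy0 : bt ((sel D y).eval 0) = g0 D y := congrArg (fun t : Ty => t.2.1) hyt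
  have hxm := sel_monic D x
  have hym := sel_monic D y
  have hX1 : (X - 1 : F[X]).Monic := by
    have h1 := monic_X_sub_C (1 : F)
    rwa [C_1] at h1
  have hX1d : (X - 1 : F[X]).natDegree = 1 := by
    have h1 := natDegree_X_sub_C (1 : F)
    rwa [C_1] at h1
  have ham : (X ^ e.val * sel D x).Monic := (monic_X_pow _).mul hxm
  have hbm : ((X - 1) ^ f.val * sel D y).Monic := (hX1.pow _).mul hym
  -- leading coefficients and degrees
  have hla : ga.leadingCoeff = α := by
    rw [hga, leadingCoeff_mul, leadingCoeff_C, ham.leadingCoeff, mul_one]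
  have hlb : gb.leadingCoeff = β := by
    rw [hgb, leadingCoeff_mul, leadingCoeff_C, hbm.leadingCoeff, mul_one]
  have hlD : (C l * D).leadingCoeff = l := by
    rw [leadingCoeff_mul, leadingCoeff_C, hDm.leadingCoeff, mul_one]
  have hdD : (C l * D).natDegree = n := by
    rw [natDegree_C_mul hl, hDn]
  have hda : (ga.natDegree : ZMod 2) = e + gX D x := by
    rw [hga, natDegree_C_mul hα, (monic_X_pow _).natDegree_mul hxm, natDegree_X_pow, Nat.cast_add,
      seld_val, hxX]
  have hdb : (gb.natDegree : ZMod 2) = f + gX D y := by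
    rw [hgb, natDegree_C_mul hβ, (hX1.pow _).natDegree_mul hym, natDegree_pow, hX1d, mul_one,
      Nat.cast_add, seld_val, hyX]
  -- values
  have hD0v : bt ((C l * D).eval 0) = p.l + p.s0 := by
    rw [eval_mul, eval_C, bt_mul hl hNZ.1, hs0, hpl]
  have hD1v : bt ((C l * D).eval 1) = p.l + p.s1 := by
    rw [eval_mul, eval_C, bt_mul hl hNZ.2, hs1, hpl]
  have hD0n : (C l * D).eval 0 ≠ 0 := by
    rw [eval_mul, eval_C]
    exact mul_ne_zero hl hNZ.1
  have hD1n : (C l * D).eval 1 ≠ 0 := by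
    rw [eval_mul, eval_C]
    exact mul_ne_zero hl hNZ.2
  have hm1 : (-1 : F) ≠ 0 := neg_ne_zero.2 one_ne_zero
  have hga1 : ga.eval 1 = α * (sel D x).eval 1 := by
    rw [hga, eval_mul, eval_mul, eval_C, eval_pow, eval_X, one_pow, one_mul]
  have hga1n : ga.eval 1 ≠ 0 := by
    rw [hga1]
    exact mul_ne_zero hα hxN.2
  have hga1v : bt (ga.eval 1) = bt α + g1 D x := by
    rw [hga1, bt_mul hα hxN.2, hx1]
  have hgb0 : gb.eval 0 = β * ((-1) ^ f.val * (sel D y).eval 0) := by
    rw [hgb, eval_mul, eval_mul, eval_C, eval_pow, eval_sub, eval_X, eval_one, zero_sub]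
  have hgb0n : gb.eval 0 ≠ 0 := by
    rw [hgb0]
    exact mul_ne_zero hβ (mul_ne_zero (pow_ne_zero _ hm1) hyN.1)
  have hgb0v : bt (gb.eval 0) = bt β + p.ep * f + g0 D y := by
    rw [hgb0, bt_mul hβ (mul_ne_zero (pow_ne_zero _ hm1) hyN.1),
      bt_mul (pow_ne_zero _ hm1) hyN.1, hy0, hep]
    rcases seld_01 f with ⟨hf, hf'⟩ | ⟨hf, hf'⟩
    · rw [hf', hf, pow_zero, bt_one, mul_zero]
      ring
    · rw [hf', hf, pow_one, mul_one]
      ring
  -- divisibility
  have hXa : X ∣ ga ↔ e = 1 := by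
    rw [X_dvd_iff, coeff_zero_eq_eval_zero, hga, eval_mul, eval_mul, eval_C, eval_pow, eval_X]
    rcases seld_01 e with ⟨he, he'⟩ | ⟨he, he'⟩
    · rw [he', he, pow_zero, one_mul]
      simp [hα, hxN.1]
    · rw [he', he, pow_one, zero_mul, mul_zero]
      simp
  have hXb : (X - 1) ∣ gb ↔ f = 1 := by
    have h1 : (X - 1 : F[X]) = X - C 1 := by rw [C_1]
    rw [h1, dvd_iff_isRoot, IsRoot.def, hgb, eval_mul, eval_mul, eval_C, eval_pow, eval_sub,
      eval_X, eval_one, sub_self]
    rcases seld_01 f with ⟨hf, hf'⟩ | ⟨hf, hf'⟩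
    · rw [hf', hf, pow_zero, one_mul]
      simp [hβ, hyN.2]
    · rw [hf', hf, pow_one, zero_mul, mul_zero]
      simp
  have T : (2 : ZMod 2) = 0 := by decide
  have hneg : ∀ {z : F}, z ≠ 0 → bt (-z) = p.ep + bt z := by
    intro z hz
    have h1 : -z = (-1) * z := by ring
    rw [h1, bt_mul hm1 hz, hep]
  refine solve_fin p hp e f (bt α) (bt β) (gX D x) (gX D y) (g0 D y) (g1 D x) ?_ ?_ ?_ ?_
  · rcases h.zero with ⟨h1, h2⟩ | ⟨h1, h2⟩
    · have he : e = 0 := by
        rcases seld_01 e with h3 | h3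
        · exact h3.1
        · exact absurd (hXa.2 h3.1) h1
      rw [← bt_eq_zero_iff, hgb0v] at h2
      rw [h2, he, zero_mul]
    · have he : e = 1 := hXa.1 h1
      rw [← bt_eq_zero_iff, hneg (mul_ne_zero hgb0n hD0n), bt_mul hgb0n hD0n, hgb0v, hD0v] at h2
      rw [he, one_mul]
      linear_combination h2 - (p.ep + p.l + p.s0) * T
  · rcases h.one with ⟨h1, h2⟩ | ⟨h1, h2⟩
    · have hf : f = 0 := by
        rcases seld_01 f with h3 | h3
        · exact h3.1
        · exact absurd (hXb.2 h3.1) h1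
      rw [← bt_eq_zero_iff, hga1v] at h2
      rw [h2, hf, zero_mul]
    · have hf : f = 1 := hXb.1 h1
      rw [← bt_eq_zero_iff, bt_mul hga1n hD1n, hga1v, hD1v] at h2
      rw [hf, one_mul]
      linear_combination h2 - (p.l + p.s1) * T
  · intro hn1
    have hodd : Odd (C l * D).natDegree := by
      rw [hdD, ← (seld_par n).2, hnu, hn1]
    rcases h.infOdd hodd with ⟨h1, h2, h3⟩ | ⟨h1, h2, h3⟩
    · rw [← (seld_par _).1, hda] at h1
      rw [← (seld_par _).1, hdb] at h2
      rw [← bt_eq_zero_iff, hla, hlb, bt_mul hα hβ] at h3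
      rw [h1, h2, h3, mul_zero]
      exact ⟨rfl, rfl⟩
    · rw [← (seld_par _).2, hda] at h1
      rw [← (seld_par _).2, hdb] at h2
      rw [← bt_eq_zero_iff, hla, hlb, hlD, hneg (mul_ne_zero (mul_ne_zero hα hβ) hl),
        bt_mul (mul_ne_zero hα hβ) hl, bt_mul hα hβ, ← hpl] at h3
      rw [h1, h2]
      refine ⟨rfl, ?_⟩
      linear_combination h3 - (p.ep + p.l) * T
  · intro hn0
    have heven : Even (C l * D).natDegree := by
      rw [hdD, ← (seld_par n).1, hnu, hn0]
    rcases h.infEven heven with ⟨h1, h2, h3, h4⟩ | ⟨h1, h2, h3, h4⟩ | ⟨h1, h2, h3, h4⟩ |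
      ⟨h1, h2, h3, h4⟩
    · rw [← (seld_par _).1, hda] at h1
      rw [← (seld_par _).1, hdb] at h2
      rw [← bt_eq_zero_iff, hla] at h3
      rw [← bt_eq_zero_iff, hlb] at h4
      rw [h1, h2, h3, h4]
      simp
    · rw [← (seld_par _).2, hda] at h1
      rw [← (seld_par _).1, hdb] at h2
      rw [← bt_eq_zero_iff, hla] at h3
      rw [← bt_eq_zero_iff, hlb, hlD, hneg (mul_ne_zero hβ hl), bt_mul hβ hl, ← hpl] at h4
      rw [h1, h2, h3]
      refine ⟨by ring, ?_⟩
      linear_combination h4 - (p.ep + p.l) * T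
    · rw [← (seld_par _).1, hda] at h1
      rw [← (seld_par _).2, hdb] at h2
      rw [← bt_eq_zero_iff, hla, hlD, bt_mul hα hl, ← hpl] at h3
      rw [← bt_eq_zero_iff, hlb, hneg hβ] at h4
      rw [h1, h2]
      refine ⟨?_, ?_⟩
      · linear_combination h3 - p.l * T
      · linear_combination h4 - p.ep * T
    · rw [← (seld_par _).2, hda] at h1
      rw [← (seld_par _).2, hdb] at h2
      rw [← bt_eq_zero_iff, hla, hlD, bt_mul hα hl, ← hpl] at h3
      rw [← bt_eq_zero_iff, hlb, hlD, bt_mul hβ hl, ← hpl] at h4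
      rw [h1, h2]
      refine ⟨?_, ?_⟩
      · linear_combination h3 - p.l * T
      · linear_combination h4 - (p.l + p.ep) * T

end Pool.Agent.H94.PC
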