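import Pool.Agent.H94.PC.SelEq
import Pool.Agent.H94.PC.SelDat
import Pool.Agent.H94.PC.KerTors
import Pool.Agent.H94.LT.Prime

/-!
# [H94 PC SELT] If there are only four solutions, then all soluble classes are torsion classes

`D ∈ Cn F p n`, `Data (C l * D) ga gb` and `LocP (C l * D) ga gb P` for all `P ∈ pf D`.
`shape` for `ga` (`T = X`) and `gb` (`T = X - 1`; `X - 1 = X - C 1` is monic irreducible; `D(0), D(1) ≠ 0`)
gives `α, e, x` and `β, f, y`.  By `sel_data` the numbers `e, f, bt α, bt β` are `a0, b1, al, be` at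
`(gX D x, gX D y, g0 D y, g1 D x)`, so `sel_eq` says that `(x, y) ∈ Ker p D` (compare with `E1`, `E2`,
`l1`, `l2`).  By hypothesis `x ∈ {0, 1}`, `y ∈ {0, 1}`; `sel D 0 = 1`, `sel D 1 = D`.
`gX D 1 = p.nu`, `g0 D 1 = p.s0`, `g1 D 1 = p.s1` (as in `KerTors`), and the finite values:
* `(0, 0)`: `e = f = bt α = bt β = 0`: `ga = C α`, `gb = C β`, squares: first case.
* `(0, 1)`: `e = 1, f = 0, bt α = 0, bt β = ep + l`: `ga = C α * X`, `gb = C β * D`, and `-l β` is a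
  square: second case (`ga * C (c ^ 2) = X`, `c = 1 / sqrt α`; `gb * C (d ^ 2) = -(C l * D)`).
* `(1, 0)`: `e = 0, f = 1, bt α = l, bt β = ep`: `ga = C α * D`, `gb = C β * (X - 1)`: third case.
* `(1, 1)`: sums of the previous: `e = 1, f = 1, bt α = l, bt β = l`: fourth case.
-/

set_option autoImplicit false

namespace Pool.Agent.H94.PC

open Polynomial

variable {F : Type} [Field F] [Finite F]

private lemma selt00 : ∀ ep l nu s0 s1 : ZMod 2,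
    a0 ⟨ep, l, nu, s0, s1⟩ 0 0 0 0 = 0 ∧ b1 ⟨ep, l, nu, s0, s1⟩ 0 0 0 0 = 0 ∧
    al ⟨ep, l, nu, s0, s1⟩ 0 0 0 0 = 0 ∧ be ⟨ep, l, nu, s0, s1⟩ 0 0 0 0 = 0 := by
  decide

private lemma selt01 : ∀ ep l nu s0 s1 : ZMod 2, (Par.mk ep l nu s0 s1).Good →
    a0 ⟨ep, l, nu, s0, s1⟩ 0 nu s0 0 = 1 ∧ b1 ⟨ep, l, nu, s0, s1⟩ 0 nu s0 0 = 0 ∧
    al ⟨ep, l, nu, s0, s1⟩ 0 nu s0 0 = 0 ∧ be ⟨ep, l, nu, s0, s1⟩ 0 nu s0 0 = ep + l := by
  decide

private lemma selt10 : ∀ ep l nu s0 s1 : ZMod 2, (Par.mk ep l nu s0 s1).Good →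
    a0 ⟨ep, l, nu, s0, s1⟩ nu 0 0 s1 = 0 ∧ b1 ⟨ep, l, nu, s0, s1⟩ nu 0 0 s1 = 1 ∧
    al ⟨ep, l, nu, s0, s1⟩ nu 0 0 s1 = l ∧ be ⟨ep, l, nu, s0, s1⟩ nu 0 0 s1 = ep := by
  decide

private lemma selt11 : ∀ ep l nu s0 s1 : ZMod 2, (Par.mk ep l nu s0 s1).Good →
    a0 ⟨ep, l, nu, s0, s1⟩ nu nu s0 s1 = 1 ∧ b1 ⟨ep, l, nu, s0, s1⟩ nu nu s0 s1 = 1 ∧
    al ⟨ep, l, nu, s0, s1⟩ nu nu s0 s1 = l ∧ be ⟨ep, l, nu, s0, s1⟩ nu nu s0 s1 = l := by
  decide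

private lemma selt_sq {a b : F} (ha : a ≠ 0) (hb : b ≠ 0) (h : bt a = bt b) :
    ∃ c : F, c ≠ 0 ∧ a * c ^ 2 = b := by
  have h1 : bt (a * b) = 0 := by
    rw [bt_mul ha hb, h]
    have h2 : ∀ z : ZMod 2, z + z = 0 := by decide
    exact h2 _
  rw [bt_eq_zero_iff] at h1
  obtain ⟨s, hs⟩ := h1
  have hs0 : s ≠ 0 := by
    rintro rfl
    rw [mul_zero] at hs
    exact mul_ne_zero ha hb hs
  refine ⟨s / a, div_ne_zero hs0 ha, ?_⟩
  rw [div_pow, sq s, ← hs]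
  field_simp

private lemma selt_ty {p : Par} {n : ℕ} {D : F[X]} (hD : D ∈ Cn F p n) :
    ∑ P : pf D, ty P.1 = (p.nu, p.s0, p.s1) := by
  obtain ⟨h1, h2, h3⟩ := mem_Cn.1 hD
  obtain ⟨hm, hn, hs⟩ := mem_Sq.1 h1
  have h4 : ∀ P ∈ pf D, NZ P := by
    intro P hP
    obtain ⟨_, _, Q, hQ⟩ := mem_pf' hP
    rw [hQ] at h2
    exact (NZ_mul.1 h2).1
  have h5 := ty_prod' (pf D) h4
  rw [prod_pf hm hs, h3] at h5
  rw [Finset.sum_coe_sort (pf D) (fun P => ty P), ← h5]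
  rfl

theorem torsion_of_ker (p : Par) (hp : p.Good) (hep : p.ep = bt (-1 : F)) {l : F} (hl : l ≠ 0)
    (hpl : p.l = bt l) {n : ℕ} {D : F[X]} (hD : D ∈ Cn F p n)
    (hk : ∀ z ∈ Ker p D, (z.1 = 0 ∨ z.1 = 1) ∧ (z.2 = 0 ∨ z.2 = 1)) {ga gb : F[X]}
    (h : LT.Data (C l * D) ga gb)
    (hloc : ∀ P : F[X], P.Monic → Irreducible P → P ∣ C l * D → LocP (C l * D) ga gb P) :
    LT.TorsionClass (C l * D) ga gb := by
  obtain ⟨h1, hz, h3⟩ := mem_Cn.1 hD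
  obtain ⟨hm, hn, hs⟩ := mem_Sq.1 h1
  have hX1 : (X : F[X]) - C 1 = X - 1 := by rw [C_1]
  have hXD : ¬ X ∣ D := by
    rw [X_dvd_iff, coeff_zero_eq_eval_zero]
    exact hz.1
  have hX1D : ¬ (X - 1) ∣ D := by
    rw [← hX1, dvd_iff_isRoot]
    exact hz.2
  obtain ⟨α, e, x, hα, hga⟩ := shape hm hs monic_X irreducible_X hXD hl h.sqa h.dvda
  obtain ⟨β, f, y, hβ, hgb⟩ := shape hm hs (by rw [← hX1]; exact monic_X_sub_C 1)
    (by rw [← hX1]; exact irreducible_X_sub_C 1) hX1D hl h.sqb h.dvdb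
  obtain ⟨he, hf, hal, hbe⟩ := sel_data p hp hep hl hpl hD hα hβ e f x y hga hgb h
  have hker : (x, y) ∈ Ker p D := by
    intro P
    obtain ⟨hPm, hPi, hPd⟩ := mem_pf' P.2
    have hL := hloc P.1 hPm hPi (Dvd.dvd.mul_left hPd _)
    obtain ⟨h4, h5⟩ := sel_eq p hep hl hpl hm hs hz hα hβ e f x y hga hgb P hL
    constructor
    · unfold E1 l1
      rw [← he, ← hal]
      exact h4
    · unfold E2 l2
      rw [← hf, ← hbe]
      exact h5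
  obtain ⟨hx, hy⟩ := hk _ hker
  have hx' : x = 0 ∨ x = 1 := hx
  have hy' : y = 0 ∨ y = 1 := hy
  have hty := selt_ty hD
  have hX0 : gX D 0 = 0 := by simp [gX]
  have hB0 : g0 D 0 = 0 := by simp [g0]
  have hA0 : g1 D 0 = 0 := by simp [g1]
  have hX1' : gX D 1 = p.nu := by
    have h6 := congrArg Prod.fst hty
    rw [Prod.fst_sum] at h6
    simpa [gX] using h6
  have hB1 : g0 D 1 = p.s0 := by
    have h6 := congrArg (fun t : Ty => t.2.1) hty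
    simp only [Prod.snd_sum, Prod.fst_sum] at h6
    simpa [g0] using h6
  have hA1 : g1 D 1 = p.s1 := by
    have h6 := congrArg (fun t : Ty => t.2.2) hty
    simp only [Prod.snd_sum] at h6
    simpa [g1] using h6
  have hv0 : (0 : ZMod 2).val = 0 := rfl
  have hv1 : (1 : ZMod 2).val = 1 := rfl
  have hnl : bt (-l) = p.ep + p.l := by
    rw [← neg_one_mul, bt_mul (neg_ne_zero.2 one_ne_zero) hl, ← hep, ← hpl]
  have hcc : ∀ (c d : F) (g : F[X]), C c * g * C (d ^ 2) = C (c * d ^ 2) * g := by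
    intro c d g
    rw [C_mul]
    ring
  rcases hx' with rfl | rfl <;> rcases hy' with rfl | rfl
  · rw [hX0, hB0, hA0] at he hf hal hbe
    obtain ⟨e1, e2, e3, e4⟩ := selt00 p.ep p.l p.nu p.s0 p.s1
    rw [e1] at he
    rw [e2] at hf
    rw [e3, bt_eq_zero_iff] at hal
    rw [e4, bt_eq_zero_iff] at hbe
    obtain ⟨c, hc⟩ := hal
    obtain ⟨d, hd⟩ := hbe
    left
    refine ⟨c, d, ?_, ?_, ?_, ?_⟩
    · rintro rfl
      exact hα (by rw [hc, mul_zero])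
    · rintro rfl
      exact hβ (by rw [hd, mul_zero])
    · rw [hga, he, hv0, pow_zero, sel_zero, mul_one, mul_one, hc, sq]
    · rw [hgb, hf, hv0, pow_zero, sel_zero, mul_one, mul_one, hd, sq]
  · rw [hX0, hX1', hB1, hA0] at he hf hal hbe
    obtain ⟨e1, e2, e3, e4⟩ := selt01 p.ep p.l p.nu p.s0 p.s1 hp
    rw [e1] at he
    rw [e2] at hf
    rw [e3, ← bt_one (F := F)] at hal
    rw [e4, ← hnl] at hbe
    obtain ⟨c, hc0, hc⟩ := selt_sq hα one_ne_zero hal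
    obtain ⟨d, hd0, hd⟩ := selt_sq hβ (neg_ne_zero.2 hl) hbe
    right; left
    refine ⟨c, d, hc0, hd0, ?_, ?_⟩
    · rw [hga, he, hv1, pow_one, sel_zero, mul_one, hcc, hc, C_1, one_mul]
    · rw [hgb, hf, hv0, pow_zero, sel_one hm hs, one_mul, hcc, hd, C_neg, neg_mul]
  · rw [hX0, hX1', hB0, hA1] at he hf hal hbe
    obtain ⟨e1, e2, e3, e4⟩ := selt10 p.ep p.l p.nu p.s0 p.s1 hp
    rw [e1] at he
    rw [e2] at hf
    rw [e3] at hal
    rw [e4] at hbe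
    obtain ⟨c, hc0, hc⟩ := selt_sq hα hl (hal.trans hpl)
    obtain ⟨d, hd0, hd⟩ := selt_sq hβ (neg_ne_zero.2 one_ne_zero) (hbe.trans hep)
    right; right; left
    refine ⟨c, d, hc0, hd0, ?_, ?_⟩
    · rw [hga, he, hv0, pow_zero, sel_one hm hs, one_mul, hcc, hc]
    · rw [hgb, hf, hv1, pow_one, sel_zero, mul_one, hcc, hd, C_neg, C_1]
      ring
  · rw [hX1', hB1, hA1] at he hf hal hbe
    obtain ⟨e1, e2, e3, e4⟩ := selt11 p.ep p.l p.nu p.s0 p.s1 hp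
    rw [e1] at he
    rw [e2] at hf
    rw [e3] at hal
    rw [e4] at hbe
    obtain ⟨c, hc0, hc⟩ := selt_sq hα hl (hal.trans hpl)
    obtain ⟨d, hd0, hd⟩ := selt_sq hβ hl (hbe.trans hpl)
    right; right; right
    refine ⟨c, d, hc0, hd0, ?_, ?_⟩
    · rw [hga, he, hv1, pow_one, sel_one hm hs, hcc, hc]
      ring
    · rw [hgb, hf, hv1, pow_one, sel_one hm hs, hcc, hd]
      ring

end Pool.Agent.H94.PC
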