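import Pool.Agent.H94.PC.Prop
import Pool.Agent.H94.PC.SelTors

set_option autoImplicit false

/-!
# From the classes `Cn F p n` to the admissible polynomials
-/

namespace Pool.Agent.H94.PC

open Polynomial

variable {F : Type} [Field F] [Finite F]

/-- the admissible polynomials -/
def Adm (l : F) (n : ℕ) (D : F[X]) : Prop :=
  D.Monic ∧ D.natDegree = n ∧ Squarefree D ∧ D.eval 0 ≠ 0 ∧ D.eval 1 ≠ 0 ∧
    ((Odd n ∧ ¬ IsSquare (-(l * D.eval 0 * D.eval 1))) ∨
      (Even n ∧ ¬ IsSquare (D.eval 0) ∧ ¬ IsSquare (D.eval 1)))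

theorem finite_Adm (l : F) (n : ℕ) : {D : F[X] | Adm l n D}.Finite :=
  (finite_natDegree_le F n).subset fun _ h => h.2.1.le

/-- the parameters of the classes -/
noncomputable def par (l : F) (n : ℕ) (s : ZMod 2) : Par where
  ep := bt (-1 : F)
  l := bt l
  nu := n
  s0 := if Odd n then s else 1
  s1 := if Odd n then s + bt (-1 : F) + bt l + 1 else 1

theorem zmod2 (a : ZMod 2) : a = 0 ∨ a = 1 := by
  revert a; decide

theorem par_good (l : F) (n : ℕ) (s : ZMod 2) : (par l n s).Good := by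
  have h2 : (1 : ZMod 2) + 1 = 0 := by decide
  by_cases h : Odd n
  · right
    refine ⟨?_, ?_⟩
    · show (n : ZMod 2) = 1
      rwa [ZMod.natCast_eq_one_iff_odd]
    · show (if Odd n then s else 1) + (if Odd n then s + bt (-1 : F) + bt l + 1 else 1) +
        bt (-1 : F) + bt l = 1
      rw [if_pos h, if_pos h]
      generalize bt (-1 : F) = a
      generalize bt l = b
      revert a b s; decide
  · left
    refine ⟨?_, ?_, ?_⟩
    · show (n : ZMod 2) = 0
      rw [ZMod.natCast_eq_zero_iff_even]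
      exact Nat.not_odd_iff_even.1 h
    · show (if Odd n then s else 1) = 1
      rw [if_neg h]
    · show (if Odd n then s + bt (-1 : F) + bt l + 1 else 1) = 1
      rw [if_neg h]

theorem not_sq_iff {x : F} : ¬ IsSquare x ↔ bt x = 1 := bt_eq_one_iff.symm

theorem adm_iff {l : F} (hl : l ≠ 0) (n : ℕ) (D : F[X]) :
    Adm l n D ↔ ∃ s : ZMod 2, InC (par l n s) n D := by
  have hm1 : (-1 : F) ≠ 0 := neg_ne_zero.2 one_ne_zero
  constructor
  · rintro ⟨hm, hn, hs, h0, h1, h⟩
    rcases h with ⟨ho, h⟩ | ⟨he, h3, h4⟩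
    · refine ⟨bt (D.eval 0), mem_Sq.2 ⟨hm, hn, hs⟩, ⟨h0, h1⟩, ?_⟩
      rw [not_sq_iff] at h
      have h5 : -(l * D.eval 0 * D.eval 1) = (-1) * (l * (D.eval 0 * D.eval 1)) := by ring
      rw [h5, bt_mul hm1 (mul_ne_zero hl (mul_ne_zero h0 h1)), bt_mul hl (mul_ne_zero h0 h1),
        bt_mul h0 h1] at h
      show ((D.natDegree : ZMod 2), bt (D.eval 0), bt (D.eval 1)) = _
      rw [hn]
      show _ = ((n : ZMod 2), (if Odd n then bt (D.eval 0) else 1),
        (if Odd n then bt (D.eval 0) + bt (-1 : F) + bt l + 1 else 1))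
      rw [if_pos ho, if_pos ho]
      refine Prod.ext rfl (Prod.ext rfl ?_)
      show bt (D.eval 1) = bt (D.eval 0) + bt (-1 : F) + bt l + 1
      revert h
      generalize bt (-1 : F) = a
      generalize bt l = b
      generalize bt (D.eval 0) = c
      generalize bt (D.eval 1) = d
      revert a b c d; decide
    · refine ⟨0, mem_Sq.2 ⟨hm, hn, hs⟩, ⟨h0, h1⟩, ?_⟩
      rw [not_sq_iff] at h3 h4
      have ho : ¬ Odd n := Nat.not_odd_iff_even.2 he
      show ((D.natDegree : ZMod 2), bt (D.eval 0), bt (D.eval 1)) = ((n : ZMod 2),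
        (if Odd n then (0 : ZMod 2) else 1),
        (if Odd n then (0 : ZMod 2) + bt (-1 : F) + bt l + 1 else 1))
      rw [hn, if_neg ho, if_neg ho, h3, h4]
  · rintro ⟨s, hsq, ⟨h0, h1⟩, ht⟩
    obtain ⟨hm, hn, hs⟩ := mem_Sq.1 hsq
    refine ⟨hm, hn, hs, h0, h1, ?_⟩
    have ht2 : bt (D.eval 0) = if Odd n then s else 1 := congrArg (fun t : Ty => t.2.1) ht
    have ht3 : bt (D.eval 1) = if Odd n then s + bt (-1 : F) + bt l + 1 else 1 :=
      congrArg (fun t : Ty => t.2.2) ht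
    by_cases ho : Odd n
    · left
      rw [if_pos ho] at ht2 ht3
      refine ⟨ho, ?_⟩
      have h5 : -(l * D.eval 0 * D.eval 1) = (-1) * (l * (D.eval 0 * D.eval 1)) := by ring
      rw [not_sq_iff, h5, bt_mul hm1 (mul_ne_zero hl (mul_ne_zero h0 h1)),
        bt_mul hl (mul_ne_zero h0 h1), bt_mul h0 h1, ht2, ht3]
      clear ht ht2 ht3
      generalize bt (-1 : F) = a
      generalize bt l = b
      revert a b s; decide
    · right
      rw [if_neg ho] at ht2 ht3
      exact ⟨Nat.not_odd_iff_even.1 ho, not_sq_iff.2 ht2, not_sq_iff.2 ht3⟩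

/-- the admissible polynomials as a finite set -/
noncomputable def AdmF (l : F) (n : ℕ) : Finset F[X] := (finite_Adm l n).toFinset

theorem mem_AdmF {l : F} {n : ℕ} {D : F[X]} : D ∈ AdmF l n ↔ Adm l n D := by
  rw [AdmF, Set.Finite.mem_toFinset]; rfl

/-- the admissible polynomials with only four solutions -/
def Gd (l : F) (n : ℕ) (D : F[X]) : Prop :=
  ∃ s : ZMod 2, InC (par l n s) n D ∧ kn (par l n s) D = 4

theorem disjoint_Cn {l : F} {n : ℕ} (ho : Odd n) :
    Disjoint (Cn F (par l n 0) n) (Cn F (par l n 1) n) := by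
  rw [Finset.disjoint_left]
  intro D h h'
  have h1 : bt (D.eval 0) = if Odd n then (0 : ZMod 2) else 1 :=
    congrArg (fun t : Ty => t.2.1) (mem_Cn.1 h).2.2
  have h2 : bt (D.eval 0) = if Odd n then (1 : ZMod 2) else 1 :=
    congrArg (fun t : Ty => t.2.1) (mem_Cn.1 h').2.2
  rw [if_pos ho] at h1 h2
  rw [h1] at h2
  exact absurd h2 (by decide)

open Classical in
theorem main_count (h2 : (2 : F) ≠ 0) {l : F} (hl : l ≠ 0) (ε : ℝ) (hε : 0 < ε) :
    ∃ N : ℕ, ∀ n ≥ N,
      (Nat.card F : ℝ) ^ n / (4 * (Nat.card F : ℝ) ^ 2) ≤ ((AdmF l n).card : ℝ) ∧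
      (1 / 3 - ε) * ((AdmF l n).card : ℝ) ≤ (((AdmF l n).filter (Gd l n)).card : ℝ) := by
  have hpar : ∀ n n' : ℕ, ∀ s : ZMod 2, (Odd n ↔ Odd n') → par l n s = par l n' s := by
    intro n n' s h
    unfold par
    have h1 : (n : ZMod 2) = (n' : ZMod 2) := by
      by_cases ho : Odd n
      · rw [ZMod.natCast_eq_one_iff_odd.2 ho, ZMod.natCast_eq_one_iff_odd.2 (h.1 ho)]
      · have ho' : ¬ Odd n' := fun h' => ho (h.2 h')
        rw [ZMod.natCast_eq_zero_iff_even.2 (Nat.not_odd_iff_even.1 ho),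
          ZMod.natCast_eq_zero_iff_even.2 (Nat.not_odd_iff_even.1 ho')]
    by_cases ho : Odd n
    · rw [if_pos ho, if_pos ho, if_pos (h.1 ho), if_pos (h.1 ho), h1]
    · have ho' : ¬ Odd n' := fun h' => ho (h.2 h')
      rw [if_neg ho, if_neg ho, if_neg ho', if_neg ho', h1]
  have key : ∀ (m : ℕ) (s : ZMod 2), ∃ N : ℕ, ∀ n ≥ N, (Odd n ↔ Odd m) →
      (Nat.card F : ℝ) ^ n / (4 * (Nat.card F : ℝ) ^ 2) ≤ ((Cn F (par l n s) n).card : ℝ) ∧
      (1 / 3 - ε) * ((Cn F (par l n s) n).card : ℝ) ≤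
        (((Cn F (par l n s) n).filter fun D => kn (par l n s) D = 4).card : ℝ) := by
    intro m s
    obtain ⟨N1, h1⟩ := prop h2 (par l m s) (par_good l m s) rfl ε hε
    obtain ⟨N2, h3⟩ := card_Cn_ge h2 (par l m s)
    refine ⟨max N1 N2, fun n hn hnm => ?_⟩
    rw [hpar n m s hnm]
    refine ⟨h3 n (le_trans (le_max_right _ _) hn) ?_, ?_⟩
    · show (n : ZMod 2) = (par l m s).nu
      rw [← hpar n m s hnm]; rfl
    · have := h1 n (le_trans (le_max_left _ _) hn)
      convert this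
  obtain ⟨N0, k0⟩ := key 0 0
  obtain ⟨N1, k1⟩ := key 1 0
  obtain ⟨N2, k2⟩ := key 1 1
  refine ⟨max N0 (max N1 N2), fun n hn => ?_⟩
  have hn0 : n ≥ N0 := le_trans (le_max_left _ _) hn
  have hn1 : n ≥ N1 := le_trans (le_trans (le_max_left _ _) (le_max_right _ _)) hn
  have hn2 : n ≥ N2 := le_trans (le_trans (le_max_right _ _) (le_max_right _ _)) hn
  by_cases ho : Odd n
  · obtain ⟨a1, a2⟩ := k1 n hn1 ⟨fun _ => odd_one, fun _ => ho⟩
    obtain ⟨b1, b2⟩ := k2 n hn2 ⟨fun _ => odd_one, fun _ => ho⟩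
    have hU : AdmF l n = Cn F (par l n 0) n ∪ Cn F (par l n 1) n := by
      ext D
      rw [mem_AdmF, adm_iff hl, Finset.mem_union, mem_Cn, mem_Cn]
      constructor
      · rintro ⟨s, hs⟩
        rcases zmod2 s with rfl | rfl
        · exact Or.inl hs
        · exact Or.inr hs
      · rintro (h | h)
        · exact ⟨0, h⟩
        · exact ⟨1, h⟩
    have hc : ((AdmF l n).card : ℝ) = ((Cn F (par l n 0) n).card : ℝ) +
        ((Cn F (par l n 1) n).card : ℝ) := by
      rw [hU, Finset.card_union_of_disjoint (disjoint_Cn ho)]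
      push_cast; rfl
    have hf : (((Cn F (par l n 0) n).filter fun D => kn (par l n 0) D = 4).card : ℝ) +
        (((Cn F (par l n 1) n).filter fun D => kn (par l n 1) D = 4).card : ℝ) ≤
        (((AdmF l n).filter (Gd l n)).card : ℝ) := by
      rw [← Nat.cast_add, ← Finset.card_union_of_disjoint (Finset.disjoint_filter_filter
        (disjoint_Cn ho))]
      refine Nat.cast_le.2 (Finset.card_le_card ?_)
      intro D hD
      rw [Finset.mem_union, Finset.mem_filter, Finset.mem_filter] at hD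
      rw [Finset.mem_filter, hU, Finset.mem_union]
      rcases hD with ⟨h, h'⟩ | ⟨h, h'⟩
      · exact ⟨Or.inl h, 0, mem_Cn.1 h, h'⟩
      · exact ⟨Or.inr h, 1, mem_Cn.1 h, h'⟩
    have hq : (0 : ℝ) ≤ ((Cn F (par l n 1) n).card : ℝ) := Nat.cast_nonneg _
    constructor
    · rw [hc]; linarith
    · rw [hc]; linarith [mul_add (1 / 3 - ε) ((Cn F (par l n 0) n).card : ℝ)
        ((Cn F (par l n 1) n).card : ℝ)]
  · obtain ⟨a1, a2⟩ := k0 n hn0 ⟨fun h => absurd h ho, fun h => absurd h (by decide)⟩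
    have hU : AdmF l n = Cn F (par l n 0) n := by
      ext D
      rw [mem_AdmF, adm_iff hl, mem_Cn]
      constructor
      · rintro ⟨s, hs⟩
        have : par l n s = par l n 0 := by
          unfold par
          rw [if_neg ho, if_neg ho, if_neg ho, if_neg ho]
        rwa [this] at hs
      · intro h; exact ⟨0, h⟩
    rw [hU]
    refine ⟨a1, a2.trans (Nat.cast_le.2 (Finset.card_le_card ?_))⟩
    intro D hD
    rw [Finset.mem_filter] at hD ⊢
    exact ⟨hD.1, 0, mem_Cn.1 hD.1, hD.2⟩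

end Pool.Agent.H94.PC
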