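import Pool.Agent.H94.PC.PSTheta

set_option autoImplicit false

/-!
# [H94 PC SST] Mean value of `(3 + θ) / 4`

`f = (3 + θ) / 4`, `0 ≤ f ≤ 1` at monic polynomials; to apply `SS_le`, which asks for the
inequalities at all polynomials, replace `θ` by the function which is `0` at polynomials which
are not monic (`classical`; `SS` and `PS` only see monic polynomials: `mem_pf'`, `mem_Pr`).
`(3 + θ) / 4 = 1/2 + (1 + θ) / 4`, so
`PS f m = PS (1/2) m + (1/4) PS (1 + θ) m ≤ (1 + log m) / 2 + (log m + log K + 8) / 4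
= (3/4) log m + (1/4) log K + 5/2` (`PS_const`, `PS_theta`), and
`SS f m ≤ q ^ m / m * exp (...) = exp (5/2) q ^ m m ^ (-1/4) K ^ (1/4)`, `exp (5/2) ≤ 13`.
-/

namespace Pool.Agent.H94.PC

open Polynomial

variable {F : Type} [Field F] [Finite F]

theorem SS_theta_exp : Real.exp (5 / 2) ≤ 13 := by
  have h1 : Real.exp (5 / 2) ^ 2 = Real.exp 1 ^ 5 := by
    rw [← Real.exp_nat_mul, ← Real.exp_nat_mul]
    norm_num
  have h2 : Real.exp 1 < 2.7182818286 := Real.exp_one_lt_d9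
  have h3 : Real.exp 1 ^ 5 ≤ 2.7182818286 ^ 5 := pow_le_pow_left₀ (Real.exp_pos 1).le h2.le 5
  have h4 : Real.exp (5 / 2) ^ 2 ≤ 13 ^ 2 := by
    rw [h1]
    refine h3.trans ?_
    norm_num
  exact le_of_sq_le_sq h4 (by norm_num)

theorem SS_theta {θ : F[X] → ℝ} (hθ : CM θ) (K : ℝ) (hK1 : 1 ≤ K)
    (hK : ∀ j : ℕ, ∑ i ∈ Finset.range (j + 1), (∑ B ∈ Mo F i, θ B) / (Nat.card F : ℝ) ^ i ≤ K)
    (m : ℕ) (hm : 1 ≤ m) :
    SS (fun P => (3 + θ P) / 4) m ≤
      13 * (Nat.card F : ℝ) ^ m * (m : ℝ) ^ (-(1 / 4) : ℝ) * K ^ (1 / 4 : ℝ) := by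
  classical
  set f : F[X] → ℝ := fun P => if P.Monic then (3 + θ P) / 4 else 0 with hf
  have hf0 : ∀ P, 0 ≤ f P := by
    intro P
    show 0 ≤ (if P.Monic then (3 + θ P) / 4 else 0)
    split_ifs with h
    · rcases hθ.val P h with h1 | h1 | h1 <;> rw [h1] <;> norm_num
    · exact le_rfl
  have hf1 : ∀ P, f P ≤ 1 := by
    intro P
    show (if P.Monic then (3 + θ P) / 4 else 0) ≤ 1
    split_ifs with h
    · rcases hθ.val P h with h1 | h1 | h1 <;> rw [h1] <;> norm_num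
    · norm_num
  have hSS : SS (fun P => (3 + θ P) / 4) m = SS f m := by
    unfold SS
    refine Finset.sum_congr rfl fun D _ => ?_
    refine Finset.prod_congr rfl fun P hP => ?_
    show (3 + θ P) / 4 = (if P.Monic then (3 + θ P) / 4 else 0)
    rw [if_pos (mem_pf' hP).1]
  have hPS : PS f m = PS (fun _ : F[X] => (1 / 2 : ℝ)) m + 1 / 4 * PS (fun P => 1 + θ P) m := by
    unfold PS
    rw [Finset.mul_sum, ← Finset.sum_add_distrib]
    refine Finset.sum_congr rfl fun d _ => ?_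
    rw [Finset.mul_sum, ← Finset.sum_add_distrib]
    refine Finset.sum_congr rfl fun P hP => ?_
    show (if P.Monic then (3 + θ P) / 4 else 0) / (Nat.card F : ℝ) ^ d = _
    rw [if_pos (mem_Pr.1 hP).1]
    ring
  have h1 := SS_le f hf0 1 hf1 m hm
  have h2 := PS_const (F := F) (1 / 2) (by norm_num) m hm
  have h3 := PS_theta hθ K hK1 hK m hm
  have hm0 : (0 : ℝ) < m := by exact_mod_cast hm
  have hK0 : (0 : ℝ) < K := by linarith
  have hq : (0 : ℝ) < (Nat.card F : ℝ) := by exact_mod_cast Nat.card_pos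
  have hqm : (0 : ℝ) < (Nat.card F : ℝ) ^ m := pow_pos hq m
  have h4 : PS f m ≤ 5 / 2 + (3 / 4 * Real.log m + 1 / 4 * Real.log K) := by
    rw [hPS]
    linarith
  have h5 : Real.exp (PS f m) ≤ 13 * ((m : ℝ) ^ (3 / 4 : ℝ) * K ^ (1 / 4 : ℝ)) := by
    refine (Real.exp_le_exp.2 h4).trans ?_
    rw [Real.exp_add, Real.exp_add]
    have e1 : Real.exp (3 / 4 * Real.log m) = (m : ℝ) ^ (3 / 4 : ℝ) := by
      rw [Real.rpow_def_of_pos hm0, mul_comm]
    have e2 : Real.exp (1 / 4 * Real.log K) = K ^ (1 / 4 : ℝ) := by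
      rw [Real.rpow_def_of_pos hK0, mul_comm]
    rw [e1, e2]
    exact mul_le_mul_of_nonneg_right SS_theta_exp (mul_nonneg (Real.rpow_nonneg hm0.le _)
      (Real.rpow_nonneg hK0.le _))
  rw [hSS]
  have h6 : (m : ℝ) ^ (-(1 / 4) : ℝ) = (m : ℝ) ^ (3 / 4 : ℝ) / m := by
    rw [← Real.rpow_sub_one hm0.ne']
    norm_num
  calc SS f m ≤ 1 / m * (Nat.card F : ℝ) ^ m * Real.exp (PS f m) := h1
    _ ≤ 1 / m * (Nat.card F : ℝ) ^ m * (13 * ((m : ℝ) ^ (3 / 4 : ℝ) * K ^ (1 / 4 : ℝ))) :=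
        mul_le_mul_of_nonneg_left h5 (by positivity)
    _ = 13 * (Nat.card F : ℝ) ^ m * (m : ℝ) ^ (-(1 / 4) : ℝ) * K ^ (1 / 4 : ℝ) := by
        rw [h6]
        ring

end Pool.Agent.H94.PC
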