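import Pool.Agent.H94.PC.Th

set_option autoImplicit false

/-!
# [H94 PC THS] Partial sums of the characters `th k g`

See the header of `Th.lean`, item `th_partial`, for the complete proof.
-/

namespace Pool.Agent.H94.PC

open Polynomial

variable {F : Type} [Field F] [Finite F]

/-- the exponent of `X` or `X - 1` in `g'` -/
def ths_e (t : ZMod 2) : ℕ := if t = 1 then 1 else 2

theorem ths_e_ne (t : ZMod 2) : ths_e t ≠ 0 := by
  unfold ths_e; split_ifs <;> norm_num

theorem ths_e_le (t : ZMod 2) : ths_e t ≤ 2 := by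
  unfold ths_e; split_ifs <;> norm_num

theorem ths_zmod (t : ZMod 2) (h : t ≠ 1) : t = 0 := by
  revert t; decide

theorem ths_pow {x : F} (hx : x ≠ 0) (t : ZMod 2) : ch x ^ ths_e t = sg (t * bt x) := by
  unfold ths_e
  split_ifs with h
  · rw [h, pow_one, one_mul, ch_eq_sg hx]
  · rw [ths_zmod t h, zero_mul, sg_zero]
    rcases ch_cases' hx with h1 | h1 <;> rw [h1] <;> norm_num

theorem ths_pow_zero (t : ZMod 2) : ch (0 : F) ^ ths_e t = 0 := by
  rw [ch_zero, zero_pow (ths_e_ne t)]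

theorem ths_js_pow {B : F[X]} (hB : B.Monic) (A : F[X]) (n : ℕ) : js (A ^ n) B = js A B ^ n := by
  induction n with
  | zero => rw [pow_zero, pow_zero, js_one_left hB]
  | succ n ih => rw [pow_succ, pow_succ, js_mul_left hB, ih]

/-- the modified polynomial -/
noncomputable def ths_g (k : Ty) (g : F[X]) : F[X] :=
  g * X ^ ths_e k.2.1 * (X - 1) ^ ths_e k.2.2

/-- the sign -/
noncomputable def ths_s (F : Type) [Field F] (k : Ty) : ℝ :=
  sg k.1 * ch (-1 : F) ^ (ths_e k.2.1 + ths_e k.2.2)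

theorem ths_em : ch (-1 : F) * ch (-1 : F) = 1 := by
  rcases ch_cases' (neg_ne_zero.2 (one_ne_zero (α := F))) with h | h <;> rw [h] <;> norm_num

theorem ths_eq (k : Ty) (g : F[X]) {D : F[X]} (hD : D.Monic) :
    th k g D = ths_s F k ^ D.natDegree * js (ths_g k g) D := by
  have hjs : js (ths_g k g) D = js g D * (ch (-1 : F) ^ D.natDegree * ch (D.eval 0)) ^ ths_e k.2.1 *
      (ch (-1 : F) ^ D.natDegree * ch (D.eval 1)) ^ ths_e k.2.2 := by
    rw [ths_g, js_mul_left hD, js_mul_left hD, ths_js_pow hD, ths_js_pow hD, js_X hD,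
      js_X_sub_one hD]
  by_cases hz : NZ D
  · rw [th_of_NZ hz, hjs, ths_s]
    have e1 : sg (pr k (ty D)) = sg k.1 ^ D.natDegree * ch (D.eval 0) ^ ths_e k.2.1 *
        ch (D.eval 1) ^ ths_e k.2.2 := by
      rw [ths_pow hz.1, ths_pow hz.2, pr, ty, sg_add, sg_add, sg_mul_natCast]
    rw [e1]
    have hem := ths_em (F := F)
    generalize ch (-1 : F) = e at hem
    generalize ch (D.eval 0) = c0
    generalize ch (D.eval 1) = c1
    generalize ths_e k.2.1 = a
    generalize ths_e k.2.2 = b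
    generalize D.natDegree = n
    have e2 : (e ^ (a + b)) ^ n * ((e ^ n) ^ a * (e ^ n) ^ b) = 1 := by
      have e3 : (e ^ (a + b)) ^ n * ((e ^ n) ^ a * (e ^ n) ^ b) = (e * e) ^ (n * (a + b)) := by
        rw [mul_pow, ← pow_mul, ← pow_mul, ← pow_mul, ← pow_add, ← pow_add, ← pow_add]
        congr 1
        ring
      rw [e3, hem, one_pow]
    rw [mul_pow, mul_pow, mul_pow]
    linear_combination (-(js g D * (sg k.1 ^ n * c0 ^ a * c1 ^ b))) * e2
  · rw [th_of_not hz, hjs]
    have h1 : D.eval 0 = 0 ∨ D.eval 1 = 0 := by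
      by_contra hcon
      push Not at hcon
      exact hz hcon
    rcases h1 with h1 | h1
    · rw [h1, mul_pow (ch (-1 : F) ^ D.natDegree) (ch 0) (ths_e k.2.1), ths_pow_zero]
      ring
    · rw [h1, mul_pow (ch (-1 : F) ^ D.natDegree) (ch 0) (ths_e k.2.2), ths_pow_zero]
      ring

theorem ths_monic (k : Ty) {g : F[X]} (hg : g.Monic) : (ths_g k g).Monic := by
  have h1 : (X - 1 : F[X]).Monic := by
    have := monic_X_sub_C (1 : F)
    rwa [C_1] at this
  exact (hg.mul (monic_X_pow _)).mul (h1.pow _)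

theorem ths_deg (k : Ty) {g : F[X]} (hg : g.Monic) :
    (ths_g k g).natDegree ≤ g.natDegree + 4 := by
  have h1 : (X - 1 : F[X]).Monic := by
    have := monic_X_sub_C (1 : F)
    rwa [C_1] at this
  have h2 : natDegree (X - 1 : F[X]) = 1 := by
    have := natDegree_X_sub_C (1 : F)
    rwa [C_1] at this
  rw [ths_g, (hg.mul (monic_X_pow _)).natDegree_mul (h1.pow _), hg.natDegree_mul (monic_X_pow _),
    natDegree_X_pow, h1.natDegree_pow, h2]
  have := ths_e_le k.2.1
  have := ths_e_le k.2.2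
  omega

theorem ths_prime (c : F) : Prime (X - C c : F[X]) := prime_X_sub_C c

/-- an odd power of a linear factor -/
theorem ths_odd (c : F) (u y : F[X]) (hu : u.eval c ≠ 0) (h : u * (X - C c) = y * y) : False := by
  have h1 : (X - C c) ∣ y * y := ⟨u, by rw [← h, mul_comm]⟩
  have h2 : (X - C c) ∣ y := by
    rcases (ths_prime c).dvd_or_dvd h1 with h | h <;> exact h
  obtain ⟨z, rfl⟩ := h2
  have h3 : (X - C c : F[X]) ≠ 0 := (ths_prime c).ne_zero
  have h4 : u = (X - C c) * (z * z) := by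
    apply mul_right_cancel₀ h3
    rw [h]
    ring
  apply hu
  rw [h4, eval_mul, eval_sub, eval_X, eval_C, sub_self, zero_mul]

/-- removing a square of a linear factor -/
theorem ths_even (c : F) (u y : F[X]) (h : u * (X - C c) ^ 2 = y * y) :
    ∃ z, y = (X - C c) * z ∧ u = z * z := by
  have h1 : (X - C c) ∣ y * y := ⟨u * (X - C c), by rw [← h]; ring⟩
  have h2 : (X - C c) ∣ y := by
    rcases (ths_prime c).dvd_or_dvd h1 with h | h <;> exact h
  obtain ⟨z, rfl⟩ := h2
  have h3 : ((X - C c) ^ 2 : F[X]) ≠ 0 := pow_ne_zero 2 (ths_prime c).ne_zero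
  refine ⟨z, rfl, ?_⟩
  apply mul_right_cancel₀ h3
  rw [h]
  ring

theorem ths_square (k : Ty) {g : F[X]} (hz : NZ g) (h : IsSquare (ths_g k g)) :
    k.2.1 = 0 ∧ k.2.2 = 0 ∧ IsSquare g := by
  obtain ⟨y, hy⟩ := h
  rw [ths_g] at hy
  have hX : (X : F[X]) = X - C 0 := by rw [C_0, sub_zero]
  have hX1 : (X - 1 : F[X]) = X - C 1 := by rw [C_1]
  have e0 : (X - C (1 : F)).eval 0 ≠ 0 := by
    rw [eval_sub, eval_X, eval_C, zero_sub]
    exact neg_ne_zero.2 one_ne_zero
  have e1 : (X : F[X]).eval 1 ≠ 0 := by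
    rw [eval_X]
    exact one_ne_zero
  have ha : k.2.1 ≠ 1 := by
    intro ha
    rw [ha] at hy
    have h1 : (g * (X - 1) ^ ths_e k.2.2) * (X - C 0) = y * y := by
      have h0 : ths_e 1 = 1 := by decide
      rw [← hX, ← hy, h0, pow_one]
      ring
    refine ths_odd 0 _ y ?_ h1
    rw [eval_mul, eval_pow, hX1]
    exact mul_ne_zero hz.1 (pow_ne_zero _ e0)
  have hb : k.2.2 ≠ 1 := by
    intro hb
    rw [hb] at hy
    have h1 : (g * X ^ ths_e k.2.1) * (X - C 1) = y * y := by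
      have h0 : ths_e 1 = 1 := by decide
      rw [← hX1, ← hy, h0, pow_one]
    refine ths_odd 1 _ y ?_ h1
    rw [eval_mul, eval_pow]
    exact mul_ne_zero hz.2 (pow_ne_zero _ e1)
  have ha0 := ths_zmod _ ha
  have hb0 := ths_zmod _ hb
  refine ⟨ha0, hb0, ?_⟩
  have h2 : (g * X ^ 2) * (X - C 1) ^ 2 = y * y := by
    rw [← hX1, ← hy]
    unfold ths_e
    rw [if_neg ha, if_neg hb]
  obtain ⟨z, _, hz1⟩ := ths_even 1 _ y h2
  have h3 : g * (X - C 0) ^ 2 = z * z := by rw [← hX, ← hz1]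
  obtain ⟨w, _, hw⟩ := ths_even 0 _ z h3
  exact ⟨w, hw⟩

theorem ths_alt (T : ℕ → ℝ) (d : ℕ) (c : ℝ) (hc : |c| ≤ 1) (hT : ∀ i, T i ≤ 1)
    (h : ∀ i, d ≤ i → T i = (-1) ^ i * c) (n : ℕ) : ∑ i ∈ Finset.range n, T i ≤ d + 1 := by
  have hsum : ∀ m : ℕ, ∑ i ∈ Finset.range m, T i ≤ m := by
    intro m
    have := Finset.sum_le_card_nsmul (Finset.range m) T 1 (fun i _ => hT i)
    rwa [Finset.card_range, nsmul_eq_mul, mul_one] at this
  rcases le_or_gt n d with hn | hn
  · have h1 : (n : ℝ) ≤ d := by exact_mod_cast hn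
    linarith [hsum n]
  · obtain ⟨m, rfl⟩ : ∃ m, n = d + m := ⟨n - d, by omega⟩
    rw [Finset.sum_range_add]
    have h1 : ∀ m : ℕ, ∑ x ∈ Finset.range m, T (d + x) = (-1) ^ d * c * ((1 - (-1) ^ m) / 2) := by
      intro m
      induction m with
      | zero => simp
      | succ m ih =>
        rw [Finset.sum_range_succ, ih, h (d + m) (by omega), pow_add, pow_succ]
        ring
    have h2 : (-1 : ℝ) ^ d * c * ((1 - (-1) ^ m) / 2) ≤ 1 := by
      refine (le_abs_self _).trans ?_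
      rw [abs_mul, abs_mul, abs_pow, abs_neg, abs_one, one_pow, one_mul]
      have h3 : |(1 - (-1 : ℝ) ^ m) / 2| ≤ 1 := by
        rcases neg_one_pow_eq_or ℝ m with h4 | h4 <;> rw [h4] <;> norm_num
      calc |c| * |(1 - (-1 : ℝ) ^ m) / 2| ≤ 1 * 1 :=
            mul_le_mul hc h3 (abs_nonneg _) zero_le_one
        _ = 1 := one_mul 1
    rw [h1]
    linarith [hsum d]

theorem ths_s_abs (k : Ty) : |ths_s F k| = 1 := by
  rw [ths_s, abs_mul, abs_sg, one_mul, abs_pow]
  rcases ch_cases' (neg_ne_zero.2 (one_ne_zero (α := F))) with h | h <;> rw [h] <;> norm_num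

theorem th_partial (h2 : (2 : F) ≠ 0) (k : Ty) {g : F[X]} (hg : g.Monic) (hz : NZ g)
    (h : k ≠ 0 ∨ ¬ IsSquare g) (j : ℕ) :
    ∑ i ∈ Finset.range (j + 1), (∑ B ∈ Mo F i, th k g B) / (Nat.card F : ℝ) ^ i ≤
      g.natDegree + 6 := by
  have hq : (0 : ℝ) < (Nat.card F : ℝ) := by exact_mod_cast Nat.card_pos
  have hgm := ths_monic k hg
  have hdeg := ths_deg k hg
  have hsumB : ∀ i, ∑ B ∈ Mo F i, th k g B = ths_s F k ^ i * ∑ B ∈ Mo F i, js (ths_g k g) B := by
    intro i
    rw [Finset.mul_sum]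
    refine Finset.sum_congr rfl fun B hB => ?_
    rw [ths_eq k g (mem_Mo.1 hB).1, (mem_Mo.1 hB).2]
  have hle : ∀ i, (∑ B ∈ Mo F i, th k g B) / (Nat.card F : ℝ) ^ i ≤ 1 := by
    intro i
    rw [div_le_one (pow_pos hq i)]
    have h3 : ∀ B ∈ Mo F i, th k g B ≤ 1 := by
      intro B hB
      rw [ths_eq k g (mem_Mo.1 hB).1]
      refine (le_abs_self _).trans ?_
      rw [abs_mul, abs_pow, ths_s_abs, one_pow, one_mul]
      exact abs_js_le _ _
    have h4 := Finset.sum_le_card_nsmul (Mo F i) (th k g) 1 h3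
    rw [card_Mo, nsmul_eq_mul, mul_one] at h4
    push_cast at h4
    exact h4
  have hfin : ∀ c : ℝ, |c| ≤ 1 → (∀ i, (ths_g k g).natDegree ≤ i →
      (∑ B ∈ Mo F i, th k g B) / (Nat.card F : ℝ) ^ i = (-1) ^ i * c) →
      ∑ i ∈ Finset.range (j + 1), (∑ B ∈ Mo F i, th k g B) / (Nat.card F : ℝ) ^ i ≤
      g.natDegree + 6 := by
    intro c hc hi
    have h5 := ths_alt (fun i => (∑ B ∈ Mo F i, th k g B) / (Nat.card F : ℝ) ^ i)
      (ths_g k g).natDegree c hc hle hi (j + 1)
    have h6 : ((ths_g k g).natDegree : ℝ) ≤ g.natDegree + 4 := by exact_mod_cast hdeg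
    linarith
  by_cases hs : IsSquare (ths_g k g)
  · obtain ⟨ha, hb, hgs⟩ := ths_square k hz hs
    have hk1 : k.1 = 1 := by
      by_contra hk1
      have hk0 := ths_zmod _ hk1
      rcases h with h | h
      · apply h
        exact Prod.ext hk0 (Prod.ext ha hb)
      · exact h hgs
    have hs1 : ths_s F k = -1 := by
      have h7 : ths_e k.2.1 + ths_e k.2.2 = 4 := by
        rw [ha, hb]
        decide
      rw [ths_s, h7, hk1, sg_one]
      have h8 : ch (-1 : F) ^ 4 = 1 := by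
        have := ths_em (F := F)
        calc ch (-1 : F) ^ 4 = (ch (-1 : F) * ch (-1 : F)) ^ 2 := by ring
          _ = 1 := by rw [this, one_pow]
      rw [h8]
      norm_num
    have heven : ∀ m : ℕ, ch (-1 : F) ^ ((ths_g k g).natDegree * m) = 1 := by
      intro m
      obtain ⟨y, hy⟩ := hs
      have hy0 : y ≠ 0 := by
        rintro rfl
        rw [mul_zero] at hy
        exact hgm.ne_zero hy
      rw [hy, natDegree_mul hy0 hy0]
      have h9 : (y.natDegree + y.natDegree) * m = 2 * (y.natDegree * m) := by ring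
      rw [h9, pow_mul, sq, ths_em, one_pow]
    set N := ths_g k g with hN
    refine hfin ((∑ r ∈ Lt F N.natDegree, js r N) / (Nat.card F : ℝ) ^ N.natDegree) ?_ ?_
    · rw [abs_div, abs_of_pos (pow_pos hq _), div_le_one (pow_pos hq _)]
      refine (Finset.abs_sum_le_sum_abs _ _).trans ?_
      have h10 := Finset.sum_le_card_nsmul (Lt F N.natDegree) (fun r => |js r N|) 1
        (fun r _ => abs_js_le _ _)
      rw [card_Lt, nsmul_eq_mul, mul_one] at h10
      push_cast at h10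
      exact h10
    · intro i hi
      rw [hsumB, hs1]
      have h11 : ∑ B ∈ Mo F i, js N B = ∑ B ∈ Mo F i, js B N := by
        refine Finset.sum_congr rfl fun B hB => ?_
        rw [js_recip hgm (mem_Mo.1 hB).1, heven, one_mul]
      have h12 : ∑ B ∈ Mo F i, js B N = (Nat.card F : ℝ) ^ (i - N.natDegree) *
          ∑ r ∈ Lt F N.natDegree, js r N := by
        rw [sum_Mo_mod hgm hi]
        have h13 : ∀ h ∈ Mo F (i - N.natDegree), ∑ r ∈ Lt F N.natDegree, js (N * h + r) N =
            ∑ r ∈ Lt F N.natDegree, js r N := by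
          intro h _
          refine Finset.sum_congr rfl fun r _ => js_congr hgm ⟨h, by ring⟩
        rw [Finset.sum_congr rfl h13, Finset.sum_const, card_Mo, nsmul_eq_mul]
        push_cast
        ring
      rw [h11, h12]
      have h14 : (Nat.card F : ℝ) ^ i = (Nat.card F : ℝ) ^ (i - N.natDegree) *
          (Nat.card F : ℝ) ^ N.natDegree := by
        rw [← pow_add, Nat.sub_add_cancel hi]
      rw [h14]
      have h15 : (Nat.card F : ℝ) ^ (i - N.natDegree) ≠ 0 := (pow_pos hq _).ne'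
      have h16 : (Nat.card F : ℝ) ^ N.natDegree ≠ 0 := (pow_pos hq _).ne'
      field_simp
  · refine hfin 0 (by norm_num) fun i hi => ?_
    rw [hsumB, sum_js_left h2 hgm hs hi]
    simp

end Pool.Agent.H94.PC
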