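import Pool.Agent.H94.PC.SumMult
import Pool.Agent.H94.PC.ThSum
import Pool.Agent.H94.PC.SSTheta
import Pool.Agent.H94.PC.Fourier

set_option autoImplicit false

/-!
# [H94 PC INN] The inner sum over the four large variables

`κ` has 4 elements, `q = Nat.card F`.  Let `S` be the set of `D ∈ Sq F m` with `NZ D` and
`IsCoprime D E` (`classical` filter).

`inn_chi`: let `k : κ → Ty`, `ε i = th (k i) (h i)` (`CM`, `th_CM`).  By `sum_mult` the sum is
`∑ D ∈ S, ∏ P ∈ pf D, (1/4) ∑ i, ε i P`.  Suppose `k i + k j ≠ 0` or `h i * h j` is not a square;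
then `i ≠ j`.  For a monic irreducible `P` put `θ P = ε i P * ε j P = th (k i + k j) (h i * h j) P`
(`th_mul_th`).  As all `ε` are in `{-1, 0, 1}`:
`|∑ i, ε i P| ≤ 2 + |ε i P + ε j P| ≤ 2 + 1 + θ P` (the inequality `|a + b| ≤ 1 + a b` for
`a, b ∈ {-1, 0, 1}`; the other two indices contribute at most `2`).  So the sum is at most
`∑ D ∈ Sq m, ∏ P ∈ pf D, (3 + θ P) / 4 = SS (fun P => (3 + θ P) / 4) m` in absolute value, and
`SS_theta` with `K = deg (h i * h j) + 6 ≤ 2 d + 6` (`th_partial`) gives the bound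
(`K ^ (1/4)` is monotone in `K`).

`inn`: insert `fourier G` for `G`, exchange the sums; for `x` in the range of the sum all `x i` are
`NZ` (`NZ_prod`), so `chi k (ty ∘ x) * ∏ i, js (h i) (x i) = ∏ i, th (k i) (h i) (x i)`
(`th_of_NZ`); there are `8 ^ 4` characters `k`, `|fh G k| ≤ 1`, and for `fh G k ≠ 0` the
hypothesis of `inn_chi` holds.
-/

namespace Pool.Agent.H94.PC

open Polynomial

variable {F : Type} [Field F] [Finite F] {κ : Type} [Fintype κ] [DecidableEq κ]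

theorem inn_add_self (a : Ty) : a + a = 0 := by
  have h : ∀ c : ZMod 2, c + c = 0 := by decide
  refine Prod.ext (h _) (Prod.ext (h _) (h _))

open Classical in
theorem inn_chi (h2 : (2 : F) ≠ 0) (hκ : Fintype.card κ = 4) (n m : ℕ) (hmn : m ≤ n)
    (hm : 1 ≤ m) (E : F[X]) (h : κ → F[X]) (hh : ∀ i, (h i).Monic ∧ NZ (h i)) (d : ℕ)
    (hd : ∀ i, (h i).natDegree ≤ d) (k : κ → Ty)
    (hnt : ∃ i j, k i + k j ≠ 0 ∨ ¬ IsSquare (h i * h j)) :
    |∑ x : κ → Mn F n, (if (∏ i, (x i).1) ∈ Sq F m ∧ NZ (∏ i, (x i).1) ∧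
        IsCoprime (∏ i, (x i).1) E then
      (1 / 4 : ℝ) ^ om (∏ i, (x i).1) * ∏ i, th (k i) (h i) (x i).1 else 0)| ≤
      13 * (Nat.card F : ℝ) ^ m * (m : ℝ) ^ (-(1 / 4) : ℝ) * (2 * d + 6 : ℝ) ^ (1 / 4 : ℝ) := by
  set q : ℝ := (Nat.card F : ℝ) with hqdef
  have hq : (0 : ℝ) < q := by
    rw [hqdef]
    exact_mod_cast Nat.card_pos
  set ε : κ → F[X] → ℝ := fun i => th (k i) (h i) with hε
  have hεCM : ∀ i, CM (ε i) := fun i => th_CM (k i) (h i)
  set S : Finset F[X] := (Sq F m).filter (fun D => NZ D ∧ IsCoprime D E) with hS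
  have hSmem : ∀ D, D ∈ S ↔ D ∈ Sq F m ∧ NZ D ∧ IsCoprime D E := by
    intro D
    rw [hS, Finset.mem_filter]
  have hSprop : ∀ D ∈ S, D.Monic ∧ Squarefree D ∧ D.natDegree ≤ n := by
    intro D hD
    have h1 := mem_Sq.1 ((hSmem D).1 hD).1
    exact ⟨h1.1, h1.2.2, h1.2.1.le.trans hmn⟩
  have hsum : ∑ x : κ → Mn F n, (if (∏ i, (x i).1) ∈ Sq F m ∧ NZ (∏ i, (x i).1) ∧
        IsCoprime (∏ i, (x i).1) E then
      (1 / 4 : ℝ) ^ om (∏ i, (x i).1) * ∏ i, th (k i) (h i) (x i).1 else 0) =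
      ∑ D ∈ S, ∏ P ∈ pf D, ((1 / 4 : ℝ) * ∑ i, ε i P) := by
    rw [← sum_mult n S hSprop ε hεCM (1 / 4)]
    refine Finset.sum_congr rfl fun x _ => ?_
    exact if_congr (hSmem _).symm rfl rfl
  rw [hsum]
  obtain ⟨i, j, hij⟩ := hnt
  have hne : i ≠ j := by
    rintro rfl
    rcases hij with h1 | h1
    · exact h1 (inn_add_self (k i))
    · exact h1 ⟨h i, rfl⟩
  set θ : F[X] → ℝ := th (k i + k j) (h i * h j) with hθ
  have hθCM : CM θ := th_CM _ _
  have hθP : ∀ P : F[X], P.Monic → θ P = ε i P * ε j P := by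
    intro P hP
    exact (th_mul_th (k i) (k j) (h i) (h j) hP).symm
  have hbd : ∀ P : F[X], P.Monic → |(1 / 4 : ℝ) * ∑ l, ε l P| ≤ (3 + θ P) / 4 := by
    intro P hP
    have h1 : ∑ l, ε l P = ε i P + (ε j P +
        ∑ l ∈ (Finset.univ.erase i).erase j, ε l P) := by
      have e1 : ε j P + ∑ l ∈ (Finset.univ.erase i).erase j, ε l P =
          ∑ l ∈ Finset.univ.erase i, ε l P :=
        Finset.add_sum_erase _ (fun l => ε l P)
          (Finset.mem_erase.2 ⟨hne.symm, Finset.mem_univ j⟩)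
      have e2 : ε i P + ∑ l ∈ Finset.univ.erase i, ε l P = ∑ l, ε l P :=
        Finset.add_sum_erase _ (fun l => ε l P) (Finset.mem_univ i)
      rw [e1, e2]
    have hcard : ((Finset.univ.erase i).erase j : Finset κ).card = 2 := by
      rw [Finset.card_erase_of_mem (Finset.mem_erase.2 ⟨hne.symm, Finset.mem_univ j⟩),
        Finset.card_erase_of_mem (Finset.mem_univ i), Finset.card_univ, hκ]
    have h2 : |∑ l ∈ (Finset.univ.erase i).erase j, ε l P| ≤ 2 := by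
      refine (Finset.abs_sum_le_sum_abs _ _).trans ?_
      calc ∑ l ∈ (Finset.univ.erase i).erase j, |ε l P|
          ≤ ∑ _l ∈ (Finset.univ.erase i).erase j, (1 : ℝ) := by
            refine Finset.sum_le_sum fun l _ => ?_
            rcases (hεCM l).val P hP with h3 | h3 | h3 <;> rw [h3] <;> norm_num
        _ = 2 := by rw [Finset.sum_const, hcard]; norm_num
    have h3 : |ε i P + ε j P| ≤ 1 + θ P := by
      rw [hθP P hP]
      rcases (hεCM i).val P hP with h4 | h4 | h4 <;>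
        rcases (hεCM j).val P hP with h5 | h5 | h5 <;> rw [h4, h5] <;> norm_num
    rw [abs_mul, h1, ← add_assoc]
    have h4 := abs_add_le (ε i P + ε j P) (∑ l ∈ (Finset.univ.erase i).erase j, ε l P)
    have h5 : |(1 / 4 : ℝ)| = 1 / 4 := abs_of_pos (by norm_num)
    rw [h5]
    linarith
  have hfin : |∑ D ∈ S, ∏ P ∈ pf D, ((1 / 4 : ℝ) * ∑ i, ε i P)| ≤
      SS (fun P => (3 + θ P) / 4) m := by
    refine (Finset.abs_sum_le_sum_abs _ _).trans ?_
    have h1 : ∑ D ∈ S, |∏ P ∈ pf D, ((1 / 4 : ℝ) * ∑ i, ε i P)| ≤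
        ∑ D ∈ S, ∏ P ∈ pf D, ((3 + θ P) / 4) := by
      refine Finset.sum_le_sum fun D _ => ?_
      rw [Finset.abs_prod]
      refine Finset.prod_le_prod (fun P _ => abs_nonneg _) ?_
      intro P hP
      exact hbd P (mem_pf' hP).1
    refine h1.trans ?_
    unfold SS
    refine Finset.sum_le_sum_of_subset_of_nonneg (Finset.filter_subset _ _) ?_
    intro D _ _
    refine Finset.prod_nonneg fun P hP => ?_
    exact (abs_nonneg _).trans (hbd P (mem_pf' hP).1)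
  refine hfin.trans ?_
  have hhi := hh i
  have hhj := hh j
  have hdeg : (h i * h j).natDegree ≤ 2 * d := by
    refine natDegree_mul_le.trans ?_
    have := hd i
    have := hd j
    omega
  have hK1 : (1 : ℝ) ≤ ((h i * h j).natDegree : ℝ) + 6 := by
    have : (0 : ℝ) ≤ ((h i * h j).natDegree : ℝ) := Nat.cast_nonneg _
    linarith
  have hfinal := SS_theta hθCM (((h i * h j).natDegree : ℝ) + 6) hK1
    (fun l => th_partial h2 (k i + k j) (hhi.1.mul hhj.1) (NZ_mul.2 ⟨hhi.2, hhj.2⟩) hij l) m hm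
  refine hfinal.trans ?_
  have hm0 : (0 : ℝ) ≤ (m : ℝ) := Nat.cast_nonneg _
  refine mul_le_mul_of_nonneg_left ?_ (by positivity)
  refine Real.rpow_le_rpow (by linarith) ?_ (by norm_num)
  have : ((h i * h j).natDegree : ℝ) ≤ 2 * d := by exact_mod_cast hdeg
  linarith

open Classical in
theorem inn (h2 : (2 : F) ≠ 0) (hκ : Fintype.card κ = 4) (n m : ℕ) (hmn : m ≤ n)
    (hm : 1 ≤ m) (E : F[X]) (h : κ → F[X]) (hh : ∀ i, (h i).Monic ∧ NZ (h i)) (d : ℕ)
    (hd : ∀ i, (h i).natDegree ≤ d) (G : (κ → Ty) → ℝ) (hG : ∀ τ, |G τ| ≤ 1)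
    (hnt : ∀ k : κ → Ty, fh G k ≠ 0 → ∃ i j, k i + k j ≠ 0 ∨ ¬ IsSquare (h i * h j)) :
    |∑ x : κ → Mn F n, (if (∏ i, (x i).1) ∈ Sq F m ∧ NZ (∏ i, (x i).1) ∧
        IsCoprime (∏ i, (x i).1) E then
      (1 / 4 : ℝ) ^ om (∏ i, (x i).1) * (G (fun i => ty (x i).1) * ∏ i, js (h i) (x i).1)
      else 0)| ≤
      8 ^ 4 * (13 * (Nat.card F : ℝ) ^ m * (m : ℝ) ^ (-(1 / 4) : ℝ) *
        (2 * d + 6 : ℝ) ^ (1 / 4 : ℝ)) := by
  set B : ℝ := 13 * (Nat.card F : ℝ) ^ m * (m : ℝ) ^ (-(1 / 4) : ℝ) *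
        (2 * d + 6 : ℝ) ^ (1 / 4 : ℝ) with hB
  have hB0 : 0 ≤ B := by
    rw [hB]
    positivity
  set A : (κ → Ty) → ℝ := fun k => ∑ x : κ → Mn F n, (if (∏ i, (x i).1) ∈ Sq F m ∧
        NZ (∏ i, (x i).1) ∧ IsCoprime (∏ i, (x i).1) E then
      (1 / 4 : ℝ) ^ om (∏ i, (x i).1) * ∏ i, th (k i) (h i) (x i).1 else 0) with hA
  have hsum : ∑ x : κ → Mn F n, (if (∏ i, (x i).1) ∈ Sq F m ∧ NZ (∏ i, (x i).1) ∧
        IsCoprime (∏ i, (x i).1) E then
      (1 / 4 : ℝ) ^ om (∏ i, (x i).1) * (G (fun i => ty (x i).1) * ∏ i, js (h i) (x i).1)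
      else 0) = ∑ k : κ → Ty, fh G k * A k := by
    rw [hA]
    simp only [Finset.mul_sum]
    rw [Finset.sum_comm]
    refine Finset.sum_congr rfl fun x _ => ?_
    by_cases hc : (∏ i, (x i).1) ∈ Sq F m ∧ NZ (∏ i, (x i).1) ∧ IsCoprime (∏ i, (x i).1) E
    · rw [if_pos hc, fourier G (fun i => ty (x i).1), Finset.sum_mul, Finset.mul_sum]
      refine Finset.sum_congr rfl fun k _ => ?_
      rw [if_pos hc]
      have hNZ := (NZ_prod (fun i => (x i).1)).1 hc.2.1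
      have h1 : ∏ i, th (k i) (h i) (x i).1 =
          (∏ i, js (h i) (x i).1) * chi k (fun i => ty (x i).1) := by
        unfold chi
        rw [← Finset.prod_mul_distrib]
        exact Finset.prod_congr rfl fun i _ => th_of_NZ (hNZ i)
      rw [h1]
      ring
    · rw [if_neg hc]
      symm
      refine Finset.sum_eq_zero fun k _ => ?_
      rw [if_neg hc, mul_zero]
  rw [hsum]
  refine (Finset.abs_sum_le_sum_abs _ _).trans ?_
  have h1 : ∀ k : κ → Ty, |fh G k * A k| ≤ B := by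
    intro k
    by_cases hk : fh G k = 0
    · rw [hk, zero_mul, abs_zero]
      exact hB0
    · rw [abs_mul]
      have h2a := abs_fh_le G hG k
      have h3 : |A k| ≤ B := inn_chi h2 hκ n m hmn hm E h hh d hd k (hnt k hk)
      calc |fh G k| * |A k| ≤ 1 * B :=
            mul_le_mul h2a h3 (abs_nonneg _) (by norm_num)
        _ = B := one_mul B
  calc ∑ k : κ → Ty, |fh G k * A k| ≤ ∑ _k : κ → Ty, B := Finset.sum_le_sum fun k _ => h1 k
    _ = 8 ^ 4 * B := by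
      rw [Finset.sum_const, Finset.card_univ, Fintype.card_fun, hκ, Fintype.card_prod,
        Fintype.card_prod, ZMod.card, nsmul_eq_mul]
      norm_num

end Pool.Agent.H94.PC
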