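import Pool.Agent.H94.PC.JsB
import Pool.Agent.H94.PC.Facs

set_option autoImplicit false

/-!
# [H94 PC KALT] The system of equations is alternating

`hp : p.Good`, `hep : p.ep = bt (-1)`, `D` monic squarefree, `NZ D`.  All in `ZMod 2`.  Put
`δ_P = (ty P.1).1`, `X = gX D x`, `Y = gX D y`, `B = g0 D y`, `A = g1 D x`.

`∑ P, x_P ∑ Q, lam Q P (y_Q + y_P) + ∑ P, y_P ∑ Q, lam Q P (x_Q + x_P)
 = ∑ P, ∑ Q, lam Q P (x_P y_Q + x_Q y_P)` (the terms `x_P y_P` cancel).  The terms `Q = P` are `0`.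
Symmetrize in `P, Q`: it is `∑ over unordered pairs P ≠ Q of (lam Q P + lam P Q)(x_P y_Q + x_Q y_P)`,
and `lam Q P + lam P Q = p.ep δ_P δ_Q` (`lam_recip`, `isCoprime_irr`), so it is
`p.ep * ∑ (P ≠ Q ordered), δ_P x_P δ_Q y_Q = p.ep * (X Y + ∑ P, δ_P x_P y_P)`.
(To avoid unordered pairs: for a function `f P Q` with `f P P = 0` one can write
`∑ P, ∑ Q, (lam Q P) (x_P y_Q + x_Q y_P) = ∑ P, ∑ Q, (lam Q P + lam P Q) x_P y_Q` by exchanging the
names of `P` and `Q` in the second half; the diagonal terms are `2 lam P P x_P y_P = 0`; and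
`lam P Q + lam Q P = p.ep δ_P δ_Q` for `P ≠ Q`, while for `P = Q` the left side is `0`.)

Local terms: `∑ P, x_P l2(P) + ∑ P, y_P l1(P)`: with `a0, b1, al, be` at `(X, Y, B, A)`:
`∑ P, x_P l2(P) = (A + p.ep X) b1 + A + (p.ep + p.l) ∑ δ x y + be X` (`x_P * x_P = x_P`),
`∑ P, y_P l1(P) = (B + p.ep Y)(a0 + 1) + al Y + p.l ∑ δ x y`.
Sum of everything: `p.ep X Y + (A + p.ep X) b1 + A + be X + (B + p.ep Y)(a0 + 1) + al Y`, which is
`0` for all `X, Y, B, A : ZMod 2` and all good `p`: `fin_check` (finite: write `p` as a structure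
with 5 components and `decide`, or case distinctions).
-/

namespace Pool.Agent.H94.PC

open Polynomial

variable {F : Type} [Field F] [Finite F]

theorem fin_check (p : Par) (hp : p.Good) (X Y B A : ZMod 2) :
    p.ep * (X * Y) + (A + p.ep * X) * b1 p X Y B A + A + be p X Y B A * X +
      (B + p.ep * Y) * (a0 p X Y B A + 1) + al p X Y B A * Y = 0 := by
  have h : ∀ ep l nu s0 s1 X Y B A : ZMod 2, Par.Good ⟨ep, l, nu, s0, s1⟩ →
      ep * (X * Y) + (A + ep * X) * b1 ⟨ep, l, nu, s0, s1⟩ X Y B A + A +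
        be ⟨ep, l, nu, s0, s1⟩ X Y B A * X +
        (B + ep * Y) * (a0 ⟨ep, l, nu, s0, s1⟩ X Y B A + 1) +
        al ⟨ep, l, nu, s0, s1⟩ X Y B A * Y = 0 := by
    decide +kernel
  obtain ⟨ep, l, nu, s0, s1⟩ := p
  exact h ep l nu s0 s1 X Y B A hp

theorem alt_id (p : Par) (hp : p.Good) (hep : p.ep = bt (-1 : F)) {D : F[X]} (hD : D.Monic)
    (hs : Squarefree D) (hz : NZ D) (x y : pf D → ZMod 2) :
    ∑ P, (x P * E2 p D x y P + y P * E1 p D x y P) = 0 := by
  classical
  have h2 : (2 : ZMod 2) = 0 := by decide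
  have hsq : ∀ a : ZMod 2, a * a = a := by decide
  set X := gX D x with hX
  set Y := gX D y with hY
  set B := g0 D y with hB
  set A := g1 D x with hA
  set S : ZMod 2 := ∑ P : pf D, x P * y P * (ty P.1).1 with hS
  -- the symbols
  have h1 : ∑ P : pf D, (x P * ∑ Q : pf D, lam Q.1 P.1 * (y Q + y P) +
      y P * ∑ Q : pf D, lam Q.1 P.1 * (x Q + x P)) = p.ep * (X * Y) + p.ep * S := by
    have e1 : ∀ P : pf D, (x P * ∑ Q : pf D, lam Q.1 P.1 * (y Q + y P) +
        y P * ∑ Q : pf D, lam Q.1 P.1 * (x Q + x P)) =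
        ∑ Q : pf D, lam Q.1 P.1 * (x P * y Q) + ∑ Q : pf D, lam Q.1 P.1 * (x Q * y P) := by
      intro P
      rw [Finset.mul_sum, Finset.mul_sum, ← Finset.sum_add_distrib, ← Finset.sum_add_distrib]
      refine Finset.sum_congr rfl fun Q _ => ?_
      linear_combination (lam Q.1 P.1 * x P * y P) * h2
    have e2 : ∑ P : pf D, ∑ Q : pf D, lam Q.1 P.1 * (x Q * y P) =
        ∑ P : pf D, ∑ Q : pf D, lam P.1 Q.1 * (x P * y Q) := Finset.sum_comm
    have e3 : ∀ P Q : pf D, (lam Q.1 P.1 + lam P.1 Q.1) * (x P * y Q) =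
        p.ep * ((x P * (ty P.1).1) * (y Q * (ty Q.1).1)) +
          if Q = P then p.ep * (x P * y P * (ty P.1).1) else 0 := by
      intro P Q
      split_ifs with h
      · subst h
        have h3 := hsq ((ty Q.1).1)
        linear_combination (lam Q.1 Q.1 * x Q * y Q - p.ep * x Q * y Q * (ty Q.1).1) * h2 -
          (p.ep * x Q * y Q) * h3
      · obtain ⟨hP1, hP2, _⟩ := mem_pf' P.2
        obtain ⟨hQ1, hQ2, _⟩ := mem_pf' Q.2
        have hc : IsCoprime Q.1 P.1 := isCoprime_irr hQ1 hQ2 hP1 hP2 (fun h4 => h (Subtype.ext h4))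
        have h5 := lam_recip hQ1 hP1 hc
        have h6 : (ty P.1).1 = (P.1.natDegree : ZMod 2) := rfl
        have h7 : (ty Q.1).1 = (Q.1.natDegree : ZMod 2) := rfl
        rw [h5, hep, h6, h7]
        linear_combination (lam P.1 Q.1 * x P * y Q) * h2
    rw [Finset.sum_congr rfl (fun P _ => e1 P), Finset.sum_add_distrib, e2,
      ← Finset.sum_add_distrib]
    have e4 : ∀ P : pf D, (∑ Q : pf D, lam Q.1 P.1 * (x P * y Q) +
        ∑ Q : pf D, lam P.1 Q.1 * (x P * y Q)) =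
        p.ep * ((x P * (ty P.1).1) * Y) + p.ep * (x P * y P * (ty P.1).1) := by
      intro P
      rw [← Finset.sum_add_distrib]
      rw [Finset.sum_congr rfl (fun Q _ => by rw [← add_mul, e3 P Q] :
        ∀ Q ∈ Finset.univ, lam Q.1 P.1 * (x P * y Q) + lam P.1 Q.1 * (x P * y Q) = _)]
      rw [Finset.sum_add_distrib, ← Finset.mul_sum, ← Finset.mul_sum, Finset.sum_ite_eq',
        if_pos (Finset.mem_univ P)]
      rfl
    rw [Finset.sum_congr rfl (fun P _ => e4 P), Finset.sum_add_distrib, ← Finset.mul_sum,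
      ← Finset.mul_sum, ← Finset.sum_mul]
    rfl
  -- the local terms
  have hloc : ∀ P : pf D, x P * l2 p X Y B A (x P) (y P) (ty P.1) +
      y P * l1 p X Y B A (x P) (y P) (ty P.1) =
      (b1 p X Y B A + 1) * (x P * (ty P.1).2.2) +
      (p.ep * b1 p X Y B A + be p X Y B A) * (x P * (ty P.1).1) +
      (a0 p X Y B A + 1) * (y P * (ty P.1).2.1) +
      (p.ep * (a0 p X Y B A + 1) + al p X Y B A) * (y P * (ty P.1).1) +
      p.ep * (x P * y P * (ty P.1).1) := by
    intro P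
    unfold l1 l2
    have hx := hsq (x P)
    have hy := hsq (y P)
    linear_combination (ty P.1).2.2 * hx + ((ty P.1).2.1 + p.ep * (ty P.1).1) * hy +
      (p.l * x P * y P * (ty P.1).1) * h2
  have hsum : ∑ P : pf D, (x P * l2 p X Y B A (x P) (y P) (ty P.1) +
      y P * l1 p X Y B A (x P) (y P) (ty P.1)) =
      (b1 p X Y B A + 1) * A + (p.ep * b1 p X Y B A + be p X Y B A) * X +
      (a0 p X Y B A + 1) * B + (p.ep * (a0 p X Y B A + 1) + al p X Y B A) * Y + p.ep * S := by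
    rw [Finset.sum_congr rfl (fun P _ => hloc P), Finset.sum_add_distrib, Finset.sum_add_distrib,
      Finset.sum_add_distrib, Finset.sum_add_distrib, ← Finset.mul_sum, ← Finset.mul_sum,
      ← Finset.mul_sum, ← Finset.mul_sum, ← Finset.mul_sum]
    rfl
  have hall : ∑ P, (x P * E2 p D x y P + y P * E1 p D x y P) =
      ∑ P : pf D, (x P * ∑ Q : pf D, lam Q.1 P.1 * (y Q + y P) +
        y P * ∑ Q : pf D, lam Q.1 P.1 * (x Q + x P)) +
      ∑ P : pf D, (x P * l2 p X Y B A (x P) (y P) (ty P.1) +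
        y P * l1 p X Y B A (x P) (y P) (ty P.1)) := by
    rw [← Finset.sum_add_distrib]
    refine Finset.sum_congr rfl fun P _ => ?_
    unfold E1 E2
    ring
  rw [hall, h1, hsum]
  have hf := fin_check p hp X Y B A
  linear_combination hf + (p.ep * S) * h2

end Pool.Agent.H94.PC
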