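import Pool.Agent.H94.PC.Alt
import Pool.Agent.H94.PC.KerAlt

set_option autoImplicit false

/-!
# [H94 PC KPOW] The number of solutions is a power of 4

`E1 p D`, `E2 p D` are additive in `(x, y)`: `gX, g0, g1` are linear, `a0, b1, al, be` are additive in
`(X, Y, B, A)` (`a0_add` etc., by `ring` in `ZMod 2`), so `l1`, `l2` are additive in
`(X, Y, B, A, x, y)` jointly for fixed type.  So on `V = (pf D → ZMod 2) × (pf D → ZMod 2)`
`B z z' = ∑ P, (z'.1 P * E2 p D z.1 z.2 P + z'.2 P * E1 p D z.1 z.2 P)` is a bilinear form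
(construct it with `AddMonoidHom.toZModLinearMap` or `LinearMap.mk₂`; over `ZMod 2` additive maps
are linear: `AddMonoidHom.toZModLinearMap`, or check `a • z` for `a = 0, 1`), alternating by
`alt_id`, and its kernel is `Ker p D` (take for `z'` the unit vectors).  `Nat.card V = 4 ^ om D`.
`alt_card` gives `4 ^ om D = 4 ^ j * kn p D`, so `kn p D = 4 ^ i`.
-/

namespace Pool.Agent.H94.PC

open Polynomial

variable {F : Type} [Field F] [Finite F]

theorem gX_add (D : F[X]) (x x' : pf D → ZMod 2) : gX D (x + x') = gX D x + gX D x' := by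
  unfold gX
  rw [← Finset.sum_add_distrib]
  exact Finset.sum_congr rfl fun P _ => by rw [Pi.add_apply, add_mul]

theorem g0_add (D : F[X]) (x x' : pf D → ZMod 2) : g0 D (x + x') = g0 D x + g0 D x' := by
  unfold g0
  rw [← Finset.sum_add_distrib]
  exact Finset.sum_congr rfl fun P _ => by rw [Pi.add_apply, add_mul]

theorem g1_add (D : F[X]) (x x' : pf D → ZMod 2) : g1 D (x + x') = g1 D x + g1 D x' := by
  unfold g1
  rw [← Finset.sum_add_distrib]
  exact Finset.sum_congr rfl fun P _ => by rw [Pi.add_apply, add_mul]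

theorem l1_add_bits (p : Par) (X Y B A X' Y' B' A' x y x' y' : ZMod 2) (t : Ty) :
    l1 p (X + X') (Y + Y') (B + B') (A + A') (x + x') (y + y') t =
      l1 p X Y B A x y t + l1 p X' Y' B' A' x' y' t := by
  unfold l1 al b1 a0
  ring

theorem l2_add_bits (p : Par) (X Y B A X' Y' B' A' x y x' y' : ZMod 2) (t : Ty) :
    l2 p (X + X') (Y + Y') (B + B') (A + A') (x + x') (y + y') t =
      l2 p X Y B A x y t + l2 p X' Y' B' A' x' y' t := by
  unfold l2 be al b1 a0
  ring

theorem E1_add (p : Par) (D : F[X]) (x y x' y' : pf D → ZMod 2) (P : pf D) :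
    E1 p D (x + x') (y + y') P = E1 p D x y P + E1 p D x' y' P := by
  have h : ∑ Q : pf D, lam Q.1 P.1 * ((x + x') Q + (x + x') P) =
      ∑ Q : pf D, lam Q.1 P.1 * (x Q + x P) + ∑ Q : pf D, lam Q.1 P.1 * (x' Q + x' P) := by
    rw [← Finset.sum_add_distrib]
    refine Finset.sum_congr rfl fun Q _ => ?_
    rw [Pi.add_apply, Pi.add_apply]
    ring
  unfold E1
  rw [h, gX_add, gX_add, g0_add, g1_add, Pi.add_apply x x', Pi.add_apply y y', l1_add_bits]
  ring

theorem E2_add (p : Par) (D : F[X]) (x y x' y' : pf D → ZMod 2) (P : pf D) :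
    E2 p D (x + x') (y + y') P = E2 p D x y P + E2 p D x' y' P := by
  have h : ∑ Q : pf D, lam Q.1 P.1 * ((y + y') Q + (y + y') P) =
      ∑ Q : pf D, lam Q.1 P.1 * (y Q + y P) + ∑ Q : pf D, lam Q.1 P.1 * (y' Q + y' P) := by
    rw [← Finset.sum_add_distrib]
    refine Finset.sum_congr rfl fun Q _ => ?_
    rw [Pi.add_apply, Pi.add_apply]
    ring
  unfold E2
  rw [h, gX_add, gX_add, g0_add, g1_add, Pi.add_apply x x', Pi.add_apply y y', l2_add_bits]
  ring

theorem E1_zero (p : Par) (D : F[X]) (P : pf D) : E1 p D 0 0 P = 0 := by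
  have h := E1_add p D 0 0 0 0 P
  rw [add_zero] at h
  exact (left_eq_add.1 h)

theorem E2_zero (p : Par) (D : F[X]) (P : pf D) : E2 p D 0 0 P = 0 := by
  have h := E2_add p D 0 0 0 0 P
  rw [add_zero] at h
  exact (left_eq_add.1 h)

/-- the values of the bilinear form -/
noncomputable def kf (p : Par) (D : F[X]) (z z' : (pf D → ZMod 2) × (pf D → ZMod 2)) : ZMod 2 :=
  ∑ P, (z'.1 P * E2 p D z.1 z.2 P + z'.2 P * E1 p D z.1 z.2 P)

theorem kf_add_left (p : Par) (D : F[X]) (z w z' : (pf D → ZMod 2) × (pf D → ZMod 2)) :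
    kf p D (z + w) z' = kf p D z z' + kf p D w z' := by
  unfold kf
  rw [← Finset.sum_add_distrib]
  refine Finset.sum_congr rfl fun P _ => ?_
  rw [Prod.fst_add, Prod.snd_add, E1_add, E2_add]
  ring

theorem kf_add_right (p : Par) (D : F[X]) (z z' w : (pf D → ZMod 2) × (pf D → ZMod 2)) :
    kf p D z (z' + w) = kf p D z z' + kf p D z w := by
  unfold kf
  rw [← Finset.sum_add_distrib]
  refine Finset.sum_congr rfl fun P _ => ?_
  rw [Prod.fst_add, Prod.snd_add, Pi.add_apply, Pi.add_apply]
  ring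

theorem kf_zero_left (p : Par) (D : F[X]) (z' : (pf D → ZMod 2) × (pf D → ZMod 2)) :
    kf p D 0 z' = 0 := by
  have h := kf_add_left p D 0 0 z'
  rw [add_zero] at h
  exact (left_eq_add.1 h)

theorem kf_zero_right (p : Par) (D : F[X]) (z : (pf D → ZMod 2) × (pf D → ZMod 2)) :
    kf p D z 0 = 0 := by
  have h := kf_add_right p D z 0 0
  rw [add_zero] at h
  exact (left_eq_add.1 h)

theorem zmod_two_cases (c : ZMod 2) : c = 0 ∨ c = 1 := by
  revert c
  decide

/-- the bilinear form -/
noncomputable def kB (p : Par) (D : F[X]) :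
    ((pf D → ZMod 2) × (pf D → ZMod 2)) →ₗ[ZMod 2] ((pf D → ZMod 2) × (pf D → ZMod 2)) →ₗ[ZMod 2]
      ZMod 2 :=
  LinearMap.mk₂ (ZMod 2) (kf p D) (kf_add_left p D)
    (by
      intro c z z'
      rcases zmod_two_cases c with rfl | rfl
      · rw [zero_smul, zero_smul, kf_zero_left]
      · rw [one_smul, one_smul])
    (kf_add_right p D)
    (by
      intro c z z'
      rcases zmod_two_cases c with rfl | rfl
      · rw [zero_smul, zero_smul, kf_zero_right]
      · rw [one_smul, one_smul])

theorem kB_apply (p : Par) (D : F[X]) (z z' : (pf D → ZMod 2) × (pf D → ZMod 2)) :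
    kB p D z z' = kf p D z z' := rfl

theorem kB_ker (p : Par) (D : F[X]) :
    ((LinearMap.ker (kB p D) : Submodule (ZMod 2) _) : Set ((pf D → ZMod 2) × (pf D → ZMod 2))) =
      Ker p D := by
  classical
  ext z
  rw [SetLike.mem_coe, LinearMap.mem_ker]
  constructor
  · intro h P
    constructor
    · have h1 : kB p D z (0, Pi.single P 1) = 0 := by rw [h]; rfl
      rw [kB_apply] at h1
      unfold kf at h1
      rw [Finset.sum_eq_single P] at h1
      · simpa using h1
      · intro Q _ hQ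
        simp only [Pi.zero_apply, Pi.single_eq_of_ne hQ, zero_mul, add_zero]
      · intro hP
        exact absurd (Finset.mem_univ P) hP
    · have h1 : kB p D z (Pi.single P 1, 0) = 0 := by rw [h]; rfl
      rw [kB_apply] at h1
      unfold kf at h1
      rw [Finset.sum_eq_single P] at h1
      · simpa using h1
      · intro Q _ hQ
        simp only [Pi.zero_apply, Pi.single_eq_of_ne hQ, zero_mul, add_zero]
      · intro hP
        exact absurd (Finset.mem_univ P) hP
  · intro h
    refine LinearMap.ext fun z' => ?_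
    rw [kB_apply, LinearMap.zero_apply]
    unfold kf
    refine Finset.sum_eq_zero fun P _ => ?_
    rw [(h P).1, (h P).2, mul_zero, mul_zero, add_zero]

theorem kn_pow (p : Par) (hp : p.Good) (hep : p.ep = bt (-1 : F)) {D : F[X]} (hD : D.Monic)
    (hs : Squarefree D) (hz : NZ D) : ∃ i : ℕ, kn p D = 4 ^ i := by
  obtain ⟨j, hj⟩ := alt_card (kB p D) (fun z => by
    rw [kB_apply]
    exact alt_id p hp hep hD hs hz z.1 z.2)
  have h1 : Nat.card (LinearMap.ker (kB p D)) = kn p D :=
    Nat.card_congr (Equiv.setCongr (kB_ker p D))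
  have h2 : Nat.card ((pf D → ZMod 2) × (pf D → ZMod 2)) = 4 ^ om D := by
    rw [Nat.card_prod, Nat.card_fun, Nat.card_zmod, Nat.card_eq_fintype_card, Fintype.card_coe,
      ← mul_pow]
    rfl
  rw [h1, h2] at hj
  have h3 : kn p D ≠ 0 := by
    intro h0
    rw [h0, mul_zero] at hj
    exact absurd hj (pow_ne_zero _ (by norm_num))
  have h4 : j ≤ om D := by
    by_contra hlt
    have h5 : 4 ^ om D < 4 ^ j := Nat.pow_lt_pow_right (by norm_num) (not_le.1 hlt)
    have h6 : 4 ^ j * 1 ≤ 4 ^ j * kn p D := Nat.mul_le_mul_left _ (Nat.pos_of_ne_zero h3)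
    omega
  refine ⟨om D - j, ?_⟩
  have h5 : 4 ^ om D = 4 ^ j * 4 ^ (om D - j) := by
    rw [← pow_add]
    congr 1
    omega
  rw [h5] at hj
  exact (Nat.eq_of_mul_eq_mul_left (by positivity) hj).symm

end Pool.Agent.H94.PC
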