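import Pool.Agent.H94.PC.Ch

set_option autoImplicit false

/-!
# [H94 PC KSUM] The number of solutions as a character sum

For `e, e' : ZMod 2`: `∑ (c, d), (1/4) * sg (c e + d e') = 1` if `e = e' = 0` and `0` otherwise.
So `kn p D = ∑ (x, y), ∏ P, ∑ (c, d), (1/4) sg (c E1 P + d E2 P)`, expand the product over `P`
(`Finset.prod_univ_sum`, `Fintype.piFinset_univ`), and combine `(x, y)` and the functions
`(c, d)` to functions `v : pf D → Ix` (`Equiv.arrowProdEquivProdArrow`); `∏ P, sg (a P) = sg (∑ P, a P)`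
(`sg_add`, induction: `sg_sum`), `(1/4) ^ om D = ∏ P : pf D, (1/4)`.
`kn p D = Nat.card (Ker p D)` is the number of `(x, y)` in `Ker p D` (`Nat.card_eq_fintype_card`,
`Fintype.card_subtype`, `classical`).
-/

namespace Pool.Agent.H94.PC

open Polynomial

variable {F : Type} [Field F] [Finite F]

theorem sg_sum {ι : Type*} (s : Finset ι) (a : ι → ZMod 2) :
    sg (∑ i ∈ s, a i) = ∏ i ∈ s, sg (a i) := by
  classical
  induction s using Finset.induction_on with
  | empty => simp [sg_zero]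
  | insert i s hi ih => rw [Finset.sum_insert hi, Finset.prod_insert hi, sg_add, ih]

theorem ksum_local (a b : ZMod 2) :
    ∑ cd : ZMod 2 × ZMod 2, (1 / 4 : ℝ) * sg (cd.1 * a + cd.2 * b) =
      if a = 0 ∧ b = 0 then 1 else 0 := by
  have h : ∀ a b : ZMod 2, (a = 0 ∨ a = 1) ∧ (b = 0 ∨ b = 1) := by decide
  have h2 : (1 : ZMod 2) + 1 = 0 := by decide
  have h3 : ∀ f : ZMod 2 → ℝ, ∑ x, f x = f 0 + f 1 := fun f => Fin.sum_univ_two f
  obtain ⟨ha, hb⟩ := h a b
  rw [Fintype.sum_prod_type]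
  simp only [h3]
  rcases ha with rfl | rfl <;> rcases hb with rfl | rfl <;> simp [sg_zero, sg_one, h2] <;> norm_num

/-- the first components of `v` -/
def cx {D : F[X]} (v : pf D → Ix) : pf D → ZMod 2 := fun P => (v P).1.1

/-- the second components of `v` -/
def cy {D : F[X]} (v : pf D → Ix) : pf D → ZMod 2 := fun P => (v P).1.2

open Classical in
theorem kn_eq_sum (p : Par) (D : F[X]) :
    (kn p D : ℝ) = ∑ v : pf D → Ix, (1 / 4 : ℝ) ^ om D *
      sg (∑ P, ((v P).2.1 * E1 p D (cx v) (cy v) P + (v P).2.2 * E2 p D (cx v) (cy v) P)) := by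
  have h1 : (kn p D : ℝ) = ∑ z : (pf D → ZMod 2) × (pf D → ZMod 2),
      if z ∈ Ker p D then (1 : ℝ) else 0 := by
    unfold kn
    rw [Nat.card_eq_fintype_card, Fintype.card_subtype, Finset.card_eq_sum_ones, Nat.cast_sum,
      Finset.sum_filter]
    simp
  have h2 : ∀ z : (pf D → ZMod 2) × (pf D → ZMod 2),
      (if z ∈ Ker p D then (1 : ℝ) else 0) =
        ∑ w : pf D → ZMod 2 × ZMod 2, (1 / 4 : ℝ) ^ om D *
          sg (∑ P, ((w P).1 * E1 p D z.1 z.2 P + (w P).2 * E2 p D z.1 z.2 P)) := by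
    intro z
    have h3 : (if z ∈ Ker p D then (1 : ℝ) else 0) =
        ∏ P : pf D, (if E1 p D z.1 z.2 P = 0 ∧ E2 p D z.1 z.2 P = 0 then (1 : ℝ) else 0) := by
      by_cases hz : z ∈ Ker p D
      · rw [if_pos hz]
        symm
        apply Finset.prod_eq_one
        intro P _
        rw [if_pos (hz P)]
      · rw [if_neg hz]
        symm
        have h4 : ∃ P, ¬ (E1 p D z.1 z.2 P = 0 ∧ E2 p D z.1 z.2 P = 0) := by
          by_contra hcon
          push Not at hcon
          exact hz fun P => hcon P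
        obtain ⟨P, hP⟩ := h4
        exact Finset.prod_eq_zero (Finset.mem_univ P) (if_neg hP)
    rw [h3]
    have h5 : ∀ P : pf D, (if E1 p D z.1 z.2 P = 0 ∧ E2 p D z.1 z.2 P = 0 then (1 : ℝ) else 0) =
        ∑ cd : ZMod 2 × ZMod 2,
          (1 / 4 : ℝ) * sg (cd.1 * E1 p D z.1 z.2 P + cd.2 * E2 p D z.1 z.2 P) :=
      fun P => (ksum_local _ _).symm
    simp only [h5]
    rw [Finset.prod_univ_sum, Fintype.piFinset_univ]
    apply Finset.sum_congr rfl
    intro w _
    rw [Finset.prod_mul_distrib, sg_sum, Finset.prod_const, Finset.card_univ, Fintype.card_coe]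
    rfl
  rw [h1]
  simp only [h2]
  rw [← Fintype.sum_prod_type']
  let e : (pf D → Ix) ≃ ((pf D → ZMod 2) × (pf D → ZMod 2)) × (pf D → ZMod 2 × ZMod 2) :=
    { toFun := fun v => ((cx v, cy v), fun P => (v P).2)
      invFun := fun w => fun P => ((w.1.1 P, w.1.2 P), w.2 P)
      left_inv := fun v => rfl
      right_inv := fun w => rfl }
  exact (Fintype.sum_equiv e _ _ (fun v => rfl)).symm

end Pool.Agent.H94.PC
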