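import Pool.Agent.H94.PC.JsA
import Pool.Agent.H94.LT.Data

set_option autoImplicit false

/-!
# [H94 PC LS] From square classes in the completion at `P` to the symbol mod `P`

`LS P G`: `G = P ^ (2 j) * G'` and `js G' P = 1`.
`ls_of_Cl`: `G ≠ 0`, `v = LT.place P hP`.  Write `G = P ^ m * G'`, `¬ P ∣ G'`.
(`FiniteMultiplicity`, or `exists_eq_pow_mul_and_not_dvd`.)  `Cl v G` implies `Ev v G`, so `m` is
even (`val_A`, `intValuation_singleton`, `Ev.even`): `m = 2 j`.  Then `Cl v G'` by `Cl.of_mul_sq`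
(`s = algebraMap (P ^ j)`).  `exists_of_Cl` (with `K = RatFunc F`) gives `y` with
`G' * y ^ 2 - 1 ∈ v.asIdeal`, that is `P ∣ G' * y ^ 2 - 1`, and `js_of_sq`.
-/

namespace Pool.Agent.H94.PC

open Polynomial WithZero IsDedekindDomain

variable {F : Type} [Field F] [Finite F]

/-- `G` is, up to an even power of `P`, a square modulo `P` -/
def LS (P G : F[X]) : Prop := ∃ (j : ℕ) (G' : F[X]), G = P ^ (2 * j) * G' ∧ js G' P = 1

theorem ls_of_Cl {P : F[X]} (hm : P.Monic) (hP : Irreducible P) {G : F[X]} (hG : G ≠ 0)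
    (h : LT.Cl (Valued.v : Valuation ((LT.place P hP).adicCompletion (RatFunc F)) ℤᵐ⁰)
      (algebraMap (RatFunc F) ((LT.place P hP).adicCompletion (RatFunc F))
        (algebraMap F[X] (RatFunc F) G))) : LS P G := by
  have hfin : FiniteMultiplicity P G := FiniteMultiplicity.of_prime_left hP.prime hG
  obtain ⟨G', hGeq, hnd⟩ := hfin.exists_eq_pow_mul_and_not_dvd
  generalize multiplicity P G = m at hGeq
  subst hGeq
  set v := LT.place P hP with hv
  have hvs : v.asIdeal = Ideal.span {P} := rfl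
  have hG'v : G' ∉ v.asIdeal := by
    rw [hvs, Ideal.mem_span_singleton]
    exact hnd
  have hval : (Valued.v (algebraMap (RatFunc F) (v.adicCompletion (RatFunc F))
      (algebraMap F[X] (RatFunc F) (P ^ m * G'))) : ℤᵐ⁰) = exp (-(m : ℤ)) := by
    rw [map_mul, map_mul, map_mul, (LT.val_A_eq_one_iff v G').2 hG'v, mul_one, map_pow, map_pow,
      map_pow, LT.val_gen v P hP.ne_zero hvs, ← exp_nsmul]
    congr 1
    simp
  have hev : Even m := by
    have h1 := h.ev.even hval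
    rw [even_neg] at h1
    exact (Int.even_coe_nat m).1 h1
  obtain ⟨j, hj⟩ := hev
  have hPK : algebraMap (RatFunc F) (v.adicCompletion (RatFunc F))
      (algebraMap F[X] (RatFunc F) (P ^ j)) ≠ 0 := by
    rw [Ne, map_eq_zero, FaithfulSMul.algebraMap_eq_zero_iff]
    exact pow_ne_zero j hP.ne_zero
  have h2 : LT.Cl (Valued.v : Valuation (v.adicCompletion (RatFunc F)) ℤᵐ⁰)
      (algebraMap (RatFunc F) (v.adicCompletion (RatFunc F))
        (algebraMap F[X] (RatFunc F) G')) := by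
    refine LT.Cl.of_mul_sq hPK ?_
    rw [← map_pow, ← map_mul, ← map_pow, ← map_mul]
    have h3 : G' * (P ^ j) ^ 2 = P ^ m * G' := by
      rw [hj]
      ring
    rw [h3]
    exact h
  obtain ⟨y, hy⟩ := LT.exists_of_Cl (K := RatFunc F) v P hP.ne_zero hvs G' hG'v h2
  rw [hvs, Ideal.mem_span_singleton] at hy
  refine ⟨j, G', ?_, js_of_sq hm y hy⟩
  rw [hj, two_mul]

/-- extraction of the symbol: if `G = P ^ i * G₁` with `i ≤ 2` and `¬ P ∣ G₁` then `i ≠ 1` and
`js G₁ P = 1` -/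
theorem LS.out {P G G₁ : F[X]} (hm : P.Monic) (hP : Irreducible P) (h : LS P G) (i : ℕ)
    (hG : G = P ^ i * G₁) (h1 : ¬ P ∣ G₁) : Even i ∧ js G₁ P = 1 := by
  obtain ⟨j, G', hG', hjs⟩ := h
  have h2 : ¬ P ∣ G' := by
    intro hd
    have h3 : js G' P = 0 := by
      rw [js_eq_zero hm]
      intro hc
      exact hP.not_isUnit (hc.isUnit_of_dvd' hd dvd_rfl)
    rw [h3] at hjs
    exact zero_ne_one hjs
  have heq : P ^ (2 * j) * G' = P ^ i * G₁ := by rw [← hG', ← hG]
  rcases lt_trichotomy i (2 * j) with hlt | hlt | hlt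
  · exfalso
    apply h1
    obtain ⟨k, hk⟩ := Nat.exists_eq_add_of_lt hlt
    rw [hk, add_assoc, pow_add, mul_assoc] at heq
    have h4 := mul_left_cancel₀ (pow_ne_zero i hP.ne_zero) heq
    rw [← h4]
    exact Dvd.dvd.mul_right (dvd_pow_self P (Nat.succ_ne_zero k)) G'
  · subst hlt
    have h4 := mul_left_cancel₀ (pow_ne_zero (2 * j) hP.ne_zero) heq
    rw [← h4]
    exact ⟨even_two_mul j, hjs⟩
  · exfalso
    apply h2
    obtain ⟨k, hk⟩ := Nat.exists_eq_add_of_lt hlt
    rw [hk, add_assoc, pow_add, mul_assoc] at heq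
    have h4 := mul_left_cancel₀ (pow_ne_zero (2 * j) hP.ne_zero) heq
    rw [h4]
    exact Dvd.dvd.mul_right (dvd_pow_self P (Nat.succ_ne_zero k)) G₁

end Pool.Agent.H94.PC
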