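import Pool.Agent.H94.PC.AbsPair
import Pool.Agent.H94.PC.BilinSym
import Pool.Agent.H94.PC.Em
import Pool.Agent.H94.PC.Th
import Pool.Agent.H94.PC.Facs

set_option autoImplicit false

/-!
# [H94 PC LKC] Two large linked variables: one class of degrees and types

Fix `c : Ix → ℕ × Ty`.  For `x` with `(deg (x u), ty (x u)) = c u` for all `u`:
`WW p n x = C0 * ∏ u, h u (x u) * ∏ (u ≠ w), g u w (x u) (x w)` where
`C0 = sg (gexp p fun u => (c u).2)` if `∑ u, (c u).1 = n` and `∑ u, (c u).2 = p.t`, and `0` otherwise,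
`h u A = (1/4) ^ om A` if `(deg A, ty A) = c u` and `NZ A`, and `0` otherwise (`A : Mn F n`),
`g u w A B = js B A ^ (Phi u w).val` if `A, B` are coprime, and `0` otherwise.
(`InC p n (∏ x)` iff all `x u` are `NZ`, they are pairwise coprime, the degrees have sum `n`
and the types sum `p.t`: `ty_prod`, `NZ_prod`; a product of squarefree pairwise coprime
polynomials is squarefree; `om_prod`; `Phi_self`.)  The same formula, with the indicator in
`h`, is the summand for all `x`.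
Apply `abs_pair` with `M = Mn F n`.
* `∑ a, |h u a| ≤ q ^ (c u).1` (`card_Sq_le`; the elements of degree `m` of `Mn F n` are in `Sq m`).
* `hB`: as `Phi i j + Phi j i = 1` (`Phi_add`, `hij`), one of the exponents is `1` and the other
  `0`, so `g i j a b * g j i b a` is `js b a` or `js a b` (both vanish if not coprime,
  `js_eq_zero`).  The sum over `a, b` is of the form of `bilin_sym` or `bilin_sym'` with
  `m = (c i).1`, `l = (c j).1` (extend the functions by `0` to all polynomials, sum over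
  `Sq m`, `Sq l`), so its fourth power times `q ^ (min m l)` is at most
  `(m + l + 1) q ^ (4 (m + l))`, and `min m l ≥ z`, so it is at most
  `B = (m + l + 1) * q ^ (m + l) * q ^ (-z/4)` (`(m + l + 1) ^ (1/4) ≤ m + l + 1`).
If `C0 ≠ 0` then `∑ (c u).1 = n`, so the product is at most `(n + 1) q ^ n q ^ (-z/4)`.
-/

namespace Pool.Agent.H94.PC

open Polynomial

variable {F : Type} [Field F] [Finite F]

omit [Finite F] in
/-- two different factors of a squarefree product are coprime -/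
theorem lkc_coprime {ι : Type*} [Fintype ι] (x : ι → F[X]) (h : Squarefree (∏ i, x i)) {i j : ι}
    (hij : i ≠ j) : IsCoprime (x i) (x j) := by
  classical
  have h1 : x i * x j ∣ ∏ k, x k := by
    rw [← Finset.mul_prod_erase _ _ (Finset.mem_univ i)]
    exact mul_dvd_mul_left _
      (Finset.dvd_prod_of_mem _ (Finset.mem_erase.2 ⟨hij.symm, Finset.mem_univ j⟩))
  have h2 := h.squarefree_of_dvd h1
  exact (squarefree_mul_iff.1 h2).1.isCoprime

open Classical in
/-- extension by zero -/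
noncomputable def lkcE {n : ℕ} (φ : Mn F n → ℝ) (A : F[X]) : ℝ :=
  if h : A.Monic ∧ Squarefree A ∧ A.natDegree ≤ n then φ ⟨A, h⟩ else 0

omit [Finite F] in
theorem lkcE_val {n : ℕ} (φ : Mn F n → ℝ) (a : Mn F n) : lkcE φ a.1 = φ a := dif_pos a.2

omit [Finite F] in
theorem lkcE_le {n : ℕ} {φ : Mn F n → ℝ} (h : ∀ a, |φ a| ≤ 1) (A : F[X]) : |lkcE φ A| ≤ 1 := by
  unfold lkcE
  split_ifs with h1
  · exact h _
  · rw [abs_zero]
    exact zero_le_one

theorem lkc_sum {n m : ℕ} (φ : Mn F n → ℝ) (hφ : ∀ a, a.1.natDegree ≠ m → φ a = 0)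
    (ψ : F[X] → ℝ) : ∑ a, φ a * ψ a.1 = ∑ A ∈ Sq F m, lkcE φ A * ψ A := by
  classical
  have h0 : ∑ A ∈ (Finset.univ : Finset (Mn F n)).image (fun a => a.1), lkcE φ A * ψ A =
      ∑ a : Mn F n, lkcE φ a.1 * ψ a.1 :=
    Finset.sum_image (fun a _ b _ hab => Subtype.ext hab)
  have h1 : ∑ a, φ a * ψ a.1 =
      ∑ A ∈ (Finset.univ : Finset (Mn F n)).image (fun a => a.1), lkcE φ A * ψ A := by
    rw [h0]
    refine Finset.sum_congr rfl fun a _ => ?_
    rw [lkcE_val]
  rw [h1]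
  refine Finset.sum_congr_of_eq_on_inter ?_ ?_ fun _ _ _ => rfl
  · intro A hA hA'
    obtain ⟨a, -, rfl⟩ := Finset.mem_image.1 hA
    rw [lkcE_val, hφ a, zero_mul]
    intro h2
    exact hA' (mem_Sq.2 ⟨a.2.1, h2, a.2.2.1⟩)
  · intro A hA hA'
    have h2 : ¬ (A.Monic ∧ Squarefree A ∧ A.natDegree ≤ n) := fun h3 =>
      hA' (Finset.mem_image.2 ⟨⟨A, h3⟩, Finset.mem_univ _, rfl⟩)
    unfold lkcE
    rw [dif_neg h2, zero_mul]

open Classical in
/-- the weight of one variable -/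
noncomputable def lkcH (n : ℕ) (c : Ix → ℕ × Ty) (u : Ix) (a : Mn F n) : ℝ :=
  if (a.1.natDegree, ty a.1) = c u ∧ NZ a.1 then (1 / 4 : ℝ) ^ om a.1 else 0

open Classical in
/-- the weight of two variables -/
noncomputable def lkcG (n : ℕ) (u w : Ix) (a b : Mn F n) : ℝ :=
  if IsCoprime a.1 b.1 then js b.1 a.1 ^ (Phi u w).val else 0

open Classical in
/-- the constant -/
noncomputable def lkcC (p : Par) (n : ℕ) (c : Ix → ℕ × Ty) : ℝ :=
  if ∑ u, (c u).1 = n ∧ ∑ u, (c u).2 = p.t then sg (gexp p fun u => (c u).2) else 0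

theorem lkc_formula (p : Par) (n : ℕ) (c : Ix → ℕ × Ty) (x : Ix → Mn F n)
    [Decidable (∀ u, ((x u).1.natDegree, ty (x u).1) = c u)] :
    (if ∀ u, ((x u).1.natDegree, ty (x u).1) = c u then WW p n x else 0) =
      lkcC p n c * ((∏ u, lkcH n c u (x u)) *
        ∏ u, ∏ w, (if u = w then 1 else lkcG n u w (x u) (x w))) := by
  classical
  by_cases hP : ∀ u, ((x u).1.natDegree, ty (x u).1) = c u
  · rw [if_pos hP]
    have hmon : (∏ u, (x u).1).Monic := monic_prod_of_monic _ _ fun u _ => (x u).2.1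
    have hdeg : (∏ u, (x u).1).natDegree = ∑ u, (c u).1 := by
      rw [natDegree_prod_of_monic _ _ fun u _ => (x u).2.1]
      refine Finset.sum_congr rfl fun u _ => ?_
      rw [← hP u]
    have hty : ∀ u, ty (x u).1 = (c u).2 := fun u => by rw [← hP u]
    by_cases hI : InC p n (∏ u, (x u).1)
    · have hNZ := (NZ_prod _).1 hI.2.1
      have hsq := (mem_Sq.1 hI.1).2.2
      have hC : lkcC p n c = sg (gexp p fun u => (c u).2) := by
        unfold lkcC
        rw [if_pos]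
        refine ⟨?_, ?_⟩
        · rw [← hdeg]
          exact (mem_Sq.1 hI.1).2.1
        · rw [← hI.2.2, ty_prod _ hNZ]
          exact Finset.sum_congr rfl fun u _ => (hty u).symm
      have hH : ∏ u, lkcH n c u (x u) = (1 / 4 : ℝ) ^ om (∏ u, (x u).1) := by
        rw [om_prod _ (fun u => (x u).2.1) hsq, ← Finset.prod_pow_eq_pow_sum]
        refine Finset.prod_congr rfl fun u _ => ?_
        unfold lkcH
        rw [if_pos ⟨hP u, hNZ u⟩]
      have hG : ∏ u, ∏ w, (if u = w then 1 else lkcG n u w (x u) (x w)) =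
          ∏ u, ∏ w, js (x w).1 (x u).1 ^ (Phi u w).val := by
        refine Finset.prod_congr rfl fun u _ => Finset.prod_congr rfl fun w _ => ?_
        by_cases huw : u = w
        · rw [if_pos huw, huw, Phi_self, ZMod.val_zero, pow_zero]
        · rw [if_neg huw]
          unfold lkcG
          rw [if_pos (lkc_coprime _ hsq huw)]
      rw [hC, hH, hG]
      unfold WW
      rw [if_pos hI]
      unfold term
      have hT : (fun u => ty (x u).1) = fun u => (c u).2 := funext hty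
      rw [hT]
      ring
    · have hW : WW p n x = 0 := by
        unfold WW
        rw [if_neg hI]
      rw [hW]
      by_contra hcon
      have hcon' : lkcC p n c * ((∏ u, lkcH n c u (x u)) *
        ∏ u, ∏ w, (if u = w then 1 else lkcG n u w (x u) (x w))) ≠ 0 := Ne.symm hcon
      have h1 := left_ne_zero_of_mul hcon'
      have h2 := left_ne_zero_of_mul (right_ne_zero_of_mul hcon')
      have h3 := right_ne_zero_of_mul (right_ne_zero_of_mul hcon')
      rw [Finset.prod_ne_zero_iff] at h2 h3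
      apply hI
      have h4 : ∑ u, (c u).1 = n ∧ ∑ u, (c u).2 = p.t := by
        by_contra h5
        apply h1
        unfold lkcC
        rw [if_neg h5]
      have hNZ : ∀ u, NZ (x u).1 := by
        intro u
        by_contra h5
        apply h2 u (Finset.mem_univ u)
        unfold lkcH
        rw [if_neg fun h6 => h5 h6.2]
      refine ⟨mem_Sq.2 ⟨hmon, hdeg.trans h4.1, ?_⟩, (NZ_prod _).2 hNZ, ?_⟩
      · refine Finset.squarefree_prod_of_pairwise_isCoprime ?_ fun u _ => (x u).2.2.1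
        intro u _ w _ huw
        by_contra h5
        have h6 := (Finset.prod_ne_zero_iff.1 (h3 u (Finset.mem_univ u))) w (Finset.mem_univ w)
        rw [if_neg huw] at h6
        apply h6
        unfold lkcG
        exact if_neg fun hc : IsCoprime (x u).1 (x w).1 => h5 hc.isRelPrime
      · rw [ty_prod _ hNZ, ← h4.2]
        exact Finset.sum_congr rfl fun u _ => hty u
  · rw [if_neg hP]
    push Not at hP
    obtain ⟨u, hu⟩ := hP
    have h1 : ∏ u, lkcH n c u (x u) = 0 := by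
      refine Finset.prod_eq_zero (Finset.mem_univ u) ?_
      unfold lkcH
      rw [if_neg fun h => hu h.1]
    rw [h1, zero_mul, mul_zero]

theorem lkcH_le (n : ℕ) (c : Ix → ℕ × Ty) (u : Ix) (a : Mn F n) : |lkcH n c u a| ≤ 1 := by
  unfold lkcH
  split_ifs
  · rw [abs_pow, abs_of_pos (by norm_num : (0 : ℝ) < 1 / 4)]
    exact pow_le_one₀ (by norm_num) (by norm_num)
  · rw [abs_zero]
    exact zero_le_one

theorem lkcG_le (n : ℕ) (u w : Ix) (a b : Mn F n) : |lkcG n u w a b| ≤ 1 := by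
  unfold lkcG
  split_ifs
  · rw [abs_pow]
    exact pow_le_one₀ (abs_nonneg _) (abs_js_le _ _)
  · rw [abs_zero]
    exact zero_le_one

theorem lkcH_deg {n : ℕ} {c : Ix → ℕ × Ty} {u : Ix} {a : Mn F n}
    (h : a.1.natDegree ≠ (c u).1) : lkcH n c u a = 0 := by
  unfold lkcH
  rw [if_neg]
  rintro ⟨h1, -⟩
  apply h
  rw [← h1]

theorem lkcH_sum (n : ℕ) (c : Ix → ℕ × Ty) (u : Ix) :
    ∑ a : Mn F n, |lkcH n c u a| ≤ (Nat.card F : ℝ) ^ (c u).1 := by
  have h1 := lkc_sum (n := n) (m := (c u).1) (fun a : Mn F n => |lkcH n c u a|)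
    (fun a ha => by rw [lkcH_deg ha, abs_zero]) (fun _ => (1 : ℝ))
  simp only [mul_one] at h1
  rw [h1]
  have h2 : ∑ A ∈ Sq F (c u).1, lkcE (fun a : Mn F n => |lkcH n c u a|) A ≤
      ∑ A ∈ Sq F (c u).1, (1 : ℝ) := by
    refine Finset.sum_le_sum fun A _ => ?_
    refine (le_abs_self _).trans (lkcE_le (fun a => ?_) A)
    rw [abs_abs]
    exact lkcH_le n c u a
  refine h2.trans ?_
  rw [Finset.sum_const, nsmul_eq_mul, mul_one]
  exact_mod_cast card_Sq_le (c u).1

/-- the bilinear bound for the two linked variables -/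
theorem lkc_bil (h2 : (2 : F) ≠ 0) (n : ℕ) (c : Ix → ℕ × Ty) (i j : Ix)
    (hij : Lk i j) (α β : Mn F n → ℝ)
    (hα : ∀ a, |α a| ≤ 1) (hβ : ∀ b, |β b| ≤ 1) :
    (∑ a, ∑ b, α a * β b * (lkcH n c i a * lkcH n c j b *
      (lkcG n i j a b * lkcG n j i b a))) ^ 4 * (Nat.card F : ℝ) ^ (min (c i).1 (c j).1) ≤
      ((c i).1 + (c j).1 + 1) * (Nat.card F : ℝ) ^ (4 * ((c i).1 + (c j).1)) := by
  classical
  have hα' : ∀ a, |α a * lkcH n c i a| ≤ 1 := fun a => by
    rw [abs_mul]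
    exact mul_le_one₀ (hα a) (abs_nonneg _) (lkcH_le n c i a)
  have hβ' : ∀ b, |β b * lkcH n c j b| ≤ 1 := fun b => by
    rw [abs_mul]
    exact mul_le_one₀ (hβ b) (abs_nonneg _) (lkcH_le n c j b)
  -- the general reduction
  have key : ∀ J : F[X] → F[X] → ℝ,
      (∀ a b : Mn F n, lkcG n i j a b * lkcG n j i b a = J a.1 b.1) →
      ∑ a, ∑ b, α a * β b * (lkcH n c i a * lkcH n c j b *
        (lkcG n i j a b * lkcG n j i b a)) =
      ∑ A ∈ Sq F (c i).1, ∑ B ∈ Sq F (c j).1,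
        lkcE (fun a : Mn F n => α a * lkcH n c i a) A *
          lkcE (fun b : Mn F n => β b * lkcH n c j b) B * J A B := by
    intro J hJ
    have e1 : ∀ a : Mn F n, ∑ b, α a * β b * (lkcH n c i a * lkcH n c j b *
        (lkcG n i j a b * lkcG n j i b a)) = (α a * lkcH n c i a) *
        (fun A => ∑ B ∈ Sq F (c j).1, lkcE (fun b : Mn F n => β b * lkcH n c j b) B * J A B)
          a.1 := by
      intro a
      have e2 := lkc_sum (m := (c j).1) (fun b : Mn F n => β b * lkcH n c j b)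
        (fun b hb => by rw [lkcH_deg hb, mul_zero]) (fun B => J a.1 B)
      simp only at e2 ⊢
      rw [← e2, Finset.mul_sum]
      refine Finset.sum_congr rfl fun b _ => ?_
      rw [hJ]
      ring
    refine (Finset.sum_congr rfl fun a _ => e1 a).trans ?_
    refine (lkc_sum (m := (c i).1) (fun a : Mn F n => α a * lkcH n c i a)
        (fun a ha => by rw [lkcH_deg ha, mul_zero])
        (fun A => ∑ B ∈ Sq F (c j).1,
          lkcE (fun b : Mn F n => β b * lkcH n c j b) B * J A B)).trans ?_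
    refine Finset.sum_congr rfl fun A _ => ?_
    rw [Finset.mul_sum]
    refine Finset.sum_congr rfl fun B _ => ?_
    ring
  have hPhi : Phi i j + Phi j i = 1 := by
    rw [Phi_add]
    exact hij
  have hcase : (Phi i j = 1 ∧ Phi j i = 0) ∨ (Phi i j = 0 ∧ Phi j i = 1) := by
    revert hPhi
    generalize Phi i j = s
    generalize Phi j i = t
    revert s t
    decide
  have v1 : (1 : ZMod 2).val = 1 := rfl
  have v0 : (0 : ZMod 2).val = 0 := rfl
  rcases hcase with ⟨hs, ht⟩ | ⟨hs, ht⟩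
  · rw [key (fun A B => js B A) ?_]
    · exact bilin_sym' h2 _ _ _ _ (lkcE_le hα') (lkcE_le hβ')
    · intro a b
      unfold lkcG
      rw [hs, ht, v1, v0, pow_one, pow_zero]
      by_cases hc : IsCoprime a.1 b.1
      · rw [if_pos hc, if_pos hc.symm, mul_one]
      · rw [if_neg hc, zero_mul]
        exact ((js_eq_zero a.2.1).2 fun h => hc h.symm).symm
  · rw [key (fun A B => js A B) ?_]
    · exact bilin_sym h2 _ _ _ _ (lkcE_le hα') (lkcE_le hβ')
    · intro a b
      unfold lkcG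
      rw [hs, ht, v1, v0, pow_one, pow_zero]
      by_cases hc : IsCoprime a.1 b.1
      · rw [if_pos hc, if_pos hc.symm, one_mul]
      · rw [if_neg hc, zero_mul]
        exact ((js_eq_zero b.2.1).2 hc).symm

theorem lkc_root {q : ℝ} (hq : 1 ≤ q) {m l z : ℕ} (hm : z ≤ m) (hl : z ≤ l) {S : ℝ}
    (h5 : S ^ 4 * q ^ (min m l) ≤ ((m : ℝ) + l + 1) * q ^ (4 * (m + l))) :
    |S| ≤ ((m : ℝ) + l + 1) * q ^ (m + l) * q ^ (-(z : ℝ) / 4) := by
  have hq0 : 0 < q := lt_of_lt_of_le one_pos hq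
  have h4 : (q ^ (-(z : ℝ) / 4)) ^ 4 * q ^ z = 1 := by
    rw [← Real.rpow_natCast (q ^ (-(z : ℝ) / 4)) 4, ← Real.rpow_mul hq0.le,
      ← Real.rpow_natCast q z, ← Real.rpow_add hq0]
    have : -(z : ℝ) / 4 * (4 : ℕ) + z = 0 := by
      push_cast
      ring
    rw [this, Real.rpow_zero]
  have hm1 : (1 : ℝ) ≤ (m : ℝ) + l + 1 := by
    have h7 : (0 : ℝ) ≤ (m : ℝ) := Nat.cast_nonneg _
    have h8 : (0 : ℝ) ≤ (l : ℝ) := Nat.cast_nonneg _
    linarith
  have hB0 : 0 ≤ ((m : ℝ) + l + 1) * q ^ (m + l) * q ^ (-(z : ℝ) / 4) := by positivity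
  have h6 : S ^ 4 * q ^ z ≤ ((m : ℝ) + l + 1) * q ^ (4 * (m + l)) := by
    refine le_trans ?_ h5
    refine mul_le_mul_of_nonneg_left ?_ (by positivity)
    exact pow_le_pow_right₀ hq (le_min hm hl)
  have h7 : (((m : ℝ) + l + 1) * q ^ (m + l) * q ^ (-(z : ℝ) / 4)) ^ 4 * q ^ z =
      ((m : ℝ) + l + 1) ^ 4 * q ^ (4 * (m + l)) := by
    rw [mul_pow, mul_pow, mul_assoc, h4, mul_one, ← pow_mul, mul_comm _ 4]
  have h8 : ((m : ℝ) + l + 1) ≤ ((m : ℝ) + l + 1) ^ 4 := le_self_pow₀ hm1 (by norm_num)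
  have h9 : |S| ^ 4 * q ^ z ≤
      (((m : ℝ) + l + 1) * q ^ (m + l) * q ^ (-(z : ℝ) / 4)) ^ 4 * q ^ z := by
    have e4 : Even 4 := ⟨2, rfl⟩
    rw [h7, e4.pow_abs]
    exact h6.trans (mul_le_mul_of_nonneg_right h8 (by positivity))
  have h10 := le_of_mul_le_mul_right h9 (by positivity)
  exact (pow_le_pow_iff_left₀ (abs_nonneg S) hB0 (by norm_num)).1 h10

theorem lkc_nonneg {q : ℝ} (hq : 1 ≤ q) (a : ℕ) (m : ℕ) (r : ℝ) :
    0 ≤ ((a : ℝ) + 1) * q ^ m * q ^ r := by
  have hq0 : 0 < q := lt_of_lt_of_le one_pos hq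
  positivity

theorem lkc_one_le_q : (1 : ℝ) ≤ (Nat.card F : ℝ) := by
  have : 0 < Nat.card F := Nat.card_pos
  exact_mod_cast this

theorem lkc_sum_split (d : Ix → ℕ) {i j : Ix} (hne : i ≠ j) :
    ∑ u ∈ (Finset.univ.erase i).erase j, d u + (d i + d j) = ∑ u, d u := by
  have e1 := Finset.add_sum_erase (Finset.univ : Finset Ix) d (Finset.mem_univ i)
  have e2 := Finset.add_sum_erase (Finset.univ.erase i) d
    (Finset.mem_erase.2 ⟨hne.symm, Finset.mem_univ j⟩)
  omega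

theorem lkc_final {q : ℝ} (hq : 1 ≤ q) {n z : ℕ} (d : Ix → ℕ) (hd : ∑ u, d u = n) {i j : Ix}
    (hne : i ≠ j) :
    (∏ u ∈ (Finset.univ.erase i).erase j, q ^ d u) *
      (((d i : ℝ) + d j + 1) * q ^ (d i + d j) * q ^ (-(z : ℝ) / 4)) ≤
      (n + 1) * q ^ n * q ^ (-(z : ℝ) / 4) := by
  have hq0 : 0 < q := lt_of_lt_of_le one_pos hq
  have hs := lkc_sum_split d hne
  rw [hd] at hs
  have h6 : (∏ u ∈ (Finset.univ.erase i).erase j, q ^ d u) * q ^ (d i + d j) = q ^ n := by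
    rw [Finset.prod_pow_eq_pow_sum, ← pow_add, hs]
  have h7 : ((d i : ℝ) + d j + 1) ≤ n + 1 := by
    have e1 : d i + d j ≤ n := by omega
    have e2 : (d i : ℝ) + (d j : ℝ) ≤ n := by exact_mod_cast e1
    linarith
  calc (∏ u ∈ (Finset.univ.erase i).erase j, q ^ d u) *
      (((d i : ℝ) + d j + 1) * q ^ (d i + d j) * q ^ (-(z : ℝ) / 4)) =
      ((d i : ℝ) + d j + 1) * ((∏ u ∈ (Finset.univ.erase i).erase j,
        q ^ d u) * q ^ (d i + d j)) * q ^ (-(z : ℝ) / 4) := by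
        ring
    _ = ((d i : ℝ) + d j + 1) * q ^ n * q ^ (-(z : ℝ) / 4) := by rw [h6]
    _ ≤ (n + 1) * q ^ n * q ^ (-(z : ℝ) / 4) := by
        refine mul_le_mul_of_nonneg_right ?_ (by positivity)
        exact mul_le_mul_of_nonneg_right h7 (by positivity)

/-- the bound for the normalized sum -/
theorem lkc_norm (h2 : (2 : F) ≠ 0) (n z : ℕ) (c : Ix → ℕ × Ty) (i j : Ix)
    (hij : Lk i j) (hi : z ≤ (c i).1) (hj : z ≤ (c j).1) (hd : ∑ u, (c u).1 = n) :
    |∑ x : Ix → Mn F n, (∏ u, lkcH n c u (x u)) *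
        ∏ u, ∏ w, (if u = w then 1 else lkcG n u w (x u) (x w))| ≤
      (n + 1) * (Nat.card F : ℝ) ^ n * (Nat.card F : ℝ) ^ (-(z : ℝ) / 4) := by
  classical
  have hq : (1 : ℝ) ≤ (Nat.card F : ℝ) := lkc_one_le_q
  have hne : i ≠ j := by
    rintro rfl
    unfold Lk at hij
    rw [← Phi_add, Phi_self, add_zero] at hij
    exact zero_ne_one hij
  obtain ⟨B, hB⟩ : ∃ B : ℝ, B = (((c i).1 : ℝ) + (c j).1 + 1) *
    (Nat.card F : ℝ) ^ ((c i).1 + (c j).1) * (Nat.card F : ℝ) ^ (-(z : ℝ) / 4) := ⟨_, rfl⟩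
  have hB0 : 0 ≤ B := by
    rw [hB, ← Nat.cast_add]
    exact lkc_nonneg hq _ _ _
  have hbil : ∀ α β : Mn F n → ℝ, (∀ a, |α a| ≤ 1) → (∀ b, |β b| ≤ 1) →
      |∑ a, ∑ b, α a * β b * (lkcH n c i a * lkcH n c j b *
        (lkcG n i j a b * lkcG n j i b a))| ≤ B := by
    intro α β hα hβ
    rw [hB]
    exact lkc_root hq hi hj (lkc_bil h2 n c i j hij α β hα hβ)
  have hmain := abs_pair i j hne (lkcH n c) (lkcG n) (lkcH_le n c)
    (fun u w a b => lkcG_le n u w a b) B hB0 hbil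
  refine hmain.trans ?_
  have h5 : ∏ u ∈ (Finset.univ.erase i).erase j, ∑ a : Mn F n, |lkcH n c u a| ≤
      ∏ u ∈ (Finset.univ.erase i).erase j, (Nat.card F : ℝ) ^ (c u).1 :=
    Finset.prod_le_prod (fun u _ => Finset.sum_nonneg fun a _ => abs_nonneg _)
      fun u _ => lkcH_sum n c u
  refine (mul_le_mul_of_nonneg_right h5 hB0).trans ?_
  rw [hB]
  exact lkc_final hq (fun u => (c u).1) hd hne

theorem lkcC_cases (p : Par) (n : ℕ) (c : Ix → ℕ × Ty) :
    lkcC p n c = 0 ∨ (|lkcC p n c| = 1 ∧ ∑ u, (c u).1 = n) := by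
  unfold lkcC
  split_ifs with h
  · exact Or.inr ⟨abs_sg _, h.1⟩
  · exact Or.inl rfl

theorem lk_class (h2 : (2 : F) ≠ 0) (p : Par) (n z : ℕ) (c : Ix → ℕ × Ty) (i j : Ix)
    (hij : Lk i j) (hi : z ≤ (c i).1) (hj : z ≤ (c j).1) :
    |∑ x : Ix → Mn F n, (if ∀ u, ((x u).1.natDegree, ty (x u).1) = c u then WW p n x else 0)| ≤
      (n + 1) * (Nat.card F : ℝ) ^ n * (Nat.card F : ℝ) ^ (-(z : ℝ) / 4) := by
  rw [Finset.sum_congr rfl fun x _ => lkc_formula p n c x, ← Finset.mul_sum, abs_mul]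
  rcases lkcC_cases p n c with h | ⟨h, hd⟩
  · rw [h, abs_zero, zero_mul]
    exact lkc_nonneg lkc_one_le_q _ _ _
  · rw [h, one_mul]
    exact lkc_norm h2 n z c i j hij hi hj hd

end Pool.Agent.H94.PC
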