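import Pool.Agent.H94.PC.LS

set_option autoImplicit false

/-!
# [H94 PC LOCP] The local conditions at the primes dividing `D`

`exists_data'`: take `ga, gb, s, r` and `Data D ga gb` from `LT.exists_data`.  Let `P` be monic
irreducible, `P ∣ D`, `v = LT.place P hP`, `M` the completion at `v`.  As `D` is squarefree,
`D = P * D₁`, `¬ P ∣ D₁`, so `v D = exp (-1)` (`val_A`, `map_mul`, `intValuation_singleton`, as in the
proof of `LT.ev_iff_not_dvd`); `D(0), D(1) ≠ 0` so `P` does not divide `X` nor `X - 1` (if `P ∣ X` then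
`P = X` up to a unit and `D(0) = 0`), so `v X = v (X - 1) = 1` (`val_A_eq_one_iff`).
`LT.hasPt_cases` and `LT.pt_bad` give four cases for the classes of `a, b` in `M`
(the first alternative of `hasPt_cases` is the first case).  Replace `a` by `ga`, `b` by `gb`
(`LT.Cl.congr`, as in the proof of `LT.exists_data`: `a * c = (ga * c) * s ^ 2`), write
everything as `algebraMap` of a polynomial (`map_mul`, `RatFunc.algebraMap_X`), and apply
`ls_of_Cl`.
-/

namespace Pool.Agent.H94.PC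

open Polynomial WithZero IsDedekindDomain

variable {F : Type} [Field F] [Finite F]

/-- the local condition at `P ∣ D` -/
def LocP (D ga gb P : F[X]) : Prop :=
  (LS P ga ∧ LS P gb) ∨ (LS P (ga * X) ∧ LS P (-(gb * D))) ∨
    (LS P (ga * D) ∧ LS P (-(gb * (X - 1)))) ∨
      (LS P (ga * (X * D)) ∧ LS P (gb * ((X - 1) * D)))

theorem exists_data' [DecidableEq (RatFunc F)] (D : F[X]) (hs : Squarefree D)
    (hD0 : D.eval 0 ≠ 0) (hD1 : D.eval 1 ≠ 0) (a b : RatFunc F) (ha : a ≠ 0) (hb : b ≠ 0)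
    (hfin : ∀ v : HeightOneSpectrum F[X],
      LT.HasPt (v.adicCompletion (RatFunc F)) (algebraMap F[X] (RatFunc F) D) a b)
    (hinf : LT.HasPt (RatFunc.CompletionAtInfty F) (algebraMap F[X] (RatFunc F) D) a b) :
    ∃ (ga gb : F[X]) (s r : RatFunc F), s ≠ 0 ∧ r ≠ 0 ∧
      a = algebraMap F[X] (RatFunc F) ga * s ^ 2 ∧ b = algebraMap F[X] (RatFunc F) gb * r ^ 2 ∧
      LT.Data D ga gb ∧ ∀ P : F[X], P.Monic → Irreducible P → P ∣ D → LocP D ga gb P := by
  obtain ⟨ga, gb, s, r, hs0, hr0, has, hbr, hdata⟩ :=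
    LT.exists_data D hD0 hD1 a b ha hb hfin hinf
  refine ⟨ga, gb, s, r, hs0, hr0, has, hbr, hdata, fun P hm hP hPD => ?_⟩
  have hD : D ≠ 0 := by rintro rfl; simp at hD0
  have hga0 : ga ≠ 0 := hdata.sqa.ne_zero
  have hgb0 : gb ≠ 0 := hdata.sqb.ne_zero
  have hX : (algebraMap F[X] (RatFunc F) X) = RatFunc.X := RatFunc.algebraMap_X
  have hX1 : (X : F[X]) - C 1 = X - 1 := by rw [C_1]
  set v : HeightOneSpectrum F[X] := LT.place P hP with hv
  have hv' : v.asIdeal = Ideal.span {P} := rfl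
  have hsM : algebraMap (RatFunc F) (v.adicCompletion (RatFunc F)) s ≠ 0 := by
    rw [Ne, map_eq_zero]; exact hs0
  have hrM : algebraMap (RatFunc F) (v.adicCompletion (RatFunc F)) r ≠ 0 := by
    rw [Ne, map_eq_zero]; exact hr0
  have hPX : ¬ P ∣ X := by
    intro h
    have h1 : (X : F[X]) ∣ D := (hP.dvd_symm irreducible_X h).trans hPD
    rw [X_dvd_iff, coeff_zero_eq_eval_zero] at h1
    exact hD0 h1
  have hPX1 : ¬ P ∣ X - 1 := by
    intro h
    rw [← hX1] at h
    have h1 : (X : F[X]) - C 1 ∣ D := (hP.dvd_symm (irreducible_X_sub_C 1) h).trans hPD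
    rw [dvd_iff_isRoot] at h1
    exact hD1 h1
  have hX0 : (X : F[X]) ≠ 0 := X_ne_zero
  have hX10 : (X : F[X]) - 1 ≠ 0 := by rw [← hX1]; exact X_sub_C_ne_zero 1
  have vX : (Valued.v (algebraMap (RatFunc F) (v.adicCompletion (RatFunc F)) RatFunc.X) :
      ℤᵐ⁰) = 1 := by
    rw [← hX, LT.val_A_eq_one_iff, hv', Ideal.mem_span_singleton]
    exact hPX
  have ht1 : algebraMap (RatFunc F) (v.adicCompletion (RatFunc F)) RatFunc.X - 1 =
      algebraMap (RatFunc F) (v.adicCompletion (RatFunc F))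
        (algebraMap F[X] (RatFunc F) (X - 1)) := by
    rw [map_sub, map_sub, hX, map_one, map_one]
  have vX1 : (Valued.v (algebraMap (RatFunc F) (v.adicCompletion (RatFunc F)) RatFunc.X - 1) :
      ℤᵐ⁰) = 1 := by
    rw [ht1, LT.val_A_eq_one_iff, hv', Ideal.mem_span_singleton]
    exact hPX1
  have vD : (Valued.v (algebraMap (RatFunc F) (v.adicCompletion (RatFunc F))
      (algebraMap F[X] (RatFunc F) D)) : ℤᵐ⁰) = exp (-1 : ℤ) := by
    obtain ⟨k, hk⟩ := hPD
    have hpk : ¬ P ∣ k := by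
      rintro ⟨l, hl⟩
      have hu := hs P ⟨l, by rw [hk, hl]; ring⟩
      exact hP.not_isUnit hu
    rw [LT.val_A, hk, map_mul, v.intValuation_singleton hP.ne_zero hv']
    have h4 : v.intValuation k = 1 := by
      rw [← LT.val_A (K := RatFunc F), LT.val_A_eq_one_iff, hv', Ideal.mem_span_singleton]
      exact hpk
    rw [h4, mul_one]
  have hA : ∀ q : F[X], q ≠ 0 → LT.Cl (Valued.v : Valuation (v.adicCompletion (RatFunc F)) ℤᵐ⁰)
      (algebraMap (RatFunc F) (v.adicCompletion (RatFunc F))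
        (a * algebraMap F[X] (RatFunc F) q)) → LS P (ga * q) := by
    intro q hq h
    refine ls_of_Cl hm hP (mul_ne_zero hga0 hq) ?_
    refine (LT.Cl.congr (s := algebraMap (RatFunc F) (v.adicCompletion (RatFunc F)) s) hsM ?_).1 h
    rw [← map_pow, ← map_mul]
    congr 1
    rw [has, map_mul]
    ring
  have hB : ∀ q : F[X], q ≠ 0 → LT.Cl (Valued.v : Valuation (v.adicCompletion (RatFunc F)) ℤᵐ⁰)
      (algebraMap (RatFunc F) (v.adicCompletion (RatFunc F))
        (b * algebraMap F[X] (RatFunc F) q)) → LS P (gb * q) := by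
    intro q hq h
    refine ls_of_Cl hm hP (mul_ne_zero hgb0 hq) ?_
    refine (LT.Cl.congr (s := algebraMap (RatFunc F) (v.adicCompletion (RatFunc F)) r) hrM ?_).1 h
    rw [← map_pow, ← map_mul]
    congr 1
    rw [hbr, map_mul]
    ring
  have hcase := LT.hasPt_cases (Valued.v : Valuation (v.adicCompletion (RatFunc F)) ℤᵐ⁰) ha hb
    (hfin v)
  have hfirst : LT.Cl (Valued.v : Valuation (v.adicCompletion (RatFunc F)) ℤᵐ⁰)
        (algebraMap (RatFunc F) (v.adicCompletion (RatFunc F)) a) →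
      LT.Cl (Valued.v : Valuation (v.adicCompletion (RatFunc F)) ℤᵐ⁰)
        (algebraMap (RatFunc F) (v.adicCompletion (RatFunc F)) b) → LocP D ga gb P := by
    intro h1 h2
    left
    have e1 := hA 1 one_ne_zero (by rw [map_one, mul_one]; exact h1)
    have e2 := hB 1 one_ne_zero (by rw [map_one, mul_one]; exact h2)
    rw [mul_one] at e1 e2
    exact ⟨e1, e2⟩
  rcases hcase with ⟨h1, h2⟩ | h
  · exact hfirst h1 h2
  rcases LT.pt_bad vD vX vX1 h with ⟨h1, h2⟩ | ⟨h1, h2⟩ | ⟨h1, h2⟩ | ⟨h1, h2⟩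
  · exact hfirst h1 h2
  · right; left
    rw [← map_mul, ← hX] at h1
    rw [← map_mul, ← map_neg, ← mul_neg, ← map_neg] at h2
    have e2 := hB (-D) (neg_ne_zero.2 hD) h2
    rw [mul_neg] at e2
    exact ⟨hA X hX0 h1, e2⟩
  · right; right; left
    rw [← map_mul] at h1
    rw [ht1, ← map_mul, ← map_neg, ← mul_neg, ← map_neg] at h2
    have e2 := hB (-(X - 1)) (neg_ne_zero.2 hX10) h2
    rw [mul_neg] at e2
    exact ⟨hA D hD h1, e2⟩
  · right; right; right
    rw [← map_mul, ← map_mul, ← hX, ← map_mul] at h1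
    rw [ht1, ← map_mul, ← map_mul, ← map_mul] at h2
    exact ⟨hA (X * D) (mul_ne_zero hX0 hD) h1, hB ((X - 1) * D) (mul_ne_zero hX10 hD) h2⟩

end Pool.Agent.H94.PC
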