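import Pool.Agent.H94.PC.WWSplit

set_option autoImplicit false

/-!
# [H94 PC NSQ] Products of small variables which are not squares

`y : Wc k s → Mn F n` with squarefree product, `y w₀ ≠ 1`.  By `exists_lk` (for `w₀.1 ∉ US k s`)
there are `i, j` with `Lk w₀ (em i)` and `¬ Lk w₀ (em j)` (`Lk_comm`).  Let `P` be a monic (or any)
irreducible divisor of `y w₀` (which is monic, not `1`, so not a unit).  `P` divides no other
`y w` (squarefree product), so `P ∣ hh y i`, `¬ P ^ 2 ∣ hh y i`, `¬ P ∣ hh y j`.  So `P` divides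
`hh y i * hh y j` exactly once, and it is not a square (if it is `r * r` then `P ∣ r`,
`P * P ∣ r * r`).
`hh_facts`: `hh y i` is monic, divides `∏ w, y w`; so `NZ` and its degree is at most the degree of
the product.
-/

namespace Pool.Agent.H94.PC

open Polynomial

variable {F : Type} [Field F] [Finite F]

theorem hh_dvd {k : Fin 6} {s : Ka} {n : ℕ} (y : Wc k s → Mn F n) (i : Ka) :
    hh y i ∣ ∏ w, (y w).1 := by
  refine Finset.prod_dvd_prod_of_dvd _ _ fun w _ => ?_
  split_ifs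
  · exact dvd_rfl
  · exact one_dvd _

theorem hh_monic {k : Fin 6} {s : Ka} {n : ℕ} (y : Wc k s → Mn F n) (i : Ka) :
    (hh y i).Monic := by
  refine monic_prod_of_monic _ _ fun w _ => ?_
  split_ifs
  · exact (y w).2.1
  · exact monic_one

theorem hh_NZ {k : Fin 6} {s : Ka} {n : ℕ} (y : Wc k s → Mn F n) (i : Ka)
    (h : NZ (∏ w, (y w).1)) : NZ (hh y i) := by
  obtain ⟨r, hr⟩ := hh_dvd y i
  rw [hr, NZ_mul] at h
  exact h.1

theorem exists_not_sq {k : Fin 6} {s : Ka} {n : ℕ} (y : Wc k s → Mn F n)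
    (hs : Squarefree (∏ w, (y w).1)) (w₀ : Wc k s) (h : (y w₀).1 ≠ 1) :
    ∃ i j, ¬ IsSquare (hh y i * hh y j) := by
  classical
  have hu : ¬ IsUnit (y w₀).1 := fun hu => h ((y w₀).2.1.eq_one_of_isUnit hu)
  obtain ⟨P, hPm, hPi, hPd⟩ := exists_monic_irreducible_factor (y w₀).1 hu
  have hPp : Prime P := hPi.prime
  have hother : ∀ w, w ≠ w₀ → ¬ P ∣ (y w).1 := by
    intro w hw hd
    have h1 : P * P ∣ ∏ w, (y w).1 := by
      rw [← Finset.mul_prod_erase Finset.univ (fun w => (y w).1) (Finset.mem_univ w₀)]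
      exact mul_dvd_mul hPd (hd.trans (Finset.dvd_prod_of_mem (fun w => (y w).1)
        (Finset.mem_erase.2 ⟨hw, Finset.mem_univ w⟩)))
    exact hPi.not_isUnit (hs P h1)
  obtain ⟨i, j, hi, hj⟩ := exists_lk k s w₀.1 w₀.2
  have h1 : P ∣ hh y i := by
    refine hPd.trans ?_
    have h2 := Finset.dvd_prod_of_mem (fun w : Wc k s => if Lk (em k s i) w.1 then (y w).1 else 1)
      (Finset.mem_univ w₀)
    simp only [if_pos ((Lk_comm _ _).1 hi)] at h2
    exact h2
  have h2 : ¬ P ∣ hh y j := by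
    intro hd
    obtain ⟨w, _, hw⟩ := hPp.exists_mem_finset_dvd hd
    by_cases hl : Lk (em k s j) w.1
    · rw [if_pos hl] at hw
      by_cases hww : w = w₀
      · rw [hww] at hl
        exact hj ((Lk_comm _ _).1 hl)
      · exact hother w hww hw
    · rw [if_neg hl] at hw
      exact hPi.not_isUnit (isUnit_of_dvd_one hw)
  refine ⟨i, j, ?_⟩
  rintro ⟨r, hr⟩
  obtain ⟨c, hc⟩ := h1
  have h3 : P ∣ r * r := by
    rw [← hr, hc, mul_assoc]
    exact dvd_mul_right _ _
  have h4 : P ∣ r := (hPp.dvd_or_dvd h3).elim id id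
  have h5 : P * P ∣ P * (c * hh y j) := by
    rw [← mul_assoc, ← hc, hr]
    exact mul_dvd_mul h4 h4
  have h6 : P ∣ c * hh y j := (mul_dvd_mul_iff_left hPp.ne_zero).1 h5
  rcases hPp.dvd_or_dvd h6 with h7 | h7
  · have h8 : P * P ∣ hh y i := by
      rw [hc]
      exact mul_dvd_mul_left P h7
    exact hPi.not_isUnit (hs P (h8.trans (hh_dvd y i)))
  · exact h2 h7

end Pool.Agent.H94.PC
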