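import Pool.Agent.H94.PC.SSDefs
import Pool.Agent.H94.PC.Facs

set_option autoImplicit false

/-!
# [H94 PC SSPART] Partial sums are bounded by the Euler product

`f ≥ 0`, `x ≥ 0`.  Let `T = ⋃ (d ∈ Icc 1 m), Pr d`.  For `j ≤ m` the map `D ↦ pf D` is injective on
`Sq j` (`prod_pf`) with values in the subsets of `T` (an irreducible divisor has degree between
`1` and `j`), and different `j` give different sets (`natDegree_prod_pf`).  Hence
`∑ j ∈ range (m + 1), SS f j * x ^ j = ∑ j, ∑ D ∈ Sq j, ∏ P ∈ pf D, (f P * x ^ deg P)`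
`≤ ∑ s ∈ T.powerset, ∏ P ∈ s, (f P * x ^ deg P) = ∏ P ∈ T, (1 + f P * x ^ deg P)`
(`Finset.prod_one_add` / `Finset.prod_add`) `≤ exp (∑ P ∈ T, f P * x ^ deg P)` (`Real.add_one_le_exp`).
With `x = 1 / q` this is `SS_partial`.
-/

namespace Pool.Agent.H94.PC

open Polynomial

variable {F : Type} [Field F] [Finite F]

theorem SS_partial' (f : F[X] → ℝ) (hf : ∀ P, 0 ≤ f P) (m : ℕ) (x : ℝ) (hx : 0 ≤ x) :
    ∑ j ∈ Finset.range (m + 1), SS f j * x ^ j ≤
      Real.exp (∑ d ∈ Finset.Icc 1 m, ∑ P ∈ Pr F d, f P * x ^ d) := by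
  classical
  set g : F[X] → ℝ := fun P => f P * x ^ P.natDegree with hg
  have hg0 : ∀ P, 0 ≤ g P := fun P => mul_nonneg (hf P) (pow_nonneg hx _)
  set T : Finset F[X] := (Finset.Icc 1 m).biUnion (fun d => Pr F d) with hT
  set U : Finset F[X] := (Finset.range (m + 1)).biUnion (fun j => Sq F j) with hU
  have hTd : Set.PairwiseDisjoint (↑(Finset.Icc 1 m) : Set ℕ) (fun d => Pr F d) := by
    intro a _ b _ hab
    refine Finset.disjoint_left.2 fun P h1 h2 => hab ?_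
    rw [← (mem_Pr.1 h1).2.1, ← (mem_Pr.1 h2).2.1]
  have hUd : Set.PairwiseDisjoint (↑(Finset.range (m + 1)) : Set ℕ) (fun j => Sq F j) := by
    intro a _ b _ hab
    refine Finset.disjoint_left.2 fun P h1 h2 => hab ?_
    rw [← (mem_Sq.1 h1).2.1, ← (mem_Sq.1 h2).2.1]
  have e1 : ∑ j ∈ Finset.range (m + 1), SS f j * x ^ j = ∑ D ∈ U, ∏ P ∈ pf D, g P := by
    rw [hU, Finset.sum_biUnion hUd]
    refine Finset.sum_congr rfl fun j _ => ?_
    rw [SS, Finset.sum_mul]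
    refine Finset.sum_congr rfl fun D hD => ?_
    obtain ⟨h1, h2, h3⟩ := mem_Sq.1 hD
    rw [hg, Finset.prod_mul_distrib, Finset.prod_pow_eq_pow_sum, natDegree_prod_pf h1 h3, h2]
  have e2 : ∑ D ∈ U, ∏ P ∈ pf D, g P = ∑ s ∈ U.image pf, ∏ P ∈ s, g P := by
    rw [Finset.sum_image]
    intro D hD E hE h
    rw [hU, Finset.coe_biUnion, Set.mem_iUnion₂] at hD hE
    obtain ⟨a, _, ha⟩ := hD
    obtain ⟨b, _, hb⟩ := hE
    have ha' := mem_Sq.1 (Finset.mem_coe.1 ha)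
    have hb' := mem_Sq.1 (Finset.mem_coe.1 hb)
    rw [← prod_pf ha'.1 ha'.2.2, ← prod_pf hb'.1 hb'.2.2, h]
  have hsub : U.image pf ⊆ T.powerset := by
    intro s hs
    obtain ⟨D, hD, rfl⟩ := Finset.mem_image.1 hs
    obtain ⟨j, hj, hDj⟩ := Finset.mem_biUnion.1 hD
    obtain ⟨h1, h2, _⟩ := mem_Sq.1 hDj
    rw [Finset.mem_powerset]
    intro P hP
    obtain ⟨hP1, hP2, hP3⟩ := mem_pf' hP
    refine Finset.mem_biUnion.2 ⟨P.natDegree, ?_, mem_Pr.2 ⟨hP1, rfl, hP2⟩⟩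
    have h4 := natDegree_le_of_dvd hP3 h1.ne_zero
    have h5 := hP2.natDegree_pos
    have h6 := Finset.mem_range.1 hj
    rw [Finset.mem_Icc]
    omega
  have e3 : ∑ s ∈ U.image pf, ∏ P ∈ s, g P ≤ ∑ s ∈ T.powerset, ∏ P ∈ s, g P :=
    Finset.sum_le_sum_of_subset_of_nonneg hsub fun s _ _ => Finset.prod_nonneg fun P _ => hg0 P
  have e4 : ∑ s ∈ T.powerset, ∏ P ∈ s, g P = ∏ P ∈ T, (1 + g P) := (Finset.prod_one_add T).symm
  have e5 : ∏ P ∈ T, (1 + g P) ≤ Real.exp (∑ P ∈ T, g P) := by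
    rw [Real.exp_sum]
    refine Finset.prod_le_prod (fun P _ => by linarith [hg0 P]) fun P _ => ?_
    have := Real.add_one_le_exp (g P)
    linarith
  have e6 : ∑ P ∈ T, g P = ∑ d ∈ Finset.Icc 1 m, ∑ P ∈ Pr F d, f P * x ^ d := by
    rw [hT, Finset.sum_biUnion hTd]
    refine Finset.sum_congr rfl fun d _ => Finset.sum_congr rfl fun P hP => ?_
    rw [hg]
    simp only
    rw [(mem_Pr.1 hP).2.1]
  rw [e1, e2]
  refine e3.trans ?_
  rw [e4, ← e6]
  exact e5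

theorem SS_partial (f : F[X] → ℝ) (hf : ∀ P, 0 ≤ f P) (m : ℕ) :
    ∑ j ∈ Finset.range (m + 1), SS f j / (Nat.card F : ℝ) ^ j ≤ Real.exp (PS f m) := by
  have h := SS_partial' f hf m (1 / (Nat.card F : ℝ)) (by positivity)
  have e1 : ∀ (a : ℝ) (j : ℕ), a * (1 / (Nat.card F : ℝ)) ^ j = a / (Nat.card F : ℝ) ^ j := by
    intro a j
    rw [one_div, inv_pow, div_eq_mul_inv]
  simp only [e1] at h
  exact h

end Pool.Agent.H94.PC
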