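import Pool.Agent.H94.PC.SSRec
import Pool.Agent.H94.PC.SSPart

set_option autoImplicit false

/-!
# [H94 PC SSB] The upper bound for sums of multiplicative functions

`SS_le`: divide `SS_rec` by `q ^ m`: `m * (SS f m / q ^ m) ≤ M * ∑ d ∈ Icc 1 m, SS f (m-d) / q ^ (m-d)
≤ M * ∑ j ∈ range (m + 1), SS f j / q ^ j ≤ M * exp (PS f m)` by `SS_partial` (reindex
`j = m - d`, a subset of `range (m + 1)`, nonnegative terms).
`PS_const`: `PS (fun _ => κ) m ≤ κ * ∑ d ∈ Icc 1 m, 1 / d ≤ κ * (1 + log m)` by `card_Pr_le_div`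
and `harmonic_le_one_add_log` (or any bound of the harmonic sum).
`SS_quarter`: for `m = 0` the only element of `Sq 0` is `1`, `pf 1 = ∅`, the sum is `1`.
For `m ≥ 1`: `SS_le` with `M = 1/4` gives `(1/4) / m * q ^ m * exp ((1 + log m) / 4)
= (exp (1/4) / 4) * q ^ m * m ^ (-3/4)`, `exp (1/4) ≤ 2`, and `m ^ (-3/4) ≤ 2 * (m + 1) ^ (-3/4)`
as `m + 1 ≤ 2 m`.
-/

namespace Pool.Agent.H94.PC

open Polynomial

variable {F : Type} [Field F] [Finite F]

theorem SS_le (f : F[X] → ℝ) (hf : ∀ P, 0 ≤ f P) (M : ℝ) (hM : ∀ P, f P ≤ M) (m : ℕ)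
    (hm : 1 ≤ m) : SS f m ≤ M / m * (Nat.card F : ℝ) ^ m * Real.exp (PS f m) := by
  have hq : (0 : ℝ) < (Nat.card F : ℝ) := by
    exact_mod_cast Nat.card_pos
  have hM0 : 0 ≤ M := (hf 0).trans (hM 0)
  have hm0 : (0 : ℝ) < m := by exact_mod_cast hm
  have h1 := SS_rec f hf M hM m
  have h2 : ∑ d ∈ Finset.Icc 1 m, (Nat.card F : ℝ) ^ d * SS f (m - d) =
      (Nat.card F : ℝ) ^ m *
        ∑ d ∈ Finset.Icc 1 m, SS f (m - d) / (Nat.card F : ℝ) ^ (m - d) := by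
    rw [Finset.mul_sum]
    refine Finset.sum_congr rfl fun d hd => ?_
    have hd' := (Finset.mem_Icc.1 hd).2
    have h3 : (Nat.card F : ℝ) ^ m = (Nat.card F : ℝ) ^ d * (Nat.card F : ℝ) ^ (m - d) := by
      rw [← pow_add]
      congr 1
      omega
    rw [h3]
    field_simp
  have h4 : ∑ d ∈ Finset.Icc 1 m, SS f (m - d) / (Nat.card F : ℝ) ^ (m - d) ≤
      ∑ j ∈ Finset.range (m + 1), SS f j / (Nat.card F : ℝ) ^ j := by
    have h5 : ∑ d ∈ Finset.Icc 1 m, SS f (m - d) / (Nat.card F : ℝ) ^ (m - d) =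
        ∑ j ∈ (Finset.Icc 1 m).image (fun d => m - d), SS f j / (Nat.card F : ℝ) ^ j := by
      rw [Finset.sum_image]
      intro a ha b hb hab
      have ha' := Finset.mem_Icc.1 (Finset.mem_coe.1 ha)
      have hb' := Finset.mem_Icc.1 (Finset.mem_coe.1 hb)
      have hab' : m - a = m - b := hab
      omega
    rw [h5]
    refine Finset.sum_le_sum_of_subset_of_nonneg ?_ ?_
    · intro j hj
      obtain ⟨d, hd, rfl⟩ := Finset.mem_image.1 hj
      rw [Finset.mem_range]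
      omega
    · intro j _ _
      exact div_nonneg (SS_nonneg f hf j) (pow_nonneg hq.le _)
  have h6 := h4.trans (SS_partial f hf m)
  have h7 : (m : ℝ) * SS f m ≤ M * ((Nat.card F : ℝ) ^ m * Real.exp (PS f m)) := by
    refine h1.trans ?_
    rw [h2]
    refine mul_le_mul_of_nonneg_left ?_ hM0
    exact mul_le_mul_of_nonneg_left h6 (pow_nonneg hq.le _)
  have h8 : M / m * (Nat.card F : ℝ) ^ m * Real.exp (PS f m) =
      (M * ((Nat.card F : ℝ) ^ m * Real.exp (PS f m))) / m := by ring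
  rw [h8, le_div_iff₀ hm0]
  linarith

theorem PS_const (κ : ℝ) (hκ : 0 ≤ κ) (m : ℕ) (hm : 1 ≤ m) :
    PS (fun _ : F[X] => κ) m ≤ κ * (1 + Real.log m) := by
  have hq : (0 : ℝ) < (Nat.card F : ℝ) := by
    exact_mod_cast Nat.card_pos
  unfold PS
  have h1 : ∑ d ∈ Finset.Icc 1 m, ∑ P ∈ Pr F d, κ / (Nat.card F : ℝ) ^ d ≤
      ∑ d ∈ Finset.Icc 1 m, κ * ((d : ℝ)⁻¹) := by
    refine Finset.sum_le_sum fun d hd => ?_
    have hd' := (Finset.mem_Icc.1 hd).1
    have h2 := card_Pr_le_div (F := F) d hd'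
    rw [Finset.sum_const, nsmul_eq_mul]
    have hqd : (0 : ℝ) < (Nat.card F : ℝ) ^ d := pow_pos hq _
    calc ((Pr F d).card : ℝ) * (κ / (Nat.card F : ℝ) ^ d)
        ≤ ((Nat.card F : ℝ) ^ d / d) * (κ / (Nat.card F : ℝ) ^ d) :=
          mul_le_mul_of_nonneg_right h2 (div_nonneg hκ hqd.le)
      _ = κ * ((d : ℝ)⁻¹) := by
          field_simp
  refine h1.trans ?_
  rw [← Finset.mul_sum]
  refine mul_le_mul_of_nonneg_left ?_ hκ
  have h3 := harmonic_le_one_add_log m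
  rw [harmonic_eq_sum_Icc] at h3
  push_cast at h3
  exact h3

theorem SS_quarter (m : ℕ) :
    SS (fun _ : F[X] => (1 / 4 : ℝ)) m ≤ (Nat.card F : ℝ) ^ m * ((m : ℝ) + 1) ^ (-(3 / 4) : ℝ) := by
  have hq : (0 : ℝ) < (Nat.card F : ℝ) := by
    exact_mod_cast Nat.card_pos
  rcases Nat.eq_zero_or_pos m with rfl | hm
  · have h1 : Sq F 0 ⊆ {1} := by
      intro D hD
      rw [mem_Sq] at hD
      rw [Finset.mem_singleton]
      exact hD.1.natDegree_eq_zero.1 hD.2.1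
    have h2 : SS (fun _ : F[X] => (1 / 4 : ℝ)) 0 ≤
        ∑ D ∈ ({1} : Finset F[X]), ∏ P ∈ pf D, (1 / 4 : ℝ) := by
      unfold SS
      refine Finset.sum_le_sum_of_subset_of_nonneg h1 ?_
      intro D _ _
      exact Finset.prod_nonneg fun _ _ => by norm_num
    rw [Finset.sum_singleton, pf_one, Finset.prod_empty] at h2
    refine h2.trans ?_
    simp
  · have h1 := SS_le (fun _ : F[X] => (1 / 4 : ℝ)) (fun _ => by norm_num) (1 / 4)
      (fun _ => le_refl _) m hm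
    have h2 := PS_const (F := F) (1 / 4) (by norm_num) m hm
    have hm0 : (0 : ℝ) < m := by exact_mod_cast hm
    have hm1 : (1 : ℝ) ≤ m := by exact_mod_cast hm
    have hqm : (0 : ℝ) < (Nat.card F : ℝ) ^ m := pow_pos hq _
    have h3 : Real.exp (PS (fun _ : F[X] => (1 / 4 : ℝ)) m) ≤ 2 * (m : ℝ) ^ (1 / 4 : ℝ) := by
      refine (Real.exp_le_exp.2 h2).trans ?_
      have h4 : Real.exp (1 / 4 * (1 + Real.log m)) =
          Real.exp (1 / 4) * (m : ℝ) ^ (1 / 4 : ℝ) := by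
        rw [Real.rpow_def_of_pos hm0, ← Real.exp_add]
        congr 1
        ring
      rw [h4]
      refine mul_le_mul_of_nonneg_right ?_ (Real.rpow_nonneg hm0.le _)
      have h5 : (1 / 4 : ℝ) ≤ Real.log 2 := by
        have := Real.log_two_gt_d9
        linarith
      calc Real.exp (1 / 4) ≤ Real.exp (Real.log 2) := Real.exp_le_exp.2 h5
        _ = 2 := Real.exp_log (by norm_num)
    set a : ℝ := (m : ℝ) ^ (3 / 4 : ℝ) with ha
    set b : ℝ := ((m : ℝ) + 1) ^ (3 / 4 : ℝ) with hb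
    have ha0 : 0 < a := Real.rpow_pos_of_pos hm0 _
    have hb0 : 0 < b := Real.rpow_pos_of_pos (by linarith) _
    have hba : b ≤ 2 * a := by
      have h5 : b ≤ (2 * (m : ℝ)) ^ (3 / 4 : ℝ) :=
        Real.rpow_le_rpow (by linarith) (by linarith) (by norm_num)
      rw [Real.mul_rpow (by norm_num) hm0.le] at h5
      refine h5.trans (mul_le_mul_of_nonneg_right ?_ ha0.le)
      calc (2 : ℝ) ^ (3 / 4 : ℝ) ≤ (2 : ℝ) ^ (1 : ℝ) :=
            Real.rpow_le_rpow_of_exponent_le (by norm_num) (by norm_num)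
        _ = 2 := Real.rpow_one 2
    have hma : (m : ℝ) ^ (1 / 4 : ℝ) * a = m := by
      rw [ha, ← Real.rpow_add hm0]
      norm_num
    have hneg : ((m : ℝ) + 1) ^ (-(3 / 4) : ℝ) = b⁻¹ := by
      rw [hb, Real.rpow_neg (by linarith)]
    rw [hneg]
    refine h1.trans ?_
    have h6 : (1 / 4 : ℝ) / m * (Nat.card F : ℝ) ^ m *
        Real.exp (PS (fun _ : F[X] => (1 / 4 : ℝ)) m) ≤
        (1 / 4 : ℝ) / m * (Nat.card F : ℝ) ^ m * (2 * (m : ℝ) ^ (1 / 4 : ℝ)) :=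
      mul_le_mul_of_nonneg_left h3 (by positivity)
    refine h6.trans ?_
    have h7 : (1 / 4 : ℝ) / m * (Nat.card F : ℝ) ^ m * (2 * (m : ℝ) ^ (1 / 4 : ℝ)) =
        (Nat.card F : ℝ) ^ m * (2 * a)⁻¹ := by
      have hr : (m : ℝ) ^ (1 / 4 : ℝ) = m / a := by
        rw [eq_div_iff ha0.ne', hma]
      rw [hr]
      field_simp
      norm_num
    rw [h7]
    refine mul_le_mul_of_nonneg_left ?_ hqm.le
    exact inv_anti₀ hb0 hba

end Pool.Agent.H94.PC
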