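import Pool.Agent.H94.PC.RhoSum
import Pool.Agent.H94.PC.SSBound

/-!
# [H94 PC PST] `∑ (1 + θ(P)) / |P|` over the primes of degree at most `m`

`q = Nat.card F ≥ 2`, `m ≥ 1`, `r = m / (m + 1)`, `x = r / q`.  Let `u(P) = (1 + θ P) * x ^ deg P ≥ 0`,
`T = ⋃ (d ∈ Icc 1 m), Pr d`.

1. `∏ P ∈ T, (1 + u P) ≤ K * (m + 1)`.  Expand the product over the subsets `s` of `T`
   (`Finset.prod_one_add`): with `D = ∏ P ∈ s, P` (monic squarefree, `pf D = s`,
   `squarefree_prod_irr`, `pf_prod_irr`) the term is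
   `∏ P ∈ pf D, (1 + θ P) * x ^ deg D`, and `s ↦ D` is injective into `⋃ (j ≤ J), Sq j`,
   `J = ∑ P ∈ T, deg P`; all terms are `≥ 0`.  So the product is at most
   `∑ j ∈ range (J + 1), SS (1 + θ) j * x ^ j ≤ ∑ j, K * r ^ j ≤ K / (1 - r) = K * (m + 1)`
   by `SS_rho_le` (`K ≥ 0` follows from `hK1`).
2. `1 + u ≥ exp (u - u ^ 2 / 2)` for `u ≥ 0`, and `u P ≤ 2 / q ^ deg P`, so
   `∑ P ∈ T, u P ^ 2 / 2 ≤ ∑ d ∈ Icc 1 m, #(Pr d) * 2 / q ^ (2 d) ≤ ∑ d, 2 / q ^ d ≤ 2`
   (`card_Pr_le`, geometric series, `q ≥ 2`).  So `∑ P ∈ T, u P ≤ log K + log (m + 1) + 2`.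
3. `∑ P ∈ T, (1 + θ P) / |P| - ∑ P ∈ T, u P ≤ ∑ d ∈ Icc 1 m, #(Pr d) * 2 / q ^ d * (1 - r ^ d)`
   `≤ ∑ d ∈ Icc 1 m, (2 / d) * (d / (m + 1)) ≤ 2`, by `card_Pr_le_div` and
   `1 - r ^ d ≤ d * (1 - r) = d / (m + 1)` (Bernoulli: `one_add_mul_le_pow`).
4. `log (m + 1) ≤ log m + 1`.  Altogether `PS (1 + θ) m ≤ log m + log K + 5`.
(In 2., the inequality `log (1 + u) ≥ u - u ^ 2 / 2` for `u ≥ 0`: one can also use the weaker
`1 + u ≥ exp (u - u ^ 2)`, which gives the constant `7`; please keep the constant `8` of the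
statement, there is room.)
-/

set_option autoImplicit false

namespace Pool.Agent.H94.PC

open Polynomial

variable {F : Type} [Field F] [Finite F]

/-- `log (1 + u) ≥ u - u ^ 2 / 2` for `u ≥ 0`. -/
theorem log_one_add_ge {u : ℝ} (hu : 0 ≤ u) : u - u ^ 2 / 2 ≤ Real.log (1 + u) := by
  have h1 := Real.le_log_one_add_of_nonneg hu
  refine le_trans ?_ h1
  rw [le_div_iff₀ (by linarith)]
  nlinarith [mul_nonneg (mul_nonneg hu hu) hu]

/-- Bernoulli: `1 - r ^ d ≤ d * (1 - r)` for `0 ≤ r`. -/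
theorem one_sub_pow_le {r : ℝ} (hr : 0 ≤ r) (d : ℕ) : 1 - r ^ d ≤ d * (1 - r) := by
  have h := one_add_mul_le_pow (show (-2 : ℝ) ≤ r - 1 by linarith) d
  have h2 : (1 + (r - 1)) ^ d = r ^ d := by
    congr 1
    ring
  rw [h2] at h
  linarith

/-- the product over the primes is at most the sum over the squarefree polynomials -/
theorem prod_T_le {θ : F[X] → ℝ} (hθ : CM θ) (K : ℝ)
    (hK : ∀ j : ℕ, ∑ i ∈ Finset.range (j + 1), (∑ B ∈ Mo F i, θ B) / (Nat.card F : ℝ) ^ i ≤ K)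
    (T : Finset F[X]) (hT : ∀ P ∈ T, P.Monic ∧ Irreducible P) (r : ℝ) (hr0 : 0 ≤ r)
    (hr1 : r < 1) (hK0 : 0 ≤ K) :
    ∏ P ∈ T, (1 + (1 + θ P) * (r / (Nat.card F : ℝ)) ^ P.natDegree) ≤ K / (1 - r) := by
  classical
  have hq : (0 : ℝ) < (Nat.card F : ℝ) := by
    have : 0 < Nat.card F := Nat.card_pos
    exact_mod_cast this
  set q : ℝ := (Nat.card F : ℝ) with hqd
  set x : ℝ := r / q with hx
  have hx0 : 0 ≤ x := by positivity
  have hθ0 : ∀ P : F[X], P.Monic → 0 ≤ 1 + θ P := by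
    intro P hP
    rcases hθ.val P hP with h | h | h <;> rw [h] <;> norm_num
  set u : F[X] → ℝ := fun P => (1 + θ P) * x ^ P.natDegree with hu
  set g : F[X] → ℝ := fun D => ∏ P ∈ pf D, u P with hg
  have hu0 : ∀ P : F[X], P.Monic → 0 ≤ u P := fun P hP =>
    mul_nonneg (hθ0 P hP) (pow_nonneg hx0 _)
  have hg0 : ∀ D, 0 ≤ g D := fun D =>
    Finset.prod_nonneg fun P hP => hu0 P (mem_pf' hP).1
  set J : ℕ := ∑ P ∈ T, P.natDegree with hJ
  set U : Finset F[X] := (Finset.range (J + 1)).biUnion fun j => Sq F j with hU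
  have hsub : ∀ s ∈ T.powerset, ∀ P ∈ s, P.Monic ∧ Irreducible P := fun s hs P hP =>
    hT P (Finset.mem_powerset.1 hs hP)
  have e1 : ∏ P ∈ T, (1 + u P) = ∑ s ∈ T.powerset, g (∏ P ∈ s, P) := by
    rw [Finset.prod_one_add]
    refine Finset.sum_congr rfl fun s hs => ?_
    show ∏ P ∈ s, u P = ∏ P ∈ pf (∏ P ∈ s, P), u P
    rw [pf_prod_irr s (hsub s hs)]
  have e2 : ∑ s ∈ T.powerset, g (∏ P ∈ s, P) =
      ∑ D ∈ T.powerset.image (fun s => ∏ P ∈ s, P), g D := by
    rw [Finset.sum_image]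
    intro s hs t ht hst
    have h1 := pf_prod_irr s (hsub s hs)
    have h2 := pf_prod_irr t (hsub t ht)
    have hst' : ∏ P ∈ s, P = ∏ P ∈ t, P := hst
    rw [← h1, ← h2, hst']
  have e3 : T.powerset.image (fun s => ∏ P ∈ s, P) ⊆ U := by
    intro D hD
    obtain ⟨s, hs, rfl⟩ := Finset.mem_image.1 hD
    have hm := monic_prod_irr s (hsub s hs)
    have hsq := squarefree_prod_irr s (hsub s hs)
    have hpf := pf_prod_irr s (hsub s hs)
    have hdeg := natDegree_prod_pf hm hsq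
    rw [hpf] at hdeg
    rw [hU, Finset.mem_biUnion]
    refine ⟨(∏ P ∈ s, P).natDegree, ?_, mem_Sq.2 ⟨hm, rfl, hsq⟩⟩
    rw [Finset.mem_range, ← hdeg]
    have : ∑ P ∈ s, P.natDegree ≤ J :=
      Finset.sum_le_sum_of_subset (Finset.mem_powerset.1 hs)
    omega
  have e4 : ∑ D ∈ U, g D = ∑ j ∈ Finset.range (J + 1), ∑ D ∈ Sq F j, g D := by
    rw [hU, Finset.sum_biUnion]
    intro i _ j _ hij
    rw [Function.onFun, Finset.disjoint_left]
    intro D hD hD'
    exact hij ((mem_Sq.1 hD).2.1.symm.trans (mem_Sq.1 hD').2.1)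
  have e5 : ∀ j, ∑ D ∈ Sq F j, g D = SS (fun P => 1 + θ P) j * x ^ j := by
    intro j
    rw [SS, Finset.sum_mul]
    refine Finset.sum_congr rfl fun D hD => ?_
    obtain ⟨h1, h2, h3⟩ := mem_Sq.1 hD
    show ∏ P ∈ pf D, ((1 + θ P) * x ^ P.natDegree) = _
    rw [Finset.prod_mul_distrib, Finset.prod_pow_eq_pow_sum, natDegree_prod_pf h1 h3, h2]
  have e6 : ∀ j, SS (fun P => 1 + θ P) j * x ^ j ≤ K * r ^ j := by
    intro j
    have h := SS_rho_le hθ K hK j
    calc SS (fun P => 1 + θ P) j * x ^ j ≤ (q ^ j * K) * x ^ j :=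
          mul_le_mul_of_nonneg_right h (pow_nonneg hx0 _)
      _ = K * (q * x) ^ j := by rw [mul_pow]; ring
      _ = K * r ^ j := by
          congr 2
          rw [hx]
          field_simp
  have e7 : ∑ j ∈ Finset.range (J + 1), K * r ^ j ≤ K / (1 - r) := by
    rw [← Finset.mul_sum, le_div_iff₀ (by linarith), mul_assoc]
    have h : (∑ j ∈ Finset.range (J + 1), r ^ j) * (1 - r) = 1 - r ^ (J + 1) :=
      geom_sum_mul_neg r (J + 1)
    rw [h]
    have h2 : 0 ≤ r ^ (J + 1) := pow_nonneg hr0 _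
    nlinarith
  calc ∏ P ∈ T, (1 + u P) = ∑ D ∈ T.powerset.image (fun s => ∏ P ∈ s, P), g D := by
        rw [e1, e2]
    _ ≤ ∑ D ∈ U, g D := Finset.sum_le_sum_of_subset_of_nonneg e3 fun D _ _ => hg0 D
    _ = ∑ j ∈ Finset.range (J + 1), SS (fun P => 1 + θ P) j * x ^ j := by
        rw [e4]
        exact Finset.sum_congr rfl fun j _ => e5 j
    _ ≤ ∑ j ∈ Finset.range (J + 1), K * r ^ j := Finset.sum_le_sum fun j _ => e6 j
    _ ≤ K / (1 - r) := e7

theorem PS_theta {θ : F[X] → ℝ} (hθ : CM θ) (K : ℝ) (hK1 : 1 ≤ K)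
    (hK : ∀ j : ℕ, ∑ i ∈ Finset.range (j + 1), (∑ B ∈ Mo F i, θ B) / (Nat.card F : ℝ) ^ i ≤ K)
    (m : ℕ) (hm : 1 ≤ m) :
    PS (fun P => 1 + θ P) m ≤ Real.log m + Real.log K + 8 := by
  classical
  have hq2 : (2 : ℝ) ≤ (Nat.card F : ℝ) := by
    have : 2 ≤ Nat.card F := Finite.one_lt_card
    exact_mod_cast this
  have hm0 : (1 : ℝ) ≤ m := by exact_mod_cast hm
  set T : Finset F[X] := (Finset.Icc 1 m).biUnion fun d => Pr F d with hT
  have hTir : ∀ P ∈ T, P.Monic ∧ Irreducible P := by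
    intro P hP
    rw [hT, Finset.mem_biUnion] at hP
    obtain ⟨d, _, h⟩ := hP
    have h' := mem_Pr.1 h
    exact ⟨h'.1, h'.2.2⟩
  have hTsum : ∀ f : F[X] → ℝ, ∑ P ∈ T, f P =
      ∑ d ∈ Finset.Icc 1 m, ∑ P ∈ Pr F d, f P := by
    intro f
    rw [hT, Finset.sum_biUnion]
    intro i _ j _ hij
    rw [Function.onFun, Finset.disjoint_left]
    intro D hD hD'
    exact hij ((mem_Pr.1 hD).2.1.symm.trans (mem_Pr.1 hD').2.1)
  have hθ0 : ∀ P : F[X], P.Monic → 0 ≤ 1 + θ P := by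
    intro P hP
    rcases hθ.val P hP with h | h | h <;> rw [h] <;> norm_num
  have hθ2 : ∀ P : F[X], P.Monic → 1 + θ P ≤ 2 := by
    intro P hP
    rcases hθ.val P hP with h | h | h <;> rw [h] <;> norm_num
  set r : ℝ := (m : ℝ) / (m + 1) with hr
  have hr0 : 0 ≤ r := by positivity
  have hr1' : 1 - r = 1 / ((m : ℝ) + 1) := by
    rw [hr]
    field_simp
    ring
  have hr1 : r < 1 := by
    have : 0 < 1 - r := by
      rw [hr1']
      positivity
    linarith
  have hprod := prod_T_le hθ K hK T hTir r hr0 hr1 (by linarith)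
  set q : ℝ := (Nat.card F : ℝ) with hqd
  have hq0 : 0 < q := by linarith
  have hq1 : q⁻¹ ≤ 1 / 2 := by
    rw [inv_le_comm₀ hq0 (by norm_num)]
    linarith
  set u : F[X] → ℝ := fun P => (1 + θ P) * (r / q) ^ P.natDegree with hu
  have hu0 : ∀ P : F[X], P.Monic → 0 ≤ u P := fun P hP =>
    mul_nonneg (hθ0 P hP) (by positivity)
  have hK2 : K / (1 - r) = K * (m + 1) := by
    rw [hr1']
    field_simp
  -- step 2
  have s1 : ∑ P ∈ T, (u P - u P ^ 2 / 2) ≤ Real.log (K * (m + 1)) := by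
    calc ∑ P ∈ T, (u P - u P ^ 2 / 2) ≤ ∑ P ∈ T, Real.log (1 + u P) :=
          Finset.sum_le_sum fun P hP => log_one_add_ge (hu0 P (hTir P hP).1)
      _ = Real.log (∏ P ∈ T, (1 + u P)) := by
          rw [Real.log_prod]
          intro P hP
          have := hu0 P (hTir P hP).1
          positivity
      _ ≤ Real.log (K * (m + 1)) := by
          apply Real.log_le_log
          · apply Finset.prod_pos
            intro P hP
            have := hu0 P (hTir P hP).1
            positivity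
          · rw [← hK2]
            exact hprod
  have hgeo : ∑ d ∈ Finset.Icc 1 m, (q⁻¹) ^ d ≤ 1 := by
    have a1 : ∑ d ∈ Finset.Icc 1 m, (q⁻¹) ^ d ≤ ∑ d ∈ Finset.Icc 1 m, (1 / 2 : ℝ) ^ d :=
      Finset.sum_le_sum fun d _ => pow_le_pow_left₀ (by positivity) hq1 d
    have a2 : ∑ d ∈ Finset.Icc 1 m, (1 / 2 : ℝ) ^ d = 1 - (1 / 2) ^ m := by
      clear_value T r q u
      clear a1 s1 hprod hK2 hTsum hTir hT hr hr0 hr1 hr1' hm0 hm
      induction m with
      | zero => simp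
      | succ n ih =>
        rw [Finset.sum_Icc_succ_top (by omega), ih, pow_succ]
        ring
    have a3 : (0 : ℝ) ≤ (1 / 2) ^ m := by positivity
    linarith
  have s2 : ∑ P ∈ T, u P ^ 2 / 2 ≤ 2 := by
    rw [hTsum]
    calc ∑ d ∈ Finset.Icc 1 m, ∑ P ∈ Pr F d, u P ^ 2 / 2
        ≤ ∑ d ∈ Finset.Icc 1 m, 2 * (q⁻¹) ^ d := by
          refine Finset.sum_le_sum fun d _ => ?_
          have b1 : ∀ P ∈ Pr F d, u P ^ 2 / 2 ≤ 2 * ((q⁻¹) ^ d * (q⁻¹) ^ d) := by
            intro P hP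
            obtain ⟨p1, p2, p3⟩ := mem_Pr.1 hP
            have c1 : u P ≤ 2 * (q⁻¹) ^ d := by
              show (1 + θ P) * (r / q) ^ P.natDegree ≤ _
              rw [p2]
              apply mul_le_mul (hθ2 P p1) _ (by positivity) (by norm_num)
              apply pow_le_pow_left₀ (by positivity)
              rw [div_eq_mul_inv]
              have : 0 ≤ q⁻¹ := by positivity
              nlinarith
            have c2 := hu0 P p1
            nlinarith
          calc ∑ P ∈ Pr F d, u P ^ 2 / 2 ≤ ∑ P ∈ Pr F d, 2 * ((q⁻¹) ^ d * (q⁻¹) ^ d) :=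
                Finset.sum_le_sum b1
            _ = ((Pr F d).card : ℝ) * (2 * ((q⁻¹) ^ d * (q⁻¹) ^ d)) := by
                rw [Finset.sum_const, nsmul_eq_mul]
            _ ≤ q ^ d * (2 * ((q⁻¹) ^ d * (q⁻¹) ^ d)) := by
                apply mul_le_mul_of_nonneg_right _ (by positivity)
                have := card_Pr_le (F := F) d
                rw [hqd]
                exact_mod_cast this
            _ = 2 * (q⁻¹) ^ d * (q * q⁻¹) ^ d := by
                rw [mul_pow]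
                ring
            _ = 2 * (q⁻¹) ^ d := by
                rw [mul_inv_cancel₀ hq0.ne', one_pow, mul_one]
      _ = 2 * ∑ d ∈ Finset.Icc 1 m, (q⁻¹) ^ d := by rw [Finset.mul_sum]
      _ ≤ 2 := by linarith
  have s3 : ∑ P ∈ T, u P ≤ Real.log (K * (m + 1)) + 2 := by
    rw [Finset.sum_sub_distrib] at s1
    linarith
  -- step 3
  have s4 : PS (fun P => 1 + θ P) m - ∑ P ∈ T, u P ≤ 2 := by
    rw [hTsum, PS, ← Finset.sum_sub_distrib]
    calc ∑ d ∈ Finset.Icc 1 m, (∑ P ∈ Pr F d, (1 + θ P) / (Nat.card F : ℝ) ^ d -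
          ∑ P ∈ Pr F d, u P)
        ≤ ∑ d ∈ Finset.Icc 1 m, 2 * (1 / ((m : ℝ) + 1)) := by
          refine Finset.sum_le_sum fun d hd => ?_
          obtain ⟨d1, d2⟩ := Finset.mem_Icc.1 hd
          have hd0 : (0 : ℝ) < d := by exact_mod_cast d1
          rw [← Finset.sum_sub_distrib]
          have b1 : ∀ P ∈ Pr F d, (1 + θ P) / (Nat.card F : ℝ) ^ d - u P ≤
              2 * ((q⁻¹) ^ d * (d * (1 / ((m : ℝ) + 1)))) := by
            intro P hP
            obtain ⟨p1, p2, p3⟩ := mem_Pr.1 hP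
            have c1 : (1 + θ P) / (Nat.card F : ℝ) ^ d - u P =
                (1 + θ P) * ((q⁻¹) ^ d * (1 - r ^ d)) := by
              show (1 + θ P) / q ^ d - (1 + θ P) * (r / q) ^ P.natDegree = _
              rw [p2, div_pow, inv_pow]
              ring
            rw [c1]
            have c2 : r ^ d ≤ 1 := pow_le_one₀ hr0 hr1.le
            have c3 := one_sub_pow_le hr0 d
            rw [hr1'] at c3
            apply mul_le_mul (hθ2 P p1) _ _ (by norm_num)
            · exact mul_le_mul_of_nonneg_left c3 (by positivity)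
            · exact mul_nonneg (by positivity) (by linarith)
          calc _ ≤ ∑ P ∈ Pr F d, 2 * ((q⁻¹) ^ d * (d * (1 / ((m : ℝ) + 1)))) :=
                Finset.sum_le_sum b1
            _ = ((Pr F d).card : ℝ) * (2 * ((q⁻¹) ^ d * (d * (1 / ((m : ℝ) + 1))))) := by
                rw [Finset.sum_const, nsmul_eq_mul]
            _ ≤ (q ^ d / d) * (2 * ((q⁻¹) ^ d * (d * (1 / ((m : ℝ) + 1))))) :=
                mul_le_mul_of_nonneg_right (card_Pr_le_div d d1) (by positivity)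
            _ = (q * q⁻¹) ^ d * (d / d) * (2 * (1 / ((m : ℝ) + 1))) := by
                rw [mul_pow]
                ring
            _ = 2 * (1 / ((m : ℝ) + 1)) := by
                rw [mul_inv_cancel₀ hq0.ne', one_pow, div_self hd0.ne']
                ring
      _ = m * (2 * (1 / ((m : ℝ) + 1))) := by
          rw [Finset.sum_const, nsmul_eq_mul, Nat.card_Icc]
          simp
      _ ≤ 2 := by
          rw [show (m : ℝ) * (2 * (1 / ((m : ℝ) + 1))) = 2 * m / (m + 1) by ring,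
            div_le_iff₀ (by positivity)]
          linarith
  -- step 4
  have s5 : Real.log (K * (m + 1)) ≤ Real.log K + Real.log m + 1 := by
    rw [Real.log_mul (by linarith) (by positivity)]
    have t1 : Real.log ((m : ℝ) + 1) ≤ Real.log (2 * m) :=
      Real.log_le_log (by positivity) (by linarith)
    rw [Real.log_mul (by norm_num) (by positivity)] at t1
    have t2 := Real.log_two_lt_d9
    linarith
  linarith

end Pool.Agent.H94.PC
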