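import Pool.Agent.H94.PC.Avg
import Pool.Agent.H94.PC.CardC
import Pool.Agent.H94.PC.KerTors

set_option autoImplicit false

/-!
# [H94 PC PROP] At least one third of the class has only four solutions

`q = Nat.card F`.  If `(n : ZMod 2) ≠ p.nu` then `Cn F p n` is empty (`ty D = p.t`, first component),
and both sides are `0`.  Otherwise, for large `n` (`≥ 1`), with `c = #(Cn F p n) ≥ q ^ n / (4 q ^ 2)`
(`card_Cn_ge`) and `T = #{D ∈ Cn F p n : kn p D = 4}`: by `dich`
`16 c - 12 T = 4 T + 16 (c - T) ≤ ∑ D, kn p D ≤ 12 c + ε' q ^ n ≤ 12 c + ε' * 4 q ^ 2 * c` (`avg`), so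
`T ≥ c / 3 - ε' q ^ 2 c / 3`; take `ε' = 3 ε / q ^ 2`.
-/

namespace Pool.Agent.H94.PC

open Polynomial

variable {F : Type} [Field F] [Finite F]

private theorem prop_empty (p : Par) {n : ℕ} (hn : (n : ZMod 2) ≠ p.nu) : Cn F p n = ∅ := by
  rw [Finset.eq_empty_iff_forall_notMem]
  intro D hD
  have h := mem_Cn.1 hD
  apply hn
  have h1 : (ty D).1 = p.t.1 := by rw [h.2.2]
  have h2 : D.natDegree = n := (mem_Sq.1 h.1).2.1
  have h3 : ((D.natDegree : ℕ) : ZMod 2) = p.nu := h1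
  rw [h2] at h3
  exact h3

theorem prop (h2 : (2 : F) ≠ 0) (p : Par) (hp : p.Good) (hep : p.ep = bt (-1 : F)) (ε : ℝ)
    (hε : 0 < ε) : ∃ N : ℕ, ∀ n ≥ N,
      (1 / 3 - ε) * ((Cn F p n).card : ℝ) ≤
        (((Cn F p n).filter fun D => kn p D = 4).card : ℝ) := by
  have hQ : (2 : ℝ) ≤ Nat.card F := by
    have : 2 ≤ Nat.card F := Finite.one_lt_card
    exact_mod_cast this
  obtain ⟨N1, h1⟩ := avg h2 p hp hep (3 * ε / (Nat.card F : ℝ) ^ 2) (by positivity)
  obtain ⟨N2, h3⟩ := card_Cn_ge h2 p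
  refine ⟨max (max N1 N2) 1, fun n hn => ?_⟩
  have hn1 : N1 ≤ n := le_trans (le_trans (le_max_left _ _) (le_max_left _ _)) hn
  have hn2 : N2 ≤ n := le_trans (le_trans (le_max_right _ _) (le_max_left _ _)) hn
  have hn3 : 1 ≤ n := le_trans (le_max_right _ _) hn
  by_cases hnu : (n : ZMod 2) = p.nu
  · have ha := h1 n hn1
    have hc := h3 n hn2 hnu
    set c : ℝ := ((Cn F p n).card : ℝ) with hcdef
    set T : ℝ := (((Cn F p n).filter fun D => kn p D = 4).card : ℝ) with hT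
    have hlow : 16 * c - 12 * T ≤ ∑ D ∈ Cn F p n, (kn p D : ℝ) := by
      have h4 : 16 * c - 12 * T = ∑ D ∈ Cn F p n, (16 - 12 * (if kn p D = 4 then (1 : ℝ) else 0)) := by
        rw [Finset.sum_sub_distrib, Finset.sum_const, ← Finset.mul_sum, Finset.sum_boole, nsmul_eq_mul]
        rw [hcdef, hT]
        ring
      rw [h4]
      refine Finset.sum_le_sum fun D hD => ?_
      rcases dich p hp hep hn3 hD with h5 | h5
      · rw [if_pos h5.1, h5.1]
        norm_num
      · have h6 : kn p D ≠ 4 := by omega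
        rw [if_neg h6]
        have h7 : (16 : ℝ) ≤ kn p D := by exact_mod_cast h5
        linarith
    have hQ0 : (0 : ℝ) < (Nat.card F : ℝ) ^ 2 := by positivity
    have h5 : 3 * ε / (Nat.card F : ℝ) ^ 2 * (Nat.card F : ℝ) ^ n ≤ 12 * ε * c := by
      have h6 : 3 * ε / (Nat.card F : ℝ) ^ 2 * (Nat.card F : ℝ) ^ n =
          12 * ε * ((Nat.card F : ℝ) ^ n / (4 * (Nat.card F : ℝ) ^ 2)) := by
        field_simp
        ring
      rw [h6]
      exact mul_le_mul_of_nonneg_left hc (by positivity)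
    linarith
  · rw [prop_empty p hnu]
    simp

end Pool.Agent.H94.PC
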