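import Pool.Agent.H94.PC.SSBound

set_option autoImplicit false

/-!
# [H94 PC WT] Sums of weights of one variable

`wt A = (1/4) ^ om A / q ^ deg A`.
* `sum_wt_eq`: the elements of `Mn F n` of degree `m` are in `Sq F m`;
  `∑ D ∈ Sq m, (1/4) ^ om D = SS (fun _ => 1/4) m` (`Finset.prod_const`, `om`), `SS_quarter`.
* `sum_pow`: `(m + 1) ^ (-3/4) ≤ 4 ((m + 1) ^ (1/4) - m ^ (1/4))` (e.g. with `a = (m+1) ^ (1/4)`,
  `b = m ^ (1/4)`: `a ^ 4 - b ^ 4 = 1`, `a ^ 4 - b ^ 4 ≤ 4 a ^ 3 (a - b)`), telescoping.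
* `sum_wt_lt`: sum over the degrees `m < z`.
* `sum_prod_wt`: `Finset.prod_univ_sum`-type expansion, `Fintype.piFinset_univ`.
-/

namespace Pool.Agent.H94.PC

open Polynomial

variable {F : Type} [Field F] [Finite F]

/-- the weight of a variable -/
noncomputable def wt (A : F[X]) : ℝ := (1 / 4 : ℝ) ^ om A / (Nat.card F : ℝ) ^ A.natDegree

theorem wt_nonneg (A : F[X]) : 0 ≤ wt A := by
  unfold wt
  positivity

theorem sum_wt_eq (n m : ℕ) :
    ∑ A : Mn F n, (if A.1.natDegree = m then wt A.1 else 0) ≤ ((m : ℝ) + 1) ^ (-(3 / 4) : ℝ) := by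
  classical
  have hq : (0 : ℝ) < (Nat.card F : ℝ) := by
    exact_mod_cast Nat.card_pos
  have hqm : (0 : ℝ) < (Nat.card F : ℝ) ^ m := pow_pos hq _
  rw [← Finset.sum_filter]
  have hinj : Set.InjOn (fun A : Mn F n => (A.1 : F[X]))
      ((Finset.univ.filter (fun A : Mn F n => A.1.natDegree = m) : Finset (Mn F n)) :
        Set (Mn F n)) := fun A _ B _ h => Subtype.ext h
  have h1 : ∑ A ∈ Finset.univ.filter (fun A : Mn F n => A.1.natDegree = m), wt A.1 =
      ∑ D ∈ (Finset.univ.filter (fun A : Mn F n => A.1.natDegree = m)).image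
        (fun A : Mn F n => (A.1 : F[X])), wt D := by
    rw [Finset.sum_image hinj]
  have h2 : (Finset.univ.filter (fun A : Mn F n => A.1.natDegree = m)).image
      (fun A : Mn F n => (A.1 : F[X])) ⊆ Sq F m := by
    intro D hD
    obtain ⟨A, hA, rfl⟩ := Finset.mem_image.1 hD
    exact mem_Sq.2 ⟨A.2.1, (Finset.mem_filter.1 hA).2, A.2.2.1⟩
  have h3 : ∑ D ∈ Sq F m, wt D = SS (fun _ : F[X] => (1 / 4 : ℝ)) m / (Nat.card F : ℝ) ^ m := by
    unfold SS wt
    rw [Finset.sum_div]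
    apply Finset.sum_congr rfl
    intro D hD
    rw [Finset.prod_const, (mem_Sq.1 hD).2.1]
    rfl
  rw [h1]
  refine (Finset.sum_le_sum_of_subset_of_nonneg h2 (fun D _ _ => wt_nonneg D)).trans ?_
  rw [h3, div_le_iff₀ hqm, mul_comm]
  exact SS_quarter m

theorem sum_pow (z : ℕ) :
    ∑ m ∈ Finset.range z, ((m : ℝ) + 1) ^ (-(3 / 4) : ℝ) ≤ 4 * (z : ℝ) ^ (1 / 4 : ℝ) := by
  induction z with
  | zero => simp
  | succ z ih =>
    rw [Finset.sum_range_succ]
    have hz : (0 : ℝ) ≤ (z : ℝ) := Nat.cast_nonneg z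
    have hz1 : (0 : ℝ) < (z : ℝ) + 1 := by linarith
    push_cast
    obtain ⟨a, ha⟩ : ∃ a : ℝ, a = ((z : ℝ) + 1) ^ (1 / 4 : ℝ) := ⟨_, rfl⟩
    obtain ⟨b, hb⟩ : ∃ b : ℝ, b = (z : ℝ) ^ (1 / 4 : ℝ) := ⟨_, rfl⟩
    have ha0 : 0 < a := by rw [ha]; exact Real.rpow_pos_of_pos hz1 _
    have hb0 : 0 ≤ b := by rw [hb]; exact Real.rpow_nonneg hz _
    have ha4 : a ^ 4 = z + 1 := by
      rw [ha, ← Real.rpow_natCast, ← Real.rpow_mul hz1.le]
      norm_num
    have hb4 : b ^ 4 = z := by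
      rw [hb, ← Real.rpow_natCast, ← Real.rpow_mul hz]
      norm_num
    have hab : b ≤ a := by
      rw [ha, hb]
      exact Real.rpow_le_rpow hz (by linarith) (by norm_num)
    have hneg : ((z : ℝ) + 1) ^ (-(3 / 4) : ℝ) = (a ^ 3)⁻¹ := by
      rw [ha, ← Real.rpow_natCast, ← Real.rpow_mul hz1.le, ← Real.rpow_neg hz1.le]
      norm_num
    have hkey : (a ^ 3)⁻¹ ≤ 4 * (a - b) := by
      have h3 : 0 < a ^ 3 := by positivity
      rw [inv_eq_one_div, div_le_iff₀ h3]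
      have h4 : a ^ 4 - b ^ 4 = 1 := by rw [ha4, hb4]; ring
      have h5 : a ^ 4 - b ^ 4 = (a - b) * (a ^ 3 + a ^ 2 * b + a * b ^ 2 + b ^ 3) := by ring
      have h6 : a ^ 2 * b ≤ a ^ 3 := by
        have : a ^ 2 * b ≤ a ^ 2 * a := mul_le_mul_of_nonneg_left hab (by positivity)
        calc a ^ 2 * b ≤ a ^ 2 * a := this
          _ = a ^ 3 := by ring
      have h7 : a * b ^ 2 ≤ a ^ 3 := by
        have h8 : b ^ 2 ≤ a ^ 2 := pow_le_pow_left₀ hb0 hab 2
        calc a * b ^ 2 ≤ a * a ^ 2 := mul_le_mul_of_nonneg_left h8 ha0.le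
          _ = a ^ 3 := by ring
      have h8 : b ^ 3 ≤ a ^ 3 := pow_le_pow_left₀ hb0 hab 3
      have h9 : (a - b) * (a ^ 3 + a ^ 2 * b + a * b ^ 2 + b ^ 3) ≤ (a - b) * (4 * a ^ 3) :=
        mul_le_mul_of_nonneg_left (by linarith) (by linarith)
      have h10 : 4 * (a - b) * a ^ 3 = (a - b) * (4 * a ^ 3) := by ring
      rw [h10]
      linarith
    rw [← hb] at ih
    rw [hneg, ← ha]
    linarith

theorem sum_wt_lt (n z : ℕ) :
    ∑ A : Mn F n, (if A.1.natDegree < z then wt A.1 else 0) ≤ 4 * (z : ℝ) ^ (1 / 4 : ℝ) := by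
  have h1 : ∀ A : Mn F n, (if A.1.natDegree < z then wt A.1 else 0) =
      ∑ m ∈ Finset.range z, if A.1.natDegree = m then wt A.1 else 0 := by
    intro A
    rw [Finset.sum_ite_eq]
    by_cases h : A.1.natDegree < z
    · rw [if_pos h, if_pos (Finset.mem_range.2 h)]
    · rw [if_neg h, if_neg (fun h' => h (Finset.mem_range.1 h'))]
  rw [Finset.sum_congr rfl (fun A _ => h1 A), Finset.sum_comm]
  exact (Finset.sum_le_sum fun m _ => sum_wt_eq n m).trans (sum_pow z)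

theorem sum_prod_wt {ι : Type} [Fintype ι] [DecidableEq ι] (n z : ℕ) :
    ∑ y : ι → Mn F n, (if ∀ i, (y i).1.natDegree < z then ∏ i, wt (y i).1 else 0) ≤
      (4 * (z : ℝ) ^ (1 / 4 : ℝ)) ^ Fintype.card ι := by
  have h1 : ∀ y : ι → Mn F n, (if ∀ i, (y i).1.natDegree < z then ∏ i, wt (y i).1 else 0) =
      ∏ i, (if (y i).1.natDegree < z then wt (y i).1 else 0) := by
    intro y
    by_cases h : ∀ i, (y i).1.natDegree < z
    · rw [if_pos h]
      apply Finset.prod_congr rfl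
      intro i _
      rw [if_pos (h i)]
    · rw [if_neg h]
      push Not at h
      obtain ⟨i, hi⟩ := h
      symm
      apply Finset.prod_eq_zero (Finset.mem_univ i)
      rw [if_neg (not_lt.2 hi)]
  rw [Finset.sum_congr rfl (fun y _ => h1 y)]
  have h2 : ∑ y : ι → Mn F n, ∏ i, (if (y i).1.natDegree < z then wt (y i).1 else 0) =
      ∏ _i : ι, ∑ A : Mn F n, (if A.1.natDegree < z then wt A.1 else 0) := by
    rw [Finset.prod_univ_sum, Fintype.piFinset_univ]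
  rw [h2, Finset.prod_const, Finset.card_univ]
  apply pow_le_pow_left₀
  · apply Finset.sum_nonneg
    intro A _
    split_ifs
    · exact wt_nonneg _
    · exact le_rfl
  · exact sum_wt_lt n z

end Pool.Agent.H94.PC
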