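import Pool.Agent.H94.PC.NotSq
import Pool.Agent.H94.PC.Inn
import Pool.Agent.H94.PC.Bad
import Pool.Agent.H94.PC.Wt

set_option autoImplicit false

/-!
# [H94 PC RB] The sum over the large variables for fixed small variables

`E = ∏ w, y w`, `e = deg E = ∑ deg (y w) ≤ 12 z ≤ n / 2` (`card_Wc`, `hn`).  `ww_split` gives `G`; if
the first condition in it fails the sum is `0`.  Otherwise the sum over `x` is `(1/4) ^ om E` times
the sum of `inn` with `m = n - e ≥ n / 2`, `h = hh y` (`hh_monic`, `hh_NZ`), `d = 12 z`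
(`hh_dvd`, `natDegree_le_of_dvd`).  The hypothesis `hnt` of `inn`: let `fh G c ≠ 0`.
* If `y w₀ ≠ 1` for some `w₀`: `exists_not_sq`.
* If all `y w = 1` then `3 ≤ k` and `G = G0 p k s`.  If `c i + c j = 0` for all `i, j` then `c` is
  constant, `c = fun _ => κ`, and `fh (G0 p k s) (fun _ => κ) = 0` (`fh_G0_bad`), a contradiction.
`inn` gives `8 ^ 4 * 13 * q ^ (n - e) * (n - e) ^ (-1/4) * (24 z + 6) ^ (1/4)`, and
`(n - e) ^ (-1/4) ≤ (n / 2) ^ (-1/4) ≤ 2 n ^ (-1/4)`, `(24 z + 6) ^ (1/4) ≤ 3 z`.  Finally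
`(1/4) ^ om E * q ^ (n - e) = q ^ n * ∏ w, wt (y w)` (`om_prod`, `natDegree_prod_of_monic`).
-/

namespace Pool.Agent.H94.PC

open Polynomial

variable {F : Type} [Field F] [Finite F]

theorem rb_eq_of_add (a b : Ty) (h : a + b = 0) : a = b := by
  have h1 : ∀ c d : ZMod 2, c + d = 0 → c = d := by decide
  have e1 : a.1 + b.1 = 0 := congrArg Prod.fst h
  have e2 : a.2.1 + b.2.1 = 0 := congrArg (fun t : Ty => t.2.1) h
  have e3 : a.2.2 + b.2.2 = 0 := congrArg (fun t : Ty => t.2.2) h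
  exact Prod.ext (h1 _ _ e1) (Prod.ext (h1 _ _ e2) (h1 _ _ e3))

theorem rb_analytic (q : ℝ) (hq : 1 ≤ q) (n z e : ℕ) (hz : 1 ≤ z) (hn : 32 * z ≤ n)
    (he : e ≤ 12 * z) :
    8 ^ 4 * (13 * q ^ (n - e) * (((n - e : ℕ)) : ℝ) ^ (-(1 / 4) : ℝ) *
        (2 * ((12 * z : ℕ) : ℝ) + 6 : ℝ) ^ (1 / 4 : ℝ)) ≤
      10 ^ 6 * z * q ^ (n - e) * (n : ℝ) ^ (-(1 / 4) : ℝ) := by
  have hz1 : (1 : ℝ) ≤ z := by exact_mod_cast hz
  have hn1 : (32 : ℝ) * z ≤ n := by exact_mod_cast hn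
  have hnpos : (0 : ℝ) < n := by linarith
  have hme : (n : ℝ) / 2 ≤ ((n - e : ℕ) : ℝ) := by
    have h1 : n ≤ 2 * (n - e) := by omega
    have h2 : (n : ℝ) ≤ 2 * ((n - e : ℕ) : ℝ) := by exact_mod_cast h1
    linarith
  have h1 : (((n - e : ℕ)) : ℝ) ^ (-(1 / 4) : ℝ) ≤ 2 * (n : ℝ) ^ (-(1 / 4) : ℝ) := by
    have h2 : (((n - e : ℕ)) : ℝ) ^ (-(1 / 4) : ℝ) ≤ ((n : ℝ) / 2) ^ (-(1 / 4) : ℝ) :=
      Real.rpow_le_rpow_of_nonpos (by positivity) hme (by norm_num)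
    refine h2.trans ?_
    rw [Real.div_rpow hnpos.le (by norm_num), Real.rpow_neg (by norm_num : (0:ℝ) ≤ 2), div_inv_eq_mul, mul_comm]
    refine mul_le_mul_of_nonneg_right ?_ (by positivity)
    calc (2 : ℝ) ^ (1 / 4 : ℝ) ≤ (2 : ℝ) ^ (1 : ℝ) :=
          Real.rpow_le_rpow_of_exponent_le (by norm_num) (by norm_num)
      _ = 2 := Real.rpow_one 2
  have h2 : (2 * ((12 * z : ℕ) : ℝ) + 6 : ℝ) ^ (1 / 4 : ℝ) ≤ 3 * z := by
    have h3 : (2 * ((12 * z : ℕ) : ℝ) + 6 : ℝ) ≤ (3 * z) ^ (4 : ℕ) := by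
      push_cast
      have h4 : (z : ℝ) ≤ (z : ℝ) ^ 4 := by
        calc (z : ℝ) = (z : ℝ) ^ 1 := (pow_one _).symm
          _ ≤ (z : ℝ) ^ 4 := pow_le_pow_right₀ hz1 (by norm_num)
      nlinarith
    calc (2 * ((12 * z : ℕ) : ℝ) + 6 : ℝ) ^ (1 / 4 : ℝ) ≤ (((3 * z : ℝ)) ^ (4 : ℕ)) ^ (1 / 4 : ℝ) :=
          Real.rpow_le_rpow (by positivity) h3 (by norm_num)
      _ = 3 * z := by
          have h5 : (1 / 4 : ℝ) = ((4 : ℕ) : ℝ)⁻¹ := by norm_num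
          rw [h5]
          exact Real.pow_rpow_inv_natCast (by positivity) (by norm_num)
  have hqp : 0 < q ^ (n - e) := pow_pos (by linarith) _
  have hA : 0 ≤ (((n - e : ℕ)) : ℝ) ^ (-(1 / 4) : ℝ) := by positivity
  have hB : 0 ≤ (2 * ((12 * z : ℕ) : ℝ) + 6 : ℝ) ^ (1 / 4 : ℝ) := by positivity
  have hC : 0 ≤ (n : ℝ) ^ (-(1 / 4) : ℝ) := by positivity
  have h6 : (((n - e : ℕ)) : ℝ) ^ (-(1 / 4) : ℝ) * (2 * ((12 * z : ℕ) : ℝ) + 6 : ℝ) ^ (1 / 4 : ℝ) ≤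
      (2 * (n : ℝ) ^ (-(1 / 4) : ℝ)) * (3 * z) :=
    mul_le_mul h1 h2 hB (by positivity)
  calc 8 ^ 4 * (13 * q ^ (n - e) * (((n - e : ℕ)) : ℝ) ^ (-(1 / 4) : ℝ) *
        (2 * ((12 * z : ℕ) : ℝ) + 6 : ℝ) ^ (1 / 4 : ℝ))
      = (8 ^ 4 * 13 * q ^ (n - e)) * ((((n - e : ℕ)) : ℝ) ^ (-(1 / 4) : ℝ) *
        (2 * ((12 * z : ℕ) : ℝ) + 6 : ℝ) ^ (1 / 4 : ℝ)) := by ring
    _ ≤ (8 ^ 4 * 13 * q ^ (n - e)) * ((2 * (n : ℝ) ^ (-(1 / 4) : ℝ)) * (3 * z)) :=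
        mul_le_mul_of_nonneg_left h6 (by positivity)
    _ = (8 ^ 4 * 13 * 6) * (z * q ^ (n - e) * (n : ℝ) ^ (-(1 / 4) : ℝ)) := by ring
    _ ≤ 10 ^ 6 * (z * q ^ (n - e) * (n : ℝ) ^ (-(1 / 4) : ℝ)) :=
        mul_le_mul_of_nonneg_right (by norm_num) (by positivity)
    _ = 10 ^ 6 * z * q ^ (n - e) * (n : ℝ) ^ (-(1 / 4) : ℝ) := by ring

theorem r_bound (h2 : (2 : F) ≠ 0) (p : Par) (hp : p.Good) (hep : p.ep = bt (-1 : F))
    (k : Fin 6) (s : Ka) (n z : ℕ) (hz : 1 ≤ z) (hn : 32 * z ≤ n) (y : Wc k s → Mn F n)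
    (hy : ∀ w, (y w).1.natDegree < z) (hne : (∃ w, (y w).1 ≠ 1) ∨ 3 ≤ k) :
    |∑ x : Ka → Mn F n, WW p n (mg k s x y)| ≤
      10 ^ 6 * z * (Nat.card F : ℝ) ^ n * (n : ℝ) ^ (-(1 / 4) : ℝ) * ∏ w, wt (y w).1 := by
  classical
  obtain ⟨G, hG, hG1, hWW⟩ := ww_split p hep k s n y
  have hRHS : 0 ≤ 10 ^ 6 * z * (Nat.card F : ℝ) ^ n * (n : ℝ) ^ (-(1 / 4) : ℝ) *
      ∏ w, wt (y w).1 :=
    mul_nonneg (by positivity) (Finset.prod_nonneg fun w _ => wt_nonneg _)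
  by_cases hc : Squarefree (∏ w, (y w).1) ∧ NZ (∏ w, (y w).1) ∧ (∏ w, (y w).1).natDegree ≤ n
  swap
  · have h0 : ∑ x : Ka → Mn F n, WW p n (mg k s x y) = 0 := by
      refine Finset.sum_eq_zero fun x _ => ?_
      rw [hWW, if_neg fun h => hc h.1]
    rw [h0, abs_zero]
    exact hRHS
  have hmon : ∀ w, ((y w).1).Monic := fun w => (y w).2.1
  set E : F[X] := ∏ w, (y w).1 with hE
  have hdegE : E.natDegree = ∑ w, ((y w).1).natDegree :=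
    natDegree_prod_of_monic _ _ fun w _ => hmon w
  have hEm : E.Monic := monic_prod_of_monic _ _ fun w _ => hmon w
  have he12 : E.natDegree ≤ 12 * z := by
    rw [hdegE]
    calc ∑ w, ((y w).1).natDegree ≤ ∑ _w : Wc k s, z := Finset.sum_le_sum fun w _ => (hy w).le
      _ = 12 * z := by rw [Finset.sum_const, Finset.card_univ, card_Wc, smul_eq_mul]
  set e : ℕ := E.natDegree with hedef
  have hsum : ∑ x : Ka → Mn F n, WW p n (mg k s x y) = (1 / 4 : ℝ) ^ om E *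
      ∑ x : Ka → Mn F n, (if (∏ i, (x i).1) ∈ Sq F (n - e) ∧ NZ (∏ i, (x i).1) ∧
        IsCoprime (∏ i, (x i).1) E then
      (1 / 4 : ℝ) ^ om (∏ i, (x i).1) * (G (fun i => ty (x i).1) * ∏ i, js (hh y i) (x i).1)
      else 0) := by
    rw [Finset.mul_sum]
    refine Finset.sum_congr rfl fun x _ => ?_
    rw [hWW]
    by_cases hx : (∏ i, (x i).1) ∈ Sq F (n - e) ∧ NZ (∏ i, (x i).1) ∧
        IsCoprime (∏ i, (x i).1) E
    · rw [if_pos ⟨hc, hx⟩, if_pos hx]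
    · rw [if_neg fun h => hx h.2, if_neg hx, mul_zero]
  have hnt : ∀ c : Ka → Ty, fh G c ≠ 0 →
      ∃ i j, c i + c j ≠ 0 ∨ ¬ IsSquare (hh y i * hh y j) := by
    intro c hfc
    by_cases hw : ∃ w, (y w).1 ≠ 1
    · obtain ⟨w₀, hw₀⟩ := hw
      obtain ⟨i, j, hij⟩ := exists_not_sq y hc.1 w₀ hw₀
      exact ⟨i, j, Or.inr hij⟩
    · have hk : 3 ≤ k := by
        rcases hne with h | h
        · exact absurd h hw
        · exact h
      push_neg at hw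
      have hGG : G = G0 p k s := funext (hG1 hw)
      by_contra hcon
      push_neg at hcon
      apply hfc
      have hconst : c = fun _ => c 0 := by
        funext i
        exact rb_eq_of_add _ _ (hcon i 0).1
      rw [hconst, hGG]
      exact fh_G0_bad p hp k hk s (c 0)
  have hE0 : E ≠ 0 := hEm.ne_zero
  have hinn := inn (κ := Ka) h2 (by decide) n (n - e) (Nat.sub_le _ _) (by omega) E (hh y)
    (fun i => ⟨hh_monic y i, hh_NZ y i hc.2.1⟩) (12 * z)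
    (fun i => (natDegree_le_of_dvd (hh_dvd y i) hE0).trans he12) G hG hnt
  have hq1 : (1 : ℝ) ≤ (Nat.card F : ℝ) := by
    have : 0 < Nat.card F := Nat.card_pos
    exact_mod_cast this
  have hq0 : (0 : ℝ) < (Nat.card F : ℝ) := by linarith
  have han := rb_analytic (Nat.card F : ℝ) hq1 n z e hz hn he12
  have hom : om E = ∑ w, om (y w).1 := om_prod (fun w => (y w).1) hmon hc.1
  have hfin : (1 / 4 : ℝ) ^ om E * (Nat.card F : ℝ) ^ (n - e) =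
      (Nat.card F : ℝ) ^ n * ∏ w, wt (y w).1 := by
    have h3 : ∏ w, wt (y w).1 = (1 / 4 : ℝ) ^ om E / (Nat.card F : ℝ) ^ e := by
      unfold wt
      rw [Finset.prod_div_distrib, Finset.prod_pow_eq_pow_sum, Finset.prod_pow_eq_pow_sum, ← hom,
        hdegE]
    rw [h3]
    have h4 : (Nat.card F : ℝ) ^ n = (Nat.card F : ℝ) ^ (n - e) * (Nat.card F : ℝ) ^ e := by
      rw [← pow_add, Nat.sub_add_cancel hc.2.2]
    rw [h4]
    field_simp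
  rw [hsum, abs_mul, abs_of_pos (by positivity : (0 : ℝ) < (1 / 4 : ℝ) ^ om E)]
  calc (1 / 4 : ℝ) ^ om E * _ ≤ (1 / 4 : ℝ) ^ om E * (10 ^ 6 * z * (Nat.card F : ℝ) ^ (n - e) *
        (n : ℝ) ^ (-(1 / 4) : ℝ)) :=
        mul_le_mul_of_nonneg_left (hinn.trans han) (by positivity)
    _ = 10 ^ 6 * z * ((1 / 4 : ℝ) ^ om E * (Nat.card F : ℝ) ^ (n - e)) *
        (n : ℝ) ^ (-(1 / 4) : ℝ) := by ring
    _ = 10 ^ 6 * z * (Nat.card F : ℝ) ^ n * (n : ℝ) ^ (-(1 / 4) : ℝ) * ∏ w, wt (y w).1 := by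
        rw [hfin]
        ring

end Pool.Agent.H94.PC
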