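import Pool.Agent.H94.PC.Defs

set_option autoImplicit false

/-!
# Sums of multiplicative functions over squarefree polynomials: definitions
-/

namespace Pool.Agent.H94.PC

open Polynomial

variable {F : Type} [Field F] [Finite F]

/-- the sum over the monic squarefree polynomials of degree `m` of the multiplicative function
given by `f` at the primes -/
noncomputable def SS (f : F[X] → ℝ) (m : ℕ) : ℝ := ∑ D ∈ Sq F m, ∏ P ∈ pf D, f P

/-- the sum of `f P / |P|` over the primes of degree at most `m` -/
noncomputable def PS (f : F[X] → ℝ) (m : ℕ) : ℝ :=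
  ∑ d ∈ Finset.Icc 1 m, ∑ P ∈ Pr F d, f P / (Nat.card F : ℝ) ^ d

end Pool.Agent.H94.PC
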