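import Pool.Agent.H94.PC.Rho
import Pool.Agent.H94.PC.MoMod
import Pool.Agent.H94.PC.SSDefs

set_option autoImplicit false

/-!
# [H94 PC RHOS] The sums of `ρ = 1 * θ`

* `sum_rho`: the pairs `(D, B)` with `D ∈ Mo j`, `B ∈ dv D` are the pairs `(B * C, B)`, `i ≤ j`,
  `B ∈ Mo i`, `C ∈ Mo (j - i)` (`C` is monic as `B` and `B * C` are); `card_Mo`.
* `SS_rho_le`: `SS (1 + θ) j = ∑ D ∈ Sq j, ρ(D) ≤ ∑ D ∈ Mo j, ρ(D)` (`rho_sqfree`, `rho_nonneg`,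
  `Sq j ⊆ Mo j`) `= q ^ j * ∑ i ∈ range (j + 1), (∑ B ∈ Mo i, θ B) / q ^ i ≤ q ^ j * K`.
-/

namespace Pool.Agent.H94.PC

open Polynomial

variable {F : Type} [Field F] [Finite F]

theorem sum_rho (θ : F[X] → ℝ) (j : ℕ) :
    ∑ D ∈ Mo F j, ∑ B ∈ dv D, θ B =
      ∑ i ∈ Finset.range (j + 1), (∑ B ∈ Mo F i, θ B) * (Nat.card F : ℝ) ^ (j - i) := by
  have hR : ∀ i ∈ Finset.range (j + 1), (∑ B ∈ Mo F i, θ B) * (Nat.card F : ℝ) ^ (j - i)
      = ∑ x ∈ Mo F i ×ˢ Mo F (j - i), θ x.1 := by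
    intro i _
    rw [Finset.sum_product, Finset.sum_mul]
    refine Finset.sum_congr rfl fun B _ => ?_
    simp only
    rw [Finset.sum_const, nsmul_eq_mul, card_Mo]
    push_cast
    ring
  rw [Finset.sum_congr rfl hR, Finset.sum_sigma', Finset.sum_sigma']
  symm
  refine Finset.sum_bij (fun x _ => (⟨x.2.1 * x.2.2, x.2.1⟩ : Σ _ : F[X], F[X])) ?_ ?_ ?_ ?_
  · rintro ⟨i, B, C⟩ h
    rw [Finset.mem_sigma, Finset.mem_product, Finset.mem_range, mem_Mo, mem_Mo] at h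
    obtain ⟨h1, h2, h3⟩ := h
    simp only at h1 h2 h3
    rw [Finset.mem_sigma, mem_Mo]
    have h4 : (B * C).Monic := h2.1.mul h3.1
    refine ⟨⟨h4, ?_⟩, ?_⟩
    · show (B * C).natDegree = j
      rw [h2.1.natDegree_mul h3.1, h2.2, h3.2]
      omega
    · rw [mem_dv h4.ne_zero]
      exact ⟨h2.1, Dvd.intro _ rfl⟩
  · rintro ⟨i, B, C⟩ h ⟨i', B', C'⟩ h' heq
    rw [Finset.mem_sigma, Finset.mem_product, Finset.mem_range, mem_Mo, mem_Mo] at h h'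
    obtain ⟨h1, h2, h3⟩ := h
    obtain ⟨h1', h2', h3'⟩ := h'
    simp only at h1 h2 h3 h1' h2' h3'
    simp only [Sigma.mk.injEq, heq_eq_eq] at heq
    obtain ⟨e1, e2⟩ := heq
    subst e2
    have e3 : i = i' := h2.2.symm.trans h2'.2
    subst e3
    have e4 : C = C' := mul_left_cancel₀ h2.1.ne_zero e1
    rw [e4]
  · rintro ⟨D, B⟩ h
    rw [Finset.mem_sigma, mem_Mo] at h
    obtain ⟨⟨h1, h2⟩, h3⟩ := h
    simp only at h1 h2 h3
    rw [mem_dv h1.ne_zero] at h3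
    obtain ⟨hB, C, hC⟩ := h3
    have hCm : C.Monic := by
      refine Monic.of_mul_monic_left hB ?_
      rw [← hC]
      exact h1
    have hdeg : B.natDegree + C.natDegree = j := by
      rw [← hB.natDegree_mul hCm, ← hC, h2]
    refine ⟨⟨B.natDegree, (B, C)⟩, ?_, ?_⟩
    · rw [Finset.mem_sigma, Finset.mem_product, Finset.mem_range, mem_Mo, mem_Mo]
      exact ⟨by show B.natDegree < j + 1; omega, ⟨hB, rfl⟩, hCm, by
        show C.natDegree = j - B.natDegree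
        omega⟩
    · simp only
      rw [← hC]
  · rintro ⟨i, B, C⟩ _
    rfl

theorem SS_rho_le {θ : F[X] → ℝ} (hθ : CM θ) (K : ℝ)
    (hK : ∀ j : ℕ, ∑ i ∈ Finset.range (j + 1), (∑ B ∈ Mo F i, θ B) / (Nat.card F : ℝ) ^ i ≤ K)
    (j : ℕ) : SS (fun P => 1 + θ P) j ≤ (Nat.card F : ℝ) ^ j * K := by
  have hq : (0 : ℝ) < (Nat.card F : ℝ) := by exact_mod_cast Nat.card_pos
  unfold SS
  have h1 : ∑ D ∈ Sq F j, ∏ P ∈ pf D, (1 + θ P) = ∑ D ∈ Sq F j, ∑ B ∈ dv D, θ B := by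
    refine Finset.sum_congr rfl fun D hD => ?_
    rw [mem_Sq] at hD
    exact (rho_sqfree hθ hD.1 hD.2.2).symm
  have h2 : ∑ D ∈ Sq F j, ∑ B ∈ dv D, θ B ≤ ∑ D ∈ Mo F j, ∑ B ∈ dv D, θ B := by
    refine Finset.sum_le_sum_of_subset_of_nonneg ?_ ?_
    · intro D hD
      rw [mem_Sq] at hD
      rw [mem_Mo]
      exact ⟨hD.1, hD.2.1⟩
    · intro D hD _
      rw [mem_Mo] at hD
      exact rho_nonneg hθ hD.1
  have h3 : ∑ i ∈ Finset.range (j + 1), (∑ B ∈ Mo F i, θ B) * (Nat.card F : ℝ) ^ (j - i)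
      = (Nat.card F : ℝ) ^ j *
        ∑ i ∈ Finset.range (j + 1), (∑ B ∈ Mo F i, θ B) / (Nat.card F : ℝ) ^ i := by
    rw [Finset.mul_sum]
    refine Finset.sum_congr rfl fun i hi => ?_
    have hi' := Finset.mem_range.1 hi
    have h4 : (Nat.card F : ℝ) ^ j = (Nat.card F : ℝ) ^ i * (Nat.card F : ℝ) ^ (j - i) := by
      rw [← pow_add]
      congr 1
      omega
    rw [h4]
    field_simp
  calc ∑ D ∈ Sq F j, ∏ P ∈ pf D, (1 + θ P) = ∑ D ∈ Sq F j, ∑ B ∈ dv D, θ B := h1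
    _ ≤ ∑ D ∈ Mo F j, ∑ B ∈ dv D, θ B := h2
    _ = (Nat.card F : ℝ) ^ j *
        ∑ i ∈ Finset.range (j + 1), (∑ B ∈ Mo F i, θ B) / (Nat.card F : ℝ) ^ i := by
        rw [sum_rho, h3]
    _ ≤ (Nat.card F : ℝ) ^ j * K := mul_le_mul_of_nonneg_left (hK j) (pow_nonneg hq.le j)

end Pool.Agent.H94.PC
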