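import Pool.Agent.H94.PC.Facs

set_option autoImplicit false

/-!
# [H94 PC SHP] Shape of the squarefree divisors of `T * (C l * D)`

`T` is monic irreducible, `¬ T ∣ D`, `D` monic squarefree, `l ≠ 0`; `g` is squarefree and
divides `T * (C l * D)`.  Then `g = C α * T ^ e * ∏ (P : x P = 1), P` with `α ≠ 0` the leading
coefficient of `g`, `e = 1` iff `T ∣ g`, and `x P = 1` iff `P ∣ g` (`P ∈ pf D`).
Proof: `g₁ = C α⁻¹ * g` is monic, squarefree and divides `T * D` (`C l` is a unit), so by `prod_pf`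
`g₁ = ∏ P ∈ pf g₁, P`, and `pf g₁ ⊆ pf (T * D) = insert T (pf D)`.
`sel x = ∏ P : pf D, if x P = 1 then P.1 else 1`.
-/

namespace Pool.Agent.H94.PC

open Polynomial

variable {F : Type} [Field F] [Finite F]

/-- the product of the primes selected by `x` -/
noncomputable def sel (D : F[X]) (x : pf D → ZMod 2) : F[X] :=
  ∏ P : pf D, if x P = 1 then P.1 else 1

theorem sel_monic (D : F[X]) (x : pf D → ZMod 2) : (sel D x).Monic := by
  unfold sel
  refine monic_prod_of_monic _ _ fun P _ => ?_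
  split_ifs
  · exact (mem_pf' P.2).1
  · exact monic_one

theorem dvd_sel {D : F[X]} (x : pf D → ZMod 2) (P : pf D) : P.1 ∣ sel D x ↔ x P = 1 := by
  obtain ⟨hPm, hPi, -⟩ := mem_pf' P.2
  unfold sel
  constructor
  · intro h
    obtain ⟨Q, -, hQ⟩ := (Prime.dvd_finsetProd_iff hPi.prime _).1 h
    by_cases hx : x Q = 1
    · rw [if_pos hx] at hQ
      obtain ⟨hQm, hQi, -⟩ := mem_pf' Q.2
      have h1 : Associated P.1 Q.1 := hPi.associated_of_dvd hQi hQ
      have h2 : P.1 = Q.1 := eq_of_monic_of_associated hPm hQm h1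
      have h3 : P = Q := Subtype.ext h2
      rw [h3]
      exact hx
    · rw [if_neg hx] at hQ
      exact absurd (isUnit_of_dvd_one hQ) hPi.not_isUnit
  · intro h
    have h1 := Finset.dvd_prod_of_mem (fun Q : pf D => if x Q = 1 then Q.1 else 1)
      (Finset.mem_univ P)
    have h2 : (if x P = 1 then P.1 else 1) = P.1 := if_pos h
    simp only [h2] at h1
    exact h1

theorem sel_zero (D : F[X]) : sel D 0 = 1 := by
  unfold sel
  refine Finset.prod_eq_one fun P _ => ?_
  rw [if_neg]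
  rw [Pi.zero_apply]
  decide

theorem sel_one {D : F[X]} (hD : D.Monic) (hs : Squarefree D) : sel D 1 = D := by
  unfold sel
  have h1 : ∀ P : pf D, (if (1 : pf D → ZMod 2) P = 1 then P.1 else 1) = P.1 := by
    intro P
    rw [if_pos]
    rfl
  rw [Finset.prod_congr rfl fun P _ => h1 P]
  conv_rhs => rw [← prod_pf hD hs]
  exact Finset.prod_coe_sort (pf D) (fun P => P)

theorem shape {D T : F[X]} (hD : D.Monic) (hs : Squarefree D) (hT : T.Monic)
    (hTi : Irreducible T) (hTD : ¬ T ∣ D) {l : F} (hl : l ≠ 0) {g : F[X]} (hg : Squarefree g)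
    (hdvd : g ∣ T * (C l * D)) :
    ∃ (α : F) (e : ZMod 2) (x : pf D → ZMod 2), α ≠ 0 ∧ g = C α * (T ^ e.val * sel D x) := by
  classical
  have hg0 : g ≠ 0 := hg.ne_zero
  set α : F := g.leadingCoeff with hα
  have hα0 : α ≠ 0 := leadingCoeff_ne_zero.2 hg0
  set g₁ : F[X] := C α⁻¹ * g with hg₁
  have hgg : g = C α * g₁ := by
    rw [hg₁, ← mul_assoc, ← C_mul, mul_inv_cancel₀ hα0, C_1, one_mul]
  have hmon : g₁.Monic := by
    unfold Monic
    rw [hg₁, leadingCoeff_mul, leadingCoeff_C, ← hα, inv_mul_cancel₀ hα0]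
  have hdiv1 : g₁ ∣ g := ⟨C α, by rw [hgg]; ring⟩
  have hsf : Squarefree g₁ := hg.squarefree_of_dvd hdiv1
  have hu : IsUnit (C l : F[X]) := isUnit_C.2 (isUnit_iff_ne_zero.2 hl)
  have hdiv2 : g₁ ∣ T * D := by
    have h1 : g₁ ∣ T * (C l * D) := hdiv1.trans hdvd
    have h2 : T * (C l * D) = C l * (T * D) := by ring
    rw [h2] at h1
    exact (hu.dvd_mul_left).1 h1
  refine ⟨α, if T ∣ g₁ then 1 else 0, fun P => if P.1 ∣ g₁ then 1 else 0, hα0, ?_⟩
  have hTpf : T ∉ pf D := fun h => hTD (mem_pf' h).2.2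
  have h1 : (T ^ (if T ∣ g₁ then (1 : ZMod 2) else 0).val : F[X]) = if T ∣ g₁ then T else 1 := by
    split_ifs
    · exact pow_one T
    · exact pow_zero T
  have h2 : sel D (fun P => if P.1 ∣ g₁ then 1 else 0) =
      ∏ P ∈ pf D, if P ∣ g₁ then P else 1 := by
    unfold sel
    rw [← Finset.prod_coe_sort (pf D) (fun P => if P ∣ g₁ then P else 1)]
    refine Finset.prod_congr rfl fun P _ => ?_
    have h01 : ¬ ((0 : ZMod 2) = 1) := by decide
    by_cases h : P.1 ∣ g₁
    · simp only [if_pos h, if_true]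
    · simp only [if_neg h, if_neg h01]
  have h3 : (if T ∣ g₁ then T else 1) * (∏ P ∈ pf D, if P ∣ g₁ then P else 1) =
      ∏ P ∈ insert T (pf D), if P ∣ g₁ then P else 1 := (Finset.prod_insert hTpf).symm
  have h4 : ∏ P ∈ insert T (pf D), (if P ∣ g₁ then P else 1) = ∏ P ∈ pf g₁, P := by
    rw [← Finset.prod_filter]
    refine Finset.prod_congr ?_ fun _ _ => rfl
    ext P
    rw [Finset.mem_filter, Finset.mem_insert, mem_pf hmon.ne_zero]
    constructor
    · rintro ⟨rfl | h, h'⟩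
      · exact ⟨hT, hTi, h'⟩
      · exact ⟨(mem_pf' h).1, (mem_pf' h).2.1, h'⟩
    · rintro ⟨hPm, hPi, hPg⟩
      refine ⟨?_, hPg⟩
      rcases hPi.prime.dvd_or_dvd (hPg.trans hdiv2) with h | h
      · left
        exact eq_of_monic_of_associated hPm hT (hPi.associated_of_dvd hTi h)
      · right
        exact (mem_pf hD.ne_zero).2 ⟨hPm, hPi, h⟩
  rw [h1, h2, h3, h4, prod_pf hmon hsf]
  exact hgg

end Pool.Agent.H94.PC
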