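import Pool.Agent.H94.PC.LocP
import Pool.Agent.H94.PC.Shape
import Pool.Agent.H94.PC.JsB
import Pool.Agent.H94.PC.Th

set_option autoImplicit false

/-!
# [H94 PC SELE] The equations at the primes dividing `D`

`D` monic squarefree, `NZ D`, `l ≠ 0`, `ga = C α * (X ^ e.val * sel D x)`,
`gb = C β * ((X - 1) ^ f.val * sel D y)`; `P ∈ pf D`; `LocP (C l * D) ga gb P`.
Write `sel D x = P ^ (x P).val * S`, `S = ∏ (Q ≠ P, x Q = 1), Q`, `sel D y = P ^ (y P).val * S'`,
`D = P * D₁`, `D₁ = ∏ (Q ≠ P), Q`; `S`, `S'`, `D₁`, `X`, `X - 1`, constants are not divisible by `P`.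
* In the four cases of `LocP` the parity of the power of `P` (`LS.out`) determines `x P`, `y P`:
  case 1: `x P = y P = 0`; case 2: `x P = 0`, `y P = 1`; case 3: `x P = 1`, `y P = 0`; case 4:
  `x P = y P = 1`.
* In all cases `LS.out` gives
  `js (C α * X ^ e.val * S * X ^ (y P).val * (C l * D₁) ^ (x P).val) P = 1` and
  `js (C β * (X-1) ^ f.val * S' * (- C l * D₁) ^ (y P).val * (- (X - 1)) ^ (x P).val) P = 1`
  (in case 4 the two signs cancel).
* Take `bt` (`lam` additive: `js G P = 1` iff `lam G P = 0` for `G` coprime to `P`; `lam_mul_left`,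
  `lam_C`, `lam_X`, `lam_X_sub_one`): with `δ = (ty P).1`, `lam S P = ∑ (Q ≠ P), lam Q P * x Q`,
  `lam D₁ P = ∑ (Q ≠ P), lam Q P`; in the sums of `eq1`, `eq2` the term `Q = P` is `0`
  (`x P + x P = 0`).  `bt (-l) = bt (-1) + bt l`, `p.ep = bt (-1)`, `p.l = bt l`.
  For `-(X - 1)`: `lam (-(X-1)) P = bt (-1) δ + lam (X - 1) P = bt (P(1))`.
-/

namespace Pool.Agent.H94.PC

open Polynomial

variable {F : Type} [Field F] [Finite F]

theorem seq_lam_zero {G P : F[X]} (hP : P.Monic) (hc : IsCoprime G P) (h : js G P = 1) :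
    lam G P = 0 := by
  rw [js_eq_sg hP hc] at h
  unfold sg at h
  split_ifs at h with h1
  · exact h1
  · norm_num at h

theorem seq_coprime_X {P : F[X]} (hP : P.Monic) (h : P.eval 0 ≠ 0) : IsCoprime X P := by
  have h1 := jsB_ch_ne (n := P.natDegree) h
  rw [← js_X hP] at h1
  by_contra hn
  exact h1 ((js_eq_zero hP).2 hn)

theorem seq_coprime_X1 {P : F[X]} (hP : P.Monic) (h : P.eval 1 ≠ 0) : IsCoprime (X - 1) P := by
  have h1 := jsB_ch_ne (n := P.natDegree) h
  rw [← js_X_sub_one hP] at h1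
  by_contra hn
  exact h1 ((js_eq_zero hP).2 hn)

theorem seq_not_dvd {G P : F[X]} (hPi : Irreducible P) (hc : IsCoprime G P) : ¬ P ∣ G :=
  fun h => hPi.not_isUnit (hc.isUnit_of_dvd' h dvd_rfl)

theorem seq_zm (a : ZMod 2) : a = 0 ∨ a = 1 := by
  revert a; decide

theorem seq_even {a : ZMod 2} (h : Even a.val) : a = 0 := by
  revert a; decide

theorem seq_odd {a : ZMod 2} (h : Even (a.val + 1)) : a = 1 := by
  revert a; decide

theorem seq_lam_one {P : F[X]} (hP : P.Monic) : lam 1 P = 0 := by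
  have h := lam_C hP (one_ne_zero (α := F))
  rw [C_1, bt_one, zero_mul] at h
  exact h

theorem seq_lam_pow {A P : F[X]} (hP : P.Monic) (e : ZMod 2) :
    lam (A ^ e.val) P = e * lam A P := by
  rcases seq_zm e with rfl | rfl
  · rw [ZMod.val_zero, pow_zero, seq_lam_one hP, zero_mul]
  · rw [show ((1 : ZMod 2).val) = 1 from rfl, pow_one, one_mul]

theorem seq_lam_prod {ι : Type*} (s : Finset ι) (g : ι → F[X]) {P : F[X]} (hP : P.Monic)
    (h : ∀ i ∈ s, IsCoprime (g i) P) : lam (∏ i ∈ s, g i) P = ∑ i ∈ s, lam (g i) P := by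
  classical
  induction s using Finset.induction_on with
  | empty => rw [Finset.prod_empty, Finset.sum_empty, seq_lam_one hP]
  | insert a s ha ih =>
    rw [Finset.prod_insert ha, Finset.sum_insert ha, lam_mul_left hP
      (h a (Finset.mem_insert_self a s))
      (IsCoprime.prod_left fun i hi => h i (Finset.mem_insert_of_mem hi)),
      ih fun i hi => h i (Finset.mem_insert_of_mem hi)]

/-- the equations for given prime -/
theorem seq_core {P : F[X]} (hP : P.Monic) (hPi : Irreducible P) {ga gb : F[X]} {l α β : F}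
    (hl : l ≠ 0) (hα : α ≠ 0) (hβ : β ≠ 0) (h0 : P.eval 0 ≠ 0) (h1 : P.eval 1 ≠ 0)
    (e f xP yP : ZMod 2) {S S' D D₁ : F[X]} (hS : IsCoprime S P) (hS' : IsCoprime S' P)
    (hD₁ : IsCoprime D₁ P) (hga : ga = P ^ xP.val * (C α * X ^ e.val * S))
    (hgb : gb = P ^ yP.val * (C β * (X - 1) ^ f.val * S')) (hD : D = P * D₁)
    (h : LocP (C l * D) ga gb P) :
    lam S P + xP * lam D₁ P + ((bt (P.eval 0) + bt (-1 : F) * (P.natDegree : ZMod 2)) * (e + yP) +
      (bt α + bt l * xP) * (P.natDegree : ZMod 2)) = 0 ∧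
    lam S' P + yP * lam D₁ P + ((bt (P.eval 1) + bt (-1 : F) * (P.natDegree : ZMod 2)) * f +
      bt (P.eval 1) * xP +
      (bt (-1 : F) * yP + bt β + bt l * yP) * (P.natDegree : ZMod 2)) = 0 := by
  have cα : IsCoprime (C α) P := jsB_coprime_C hα P
  have cβ : IsCoprime (C β) P := jsB_coprime_C hβ P
  have cl : IsCoprime (C l) P := jsB_coprime_C hl P
  have cm : IsCoprime (C (-1 : F)) P := jsB_coprime_C (neg_ne_zero.2 one_ne_zero) P
  have cX : IsCoprime X P := seq_coprime_X hP h0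
  have cX1 : IsCoprime (X - 1) P := seq_coprime_X1 hP h1
  have cA : IsCoprime (C α * X ^ e.val * S) P := (cα.mul_left (cX.pow_left)).mul_left hS
  have cB : IsCoprime (C β * (X - 1) ^ f.val * S') P := (cβ.mul_left (cX1.pow_left)).mul_left hS'
  have lA : lam (C α * X ^ e.val * S) P = bt α * (P.natDegree : ZMod 2) +
      e * (bt (-1 : F) * (P.natDegree : ZMod 2) + bt (P.eval 0)) + lam S P := by
    rw [lam_mul_left hP (cα.mul_left (cX.pow_left)) hS, lam_mul_left hP cα cX.pow_left,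
      lam_C hP hα, seq_lam_pow hP, lam_X hP h0]
  have lB : lam (C β * (X - 1) ^ f.val * S') P = bt β * (P.natDegree : ZMod 2) +
      f * (bt (-1 : F) * (P.natDegree : ZMod 2) + bt (P.eval 1)) + lam S' P := by
    rw [lam_mul_left hP (cβ.mul_left (cX1.pow_left)) hS', lam_mul_left hP cβ cX1.pow_left,
      lam_C hP hβ, seq_lam_pow hP, lam_X_sub_one hP h1]
  have cL : IsCoprime (C l * D₁) P := cl.mul_left hD₁
  have lL : lam (C l * D₁) P = bt l * (P.natDegree : ZMod 2) + lam D₁ P := by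
    rw [lam_mul_left hP cl hD₁, lam_C hP hl]
  have lm : lam (C (-1 : F)) P = bt (-1 : F) * (P.natDegree : ZMod 2) :=
    lam_C hP (neg_ne_zero.2 one_ne_zero)
  have hm1 : (C (-1 : F) : F[X]) = -1 := by rw [C_neg, C_1]
  have key : ∀ {G G₁ : F[X]} {i : ℕ}, LS P G → G = P ^ i * G₁ → IsCoprime G₁ P →
      Even i ∧ lam G₁ P = 0 := by
    intro G G₁ i hLS hG hc
    have h2 := hLS.out hP hPi i hG (seq_not_dvd hPi hc)
    exact ⟨h2.1, seq_lam_zero hP hc h2.2⟩
  generalize hAd : C α * X ^ e.val * S = A at *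
  generalize hBd : C β * (X - 1) ^ f.val * S' = B at *
  have two : (2 : ZMod 2) = 0 := by decide
  rcases h with ⟨ha, hb⟩ | ⟨ha, hb⟩ | ⟨ha, hb⟩ | ⟨ha, hb⟩
  · obtain ⟨a1, a2⟩ := key ha hga cA
    obtain ⟨b1, b2⟩ := key hb hgb cB
    have hx := seq_even a1
    have hy := seq_even b1
    subst hx hy
    rw [lA] at a2
    rw [lB] at b2
    refine ⟨?_, ?_⟩
    · linear_combination a2
    · linear_combination b2
  · obtain ⟨a1, a2⟩ := key (i := xP.val) (G₁ := A * X) ha (by rw [hga]; ring) (cA.mul_left cX)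
    obtain ⟨b1, b2⟩ := key (i := yP.val + 1) (G₁ := C (-1 : F) * (B * (C l * D₁))) hb
      (by rw [hgb, hD, hm1]; ring) (cm.mul_left (cB.mul_left cL))
    have hx := seq_even a1
    have hy := seq_odd b1
    subst hx hy
    rw [lam_mul_left hP cA cX, lA, lam_X hP h0] at a2
    rw [lam_mul_left hP cm (cB.mul_left cL), lam_mul_left hP cB cL, lB, lL, lm] at b2
    refine ⟨?_, ?_⟩
    · linear_combination a2
    · linear_combination b2
  · obtain ⟨a1, a2⟩ := key (i := xP.val + 1) (G₁ := A * (C l * D₁)) ha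
      (by rw [hga, hD]; ring) (cA.mul_left cL)
    obtain ⟨b1, b2⟩ := key (i := yP.val) (G₁ := C (-1 : F) * (B * (X - 1))) hb
      (by rw [hgb, hm1]; ring) (cm.mul_left (cB.mul_left cX1))
    have hx := seq_odd a1
    have hy := seq_even b1
    subst hx hy
    rw [lam_mul_left hP cA cL, lA, lL] at a2
    rw [lam_mul_left hP cm (cB.mul_left cX1), lam_mul_left hP cB cX1, lB, lam_X_sub_one hP h1,
      lm] at b2
    refine ⟨?_, ?_⟩
    · linear_combination a2
    · linear_combination b2 - (bt (-1 : F) * (P.natDegree : ZMod 2)) * two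
  · obtain ⟨a1, a2⟩ := key (i := xP.val + 1) (G₁ := A * (X * (C l * D₁))) ha
      (by rw [hga, hD]; ring) (cA.mul_left (cX.mul_left cL))
    obtain ⟨b1, b2⟩ := key (i := yP.val + 1) (G₁ := B * ((X - 1) * (C l * D₁))) hb
      (by rw [hgb, hD]; ring) (cB.mul_left (cX1.mul_left cL))
    have hx := seq_odd a1
    have hy := seq_odd b1
    subst hx hy
    rw [lam_mul_left hP cA (cX.mul_left cL), lam_mul_left hP cX cL, lA, lL, lam_X hP h0] at a2
    rw [lam_mul_left hP cB (cX1.mul_left cL), lam_mul_left hP cX1 cL, lB, lL,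
      lam_X_sub_one hP h1] at b2
    refine ⟨?_, ?_⟩
    · linear_combination a2
    · linear_combination b2

theorem sel_eq (p : Par) (hep : p.ep = bt (-1 : F)) {l : F} (hl : l ≠ 0) (hpl : p.l = bt l)
    {D : F[X]} (hD : D.Monic) (hs : Squarefree D) (hz : NZ D) {α β : F} (hα : α ≠ 0) (hβ : β ≠ 0)
    (e f : ZMod 2) (x y : pf D → ZMod 2) {ga gb : F[X]} (hga : ga = C α * (X ^ e.val * sel D x))
    (hgb : gb = C β * ((X - 1) ^ f.val * sel D y)) (P : pf D)
    (h : LocP (C l * D) ga gb P.1) :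
    (∑ Q : pf D, lam Q.1 P.1 * (x Q + x P) +
      (((ty P.1).2.1 + p.ep * (ty P.1).1) * (e + y P) + (bt α + p.l * x P) * (ty P.1).1) = 0) ∧
    (∑ Q : pf D, lam Q.1 P.1 * (y Q + y P) +
      (((ty P.1).2.2 + p.ep * (ty P.1).1) * f + (ty P.1).2.2 * x P +
        (p.ep * y P + bt β + p.l * y P) * (ty P.1).1) = 0) := by
  classical
  have hD0 : D ≠ 0 := hD.ne_zero
  obtain ⟨hPm, hPi, hPD⟩ := mem_pf' P.2
  obtain ⟨R, hR⟩ := hPD
  have hP0 : P.1.eval 0 ≠ 0 := by
    intro h0; apply hz.1; rw [hR, eval_mul, h0, zero_mul]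
  have hP1 : P.1.eval 1 ≠ 0 := by
    intro h0; apply hz.2; rw [hR, eval_mul, h0, zero_mul]
  have hco : ∀ Q ∈ Finset.univ.erase P, IsCoprime Q.1 P.1 := by
    intro Q hQ
    obtain ⟨hQm, hQi, _⟩ := mem_pf' Q.2
    refine isCoprime_irr hQm hQi hPm hPi ?_
    intro h2
    exact (Finset.mem_erase.1 hQ).1 (Subtype.ext h2)
  have hco2 : ∀ x : pf D → ZMod 2, ∀ Q ∈ Finset.univ.erase P,
      IsCoprime (if x Q = 1 then Q.1 else 1) P.1 := by
    intro x Q hQ
    split_ifs
    · exact hco Q hQ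
    · exact isCoprime_one_left
  have hsel : ∀ x : pf D → ZMod 2, sel D x = P.1 ^ (x P).val *
      ∏ Q ∈ Finset.univ.erase P, if x Q = 1 then Q.1 else 1 := by
    intro x
    rw [sel, ← Finset.mul_prod_erase Finset.univ _ (Finset.mem_univ P)]
    congr 1
    rcases seq_zm (x P) with h2 | h2
    · rw [h2, if_neg (by decide), ZMod.val_zero, pow_zero]
    · rw [h2, if_pos rfl, show ((1 : ZMod 2).val) = 1 from rfl, pow_one]
  have hlam : ∀ x : pf D → ZMod 2,
      lam (∏ Q ∈ Finset.univ.erase P, if x Q = 1 then Q.1 else 1) P.1 =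
        ∑ Q ∈ Finset.univ.erase P, lam Q.1 P.1 * x Q := by
    intro x
    rw [seq_lam_prod _ _ hPm (hco2 x)]
    refine Finset.sum_congr rfl fun Q _ => ?_
    rcases seq_zm (x Q) with h2 | h2
    · rw [h2, if_neg (by decide), seq_lam_one hPm, mul_zero]
    · rw [h2, if_pos rfl, mul_one]
  have hDe : D = P.1 * ∏ Q ∈ Finset.univ.erase P, if (1 : pf D → ZMod 2) Q = 1 then Q.1 else 1 := by
    have h2 := hsel 1
    rw [sel_one hD hs, Pi.one_apply, show ((1 : ZMod 2).val) = 1 from rfl, pow_one] at h2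
    exact h2
  have hmain := seq_core hPm hPi hl hα hβ hP0 hP1 e f (x P) (y P)
    (IsCoprime.prod_left (hco2 x)) (IsCoprime.prod_left (hco2 y))
    (IsCoprime.prod_left (hco2 1)) (ga := ga) (gb := gb) (by rw [hga, hsel x]; ring)
    (by rw [hgb, hsel y]; ring) hDe h
  rw [hlam, hlam, hlam] at hmain
  have hsum : ∀ x : pf D → ZMod 2, ∑ Q : pf D, lam Q.1 P.1 * (x Q + x P) =
      ∑ Q ∈ Finset.univ.erase P, lam Q.1 P.1 * x Q +
        x P * ∑ Q ∈ Finset.univ.erase P, lam Q.1 P.1 * (1 : pf D → ZMod 2) Q := by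
    intro x
    have h2 : x P + x P = 0 := by
      rcases seq_zm (x P) with h3 | h3 <;> rw [h3] <;> decide
    rw [← Finset.add_sum_erase Finset.univ _ (Finset.mem_univ P), h2, mul_zero, zero_add,
      Finset.mul_sum, ← Finset.sum_add_distrib]
    refine Finset.sum_congr rfl fun Q _ => ?_
    rw [Pi.one_apply]
    ring
  rw [hsum x, hsum y, hep, hpl]
  exact hmain

end Pool.Agent.H94.PC
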