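import Pool.Agent.H94.PC.Em

set_option autoImplicit false

/-!
# [H94 PC SPL] Splitting the indices: the four of `US k s` and the other twelve

`Wc k s` is the complement of `US k s`.  The map `Sum.elim (em k s) Subtype.val : Ka ⊕ Wc k s → Ix` is
bijective (`em_injective`); `eqv k s` is the equivalence.  All statements are formal:
`Equiv.sum_comp`, `Equiv.arrowCongr`, `Equiv.sumArrowEquivProdArrow`, `Fintype.sum_sum_type`,
`Fintype.prod_sum_type`, `Fintype.sum_prod_type`.
`card_Wc`: `16 = 4 + 12`.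
-/

namespace Pool.Agent.H94.PC

/-- the complement of `US k s` -/
def Wc (k : Fin 6) (s : Ka) : Type := {w : Ix // ∀ i, em k s i ≠ w}

instance (k : Fin 6) (s : Ka) : DecidableEq (Wc k s) :=
  inferInstanceAs (DecidableEq {w : Ix // ∀ i, em k s i ≠ w})

instance (k : Fin 6) (s : Ka) : Fintype (Wc k s) :=
  inferInstanceAs (Fintype {w : Ix // ∀ i, em k s i ≠ w})

theorem bij_sum (k : Fin 6) (s : Ka) :
    Function.Bijective (Sum.elim (em k s) (fun w : Wc k s => w.1)) := by
  constructor
  · rintro (i | w) (j | w') h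
    · exact congrArg Sum.inl (em_injective k s h)
    · exact absurd h (w'.2 i)
    · exact absurd h.symm (w.2 j)
    · exact congrArg Sum.inr (Subtype.ext h)
  · intro u
    by_cases h : ∃ i, em k s i = u
    · obtain ⟨i, hi⟩ := h
      exact ⟨Sum.inl i, hi⟩
    · exact ⟨Sum.inr ⟨u, fun i hi => h ⟨i, hi⟩⟩, rfl⟩

/-- the equivalence -/
noncomputable def eqv (k : Fin 6) (s : Ka) : Ka ⊕ Wc k s ≃ Ix := Equiv.ofBijective _ (bij_sum k s)

theorem eqv_inl (k : Fin 6) (s i : Ka) : eqv k s (Sum.inl i) = em k s i := rfl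

theorem eqv_inr (k : Fin 6) (s : Ka) (w : Wc k s) : eqv k s (Sum.inr w) = w.1 := rfl

/-- the function on `Ix` with given values on `US k s` and on the complement -/
noncomputable def mg (k : Fin 6) (s : Ka) {α : Type} (x : Ka → α) (y : Wc k s → α) : Ix → α :=
  fun u => Sum.elim x y ((eqv k s).symm u)

theorem mg_em (k : Fin 6) (s : Ka) {α : Type} (x : Ka → α) (y : Wc k s → α) (i : Ka) :
    mg k s x y (em k s i) = x i := by
  unfold mg
  rw [← eqv_inl, Equiv.symm_apply_apply]
  rfl

theorem mg_wc (k : Fin 6) (s : Ka) {α : Type} (x : Ka → α) (y : Wc k s → α) (w : Wc k s) :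
    mg k s x y w.1 = y w := by
  unfold mg
  rw [← eqv_inr, Equiv.symm_apply_apply]
  rfl

theorem mg_comp (k : Fin 6) (s : Ka) {α β : Type} (f : α → β) (x : Ka → α) (y : Wc k s → α) :
    (fun u => f (mg k s x y u)) = mg k s (fun i => f (x i)) (fun w => f (y w)) := by
  funext u
  obtain ⟨v, rfl⟩ := (eqv k s).surjective u
  rcases v with i | w
  · rw [eqv_inl, mg_em, mg_em]
  · rw [eqv_inr, mg_wc, mg_wc]

/-- functions on `Ix` are pairs of functions -/
noncomputable def mgE (k : Fin 6) (s : Ka) (α : Type) :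
    ((Wc k s → α) × (Ka → α)) ≃ (Ix → α) where
  toFun p := mg k s p.2 p.1
  invFun g := (fun w => g w.1, fun i => g (em k s i))
  left_inv p := by
    refine Prod.ext ?_ ?_
    · funext w
      exact mg_wc k s p.2 p.1 w
    · funext i
      exact mg_em k s p.2 p.1 i
  right_inv g := by
    funext u
    obtain ⟨v, rfl⟩ := (eqv k s).surjective u
    rcases v with i | w
    · rw [eqv_inl]
      exact mg_em k s _ _ i
    · rw [eqv_inr]
      exact mg_wc k s _ _ w

theorem sum_mg (k : Fin 6) (s : Ka) {α : Type} [Fintype α] (f : (Ix → α) → ℝ) :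
    ∑ x, f x = ∑ y : Wc k s → α, ∑ x : Ka → α, f (mg k s x y) := by
  rw [← Equiv.sum_comp (mgE k s α), Fintype.sum_prod_type]
  rfl

theorem prod_ix (k : Fin 6) (s : Ka) {M : Type*} [CommMonoid M] (g : Ix → M) :
    ∏ u, g u = (∏ i, g (em k s i)) * ∏ w : Wc k s, g w.1 := by
  rw [← Equiv.prod_comp (eqv k s), Fintype.prod_sum_type]
  rfl

theorem sum_ix (k : Fin 6) (s : Ka) {M : Type*} [AddCommMonoid M] (g : Ix → M) :
    ∑ u, g u = (∑ i, g (em k s i)) + ∑ w : Wc k s, g w.1 := by
  rw [← Equiv.sum_comp (eqv k s), Fintype.sum_sum_type]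
  rfl

theorem card_Wc (k : Fin 6) (s : Ka) : Fintype.card (Wc k s) = 12 := by
  have h1 := Fintype.card_congr (eqv k s)
  rw [Fintype.card_sum] at h1
  have h2 : Fintype.card Ka = 4 := by decide
  have h3 : Fintype.card Ix = 16 := by decide
  omega

end Pool.Agent.H94.PC
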