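import Pool.Agent.H94.PC.RB
import Pool.Agent.H94.PC.SumMult

set_option autoImplicit false

/-!
# [H94 PC TU] The contribution of one maximal unlinked set

`sum_mg` writes `TU` as the sum over `y : Wc k s → Mn F n` with all degrees `< z` of
`∑ x, WW p n (mg k s x y)` (`mg_wc`).
* `TU_bad`: `r_bound` for every `y`, `sum_prod_wt` with `card_Wc`:
  `∑ y, ∏ w, wt (y w) ≤ (4 z ^ (1/4)) ^ 12 = 4 ^ 12 z ^ 3`.
* `TU_good`: for `y = 1` (all `y w = Mn.one n`; `Mn` is a subtype, so `y w = Mn.one n` iff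
  `(y w).1 = 1`): `WW p n (mg k s x y) ≤ |WW| ≤ (1/4) ^ om (∏ x) ` if `∏ i, x i ∈ Cn F p n` and `0`
  otherwise (`abs_term_le`: `|sg| = 1`, `|js| ≤ 1`; `∏ u, mg k s x y u = ∏ i, x i`), and the sum over
  `x` is `#(Cn F p n)` by `count_tup` (`Fintype.card Ka = 4`).  All other `y`: `r_bound`.
-/

namespace Pool.Agent.H94.PC

open Polynomial

variable {F : Type} [Field F] [Finite F]

/-- the contribution of the set `US k s` -/
noncomputable def TU (F : Type) [Field F] [Finite F] (p : Par) (n z : ℕ) (k : Fin 6) (s : Ka) : ℝ :=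
  ∑ x : Ix → Mn F n, if ∀ w : Wc k s, (x w.1).1.natDegree < z then WW p n x else 0

theorem abs_term_le (p : Par) (x : Ix → F[X]) : |term p x| ≤ (1 / 4 : ℝ) ^ om (∏ u, x u) := by
  unfold term
  rw [abs_mul, abs_mul, abs_sg, mul_one, abs_of_nonneg (by positivity : (0 : ℝ) ≤ (1 / 4) ^ _)]
  apply mul_le_of_le_one_right (by positivity)
  rw [Finset.abs_prod]
  apply Finset.prod_le_one (fun _ _ => abs_nonneg _)
  intro u _
  rw [Finset.abs_prod]
  apply Finset.prod_le_one (fun _ _ => abs_nonneg _)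
  intro w _
  rw [abs_pow]
  exact pow_le_one₀ (abs_nonneg _) (abs_js_le _ _)

theorem tu_eq (p : Par) (n z : ℕ) (k : Fin 6) (s : Ka) :
    TU F p n z k s = ∑ y : Wc k s → Mn F n,
      if ∀ w, (y w).1.natDegree < z then ∑ x : Ka → Mn F n, WW p n (mg k s x y) else 0 := by
  unfold TU
  rw [sum_mg k s]
  apply Finset.sum_congr rfl
  intro y _
  by_cases h : ∀ w, (y w).1.natDegree < z
  · rw [if_pos h]
    apply Finset.sum_congr rfl
    intro x _
    rw [if_pos]
    intro w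
    rw [mg_wc]
    exact h w
  · rw [if_neg h]
    apply Finset.sum_eq_zero
    intro x _
    rw [if_neg]
    intro h'
    apply h
    intro w
    have := h' w
    rwa [mg_wc] at this

/-- the constant in the bounds -/
noncomputable def tu_c (F : Type) [Field F] [Finite F] (n z : ℕ) : ℝ :=
  10 ^ 6 * z * (Nat.card F : ℝ) ^ n * (n : ℝ) ^ (-(1 / 4) : ℝ)

theorem tu_c_nonneg (n z : ℕ) : 0 ≤ tu_c F n z := by
  unfold tu_c
  positivity

theorem tu_sum (n z : ℕ) (k : Fin 6) (s : Ka) :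
    tu_c F n z * ∑ y : Wc k s → Mn F n,
      (if ∀ w, (y w).1.natDegree < z then ∏ w, wt (y w).1 else 0) ≤
    10 ^ 6 * 4 ^ 12 * (Nat.card F : ℝ) ^ n * (n : ℝ) ^ (-(1 / 4) : ℝ) * (z : ℝ) ^ 4 := by
  have h1 := sum_prod_wt (F := F) (ι := Wc k s) n z
  rw [card_Wc] at h1
  have h2 : (4 * (z : ℝ) ^ (1 / 4 : ℝ)) ^ 12 = 4 ^ 12 * (z : ℝ) ^ 3 := by
    rw [mul_pow]
    congr 1
    rw [← Real.rpow_natCast, ← Real.rpow_mul (Nat.cast_nonneg _), ← Real.rpow_natCast]
    norm_num
  rw [h2] at h1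
  refine (mul_le_mul_of_nonneg_left h1 (tu_c_nonneg n z)).trans (le_of_eq ?_)
  unfold tu_c
  ring

theorem TU_bad (h2 : (2 : F) ≠ 0) (p : Par) (hp : p.Good) (hep : p.ep = bt (-1 : F))
    (k : Fin 6) (s : Ka) (hk : 3 ≤ k) (n z : ℕ) (hz : 1 ≤ z) (hn : 32 * z ≤ n) :
    |TU F p n z k s| ≤
      10 ^ 6 * 4 ^ 12 * (Nat.card F : ℝ) ^ n * (n : ℝ) ^ (-(1 / 4) : ℝ) * (z : ℝ) ^ 4 := by
  rw [tu_eq]
  refine (Finset.abs_sum_le_sum_abs _ _).trans (le_trans ?_ (tu_sum n z k s))
  rw [Finset.mul_sum]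
  apply Finset.sum_le_sum
  intro y _
  by_cases h : ∀ w, (y w).1.natDegree < z
  · rw [if_pos h, if_pos h]
    exact r_bound h2 p hp hep k s n z hz hn y h (Or.inr hk)
  · rw [if_neg h, if_neg h, abs_zero, mul_zero]

theorem tu_one (p : Par) (k : Fin 6) (s : Ka) (n : ℕ) :
    ∑ x : Ka → Mn F n, WW p n (mg k s x fun _ => Mn.one n) ≤ ((Cn F p n).card : ℝ) := by
  classical
  have hcard : Fintype.card Ka = 4 := rfl
  rw [← count_tup hcard n (Cn F p n) (fun D hD => by
    have h1 := mem_Sq.1 (mem_Cn.1 hD).1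
    exact ⟨h1.1, h1.2.2, h1.2.1.le⟩)]
  apply Finset.sum_le_sum
  intro x _
  have hprod : ∏ u, (mg k s x (fun _ => Mn.one n) u).1 = ∏ i, (x i).1 := by
    rw [prod_ix k s]
    have e1 : ∏ w : Wc k s, (mg k s x (fun _ => Mn.one n) w.1).1 = 1 := by
      apply Finset.prod_eq_one
      intro w _
      rw [mg_wc]
      rfl
    rw [e1, mul_one]
    apply Finset.prod_congr rfl
    intro i _
    rw [mg_em]
  unfold WW
  rw [hprod]
  by_cases h : InC p n (∏ i, (x i).1)
  · rw [if_pos h, if_pos (mem_Cn.2 h)]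
    refine (le_abs_self _).trans ((abs_term_le p _).trans (le_of_eq ?_))
    rw [hprod]
  · rw [if_neg h, if_neg (fun h' => h (mem_Cn.1 h'))]

theorem TU_good (h2 : (2 : F) ≠ 0) (p : Par) (hp : p.Good) (hep : p.ep = bt (-1 : F))
    (k : Fin 6) (s : Ka) (n z : ℕ) (hz : 1 ≤ z) (hn : 32 * z ≤ n) :
    TU F p n z k s ≤ ((Cn F p n).card : ℝ) +
      10 ^ 6 * 4 ^ 12 * (Nat.card F : ℝ) ^ n * (n : ℝ) ^ (-(1 / 4) : ℝ) * (z : ℝ) ^ 4 := by
  classical
  rw [tu_eq]
  have key : ∀ y : Wc k s → Mn F n,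
      (if ∀ w, (y w).1.natDegree < z then ∑ x : Ka → Mn F n, WW p n (mg k s x y) else 0) ≤
      (if y = (fun _ => Mn.one n) then ((Cn F p n).card : ℝ) else 0) +
        tu_c F n z * (if ∀ w, (y w).1.natDegree < z then ∏ w, wt (y w).1 else 0) := by
    intro y
    have h0 : 0 ≤ tu_c F n z *
        (if ∀ w, (y w).1.natDegree < z then ∏ w, wt (y w).1 else 0) := by
      apply mul_nonneg (tu_c_nonneg n z)
      split_ifs
      · exact Finset.prod_nonneg fun w _ => wt_nonneg _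
      · exact le_rfl
    by_cases h : ∀ w, (y w).1.natDegree < z
    · by_cases hy : y = fun _ => Mn.one n
      · rw [if_pos h, if_pos hy]
        have h1 : ∑ x : Ka → Mn F n, WW p n (mg k s x y) ≤ ((Cn F p n).card : ℝ) := by
          rw [hy]
          exact tu_one p k s n
        linarith
      · rw [if_neg hy, zero_add]
        rw [if_pos h, if_pos h]
        have h1 : ∃ w, (y w).1 ≠ 1 := by
          by_contra hcon
          push Not at hcon
          apply hy
          funext w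
          exact Subtype.ext (hcon w)
        exact (le_abs_self _).trans (r_bound h2 p hp hep k s n z hz hn y h (Or.inl h1))
    · rw [if_neg h]
      have h1 : (0 : ℝ) ≤ if y = (fun _ => Mn.one n) then ((Cn F p n).card : ℝ) else 0 := by
        split_ifs
        · positivity
        · exact le_rfl
      linarith
  refine (Finset.sum_le_sum fun y _ => key y).trans ?_
  rw [Finset.sum_add_distrib, Finset.sum_ite_eq', if_pos (Finset.mem_univ _), ← Finset.mul_sum]
  have h3 := tu_sum (F := F) n z k s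
  linarith

end Pool.Agent.H94.PC
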