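import Pool.Agent.H94.PC.Split

set_option autoImplicit false

/-!
# The sign function on the types of the four large variables: definitions
-/

namespace Pool.Agent.H94.PC

/-- numbering of `Ka` -/
def nb (i : Ka) : ℕ := 2 * i.1.val + i.2.val

/-- the exponent from reciprocity between the large variables -/
def recp (p : Par) (k : Fin 6) (s : Ka) (τ : Ka → Ty) : ZMod 2 :=
  ∑ i, ∑ j, if nb i < nb j then Phi (em k s i) (em k s j) * (p.ep * ((τ i).1 * (τ j).1)) else 0

/-- the sign as a function of the types, when the small variables are `1` -/
noncomputable def G0 (p : Par) (k : Fin 6) (s : Ka) (τ : Ka → Ty) : ℝ :=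
  if ∑ i, τ i = p.t then
    sg (gexp p (mg k s τ fun _ => 0) + recp p k s τ) else 0

end Pool.Agent.H94.PC
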