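import Pool.Agent.H94.PC.WWDefs
import Pool.Agent.H94.PC.Th
import Pool.Agent.H94.PC.Facs

set_option autoImplicit false

/-!
# [H94 PC WSP] The weight as a function of the four large variables

`E = ∏ w, y w`, `e = deg E`, `D' = ∏ i, x i`, so `∏ u, mg k s x y u = D' E` (`prod_ix`, `mg_em`,
`mg_wc`).
* `InC p n (D' E)` iff `E` is squarefree, `NZ E`, `e ≤ n`, `D' ∈ Sq (n - e)`, `NZ D'`, `D'` and `E`
  coprime, and `ty D' + ty E = p.t` (`ty_mul`, `NZ_mul`, `Squarefree.of_mul_left`,
  `squarefree_mul_iff`; a squarefree product has coprime factors).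
* `om (D' E) = om D' + om E` (`om_mul`).
* The product over the pairs `u, w` of `js (x w) (x u) ^ (Phi u w).val` splits (`prod_ix` twice) in
  - `u, w` in `Wc`: a number `c1 ∈ {0, 1, -1}` not depending on `x`;
  - `u = em i`, `w = em j`: for `i = j` the exponent is `0` (`Phi_self`); for `i ≠ j` the exponents
    of `(i, j)` and `(j, i)` are equal (`Phi_em`), and as `x i`, `x j` are coprime,
    `js (x j) (x i) * js (x i) (x j) = ch (-1) ^ (deg * deg) = sg (p.ep * (δ_i δ_j))` (`js_recip`,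
    `hep : p.ep = bt (-1)`, `sg_mul_natCast`), so this part is `sg (recp p k s (ty ∘ x))`
    (a product over ordered pairs `i ≠ j` = product over the pairs with `nb i < nb j` of the
    two factors; `nb` is injective);
  - `u = em i`, `w ∈ Wc` and conversely: with `a = Phi (em i) w`, `b = Phi w (em i)`, `a + b = 1`
    iff `Lk` (`Phi_add`): `js (y w) (x i) ^ a * js (x i) (y w) ^ b
    = js (y w) (x i) ^ (if Lk then 1 else 0) * sg (b * (p.ep * (δ_i * deg (y w))))` (`js_recip`, and
    `js (y w) (x i) ^ 2 = 1` by coprimality).  The product over `w` of the first factors is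
    `js (h i) (x i)` with `h i = ∏ (w : Lk (em i) w), y w` (`js_prod_left`).
* So `G τ = if ∑ τ i + ty E = p.t then c1 * sg (gexp p (mg τ (ty ∘ y)) + recp τ +
  ∑ i, ∑ w, Phi w (em i) * (p.ep * ((τ i).1 * (ty (y w)).1))) else 0`, `|G| ≤ 1`.
* If all `y w = 1` then `c1 = 1`, `ty 1 = 0` (`ty_one`), and `G = G0 p k s`.
(When `E` is not squarefree, or not `NZ`, or `e > n`, both sides are `0` for any `G`.)
-/

namespace Pool.Agent.H94.PC

open Polynomial

variable {F : Type} [Field F] [Finite F]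

/-- the product of the small variables linked to `em k s i` -/
noncomputable def hh {k : Fin 6} {s : Ka} {n : ℕ} (y : Wc k s → Mn F n) (i : Ka) : F[X] :=
  ∏ w : Wc k s, if Lk (em k s i) w.1 then (y w).1 else 1

theorem ws_sg_sum {ι : Type*} (s : Finset ι) (f : ι → ZMod 2) :
    sg (∑ i ∈ s, f i) = ∏ i ∈ s, sg (f i) := by
  classical
  induction s using Finset.induction_on with
  | empty => rw [Finset.sum_empty, Finset.prod_empty, sg_zero]
  | insert a s ha ih => rw [Finset.sum_insert ha, Finset.prod_insert ha, sg_add, ih]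

theorem ws_pair (p : Par) (hep : p.ep = bt (-1 : F)) {X Y : F[X]} (hX : X.Monic) (hY : Y.Monic) :
    js X Y = sg (p.ep * ((ty X).1 * (ty Y).1)) * js Y X := by
  have h1 : (ty X).1 = (X.natDegree : ZMod 2) := rfl
  have h2 : (ty Y).1 = (Y.natDegree : ZMod 2) := rfl
  rw [js_recip hX hY, h1, h2, ← Nat.cast_mul, sg_mul_natCast, hep,
    ch_eq_sg (neg_ne_zero.2 (one_ne_zero : (1 : F) ≠ 0))]

theorem ws_mix (p : Par) (hep : p.ep = bt (-1 : F)) {X Y : F[X]} (hX : X.Monic) (hY : Y.Monic)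
    (hc : IsCoprime Y X) (a b : ZMod 2) :
    js Y X ^ a.val * js X Y ^ b.val =
      (if a + b = 1 then js Y X else 1) * sg (b * (p.ep * ((ty X).1 * (ty Y).1))) := by
  have h01 : ∀ a : ZMod 2, a = 0 ∨ a = 1 := by decide
  have v0 : (0 : ZMod 2).val = 0 := rfl
  have v1 : (1 : ZMod 2).val = 1 := rfl
  have h00 : ¬ ((0 : ZMod 2) + 0 = 1) := by decide
  have h11 : ¬ ((1 : ZMod 2) + 1 = 1) := by decide
  have h10 : (1 : ZMod 2) + 0 = 1 := by decide
  have h01' : (0 : ZMod 2) + 1 = 1 := by decide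
  have hpr := ws_pair p hep hX hY
  have hsq : js Y X * js Y X = 1 := by
    rcases js_cases' hX hc with h | h <;> rw [h] <;> norm_num
  rcases h01 a with rfl | rfl <;> rcases h01 b with rfl | rfl
  · rw [v0, if_neg h00, zero_mul, sg_zero]
    norm_num
  · rw [v0, v1, if_pos h01', one_mul, pow_zero, pow_one, one_mul, hpr, mul_comm]
  · rw [v0, v1, if_pos h10, zero_mul, sg_zero, pow_zero, pow_one]
  · rw [v1, if_neg h11, one_mul, pow_one, pow_one, hpr, one_mul]
    calc js Y X * (sg (p.ep * ((ty X).1 * (ty Y).1)) * js Y X) =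
        sg (p.ep * ((ty X).1 * (ty Y).1)) * (js Y X * js Y X) := by ring
      _ = _ := by rw [hsq, mul_one]

theorem ws_cop {ι : Type*} [Fintype ι] (z : ι → F[X]) (hs : Squarefree (∏ u, z u)) {u w : ι}
    (h : u ≠ w) : IsCoprime (z u) (z w) := by
  classical
  have h1 : z u * z w ∣ ∏ u, z u := by
    rw [← Finset.mul_prod_erase Finset.univ z (Finset.mem_univ u)]
    exact mul_dvd_mul_left _ (Finset.dvd_prod_of_mem z
      (Finset.mem_erase.2 ⟨h.symm, Finset.mem_univ w⟩))
  have h2 := (squarefree_mul_iff.1 (hs.squarefree_of_dvd h1)).1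
  exact isRelPrime_iff_isCoprime.1 h2

theorem ws_nb : Function.Injective nb := by
  intro a b h
  revert a b
  decide

theorem ws_order (f : Ka → Ka → ℝ) (hf : ∀ i, f i i = 1) :
    ∏ i, ∏ j, f i j = ∏ i, ∏ j, if nb i < nb j then f i j * f j i else 1 := by
  have h1 : ∏ i, ∏ j, f i j = (∏ i, ∏ j, if nb i < nb j then f i j else 1) *
      ∏ i, ∏ j, if nb j < nb i then f i j else 1 := by
    rw [← Finset.prod_mul_distrib]
    refine Finset.prod_congr rfl fun i _ => ?_
    rw [← Finset.prod_mul_distrib]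
    refine Finset.prod_congr rfl fun j _ => ?_
    rcases lt_trichotomy (nb i) (nb j) with h | h | h
    · rw [if_pos h, if_neg (by omega), mul_one]
    · have hij := ws_nb h
      subst hij
      rw [if_neg (lt_irrefl _), hf, mul_one]
    · rw [if_neg (by omega), if_pos h, one_mul]
  have h2 : ∏ i, ∏ j, (if nb j < nb i then f i j else 1) =
      ∏ i, ∏ j, if nb i < nb j then f j i else 1 := Finset.prod_comm
  rw [h1, h2, ← Finset.prod_mul_distrib]
  refine Finset.prod_congr rfl fun i _ => ?_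
  rw [← Finset.prod_mul_distrib]
  refine Finset.prod_congr rfl fun j _ => ?_
  by_cases h : nb i < nb j
  · rw [if_pos h, if_pos h, if_pos h]
  · rw [if_neg h, if_neg h, if_neg h, mul_one]

/-- the large variables -/
theorem ws_large (p : Par) (hep : p.ep = bt (-1 : F)) (k : Fin 6) (s : Ka) (x : Ka → F[X])
    (hm : ∀ i, (x i).Monic) (hc : ∀ i j, i ≠ j → IsCoprime (x i) (x j)) :
    ∏ i, ∏ j, js (x j) (x i) ^ (Phi (em k s i) (em k s j)).val =
      sg (recp p k s fun i => ty (x i)) := by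
  rw [ws_order _ (fun i => by rw [Phi_self]; rfl)]
  unfold recp
  rw [ws_sg_sum]
  refine Finset.prod_congr rfl fun i _ => ?_
  rw [ws_sg_sum]
  refine Finset.prod_congr rfl fun j _ => ?_
  by_cases h : nb i < nb j
  · rw [if_pos h, if_pos h, Phi_em k s j i]
    have hij : j ≠ i := by
      rintro rfl
      exact lt_irrefl _ h
    have h2 : ∀ a : ZMod 2, ¬ (a + a = 1) := by decide
    rw [ws_mix p hep (hm i) (hm j) (hc j i hij), if_neg (h2 _), one_mul]
  · rw [if_neg h, if_neg h, sg_zero]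

theorem ws_abs (k : Fin 6) (s : Ka) (y : Wc k s → F[X]) :
    |∏ v, ∏ w, js (y w) (y v) ^ (Phi v.1 w.1).val| ≤ 1 := by
  rw [Finset.abs_prod]
  refine Finset.prod_le_one (fun _ _ => abs_nonneg _) fun v _ => ?_
  rw [Finset.abs_prod]
  refine Finset.prod_le_one (fun _ _ => abs_nonneg _) fun w _ => ?_
  rw [abs_pow]
  exact pow_le_one₀ (abs_nonneg _) (abs_js_le _ _)

/-- the product over all pairs -/
theorem ws_all (p : Par) (hep : p.ep = bt (-1 : F)) (k : Fin 6) (s : Ka) (n : ℕ)
    (y : Wc k s → Mn F n) (x : Ka → Mn F n)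
    (hc : ∀ i j, i ≠ j → IsCoprime (x i).1 (x j).1)
    (hcy : ∀ i w, IsCoprime (y w).1 (x i).1) :
    ∏ u, ∏ w, js (mg k s x y w).1 (mg k s x y u).1 ^ (Phi u w).val =
      (∏ v, ∏ w, js (y w).1 (y v).1 ^ (Phi v.1 w.1).val) *
        (sg (recp p k s (fun i => ty (x i).1) +
          ∑ i, ∑ w : Wc k s, Phi w.1 (em k s i) * (p.ep * ((ty (x i).1).1 * (ty (y w).1).1))) *
          ∏ i, js (hh y i) (x i).1) := by
  have hsplit : ∏ u, ∏ w, js (mg k s x y w).1 (mg k s x y u).1 ^ (Phi u w).val =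
      (∏ i, ∏ j, js (x j).1 (x i).1 ^ (Phi (em k s i) (em k s j)).val) *
      (∏ v : Wc k s, ∏ w : Wc k s, js (y w).1 (y v).1 ^ (Phi v.1 w.1).val) *
      ∏ i, ∏ w : Wc k s, (js (y w).1 (x i).1 ^ (Phi (em k s i) w.1).val *
        js (x i).1 (y w).1 ^ (Phi w.1 (em k s i)).val) := by
    have e1 : ∀ u : Ix, ∏ w, js (mg k s x y w).1 (mg k s x y u).1 ^ (Phi u w).val =
        (∏ j, js (x j).1 (mg k s x y u).1 ^ (Phi u (em k s j)).val) *
          ∏ w : Wc k s, js (y w).1 (mg k s x y u).1 ^ (Phi u w.1).val := by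
      intro u
      rw [prod_ix k s]
      simp only [mg_em, mg_wc]
    rw [Finset.prod_congr rfl fun u _ => e1 u, prod_ix k s]
    simp only [mg_em, mg_wc]
    have e2 : ∏ i, ∏ w : Wc k s, (js (y w).1 (x i).1 ^ (Phi (em k s i) w.1).val *
        js (x i).1 (y w).1 ^ (Phi w.1 (em k s i)).val) =
        (∏ i, ∏ w : Wc k s, js (y w).1 (x i).1 ^ (Phi (em k s i) w.1).val) *
        ∏ v : Wc k s, ∏ j, js (x j).1 (y v).1 ^ (Phi v.1 (em k s j)).val := by
      rw [Finset.prod_comm (f := fun (v : Wc k s) (j : Ka) =>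
        js (x j).1 (y v).1 ^ (Phi v.1 (em k s j)).val), ← Finset.prod_mul_distrib]
      refine Finset.prod_congr rfl fun i _ => ?_
      rw [← Finset.prod_mul_distrib]
    rw [e2, Finset.prod_mul_distrib, Finset.prod_mul_distrib]
    ring
  have hmix : ∏ i, ∏ w : Wc k s, (js (y w).1 (x i).1 ^ (Phi (em k s i) w.1).val *
        js (x i).1 (y w).1 ^ (Phi w.1 (em k s i)).val) =
      (∏ i, js (hh y i) (x i).1) *
        sg (∑ i, ∑ w : Wc k s, Phi w.1 (em k s i) * (p.ep * ((ty (x i).1).1 * (ty (y w).1).1))) := by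
    rw [ws_sg_sum, ← Finset.prod_mul_distrib]
    refine Finset.prod_congr rfl fun i _ => ?_
    rw [ws_sg_sum]
    unfold hh
    rw [js_prod_left _ _ (x i).2.1, ← Finset.prod_mul_distrib]
    refine Finset.prod_congr rfl fun w _ => ?_
    rw [ws_mix p hep (x i).2.1 (y w).2.1 (hcy i w)]
    congr 1
    by_cases h : Lk (em k s i) w.1
    · rw [if_pos h, if_pos (by rw [Phi_add]; exact h)]
    · rw [if_neg h, if_neg (by rw [Phi_add]; exact h), js_one_left (x i).2.1]
  rw [hsplit, hmix, ws_large p hep k s (fun i => (x i).1) (fun i => (x i).2.1) hc, sg_add]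
  ring

open Classical in
theorem ww_split (p : Par) (hep : p.ep = bt (-1 : F)) (k : Fin 6) (s : Ka) (n : ℕ)
    (y : Wc k s → Mn F n) :
    ∃ G : (Ka → Ty) → ℝ, (∀ τ, |G τ| ≤ 1) ∧
      ((∀ w, (y w).1 = 1) → ∀ τ, G τ = G0 p k s τ) ∧
      ∀ x : Ka → Mn F n, WW p n (mg k s x y) =
        if (Squarefree (∏ w, (y w).1) ∧ NZ (∏ w, (y w).1) ∧ (∏ w, (y w).1).natDegree ≤ n) ∧
          ((∏ i, (x i).1) ∈ Sq F (n - (∏ w, (y w).1).natDegree) ∧ NZ (∏ i, (x i).1) ∧
            IsCoprime (∏ i, (x i).1) (∏ w, (y w).1)) then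
          (1 / 4 : ℝ) ^ om (∏ w, (y w).1) * ((1 / 4 : ℝ) ^ om (∏ i, (x i).1) *
            (G (fun i => ty (x i).1) * ∏ i, js (hh y i) (x i).1)) else 0 := by
  obtain ⟨E, hE⟩ : ∃ E : F[X], E = ∏ w, (y w).1 := ⟨_, rfl⟩
  obtain ⟨c1, hc1⟩ : ∃ c1 : ℝ, c1 = ∏ v, ∏ w, js (y w).1 (y v).1 ^ (Phi v.1 w.1).val :=
    ⟨_, rfl⟩
  refine ⟨fun τ => if ∑ i, τ i + ty E = p.t then
    c1 * sg (gexp p (mg k s τ fun w => ty (y w).1) + (recp p k s τ +
      ∑ i, ∑ w : Wc k s, Phi w.1 (em k s i) * (p.ep * ((τ i).1 * (ty (y w).1).1)))) else 0,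
    ?_, ?_, ?_⟩
  · intro τ
    simp only
    split_ifs
    · rw [abs_mul, abs_sg, mul_one, hc1]
      exact ws_abs k s fun w => (y w).1
    · rw [abs_zero]
      exact zero_le_one
  · intro hy τ
    have hE1 : E = 1 := by
      rw [hE]
      exact Finset.prod_eq_one fun w _ => hy w
    have hc11 : c1 = 1 := by
      rw [hc1]
      refine Finset.prod_eq_one fun v _ => Finset.prod_eq_one fun w _ => ?_
      rw [hy v, hy w, js_one_left monic_one, one_pow]
    have e1 : (fun w : Wc k s => ty (y w).1) = fun _ => 0 := by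
      funext w
      rw [hy w, ty_one]
    have e2 : ∑ i, ∑ w : Wc k s, Phi w.1 (em k s i) * (p.ep * ((τ i).1 * (ty (y w).1).1)) = 0 := by
      refine Finset.sum_eq_zero fun i _ => Finset.sum_eq_zero fun w _ => ?_
      rw [hy w, ty_one]
      simp
    simp only
    rw [hE1, hc11, e1, e2, ty_one, add_zero, add_zero, one_mul]
    rfl
  · intro x
    simp only
    rw [← hE]
    obtain ⟨D, hD⟩ : ∃ D : F[X], D = ∏ i, (x i).1 := ⟨_, rfl⟩
    rw [← hD]
    have hprod : ∏ u, (mg k s x y u).1 = D * E := by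
      rw [prod_ix k s, hD, hE]
      simp only [mg_em, mg_wc]
    have hDm : D.Monic := by
      rw [hD]
      exact monic_prod_of_monic _ _ fun i _ => (x i).2.1
    have hEm : E.Monic := by
      rw [hE]
      exact monic_prod_of_monic _ _ fun i _ => (y i).2.1
    have hWW : WW p n (mg k s x y) = if InC p n (D * E) then
        term p (fun u => (mg k s x y u).1) else 0 := by
      unfold WW
      rw [hprod]
    rw [hWW]
    by_cases hcond : (Squarefree E ∧ NZ E ∧ E.natDegree ≤ n) ∧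
          (D ∈ Sq F (n - E.natDegree) ∧ NZ D ∧ IsCoprime D E)
    · rw [if_pos hcond]
      obtain ⟨⟨hEs, hEz, hEn⟩, hDS, hDz, hDE⟩ := hcond
      have hDS' := mem_Sq.1 hDS
      have hsq : Squarefree (D * E) :=
        squarefree_mul_iff.2 ⟨isRelPrime_iff_isCoprime.2 hDE, hDS'.2.2, hEs⟩
      have hmem : D * E ∈ Sq F n := by
        rw [mem_Sq]
        refine ⟨hDm.mul hEm, ?_, hsq⟩
        rw [hDm.natDegree_mul hEm, hDS'.2.1]
        omega
      have hz : NZ (D * E) := NZ_mul.2 ⟨hDz, hEz⟩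
      have htyD : ty D = ∑ i, ty (x i).1 := by
        rw [hD]
        apply ty_prod
        rw [hD] at hDz
        exact (NZ_prod _).1 hDz
      have hty : ty (D * E) = ∑ i, ty (x i).1 + ty E := by
        rw [ty_mul hDz hEz, htyD]
      by_cases ht : ∑ i, ty (x i).1 + ty E = p.t
      · rw [if_pos ht, if_pos (show InC p n (D * E) from ⟨hmem, hz, by rw [hty, ht]⟩)]
        have hcx : ∀ i j, i ≠ j → IsCoprime (x i).1 (x j).1 := by
          intro i j hij
          have h1 := hDS'.2.2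
          rw [hD] at h1
          exact ws_cop (fun i => (x i).1) h1 hij
        have hcy : ∀ i w, IsCoprime (y w).1 (x i).1 := by
          intro i w
          have h1 : (x i).1 ∣ D := by
            rw [hD]
            exact Finset.dvd_prod_of_mem (fun i => (x i).1) (Finset.mem_univ i)
          have h2 : (y w).1 ∣ E := by
            rw [hE]
            exact Finset.dvd_prod_of_mem (fun w => (y w).1) (Finset.mem_univ w)
          exact ((hDE.of_isCoprime_of_dvd_left h1).of_isCoprime_of_dvd_right h2).symm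
        unfold term
        rw [hprod, ws_all p hep k s n y x hcx hcy, ← hc1, om_mul hDm hEm hDE, pow_add]
        have hg : (fun u => ty (mg k s x y u).1) =
            mg k s (fun i => ty (x i).1) fun w => ty (y w).1 :=
          mg_comp k s (fun m : Mn F n => ty m.1) x y
        rw [hg, sg_add (gexp p _)]
        ring
      · rw [if_neg ht, if_neg (fun h : InC p n (D * E) => ht (by rw [← hty]; exact h.2.2))]
        ring
    · rw [if_neg hcond, if_neg]
      rintro ⟨h1, h2, h3⟩
      apply hcond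
      obtain ⟨h4, h5, h6⟩ := mem_Sq.1 h1
      obtain ⟨h7, h8, h9⟩ := squarefree_mul_iff.1 h6
      obtain ⟨h10, h11⟩ := NZ_mul.1 h2
      rw [hDm.natDegree_mul hEm] at h5
      exact ⟨⟨h9, h11, by omega⟩, mem_Sq.2 ⟨hDm, by omega, h8⟩, h10,
        isRelPrime_iff_isCoprime.1 h7⟩

end Pool.Agent.H94.PC
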